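import Pool.Agent.H493.SZ.Def3

set_option autoImplicit false

/-! Project SZ (helper493), AEC: almost everywhere continuous functions between continuous functions
(Lipschitz envelopes).  Written by helper800. -/

open Filter Topology Set MeasureTheory

namespace Pool.Agent.H493.SZ

namespace AECL

variable {E : Type*} [MetricSpace E]

/-- the lower Lipschitz envelope -/
noncomputable def lo (f : E → ℝ) (m : ℕ) (x : E) : ℝ := ⨅ y : E, (f y + (m : ℝ) * dist x y)

theorem bdd {f : E → ℝ} {R : ℝ} (hf : ∀ x, |f x| ≤ R) (m : ℕ) (x : E) :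
    BddBelow (range fun y : E => f y + (m : ℝ) * dist x y) := by
  refine ⟨-R, ?_⟩
  rintro _ ⟨y, rfl⟩
  have h1 := (abs_le.mp (hf y)).1
  have h2 : 0 ≤ (m : ℝ) * dist x y := by positivity
  show -R ≤ f y + (m : ℝ) * dist x y
  linarith

theorem lo_le {f : E → ℝ} {R : ℝ} (hf : ∀ x, |f x| ≤ R) (m : ℕ) (x y : E) :
    lo f m x ≤ f y + (m : ℝ) * dist x y := ciInf_le (bdd hf m x) y

theorem lo_le_self {f : E → ℝ} {R : ℝ} (hf : ∀ x, |f x| ≤ R) (m : ℕ) (x : E) :
    lo f m x ≤ f x := by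
  have h := lo_le hf m x x
  simpa using h

theorem le_lo {f : E → ℝ} {R : ℝ} (hf : ∀ x, |f x| ≤ R) (m : ℕ) (x : E) :
    -R ≤ lo f m x := by
  have : Nonempty E := ⟨x⟩
  refine le_ciInf fun y => ?_
  have h1 := (abs_le.mp (hf y)).1
  have h2 : 0 ≤ (m : ℝ) * dist x y := by positivity
  linarith

theorem lo_lip {f : E → ℝ} {R : ℝ} (hf : ∀ x, |f x| ≤ R) (m : ℕ) (x x' : E) :
    lo f m x ≤ lo f m x' + (m : ℝ) * dist x x' := by
  have : Nonempty E := ⟨x⟩
  have h : lo f m x - (m : ℝ) * dist x x' ≤ lo f m x' := by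
    refine le_ciInf fun y => ?_
    have h1 := lo_le hf m x y
    have h2 : (m : ℝ) * dist x y ≤ (m : ℝ) * (dist x x' + dist x' y) :=
      mul_le_mul_of_nonneg_left (dist_triangle x x' y) (Nat.cast_nonneg m)
    rw [mul_add] at h2
    linarith
  linarith

theorem lo_cont {f : E → ℝ} {R : ℝ} (hf : ∀ x, |f x| ≤ R) (m : ℕ) : Continuous (lo f m) := by
  have h : LipschitzWith (m : NNReal) (lo f m) := by
    refine LipschitzWith.of_le_add_mul _ fun x y => ?_
    have := lo_lip hf m x y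
    simpa using this
  exact h.continuous

theorem lo_tendsto {f : E → ℝ} {R : ℝ} (hf : ∀ x, |f x| ≤ R) (x : E) (hx : ContinuousAt f x) :
    Tendsto (fun m : ℕ => lo f m x) atTop (𝓝 (f x)) := by
  have : Nonempty E := ⟨x⟩
  rw [Metric.tendsto_atTop]
  intro δ hδ
  obtain ⟨r, hr, hr2⟩ := Metric.continuousAt_iff.mp hx (δ / 2) (by linarith)
  obtain ⟨N, hN⟩ := exists_nat_ge (2 * R / r)
  refine ⟨N, fun m hm => ?_⟩
  have hm1 : 2 * R / r ≤ (m : ℝ) := hN.trans (by exact_mod_cast hm)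
  have hm2 : 2 * R ≤ (m : ℝ) * r := (div_le_iff₀ hr).mp hm1
  have hup := lo_le_self hf m x
  have hlow : f x - δ / 2 ≤ lo f m x := by
    refine le_ciInf fun y => ?_
    by_cases hy : dist y x < r
    · have h1 := hr2 hy
      rw [Real.dist_eq] at h1
      have h2 := (abs_lt.mp h1).1
      have h3 : 0 ≤ (m : ℝ) * dist x y := by positivity
      linarith
    · have hy' : r ≤ dist x y := by
        rw [dist_comm]
        exact not_lt.mp hy
      have h1 := (abs_le.mp (hf y)).1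
      have h2 := (abs_le.mp (hf x)).2
      have h3 : (m : ℝ) * r ≤ (m : ℝ) * dist x y :=
        mul_le_mul_of_nonneg_left hy' (Nat.cast_nonneg m)
      linarith
  rw [Real.dist_eq, abs_lt]
  constructor <;> linarith

end AECL

open AECL in
theorem t_AEC : S_AEC := by
  intro n μ hμ H ψ hHc hHi hψm hψH hψc ε R₀ hε
  -- the choice of `R`
  have hR1 : (1 : ℝ) ≤ max R₀ 1 := le_max_right _ _
  have hT1 : Tendsto (fun m : ℕ => ∫ x, max (H x - (max R₀ 1 + m)) 0 ∂μ) atTop
      (𝓝 (∫ _x : EuclideanSpace ℝ (Fin n), (0 : ℝ) ∂μ)) := by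
    refine tendsto_integral_of_dominated_convergence (fun x => |H x|) ?_ hHi.abs ?_ ?_
    · intro m
      exact ((hHc.sub continuous_const).max continuous_const).aestronglyMeasurable
    · intro m
      refine Eventually.of_forall fun x => ?_
      have hm : (0 : ℝ) ≤ m := Nat.cast_nonneg m
      rw [Real.norm_eq_abs, abs_of_nonneg (le_max_right _ _)]
      refine max_le ?_ (abs_nonneg _)
      have := le_abs_self (H x)
      linarith
    · refine Eventually.of_forall fun x => ?_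
      refine tendsto_const_nhds.congr' ?_
      obtain ⟨N, hN⟩ := exists_nat_ge (H x)
      filter_upwards [eventually_ge_atTop N] with m hm
      have hm' : (N : ℝ) ≤ m := by exact_mod_cast hm
      rw [max_eq_right]
      linarith
  rw [integral_zero] at hT1
  obtain ⟨m₀, hm₀⟩ := (hT1.eventually (gt_mem_nhds hε)).exists
  set R : ℝ := max R₀ 1 + m₀ with hRdef
  have hm0' : (0 : ℝ) ≤ m₀ := Nat.cast_nonneg m₀
  have hRR : R₀ ≤ R := by
    have := le_max_left R₀ 1
    linarith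
  have hR : 1 ≤ R := by linarith
  -- truncation
  let ψ₀ : EuclideanSpace ℝ (Fin n) → ℝ := fun x => max (-R) (min R (ψ x))
  have hψ₀ : ∀ x, |ψ₀ x| ≤ R := by
    intro x
    rw [abs_le]
    refine ⟨le_max_left _ _, max_le (by linarith) (min_le_left _ _)⟩
  have hψ₀' : ∀ x, |-(ψ₀ x)| ≤ R := fun x => by rw [abs_neg]; exact hψ₀ x
  have hψ₀c : ∀ x, ContinuousAt ψ x → ContinuousAt ψ₀ x := by
    intro x hx
    exact continuousAt_const.max (continuousAt_const.min hx)
  have hdist : ∀ x, |ψ x - ψ₀ x| ≤ max (H x - R) 0 := by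
    intro x
    have h1 := abs_le.mp (hψH x)
    show |ψ x - max (-R) (min R (ψ x))| ≤ max (H x - R) 0
    rcases le_total R (ψ x) with h2 | h2
    · rw [min_eq_left h2, max_eq_right (by linarith : -R ≤ R)]
      rw [abs_of_nonneg (by linarith)]
      exact le_max_of_le_left (by linarith)
    · rw [min_eq_right h2]
      rcases le_total (-R) (ψ x) with h3 | h3
      · rw [max_eq_right h3, sub_self, abs_zero]
        exact le_max_right _ _
      · rw [max_eq_left h3, abs_of_nonpos (by linarith)]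
        exact le_max_of_le_left (by linarith)
  -- the envelopes
  have hT2 : Tendsto (fun m : ℕ => ∫ x, (-(lo (fun y => -(ψ₀ y)) m x) - lo ψ₀ m x) ∂μ) atTop
      (𝓝 (∫ _x : EuclideanSpace ℝ (Fin n), (0 : ℝ) ∂μ)) := by
    refine tendsto_integral_of_dominated_convergence (fun _ => 2 * R) ?_ (integrable_const _) ?_ ?_
    · intro m
      exact ((lo_cont hψ₀' m).neg.sub (lo_cont hψ₀ m)).aestronglyMeasurable
    · intro m
      refine Eventually.of_forall fun x => ?_
      have h1 := le_lo hψ₀ m x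
      have h2 := le_lo hψ₀' m x
      have h3 := lo_le_self hψ₀ m x
      have h4 := lo_le_self hψ₀' m x
      rw [Real.norm_eq_abs, abs_le]
      constructor <;> linarith
    · have h1 : ∀ᵐ x ∂μ, ContinuousAt ψ x := by
        rw [ae_iff]
        exact hψc
      filter_upwards [h1] with x hx
      have hx0 := hψ₀c x hx
      have h2 := lo_tendsto hψ₀ x hx0
      have h3 := lo_tendsto hψ₀' x hx0.neg
      have h4 := h3.neg.sub h2
      simpa using h4
  rw [integral_zero] at hT2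
  obtain ⟨m₁, hm₁⟩ := (hT2.eventually (gt_mem_nhds hε)).exists
  refine ⟨R, hRR, hR, lo ψ₀ m₁, fun x => -(lo (fun y => -(ψ₀ y)) m₁ x) - lo ψ₀ m₁ x,
    lo_cont hψ₀ m₁, (lo_cont hψ₀' m₁).neg.sub (lo_cont hψ₀ m₁), ?_, ?_, ?_, hm₁.le, hm₀.le⟩
  · intro x
    rw [abs_le]
    have h1 := le_lo hψ₀ m₁ x
    have h3 := lo_le_self hψ₀ m₁ x
    have h5 := (abs_le.mp (hψ₀ x)).2
    exact ⟨h1, h3.trans h5⟩
  · intro x
    have h1 := le_lo hψ₀ m₁ x
    have h2 := le_lo hψ₀' m₁ x
    have h3 := lo_le_self hψ₀ m₁ x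
    have h4 := lo_le_self hψ₀' m₁ x
    constructor
    · show 0 ≤ -(lo (fun y => -(ψ₀ y)) m₁ x) - lo ψ₀ m₁ x
      linarith
    · show -(lo (fun y => -(ψ₀ y)) m₁ x) - lo ψ₀ m₁ x ≤ 2 * R
      linarith
  · intro x
    have h3 := lo_le_self hψ₀ m₁ x
    have h4 := lo_le_self hψ₀' m₁ x
    have h5 := hdist x
    have h6 : |ψ x - lo ψ₀ m₁ x| ≤ |ψ x - ψ₀ x| + |ψ₀ x - lo ψ₀ m₁ x| := abs_sub_le _ _ _
    have h7 : |ψ₀ x - lo ψ₀ m₁ x| = ψ₀ x - lo ψ₀ m₁ x := abs_of_nonneg (by linarith)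
    show |ψ x - lo ψ₀ m₁ x| ≤ (-(lo (fun y => -(ψ₀ y)) m₁ x) - lo ψ₀ m₁ x) + max (H x - R) 0
    linarith

end Pool.Agent.H493.SZ
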