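import Pool.Agent.H493.EN.AE
import Pool.Agent.H493.EN.OFF

set_option autoImplicit false

/-! The entropy principle for an abstract field, uniformly in a general range of scales. -/

open Complex Filter Topology Set MeasureTheory ProbabilityTheory
open scoped BoundedContinuousFunction RealInnerProductSpace NNReal

namespace Pool.Agent.H493.SZ

open Pool.Agent.H493.EN

/-- a range of scales: `R K T s` means that `s` is in the range with the constant `K` at the height `T` -/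
structure Rng (R : ℝ → ℝ → ℝ → Prop) : Prop where
  mono : ∀ K K' T s : ℝ, 1 ≤ K → K ≤ K' → 3 ≤ T → R K' T s → R K T s
  small : ∀ c : ℝ, 0 < c → ∃ K : ℝ, 1 ≤ K ∧ ∀ T s : ℝ, K ≤ T → R K T s → 0 < s ∧ s ≤ c * T
  ne : ∃ h : ℝ → ℝ, ∀ K : ℝ, 1 ≤ K → ∀ᶠ T : ℝ in atTop, R K T (h T)

/-- the scales `h(T)` which are in the range for every constant -/
def Adm (R : ℝ → ℝ → ℝ → Prop) (h : ℝ → ℝ) : Prop := ∀ K : ℝ, 1 ≤ K → ∀ᶠ T : ℝ in atTop, R K T (h T)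

/-- from all admissible scales to uniformity in the scale -/
theorem unifR {R : ℝ → ℝ → ℝ → Prop} (hR : Rng R) {P : ℝ → ℝ → Prop}
    (H : ∀ h : ℝ → ℝ, Adm R h → ∀ᶠ T in atTop, P T (h T)) :
    ∃ K : ℝ, 1 ≤ K ∧ ∀ T : ℝ, K ≤ T → ∀ s : ℝ, R K T s → P T s := by
  by_contra hn
  push Not at hn
  have h1 : ∀ n : ℕ, ∃ p : ℝ × ℝ, (n : ℝ) + 3 ≤ p.1 ∧ R (n + 3) p.1 p.2 ∧ ¬ P p.1 p.2 := by
    intro n
    obtain ⟨T, hT, s, hs, hP⟩ := hn (n + 3) (by have := Nat.cast_nonneg (α := ℝ) n; linarith)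
    exact ⟨(T, s), hT, hs, hP⟩
  choose ns hns1 hns2 hns3 using h1
  have t1 : Tendsto (fun n => (ns n).1) atTop atTop := by
    refine tendsto_atTop_mono (fun n => ?_) tendsto_natCast_atTop_atTop
    have := hns1 n
    linarith
  obtain ⟨φ, hφ, hφ2⟩ := strictMono_subseq_of_tendsto_atTop t1
  obtain ⟨h₀, hh₀⟩ := hR.ne
  classical
  set h : ℝ → ℝ := fun T => if hT : ∃ n, (ns (φ n)).1 = T then (ns (φ hT.choose)).2 else h₀ T with hh
  have hval : ∀ n, h (ns (φ n)).1 = (ns (φ n)).2 := by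
    intro n
    have hT : ∃ m, (ns (φ m)).1 = (ns (φ n)).1 := ⟨n, rfl⟩
    rw [hh]
    simp only
    rw [dif_pos hT]
    have h1 := hT.choose_spec
    have h2 : hT.choose = n := hφ2.injective h1
    rw [h2]
  have hA : Adm R h := by
    intro K hK
    obtain ⟨n₀, hn₀⟩ := exists_nat_ge K
    filter_upwards [hh₀ K hK, eventually_gt_atTop (ns (φ n₀)).1, eventually_ge_atTop (3 : ℝ)] with T h3 h4 h6
    by_cases hT : ∃ n, (ns (φ n)).1 = T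
    · obtain ⟨n, rfl⟩ := hT
      rw [hval]
      have h5 : n₀ ≤ n := by
        by_contra h5
        push Not at h5
        have := hφ2 h5
        simp only [Function.comp] at this
        linarith
      have h7 : n ≤ φ n := hφ.id_le n
      have h8 : (n₀ : ℝ) ≤ (φ n : ℝ) := by exact_mod_cast h5.trans h7
      exact hR.mono K _ _ _ hK (by linarith) h6 (hns2 (φ n))
    · rw [hh]
      simp only
      rw [dif_neg hT]
      exact h3
  obtain ⟨T₀, hT₀⟩ := eventually_atTop.1 (H h hA)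
  have t2 : Tendsto (fun n => (ns (φ n)).1) atTop atTop := t1.comp hφ.tendsto_atTop
  obtain ⟨n, hn⟩ := (t2.eventually (eventually_ge_atTop T₀)).exists
  have h5 := hT₀ _ hn
  rw [hval] at h5
  exact hns3 _ h5

section

variable {k : ℕ} {Λ : ℝ} {S₁ : Matrix (Fin k) (Fin k) ℝ} {S : ∀ M : ℕ, Matrix (Fin (k * M)) (Fin (k * M)) ℝ}
  {X : ℝ → ℝ → ℝ → EuclideanSpace ℝ (Fin k)} {Ra : ℝ → ℝ → ℝ → Prop}

/-- the field is asymptotically Gaussian along all admissible scales -/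
def FamR (R : ℝ → ℝ → ℝ → Prop) (k : ℕ) (S₁ : Matrix (Fin k) (Fin k) ℝ)
    (S : ∀ M : ℕ, Matrix (Fin (k * M)) (Fin (k * M)) ℝ) (X : ℝ → ℝ → ℝ → EuclideanSpace ℝ (Fin k)) : Prop :=
  ∀ h : ℝ → ℝ, Adm R h → Obs k S₁ S X h

/-- exponential inequality -/
theorem expoR (hG : Gs k Λ S₁ S) (hRa : Rng Ra) (hX : FamR Ra k S₁ S X) {M : ℕ} (hM : 1 ≤ M)
    {ψ : EuclideanSpace ℝ (Fin k) → ℝ} {L : ℝ≥0} (hL : 0 < L) (hψ : LipschitzWith L ψ) {ε : ℝ} (hε : 0 < ε) :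
    ∃ K : ℝ, 1 ≤ K ∧ ∀ T : ℝ, K ≤ T → ∀ s : ℝ, Ra K T s →
      ∀ P : Finset (ℕ → ℂ), (∀ p ∈ P, ∀ m, ‖p m‖ ≤ 1) → volume {t | t ∈ Icc T (2 * T) ∧ ∃ p ∈ P,
        ε * M ≤ ‖∑ m ∈ Finset.range M, p m * ((Yg X S₁ ψ s T (t + m * s) : ℝ) : ℂ)‖} ≤
      ENNReal.ofReal (5 * P.card * Real.exp (-(ε ^ 2 * M / (32 * Real.pi ^ 2 * L ^ 2 * Λ))) * T) := by
  obtain ⟨K, hK, h1⟩ := unifR hRa (P := fun T s => 0 < T ∧ ∀ p : ℕ → ℂ, (∀ m, ‖p m‖ ≤ 1) →
    volume {t | t ∈ Icc T (2 * T) ∧ ε * M ≤ ‖∑ m ∈ Finset.range M, p m * ((Yg X S₁ ψ s T (t + m * s) : ℝ) : ℂ)‖} ≤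
      ENNReal.ofReal (5 * Real.exp (-(ε ^ 2 * M / (32 * Real.pi ^ 2 * L ^ 2 * Λ))) * T))
    fun h h0 => (eventually_gt_atTop 0).and ((hX h h0).expo hG hM hL hψ hε)
  refine ⟨K, hK, fun T hT s hs1 P hP => ?_⟩
  obtain ⟨hT0, h2⟩ := h1 T hT s hs1
  have h3 : {t | t ∈ Icc T (2 * T) ∧ ∃ p ∈ P,
        ε * M ≤ ‖∑ m ∈ Finset.range M, p m * ((Yg X S₁ ψ s T (t + m * s) : ℝ) : ℂ)‖} =
      ⋃ p ∈ P, {t | t ∈ Icc T (2 * T) ∧
        ε * M ≤ ‖∑ m ∈ Finset.range M, p m * ((Yg X S₁ ψ s T (t + m * s) : ℝ) : ℂ)‖} := by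
    ext t
    simp only [mem_iUnion]
    constructor
    · rintro ⟨ht, p, hp, hq⟩
      exact ⟨p, hp, ht, hq⟩
    · rintro ⟨p, hp, ht, hq⟩
      exact ⟨ht, p, hp, hq⟩
  rw [h3]
  refine (measure_biUnion_finset_le P _).trans ((Finset.sum_le_sum fun p hp => h2 p (hP p hp)).trans ?_)
  rw [Finset.sum_const, nsmul_eq_mul]
  have : ((P.card : ℕ) : ENNReal) = ENNReal.ofReal (P.card : ℝ) := by rw [ENNReal.ofReal_natCast]
  rw [this, ← ENNReal.ofReal_mul (Nat.cast_nonneg _)]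
  apply ENNReal.ofReal_le_ofReal
  rw [← mul_assoc, ← mul_assoc]
  rw [mul_comm (P.card : ℝ) 5]

/-- entropy bound -/
theorem entR (hG : Gs k Λ S₁ S) (hRa : Rng Ra) (hX : FamR Ra k S₁ S X)
    {ψ : EuclideanSpace ℝ (Fin k) → ℝ} {L : ℝ≥0} (hL : 0 < L) (hψ : LipschitzWith L ψ) {κ ε : ℝ} (hκ : 0 ≤ κ)
    (hε : 0 < ε) : ∃ (δ : ℝ) (M₀ : ℕ), 0 < δ ∧ ∀ M : ℕ, M₀ ≤ M → ∃ K : ℝ, 1 ≤ K ∧ ∀ T : ℝ, K ≤ T →
      ∀ s : ℝ, Ra K T s → ∀ θ : ℝ → ℂ, Measurable θ →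
      (∀ t, ‖θ t‖ ≤ 1) → Follows T s M κ δ θ →
      ‖∫ t in T..(2 * T), θ t * (Yg X S₁ ψ s T t : ℂ)‖ ≤
        (L * Real.sqrt (32 * Real.pi ^ 2 * Λ * κ) + ε) * T := by
  obtain ⟨δ, M₀, hδ, h1⟩ := hG.ent hL hψ hκ hε
  exact ⟨δ, M₀, hδ, fun M hM => unifR hRa (P := fun T s => ∀ θ : ℝ → ℂ, Measurable θ →
      (∀ t, ‖θ t‖ ≤ 1) → Follows T s M κ δ θ → ‖∫ t in T..(2 * T), θ t * (Yg X S₁ ψ s T t : ℂ)‖ ≤
        (L * Real.sqrt (32 * Real.pi ^ 2 * Λ * κ) + ε) * T) fun h h0 => h1 M hM X h (hX h h0)⟩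

/-- zero entropy -/
theorem zeroR (hG : Gs k Λ S₁ S) (hRa : Rng Ra) (hX : FamR Ra k S₁ S X)
    {ψ : EuclideanSpace ℝ (Fin k) → ℝ} {C : ℝ} (hψ : Continuous ψ) (hC : ∀ x, |ψ x| ≤ C * (1 + ‖x‖ ^ 2)) {ε : ℝ}
    (hε : 0 < ε) : ∃ (κ δ : ℝ) (M₀ : ℕ), 0 < κ ∧ 0 < δ ∧ ∀ M : ℕ, M₀ ≤ M → ∃ K : ℝ, 1 ≤ K ∧ ∀ T : ℝ, K ≤ T →
      ∀ s : ℝ, Ra K T s → ∀ θ : ℝ → ℂ,
      Measurable θ → (∀ t, ‖θ t‖ ≤ 1) → Follows T s M κ δ θ →
      ‖∫ t in T..(2 * T), θ t * (Yg X S₁ ψ s T t : ℂ)‖ ≤ ε * T := by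
  obtain ⟨κ, δ, M₀, hκ, hδ, h1⟩ := hG.zeroEnt hψ hC hε
  exact ⟨κ, δ, M₀, hκ, hδ, fun M hM => unifR hRa (P := fun T s => ∀ θ : ℝ → ℂ, Measurable θ →
      (∀ t, ‖θ t‖ ≤ 1) → Follows T s M κ δ θ → ‖∫ t in T..(2 * T), θ t * (Yg X S₁ ψ s T t : ℂ)‖ ≤ ε * T)
      fun h h0 => h1 M hM X h (hX h h0)⟩

/-- slowly varying functions -/
theorem slowR (hG : Gs k Λ S₁ S) (hRa : Rng Ra) (hX : FamR Ra k S₁ S X)
    {ψ : EuclideanSpace ℝ (Fin k) → ℝ} {C : ℝ} (hψ : Continuous ψ) (hC : ∀ x, |ψ x| ≤ C * (1 + ‖x‖ ^ 2)) {ε : ℝ}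
    (hε : 0 < ε) : ∃ K : ℝ, 1 ≤ K ∧ ∀ T : ℝ, K ≤ T → ∀ s : ℝ, Ra K T s → ∀ θ : ℝ → ℂ,
      Measurable θ → (∀ t, ‖θ t‖ ≤ 1) → ∫ t in T..(2 * T), ‖θ (t + s) - θ t‖ ≤ T / K →
      ‖∫ t in T..(2 * T), θ t * (Yg X S₁ ψ s T t : ℂ)‖ ≤ ε * T := by
  obtain ⟨κ, δ, M₀, hκ, hδ, h1⟩ := zeroR hG hRa hX hψ hC hε
  obtain ⟨M₁, h2⟩ := t_SLOW κ δ hκ hδ
  set M := max M₀ M₁ with hM
  obtain ⟨K, hK, h3⟩ := h1 M (le_max_left _ _)
  obtain ⟨δ', hδ', h4⟩ := h2 M (le_max_right _ _)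
  have hMp : (0 : ℝ) ≤ M := Nat.cast_nonneg _
  obtain ⟨K₂, hK₂, h5⟩ := hRa.small (δ / (2 * (M + 1))) (by positivity)
  set K' : ℝ := max (max K (1 / δ')) (max K₂ 3) with hK'
  have k1 : K ≤ K' := (le_max_left _ _).trans (le_max_left _ _)
  have k2 : 1 / δ' ≤ K' := (le_max_right _ _).trans (le_max_left _ _)
  have k3 : K₂ ≤ K' := (le_max_left _ _).trans (le_max_right _ _)
  have k4 : 3 ≤ K' := (le_max_right _ _).trans (le_max_right _ _)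
  have hK'0 : 0 < K' := by linarith
  refine ⟨K', hK.trans k1, fun T hT s hs1 θ hθ hθ1 hθs => ?_⟩
  have hT3 : 3 ≤ T := k4.trans hT
  obtain ⟨hs0, hsT⟩ := h5 T s (k3.trans hT) (hRa.mono _ _ _ _ hK₂ k3 hT3 hs1)
  refine h3 T (k1.trans hT) s (hRa.mono _ _ _ _ hK k1 hT3 hs1) θ hθ hθ1
    (h4 T s θ (by linarith) hs0.le ?_ hθ hθ1 (hθs.trans ?_))
  · calc (M : ℝ) * s ≤ M * (δ / (2 * (M + 1)) * T) := mul_le_mul_of_nonneg_left hsT hMp
      _ = (M / (M + 1)) * (δ / 2 * T) := by field_simp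
      _ ≤ 1 * (δ / 2 * T) := by
          refine mul_le_mul_of_nonneg_right ?_ (by positivity)
          rw [div_le_one (by positivity)]
          linarith
      _ = δ / 2 * T := one_mul _
  · rw [div_le_iff₀ hK'0]
    have h6 : 1 ≤ K' * δ' := by rwa [div_le_iff₀ hδ'] at k2
    have : 0 ≤ T * (K' * δ' - 1) := by
      have : 0 ≤ K' * δ' - 1 := by linarith
      positivity
    nlinarith

/-- integrability along the family -/
lemma intR (hRa : Rng Ra) (hX : FamR Ra k S₁ S X) {ψ : EuclideanSpace ℝ (Fin k) → ℝ} {C : ℝ} (hψ : Continuous ψ)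
    (hC : ∀ x, |ψ x| ≤ C * (1 + ‖x‖ ^ 2)) : ∃ K : ℝ, 1 ≤ K ∧ ∀ T : ℝ, K ≤ T → ∀ s : ℝ, Ra K T s →
      IntervalIntegrable (Yg X S₁ ψ s T) volume T (2 * T) := by
  refine unifR hRa (P := fun T s => IntervalIntegrable (Yg X S₁ ψ s T) volume T (2 * T)) fun h h0 => ?_
  have hO := hX h h0
  filter_upwards [hO.meas, hO.int2, eventually_gt_atTop (0 : ℝ)] with T h2 h3 h4
  exact quad_int (by linarith) (by simpa using h2 0) (by simpa using h3 0) hψ hC _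

/-- **systems of zero entropy**, with a new point on every window -/
theorem momoR (hG : Gs k Λ S₁ S) (hRa : Rng Ra) (hX : FamR Ra k S₁ S X)
    {ψ : EuclideanSpace ℝ (Fin k) → ℝ} {C : ℝ} (hψ : Continuous ψ) (hC : ∀ x, |ψ x| ≤ C * (1 + ‖x‖ ^ 2))
    {Y : Type} [MetricSpace Y] [CompactSpace Y] {Q : Y → Y} (hQ : ZeroEntropy Q) {F : Y → ℂ} (hF : Continuous F)
    {ε : ℝ} (hε : 0 < ε) : ∃ K : ℝ, 1 ≤ K ∧ ∀ T : ℝ, K ≤ T → ∀ s : ℝ, Ra K T s →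
      ∀ (N : ℕ) (a : ℕ → ℝ) (y : ℕ → Y), K * (N * s) ≤ T → T ≤ a 0 → a N ≤ 2 * T → (∀ n < N, a n ≤ a (n + 1)) →
      ∑ n ∈ Finset.range N, ‖∫ t in (a n)..(a (n + 1)), F (Q^[⌊t / s⌋₊] (y n)) * (Yg X S₁ ψ s T t : ℂ)‖ ≤ ε * T := by
  obtain ⟨R, hR0, hR⟩ := norm_F hF
  set F' : Y → ℂ := fun y => F y / R with hF'
  have hF'c : Continuous F' := hF.div_const _
  have hF'1 : ∀ y, ‖F' y‖ ≤ 1 := by
    intro y
    rw [hF']
    simp only
    rw [norm_div, Complex.norm_real, Real.norm_eq_abs, abs_of_pos hR0, div_le_one hR0]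
    exact hR y
  obtain ⟨κ, δ, M₀, hκ, hδ, h1⟩ := zeroR hG hRa hX hψ hC (ε := ε / R) (by positivity)
  obtain ⟨M₁, h2⟩ := orb hQ hF'c hF'1 hκ hδ
  set M := max M₀ M₁ with hM
  obtain ⟨K, hK, h3⟩ := h1 M (le_max_left _ _)
  obtain ⟨K₁, hK₁, h4⟩ := intR hRa hX hψ hC
  have hMp : (0 : ℝ) ≤ M := Nat.cast_nonneg _
  obtain ⟨K₂, hK₂, h5⟩ := hRa.small (δ / (2 * (M + 1))) (by positivity)
  set K' : ℝ := max (max (max K K₁) (2 * M / δ)) (max K₂ 3) with hK'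
  have k1 : K ≤ K' := (le_max_left _ _).trans ((le_max_left _ _).trans (le_max_left _ _))
  have k2 : K₁ ≤ K' := (le_max_right _ _).trans ((le_max_left _ _).trans (le_max_left _ _))
  have k3 : 2 * M / δ ≤ K' := (le_max_right _ _).trans (le_max_left _ _)
  have k4 : K₂ ≤ K' := (le_max_left _ _).trans (le_max_right _ _)
  have k5 : 3 ≤ K' := (le_max_right _ _).trans (le_max_right _ _)
  have hK'0 : 0 < K' := by linarith
  refine ⟨K', hK.trans k1, fun T hT s hs1 N a y hN ha0 haN ha => ?_⟩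
  have hT3 : 3 ≤ T := k5.trans hT
  have hT0 : 0 < T := by linarith
  obtain ⟨hs0, hsT⟩ := h5 T s (k4.trans hT) (hRa.mono _ _ _ _ hK₂ k4 hT3 hs1)
  have hi := h4 T (k2.trans hT) s (hRa.mono _ _ _ _ hK₁ k2 hT3 hs1)
  have h6 : 2 * M ≤ K' * δ := by rwa [div_le_iff₀ hδ] at k3
  have hMs : 2 * (M * s) ≤ δ * T := by
    calc 2 * ((M : ℝ) * s) ≤ 2 * (M * (δ / (2 * (M + 1)) * T)) := by gcongr
      _ = (M / (M + 1)) * (δ * T) := by field_simp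
      _ ≤ 1 * (δ * T) := by
          refine mul_le_mul_of_nonneg_right ?_ (by positivity)
          rw [div_le_one (by positivity)]
          linarith
      _ = δ * T := one_mul _
  have hNs : 2 * (N * (M * s)) ≤ δ * T := by
    calc 2 * (N * (M * s)) = (2 * M) * (N * s) := by ring
      _ ≤ (K' * δ) * (N * s) := mul_le_mul_of_nonneg_right h6 (by positivity)
      _ = δ * (K' * (N * s)) := by ring
      _ ≤ δ * T := mul_le_mul_of_nonneg_left hN hδ.le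
  have hD : ((N : ℝ) + 1) * M * s ≤ δ * T := by nlinarith
  have main : ∑ n ∈ Finset.range N, ‖∫ t in (a n)..(a (n + 1)), F' (Q^[⌊t / s⌋₊] (y n)) *
      (Yg X S₁ ψ s T t : ℂ)‖ ≤ ε / R * T := by
    refine win_le Q hF'1 hT0 y ha0 haN ha hi fun u hu => ?_
    refine h3 T (k1.trans hT) s (hRa.mono _ _ _ _ hK k1 hT3 hs1) _
      (wgt_meas Q F' s N a y u) (wgt_bd Q hF'1 s ha y hu) ?_
    refine h2 M (le_max_right _ _) T s _ (⋃ n ∈ Finset.range (N + 1), Icc (a n - M * s) (a n))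
      (CORDL.vol_le N M s a hs0 hD) fun t ht htE => ?_
    have hnotin : ∀ n ≤ N, ¬ (a n - M * s ≤ t ∧ t ≤ a n) := by
      intro n hn h1
      apply htE
      exact mem_biUnion (show n ∈ (Finset.range (N + 1) : Set ℕ) by
        rw [Finset.mem_coe, Finset.mem_range]; omega) h1
    have hmh : ∀ m : ℕ, m < M → 0 ≤ (m : ℝ) * s ∧ (m : ℝ) * s ≤ M * s := by
      intro m hm
      have : (m : ℝ) ≤ M := by exact_mod_cast hm.le
      exact ⟨by positivity, mul_le_mul_of_nonneg_right this hs0.le⟩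
    rcases le_or_gt (a N) t with h7 | h7
    · left
      intro m hm
      refine wgt_out _ _ _ _ _ fun n hn h8 => ?_
      have := a_mono ha (n + 1) N hn le_rfl
      linarith [h8.2, (hmh m hm).1]
    rcases lt_or_ge t (a 0) with h8 | h8
    · left
      intro m hm
      refine wgt_out _ _ _ _ _ fun n hn h9 => ?_
      have h10 : t < a 0 - M * s := by
        by_contra hcon
        exact hnotin 0 (Nat.zero_le _) ⟨not_lt.1 hcon, h8.le⟩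
      have := a_mono ha 0 n (Nat.zero_le _) hn.le
      linarith [h9.1, (hmh m hm).2]
    right
    obtain ⟨n, hn, h9, h10⟩ := CORDL.window N a h8 h7
    have h11 : t < a (n + 1) - M * s := by
      by_contra hcon
      exact hnotin (n + 1) hn ⟨not_lt.1 hcon, h10.le⟩
    have ht0 : 0 ≤ t / s := div_nonneg (by linarith [ht.1]) hs0.le
    refine ⟨u n, Q^[⌊t / s⌋₊] (y n), hu n, fun m hm => ?_⟩
    rw [wgt_mem Q F' s ha y u hn ⟨by linarith [(hmh m hm).1], by linarith [(hmh m hm).2]⟩]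
    have h12 : (t + m * s) / s = t / s + (m : ℝ) := by field_simp
    rw [h12, Nat.floor_add_natCast ht0, add_comm, Function.iterate_add_apply]
  have hJF : ∀ n, ‖∫ t in (a n)..(a (n + 1)), F (Q^[⌊t / s⌋₊] (y n)) * (Yg X S₁ ψ s T t : ℂ)‖ =
      R * ‖∫ t in (a n)..(a (n + 1)), F' (Q^[⌊t / s⌋₊] (y n)) * (Yg X S₁ ψ s T t : ℂ)‖ := by
    intro n
    have h7 : (∫ t in (a n)..(a (n + 1)), F (Q^[⌊t / s⌋₊] (y n)) * (Yg X S₁ ψ s T t : ℂ)) =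
        (R : ℂ) * ∫ t in (a n)..(a (n + 1)), F' (Q^[⌊t / s⌋₊] (y n)) * (Yg X S₁ ψ s T t : ℂ) := by
      rw [← intervalIntegral.integral_const_mul]
      refine intervalIntegral.integral_congr fun t _ => ?_
      simp only [hF']
      have : (R : ℂ) ≠ 0 := by exact_mod_cast hR0.ne'
      field_simp
    rw [h7, norm_mul, Complex.norm_real, Real.norm_eq_abs, abs_of_pos hR0]
  simp_rw [hJF]
  rw [← Finset.mul_sum]
  calc _ ≤ R * (ε / R * T) := mul_le_mul_of_nonneg_left main hR0.le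
    _ = ε * T := by field_simp

/-- **offsets**: discrete sums along arithmetic progressions of difference `s` -/
theorem offR (hG : Gs k Λ S₁ S) (hRa : Rng Ra) (hX : FamR Ra k S₁ S X)
    {ψ : EuclideanSpace ℝ (Fin k) → ℝ} {C : ℝ} (hψ : Continuous ψ) (hC : ∀ x, |ψ x| ≤ C * (1 + ‖x‖ ^ 2))
    {Y : Type} [MetricSpace Y] [CompactSpace Y] {Q : Y → Y} (hQ : ZeroEntropy Q) {F : Y → ℂ} (hF : Continuous F)
    {ε : ℝ} (hε : 0 < ε) : ∃ K : ℝ, 1 ≤ K ∧ ∀ T : ℝ, K ≤ T → ∀ s : ℝ, Ra K T s → ∀ y : Y,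
      ∫ x in (0 : ℝ)..1, ‖∑ n ∈ Finset.Ico ⌈T / s⌉₊ ⌊2 * T / s⌋₊, F (Q^[n] y) * (Yg X S₁ ψ s T ((n + x) * s) : ℂ)‖ ≤
        ε * (T / s) := by
  obtain ⟨R, hR0, hR⟩ := norm_F hF
  set F' : Y → ℂ := fun y => F y / R with hF'
  have hF'c : Continuous F' := hF.div_const _
  have hF'1 : ∀ y, ‖F' y‖ ≤ 1 := by
    intro y
    rw [hF']
    simp only
    rw [norm_div, Complex.norm_real, Real.norm_eq_abs, abs_of_pos hR0, div_le_one hR0]
    exact hR y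
  obtain ⟨κ, δ, M₀, hκ, hδ, h1⟩ := zeroR hG hRa hX hψ hC (ε := ε / R) (by positivity)
  obtain ⟨M₁, h2⟩ := orb hQ hF'c hF'1 hκ hδ
  set M := max M₀ M₁ with hM
  obtain ⟨K, hK, h3⟩ := h1 M (le_max_left _ _)
  obtain ⟨K₁, hK₁, h4⟩ := intR hRa hX hψ hC
  have hMp : (0 : ℝ) ≤ M := Nat.cast_nonneg _
  obtain ⟨K₂, hK₂, h5⟩ := hRa.small (δ / (2 * (M + 1))) (by positivity)
  set K' : ℝ := max (max K K₁) (max K₂ 3) with hK'
  have k1 : K ≤ K' := (le_max_left _ _).trans (le_max_left _ _)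
  have k2 : K₁ ≤ K' := (le_max_right _ _).trans (le_max_left _ _)
  have k4 : K₂ ≤ K' := (le_max_left _ _).trans (le_max_right _ _)
  have k5 : 3 ≤ K' := (le_max_right _ _).trans (le_max_right _ _)
  refine ⟨K', hK.trans k1, fun T hT s hs1 y => ?_⟩
  have hT3 : 3 ≤ T := k5.trans hT
  have hT0 : 0 < T := by linarith
  obtain ⟨hs0, hsT⟩ := h5 T s (k4.trans hT) (hRa.mono _ _ _ _ hK₂ k4 hT3 hs1)
  have hi := h4 T (k2.trans hT) s (hRa.mono _ _ _ _ hK₁ k2 hT3 hs1)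
  have hMs : 2 * ((M + 1) * s) ≤ δ * T := by
    calc 2 * (((M : ℝ) + 1) * s) ≤ 2 * ((M + 1) * (δ / (2 * (M + 1)) * T)) := by gcongr
      _ = δ * T := by field_simp
  obtain ⟨θ, u, hθm, hθ1, hu1, hθ2, hθ3, hθ4, hθi⟩ := t_OFF T s (Yg X S₁ ψ s T) (fun n => F' (Q^[n] y)) hT0 hs0 hi
    (fun n => hF'1 _)
  set n₀ := ⌈T / s⌉₊ with hn₀
  set n₁ := ⌊2 * T / s⌋₊ with hn₁
  have hn₀T : (n₀ : ℝ) * s < T + s := by
    have := Nat.ceil_lt_add_one (div_nonneg hT0.le hs0.le)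
    rw [← hn₀] at this
    have h7 := mul_lt_mul_of_pos_right this hs0
    rw [add_mul, one_mul, div_mul_cancel₀ _ hs0.ne'] at h7
    exact h7
  have hfol : Follows T s M κ δ θ := by
    refine h2 M (le_max_right _ _) T s θ (Icc T (T + s) ∪ Icc ((n₁ : ℝ) * s - M * s) ((n₁ : ℝ) * s)) ?_
      fun t ht htE => ?_
    · refine (measure_union_le _ _).trans ?_
      rw [Real.volume_Icc, Real.volume_Icc, ← ENNReal.ofReal_add (by linarith) (by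
        have : 0 ≤ (M : ℝ) * s := by positivity
        linarith)]
      apply ENNReal.ofReal_le_ofReal
      nlinarith
    · rw [mem_union, not_or] at htE
      obtain ⟨hE1, hE2⟩ := htE
      have hmh : ∀ m : ℕ, m < M → 0 ≤ (m : ℝ) * s ∧ (m : ℝ) * s ≤ M * s := by
        intro m hm
        have : (m : ℝ) ≤ M := by exact_mod_cast hm.le
        exact ⟨by positivity, mul_le_mul_of_nonneg_right this hs0.le⟩
      have ht1 : T + s < t := by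
        by_contra hcon
        exact hE1 ⟨ht.1, not_lt.1 hcon⟩
      rcases le_or_gt ((n₁ : ℝ) * s) t with h7 | h7
      · left
        intro m hm
        exact hθ4 _ (by linarith [(hmh m hm).1])
      · right
        have h8 : t < (n₁ : ℝ) * s - M * s := by
          by_contra hcon
          exact hE2 ⟨not_lt.1 hcon, h7.le⟩
        have ht0 : 0 ≤ t / s := div_nonneg (by linarith) hs0.le
        refine ⟨u (Int.fract (t / s)), Q^[⌊t / s⌋₊] y, hu1 _, fun m hm => ?_⟩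
        rw [hθ2 _ (by linarith [(hmh m hm).1]) (by linarith [(hmh m hm).2])]
        have h12 : (t + m * s) / s = t / s + (m : ℝ) := by field_simp
        rw [h12, Nat.floor_add_natCast ht0, Int.fract_add_natCast, add_comm, Function.iterate_add_apply]
  have key := h3 T (k1.trans hT) s (hRa.mono _ _ _ _ hK k1 hT3 hs1) θ hθm hθ1 hfol
  rw [hθi, Complex.norm_real, Real.norm_eq_abs, abs_of_nonneg (mul_nonneg hs0.le
    (intervalIntegral.integral_nonneg zero_le_one fun x _ => norm_nonneg _))] at key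
  have e1 : ∫ x in (0 : ℝ)..1, ‖∑ n ∈ Finset.Ico n₀ n₁, F (Q^[n] y) * (Yg X S₁ ψ s T ((n + x) * s) : ℂ)‖ =
      R * ∫ x in (0 : ℝ)..1, ‖∑ n ∈ Finset.Ico n₀ n₁, F' (Q^[n] y) * (Yg X S₁ ψ s T ((n + x) * s) : ℂ)‖ := by
    rw [← intervalIntegral.integral_const_mul]
    refine intervalIntegral.integral_congr fun x _ => ?_
    have h7 : ∑ n ∈ Finset.Ico n₀ n₁, F (Q^[n] y) * (Yg X S₁ ψ s T ((n + x) * s) : ℂ) =
        (R : ℂ) * ∑ n ∈ Finset.Ico n₀ n₁, F' (Q^[n] y) * (Yg X S₁ ψ s T ((n + x) * s) : ℂ) := by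
      rw [Finset.mul_sum]
      refine Finset.sum_congr rfl fun n _ => ?_
      simp only [hF']
      have : (R : ℂ) ≠ 0 := by exact_mod_cast hR0.ne'
      field_simp
    rw [h7, norm_mul, Complex.norm_real, Real.norm_eq_abs, abs_of_pos hR0]
  rw [e1]
  have h8 : (∫ x in (0 : ℝ)..1, ‖∑ n ∈ Finset.Ico n₀ n₁, F' (Q^[n] y) * (Yg X S₁ ψ s T ((n + x) * s) : ℂ)‖) ≤
      ε / R * (T / s) := by
    rw [← mul_div_assoc, le_div_iff₀ hs0, mul_comm]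
    exact key
  calc _ ≤ R * (ε / R * (T / s)) := mul_le_mul_of_nonneg_left h8 hR0.le
    _ = ε * (T / s) := by field_simp

end

end Pool.Agent.H493.SZ
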