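import Pool.Agent.H493.SZ.AG

set_option autoImplicit false

/-! The consequences of zero entropy, for general observables. -/

open Complex Filter Topology Set MeasureTheory ProbabilityTheory
open scoped BoundedContinuousFunction RealInnerProductSpace NNReal

namespace Pool.Agent.H493.SZ

open Pool.Agent.H493.EN

section

variable {k : ℕ} {Λ : ℝ} {S₁ : Matrix (Fin k) (Fin k) ℝ} {S : ∀ M : ℕ, Matrix (Fin (k * M)) (Fin (k * M)) ℝ}
  {X : ℝ → ℝ → ℝ → EuclideanSpace ℝ (Fin k)} {Ra : ℝ → ℝ → ℝ → Prop}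

/-- the conclusion for functions of small entropy -/
def ZE (Ra : ℝ → ℝ → ℝ → Prop) (S₁ : Matrix (Fin k) (Fin k) ℝ) (X : ℝ → ℝ → ℝ → EuclideanSpace ℝ (Fin k))
    (ψ : EuclideanSpace ℝ (Fin k) → ℝ) : Prop :=
  ∀ ε : ℝ, 0 < ε → ∃ (κ δ : ℝ) (M₀ : ℕ), 0 < κ ∧ 0 < δ ∧ ∀ M : ℕ, M₀ ≤ M → ∃ K : ℝ, 1 ≤ K ∧ ∀ T : ℝ, K ≤ T →
    ∀ s : ℝ, Ra K T s → ∀ θ : ℝ → ℂ,
    Measurable θ → (∀ t, ‖θ t‖ ≤ 1) → Follows T s M κ δ θ →
    ‖∫ t in T..(2 * T), θ t * (Yg X S₁ ψ s T t : ℂ)‖ ≤ ε * T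

/-- integrability along the family -/
def IE (Ra : ℝ → ℝ → ℝ → Prop) (S₁ : Matrix (Fin k) (Fin k) ℝ) (X : ℝ → ℝ → ℝ → EuclideanSpace ℝ (Fin k))
    (ψ : EuclideanSpace ℝ (Fin k) → ℝ) : Prop :=
  ∃ K : ℝ, 1 ≤ K ∧ ∀ T : ℝ, K ≤ T → ∀ s : ℝ, Ra K T s → IntervalIntegrable (Yg X S₁ ψ s T) volume T (2 * T)

/-- `ψ` is approximated in the mean by continuous functions of quadratic growth -/
def Apx (Ra : ℝ → ℝ → ℝ → Prop) (S₁ : Matrix (Fin k) (Fin k) ℝ) (X : ℝ → ℝ → ℝ → EuclideanSpace ℝ (Fin k))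
    (ψ : EuclideanSpace ℝ (Fin k) → ℝ) : Prop :=
  ∀ ε : ℝ, 0 < ε → ∃ (g : EuclideanSpace ℝ (Fin k) → ℝ) (C : ℝ), Continuous g ∧ (∀ x, |g x| ≤ C * (1 + ‖x‖ ^ 2)) ∧
    |∫ x, ψ x ∂(multivariateGaussian 0 S₁) - ∫ x, g x ∂(multivariateGaussian 0 S₁)| ≤ ε ∧
    ∃ K : ℝ, 1 ≤ K ∧ ∀ T : ℝ, K ≤ T → ∀ s : ℝ, Ra K T s →
      IntervalIntegrable (fun t => ψ (X s T t) - g (X s T t)) volume T (2 * T) ∧
      ∫ t in T..(2 * T), |ψ (X s T t) - g (X s T t)| ≤ ε * T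

lemma Apx.IE (hRa : Rng Ra) (hX : FamR Ra k S₁ S X) {ψ : EuclideanSpace ℝ (Fin k) → ℝ} (hA : Apx Ra S₁ X ψ) :
    IE Ra S₁ X ψ := by
  obtain ⟨g, C, hg, hC, _, K, hK, h1⟩ := hA 1 one_pos
  obtain ⟨K₁, hK₁, h2⟩ := intR hRa hX hg hC
  refine ⟨max (max K K₁) 3, (hK.trans (le_max_left _ _)).trans (le_max_left _ _), fun T hT s hs => ?_⟩
  have hT3 : 3 ≤ T := (le_max_right _ _).trans hT
  have k1 : K ≤ max (max K K₁) 3 := (le_max_left _ _).trans (le_max_left _ _)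
  have k2 : K₁ ≤ max (max K K₁) 3 := (le_max_right _ _).trans (le_max_left _ _)
  have h3 := (h1 T (k1.trans hT) s (hRa.mono _ _ _ _ hK k1 hT3 hs)).1
  have h4 := h2 T (k2.trans hT) s (hRa.mono _ _ _ _ hK₁ k2 hT3 hs)
  have h5 := (h3.add h4).add (intervalIntegrable_const (c := (∫ x, g x ∂(multivariateGaussian 0 S₁)) -
    ∫ x, ψ x ∂(multivariateGaussian 0 S₁)))
  refine h5.congr fun t _ => ?_
  simp only [Yg]
  ring

lemma Apx.ZE (hG : Gs k Λ S₁ S) (hRa : Rng Ra) (hX : FamR Ra k S₁ S X) {ψ : EuclideanSpace ℝ (Fin k) → ℝ}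
    (hA : Apx Ra S₁ X ψ) : ZE Ra S₁ X ψ := by
  intro ε hε
  obtain ⟨g, C, hg, hC, hm, K, hK, h1⟩ := hA (ε / 3) (by positivity)
  obtain ⟨κ, δ, M₀, hκ, hδ, h2⟩ := zeroR hG hRa hX hg hC (ε := ε / 3) (by positivity)
  obtain ⟨K₁, hK₁, h3⟩ := intR hRa hX hg hC
  refine ⟨κ, δ, M₀, hκ, hδ, fun M hM => ?_⟩
  obtain ⟨K₂, hK₂, h4⟩ := h2 M hM
  set K' := max (max K K₁) (max K₂ 3) with hK'
  have k1 : K ≤ K' := (le_max_left _ _).trans (le_max_left _ _)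
  have k2 : K₁ ≤ K' := (le_max_right _ _).trans (le_max_left _ _)
  have k3 : K₂ ≤ K' := (le_max_left _ _).trans (le_max_right _ _)
  have k4 : 3 ≤ K' := (le_max_right _ _).trans (le_max_right _ _)
  refine ⟨K', hK.trans k1, fun T hT s hs θ hθ hθ1 hF => ?_⟩
  have hT3 : 3 ≤ T := k4.trans hT
  have hT0 : 0 ≤ T := by linarith
  have hT2 : T ≤ 2 * T := by linarith
  obtain ⟨i1, b1⟩ := h1 T (k1.trans hT) s (hRa.mono _ _ _ _ hK k1 hT3 hs)
  have i2 := h3 T (k2.trans hT) s (hRa.mono _ _ _ _ hK₁ k2 hT3 hs)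
  have b2 := h4 T (k3.trans hT) s (hRa.mono _ _ _ _ hK₂ k3 hT3 hs) θ hθ hθ1 hF
  set c : ℝ := (∫ x, g x ∂(multivariateGaussian 0 S₁)) - ∫ x, ψ x ∂(multivariateGaussian 0 S₁) with hc
  have bd : ∀ f : ℝ → ℝ, IntervalIntegrable f volume T (2 * T) →
      IntervalIntegrable (fun t => θ t * ((f t : ℝ) : ℂ)) volume T (2 * T) := by
    intro f hf
    rw [intervalIntegrable_iff] at hf ⊢
    refine (hf.ofReal (𝕜 := ℂ)).bdd_mul (c := 1) hθ.aestronglyMeasurable ?_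
    exact Filter.Eventually.of_forall hθ1
  have j1 := bd _ i1
  have j2 := bd _ i2
  have j3 := bd (fun _ => c) intervalIntegrable_const
  have e1 : ∫ t in T..(2 * T), θ t * (Yg X S₁ ψ s T t : ℂ) =
      (∫ t in T..(2 * T), θ t * ((Yg X S₁ g s T t : ℝ) : ℂ)) +
      (∫ t in T..(2 * T), θ t * ((ψ (X s T t) - g (X s T t) : ℝ) : ℂ)) + ∫ t in T..(2 * T), θ t * (c : ℂ) := by
    rw [← intervalIntegral.integral_add j2 j1, ← intervalIntegral.integral_add (j2.add j1) j3]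
    refine intervalIntegral.integral_congr fun t _ => ?_
    simp only [Yg, hc]
    push_cast
    ring
  have b3 : ‖∫ t in T..(2 * T), θ t * ((ψ (X s T t) - g (X s T t) : ℝ) : ℂ)‖ ≤ ε / 3 * T := by
    refine (intervalIntegral.norm_integral_le_integral_norm hT2).trans (le_trans ?_ b1)
    refine intervalIntegral.integral_mono_on hT2 j1.norm i1.abs fun t _ => ?_
    rw [norm_mul, Complex.norm_real, Real.norm_eq_abs]
    exact mul_le_of_le_one_left (abs_nonneg _) (hθ1 t)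
  have b4 : ‖∫ t in T..(2 * T), θ t * (c : ℂ)‖ ≤ ε / 3 * T := by
    have h5 : ‖∫ t in T..(2 * T), θ t * (c : ℂ)‖ ≤ ε / 3 * |2 * T - T| := by
      refine intervalIntegral.norm_integral_le_of_norm_le_const fun t _ => ?_
      rw [norm_mul, Complex.norm_real, Real.norm_eq_abs]
      refine (mul_le_of_le_one_left (abs_nonneg _) (hθ1 t)).trans ?_
      rw [hc, abs_sub_comm]
      exact hm
    rwa [show 2 * T - T = T by ring, abs_of_nonneg hT0] at h5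
  rw [e1]
  calc _ ≤ ‖∫ t in T..(2 * T), θ t * ((Yg X S₁ g s T t : ℝ) : ℂ)‖ +
      ‖∫ t in T..(2 * T), θ t * ((ψ (X s T t) - g (X s T t) : ℝ) : ℂ)‖ + ‖∫ t in T..(2 * T), θ t * (c : ℂ)‖ :=
        norm_add₃_le
    _ ≤ ε / 3 * T + ε / 3 * T + ε / 3 * T := by
        gcongr
    _ = ε * T := by ring

/-- slowly varying functions -/
theorem slowZ (hRa : Rng Ra) {ψ : EuclideanSpace ℝ (Fin k) → ℝ} (hZ : ZE Ra S₁ X ψ) {ε : ℝ}
    (hε : 0 < ε) : ∃ K : ℝ, 1 ≤ K ∧ ∀ T : ℝ, K ≤ T → ∀ s : ℝ, Ra K T s → ∀ θ : ℝ → ℂ,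
      Measurable θ → (∀ t, ‖θ t‖ ≤ 1) → ∫ t in T..(2 * T), ‖θ (t + s) - θ t‖ ≤ T / K →
      ‖∫ t in T..(2 * T), θ t * (Yg X S₁ ψ s T t : ℂ)‖ ≤ ε * T := by
  obtain ⟨κ, δ, M₀, hκ, hδ, h1⟩ := hZ _ hε
  obtain ⟨M₁, h2⟩ := t_SLOW κ δ hκ hδ
  set M := max M₀ M₁ with hM
  obtain ⟨K, hK, h3⟩ := h1 M (le_max_left _ _)
  obtain ⟨δ', hδ', h4⟩ := h2 M (le_max_right _ _)
  have hMp : (0 : ℝ) ≤ M := Nat.cast_nonneg _
  obtain ⟨K₂, hK₂, h5⟩ := hRa.small (δ / (2 * (M + 1))) (by positivity)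
  set K' : ℝ := max (max K (1 / δ')) (max K₂ 3) with hK'
  have k1 : K ≤ K' := (le_max_left _ _).trans (le_max_left _ _)
  have k2 : 1 / δ' ≤ K' := (le_max_right _ _).trans (le_max_left _ _)
  have k3 : K₂ ≤ K' := (le_max_left _ _).trans (le_max_right _ _)
  have k4 : 3 ≤ K' := (le_max_right _ _).trans (le_max_right _ _)
  have hK'0 : 0 < K' := by linarith
  refine ⟨K', hK.trans k1, fun T hT s hs1 θ hθ hθ1 hθs => ?_⟩
  have hT3 : 3 ≤ T := k4.trans hT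
  obtain ⟨hs0, hsT⟩ := h5 T s (k3.trans hT) (hRa.mono _ _ _ _ hK₂ k3 hT3 hs1)
  refine h3 T (k1.trans hT) s (hRa.mono _ _ _ _ hK k1 hT3 hs1) θ hθ hθ1
    (h4 T s θ (by linarith) hs0.le ?_ hθ hθ1 (hθs.trans ?_))
  · calc (M : ℝ) * s ≤ M * (δ / (2 * (M + 1)) * T) := mul_le_mul_of_nonneg_left hsT hMp
      _ = (M / (M + 1)) * (δ / 2 * T) := by field_simp
      _ ≤ 1 * (δ / 2 * T) := by
          refine mul_le_mul_of_nonneg_right ?_ (by positivity)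
          rw [div_le_one (by positivity)]
          linarith
      _ = δ / 2 * T := one_mul _
  · rw [div_le_iff₀ hK'0]
    have h6 : 1 ≤ K' * δ' := by rwa [div_le_iff₀ hδ'] at k2
    have : 0 ≤ T * (K' * δ' - 1) := by
      have : 0 ≤ K' * δ' - 1 := by linarith
      positivity
    nlinarith

/-- **systems of zero entropy**, with a new point on every window -/
theorem momoZ (hRa : Rng Ra) {ψ : EuclideanSpace ℝ (Fin k) → ℝ} (hZ : ZE Ra S₁ X ψ) (hI : IE Ra S₁ X ψ)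
    {Y : Type} [MetricSpace Y] [CompactSpace Y] {Q : Y → Y} (hQ : ZeroEntropy Q) {F : Y → ℂ} (hF : Continuous F)
    {ε : ℝ} (hε : 0 < ε) : ∃ K : ℝ, 1 ≤ K ∧ ∀ T : ℝ, K ≤ T → ∀ s : ℝ, Ra K T s →
      ∀ (N : ℕ) (a : ℕ → ℝ) (y : ℕ → Y), K * (N * s) ≤ T → T ≤ a 0 → a N ≤ 2 * T → (∀ n < N, a n ≤ a (n + 1)) →
      ∑ n ∈ Finset.range N, ‖∫ t in (a n)..(a (n + 1)), F (Q^[⌊t / s⌋₊] (y n)) * (Yg X S₁ ψ s T t : ℂ)‖ ≤ ε * T := by
  obtain ⟨R, hR0, hR⟩ := norm_F hF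
  set F' : Y → ℂ := fun y => F y / R with hF'
  have hF'c : Continuous F' := hF.div_const _
  have hF'1 : ∀ y, ‖F' y‖ ≤ 1 := by
    intro y
    rw [hF']
    simp only
    rw [norm_div, Complex.norm_real, Real.norm_eq_abs, abs_of_pos hR0, div_le_one hR0]
    exact hR y
  obtain ⟨κ, δ, M₀, hκ, hδ, h1⟩ := hZ (ε / R) (by positivity)
  obtain ⟨M₁, h2⟩ := orb hQ hF'c hF'1 hκ hδ
  set M := max M₀ M₁ with hM
  obtain ⟨K, hK, h3⟩ := h1 M (le_max_left _ _)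
  obtain ⟨K₁, hK₁, h4⟩ := hI
  have hMp : (0 : ℝ) ≤ M := Nat.cast_nonneg _
  obtain ⟨K₂, hK₂, h5⟩ := hRa.small (δ / (2 * (M + 1))) (by positivity)
  set K' : ℝ := max (max (max K K₁) (2 * M / δ)) (max K₂ 3) with hK'
  have k1 : K ≤ K' := (le_max_left _ _).trans ((le_max_left _ _).trans (le_max_left _ _))
  have k2 : K₁ ≤ K' := (le_max_right _ _).trans ((le_max_left _ _).trans (le_max_left _ _))
  have k3 : 2 * M / δ ≤ K' := (le_max_right _ _).trans (le_max_left _ _)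
  have k4 : K₂ ≤ K' := (le_max_left _ _).trans (le_max_right _ _)
  have k5 : 3 ≤ K' := (le_max_right _ _).trans (le_max_right _ _)
  have hK'0 : 0 < K' := by linarith
  refine ⟨K', hK.trans k1, fun T hT s hs1 N a y hN ha0 haN ha => ?_⟩
  have hT3 : 3 ≤ T := k5.trans hT
  have hT0 : 0 < T := by linarith
  obtain ⟨hs0, hsT⟩ := h5 T s (k4.trans hT) (hRa.mono _ _ _ _ hK₂ k4 hT3 hs1)
  have hi := h4 T (k2.trans hT) s (hRa.mono _ _ _ _ hK₁ k2 hT3 hs1)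
  have h6 : 2 * M ≤ K' * δ := by rwa [div_le_iff₀ hδ] at k3
  have hMs : 2 * (M * s) ≤ δ * T := by
    calc 2 * ((M : ℝ) * s) ≤ 2 * (M * (δ / (2 * (M + 1)) * T)) := by gcongr
      _ = (M / (M + 1)) * (δ * T) := by field_simp
      _ ≤ 1 * (δ * T) := by
          refine mul_le_mul_of_nonneg_right ?_ (by positivity)
          rw [div_le_one (by positivity)]
          linarith
      _ = δ * T := one_mul _
  have hNs : 2 * (N * (M * s)) ≤ δ * T := by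
    calc 2 * (N * (M * s)) = (2 * M) * (N * s) := by ring
      _ ≤ (K' * δ) * (N * s) := mul_le_mul_of_nonneg_right h6 (by positivity)
      _ = δ * (K' * (N * s)) := by ring
      _ ≤ δ * T := mul_le_mul_of_nonneg_left hN hδ.le
  have hD : ((N : ℝ) + 1) * M * s ≤ δ * T := by nlinarith
  have main : ∑ n ∈ Finset.range N, ‖∫ t in (a n)..(a (n + 1)), F' (Q^[⌊t / s⌋₊] (y n)) *
      (Yg X S₁ ψ s T t : ℂ)‖ ≤ ε / R * T := by
    refine win_le Q hF'1 hT0 y ha0 haN ha hi fun u hu => ?_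
    refine h3 T (k1.trans hT) s (hRa.mono _ _ _ _ hK k1 hT3 hs1) _
      (wgt_meas Q F' s N a y u) (wgt_bd Q hF'1 s ha y hu) ?_
    refine h2 M (le_max_right _ _) T s _ (⋃ n ∈ Finset.range (N + 1), Icc (a n - M * s) (a n))
      (CORDL.vol_le N M s a hs0 hD) fun t ht htE => ?_
    have hnotin : ∀ n ≤ N, ¬ (a n - M * s ≤ t ∧ t ≤ a n) := by
      intro n hn h1
      apply htE
      exact mem_biUnion (show n ∈ (Finset.range (N + 1) : Set ℕ) by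
        rw [Finset.mem_coe, Finset.mem_range]; omega) h1
    have hmh : ∀ m : ℕ, m < M → 0 ≤ (m : ℝ) * s ∧ (m : ℝ) * s ≤ M * s := by
      intro m hm
      have : (m : ℝ) ≤ M := by exact_mod_cast hm.le
      exact ⟨by positivity, mul_le_mul_of_nonneg_right this hs0.le⟩
    rcases le_or_gt (a N) t with h7 | h7
    · left
      intro m hm
      refine wgt_out _ _ _ _ _ fun n hn h8 => ?_
      have := a_mono ha (n + 1) N hn le_rfl
      linarith [h8.2, (hmh m hm).1]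
    rcases lt_or_ge t (a 0) with h8 | h8
    · left
      intro m hm
      refine wgt_out _ _ _ _ _ fun n hn h9 => ?_
      have h10 : t < a 0 - M * s := by
        by_contra hcon
        exact hnotin 0 (Nat.zero_le _) ⟨not_lt.1 hcon, h8.le⟩
      have := a_mono ha 0 n (Nat.zero_le _) hn.le
      linarith [h9.1, (hmh m hm).2]
    right
    obtain ⟨n, hn, h9, h10⟩ := CORDL.window N a h8 h7
    have h11 : t < a (n + 1) - M * s := by
      by_contra hcon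
      exact hnotin (n + 1) hn ⟨not_lt.1 hcon, h10.le⟩
    have ht0 : 0 ≤ t / s := div_nonneg (by linarith [ht.1]) hs0.le
    refine ⟨u n, Q^[⌊t / s⌋₊] (y n), hu n, fun m hm => ?_⟩
    rw [wgt_mem Q F' s ha y u hn ⟨by linarith [(hmh m hm).1], by linarith [(hmh m hm).2]⟩]
    have h12 : (t + m * s) / s = t / s + (m : ℝ) := by field_simp
    rw [h12, Nat.floor_add_natCast ht0, add_comm, Function.iterate_add_apply]
  have hJF : ∀ n, ‖∫ t in (a n)..(a (n + 1)), F (Q^[⌊t / s⌋₊] (y n)) * (Yg X S₁ ψ s T t : ℂ)‖ =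
      R * ‖∫ t in (a n)..(a (n + 1)), F' (Q^[⌊t / s⌋₊] (y n)) * (Yg X S₁ ψ s T t : ℂ)‖ := by
    intro n
    have h7 : (∫ t in (a n)..(a (n + 1)), F (Q^[⌊t / s⌋₊] (y n)) * (Yg X S₁ ψ s T t : ℂ)) =
        (R : ℂ) * ∫ t in (a n)..(a (n + 1)), F' (Q^[⌊t / s⌋₊] (y n)) * (Yg X S₁ ψ s T t : ℂ) := by
      rw [← intervalIntegral.integral_const_mul]
      refine intervalIntegral.integral_congr fun t _ => ?_
      simp only [hF']
      have : (R : ℂ) ≠ 0 := by exact_mod_cast hR0.ne'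
      field_simp
    rw [h7, norm_mul, Complex.norm_real, Real.norm_eq_abs, abs_of_pos hR0]
  simp_rw [hJF]
  rw [← Finset.mul_sum]
  calc _ ≤ R * (ε / R * T) := mul_le_mul_of_nonneg_left main hR0.le
    _ = ε * T := by field_simp

/-- **offsets**: discrete sums along arithmetic progressions of difference `s` -/
theorem offZ (hRa : Rng Ra) {ψ : EuclideanSpace ℝ (Fin k) → ℝ} (hZ : ZE Ra S₁ X ψ) (hI : IE Ra S₁ X ψ)
    {Y : Type} [MetricSpace Y] [CompactSpace Y] {Q : Y → Y} (hQ : ZeroEntropy Q) {F : Y → ℂ} (hF : Continuous F)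
    {ε : ℝ} (hε : 0 < ε) : ∃ K : ℝ, 1 ≤ K ∧ ∀ T : ℝ, K ≤ T → ∀ s : ℝ, Ra K T s → ∀ y : Y,
      ∫ x in (0 : ℝ)..1, ‖∑ n ∈ Finset.Ico ⌈T / s⌉₊ ⌊2 * T / s⌋₊, F (Q^[n] y) * (Yg X S₁ ψ s T ((n + x) * s) : ℂ)‖ ≤
        ε * (T / s) := by
  obtain ⟨R, hR0, hR⟩ := norm_F hF
  set F' : Y → ℂ := fun y => F y / R with hF'
  have hF'c : Continuous F' := hF.div_const _
  have hF'1 : ∀ y, ‖F' y‖ ≤ 1 := by
    intro y
    rw [hF']
    simp only
    rw [norm_div, Complex.norm_real, Real.norm_eq_abs, abs_of_pos hR0, div_le_one hR0]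
    exact hR y
  obtain ⟨κ, δ, M₀, hκ, hδ, h1⟩ := hZ (ε / R) (by positivity)
  obtain ⟨M₁, h2⟩ := orb hQ hF'c hF'1 hκ hδ
  set M := max M₀ M₁ with hM
  obtain ⟨K, hK, h3⟩ := h1 M (le_max_left _ _)
  obtain ⟨K₁, hK₁, h4⟩ := hI
  have hMp : (0 : ℝ) ≤ M := Nat.cast_nonneg _
  obtain ⟨K₂, hK₂, h5⟩ := hRa.small (δ / (2 * (M + 1))) (by positivity)
  set K' : ℝ := max (max K K₁) (max K₂ 3) with hK'
  have k1 : K ≤ K' := (le_max_left _ _).trans (le_max_left _ _)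
  have k2 : K₁ ≤ K' := (le_max_right _ _).trans (le_max_left _ _)
  have k4 : K₂ ≤ K' := (le_max_left _ _).trans (le_max_right _ _)
  have k5 : 3 ≤ K' := (le_max_right _ _).trans (le_max_right _ _)
  refine ⟨K', hK.trans k1, fun T hT s hs1 y => ?_⟩
  have hT3 : 3 ≤ T := k5.trans hT
  have hT0 : 0 < T := by linarith
  obtain ⟨hs0, hsT⟩ := h5 T s (k4.trans hT) (hRa.mono _ _ _ _ hK₂ k4 hT3 hs1)
  have hi := h4 T (k2.trans hT) s (hRa.mono _ _ _ _ hK₁ k2 hT3 hs1)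
  have hMs : 2 * ((M + 1) * s) ≤ δ * T := by
    calc 2 * (((M : ℝ) + 1) * s) ≤ 2 * ((M + 1) * (δ / (2 * (M + 1)) * T)) := by gcongr
      _ = δ * T := by field_simp
  obtain ⟨θ, u, hθm, hθ1, hu1, hθ2, hθ3, hθ4, hθi⟩ := t_OFF T s (Yg X S₁ ψ s T) (fun n => F' (Q^[n] y)) hT0 hs0 hi
    (fun n => hF'1 _)
  set n₀ := ⌈T / s⌉₊ with hn₀
  set n₁ := ⌊2 * T / s⌋₊ with hn₁
  have hn₀T : (n₀ : ℝ) * s < T + s := by
    have := Nat.ceil_lt_add_one (div_nonneg hT0.le hs0.le)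
    rw [← hn₀] at this
    have h7 := mul_lt_mul_of_pos_right this hs0
    rw [add_mul, one_mul, div_mul_cancel₀ _ hs0.ne'] at h7
    exact h7
  have hfol : Follows T s M κ δ θ := by
    refine h2 M (le_max_right _ _) T s θ (Icc T (T + s) ∪ Icc ((n₁ : ℝ) * s - M * s) ((n₁ : ℝ) * s)) ?_
      fun t ht htE => ?_
    · refine (measure_union_le _ _).trans ?_
      rw [Real.volume_Icc, Real.volume_Icc, ← ENNReal.ofReal_add (by linarith) (by
        have : 0 ≤ (M : ℝ) * s := by positivity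
        linarith)]
      apply ENNReal.ofReal_le_ofReal
      nlinarith
    · rw [mem_union, not_or] at htE
      obtain ⟨hE1, hE2⟩ := htE
      have hmh : ∀ m : ℕ, m < M → 0 ≤ (m : ℝ) * s ∧ (m : ℝ) * s ≤ M * s := by
        intro m hm
        have : (m : ℝ) ≤ M := by exact_mod_cast hm.le
        exact ⟨by positivity, mul_le_mul_of_nonneg_right this hs0.le⟩
      have ht1 : T + s < t := by
        by_contra hcon
        exact hE1 ⟨ht.1, not_lt.1 hcon⟩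
      rcases le_or_gt ((n₁ : ℝ) * s) t with h7 | h7
      · left
        intro m hm
        exact hθ4 _ (by linarith [(hmh m hm).1])
      · right
        have h8 : t < (n₁ : ℝ) * s - M * s := by
          by_contra hcon
          exact hE2 ⟨not_lt.1 hcon, h7.le⟩
        have ht0 : 0 ≤ t / s := div_nonneg (by linarith) hs0.le
        refine ⟨u (Int.fract (t / s)), Q^[⌊t / s⌋₊] y, hu1 _, fun m hm => ?_⟩
        rw [hθ2 _ (by linarith [(hmh m hm).1]) (by linarith [(hmh m hm).2])]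
        have h12 : (t + m * s) / s = t / s + (m : ℝ) := by field_simp
        rw [h12, Nat.floor_add_natCast ht0, Int.fract_add_natCast, add_comm, Function.iterate_add_apply]
  have key := h3 T (k1.trans hT) s (hRa.mono _ _ _ _ hK k1 hT3 hs1) θ hθm hθ1 hfol
  rw [hθi, Complex.norm_real, Real.norm_eq_abs, abs_of_nonneg (mul_nonneg hs0.le
    (intervalIntegral.integral_nonneg zero_le_one fun x _ => norm_nonneg _))] at key
  have e1 : ∫ x in (0 : ℝ)..1, ‖∑ n ∈ Finset.Ico n₀ n₁, F (Q^[n] y) * (Yg X S₁ ψ s T ((n + x) * s) : ℂ)‖ =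
      R * ∫ x in (0 : ℝ)..1, ‖∑ n ∈ Finset.Ico n₀ n₁, F' (Q^[n] y) * (Yg X S₁ ψ s T ((n + x) * s) : ℂ)‖ := by
    rw [← intervalIntegral.integral_const_mul]
    refine intervalIntegral.integral_congr fun x _ => ?_
    have h7 : ∑ n ∈ Finset.Ico n₀ n₁, F (Q^[n] y) * (Yg X S₁ ψ s T ((n + x) * s) : ℂ) =
        (R : ℂ) * ∑ n ∈ Finset.Ico n₀ n₁, F' (Q^[n] y) * (Yg X S₁ ψ s T ((n + x) * s) : ℂ) := by
      rw [Finset.mul_sum]
      refine Finset.sum_congr rfl fun n _ => ?_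
      simp only [hF']
      have : (R : ℂ) ≠ 0 := by exact_mod_cast hR0.ne'
      field_simp
    rw [h7, norm_mul, Complex.norm_real, Real.norm_eq_abs, abs_of_pos hR0]
  rw [e1]
  have h8 : (∫ x in (0 : ℝ)..1, ‖∑ n ∈ Finset.Ico n₀ n₁, F' (Q^[n] y) * (Yg X S₁ ψ s T ((n + x) * s) : ℂ)‖) ≤
      ε / R * (T / s) := by
    rw [← mul_div_assoc, le_div_iff₀ hs0, mul_comm]
    exact key
  calc _ ≤ R * (ε / R * (T / s)) := mul_le_mul_of_nonneg_left h8 hR0.le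
    _ = ε * (T / s) := by field_simp

end

end Pool.Agent.H493.SZ
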