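import Pool.Agent.H493.SZ.Def

/-!
# SZ-APZ: mean square approximation of `log |ζ|` by the prime sum
-/

set_option autoImplicit false

open Complex Filter Topology Set MeasureTheory

namespace Pool.Agent.H493.SZ

namespace APZL

theorem log_taylor (z : ℂ) (hz : ‖z‖ ≤ 3 / 4) :
    |(-Real.log ‖1 - z‖) - z.re - (z ^ 2).re / 2| ≤ 2 * ‖z‖ ^ 3 := by
  have h1 : ‖-z‖ < 1 := by rw [norm_neg]; linarith
  have h := Complex.norm_log_sub_logTaylor_le 2 h1
  have e1 : Complex.logTaylor (2 + 1) (-z) = -z - z ^ 2 / 2 := by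
    simp [Complex.logTaylor, Finset.sum_range_succ]
    ring
  rw [e1, norm_neg, ← sub_eq_add_neg] at h
  have h2 := Complex.abs_re_le_norm (Complex.log (1 - z) - (-z - z ^ 2 / 2))
  have e2 : (Complex.log (1 - z) - (-z - z ^ 2 / 2)).re =
      -((-Real.log ‖1 - z‖) - z.re - (z ^ 2).re / 2) := by
    have e3 : (z ^ 2 / 2).re = (z ^ 2).re / 2 := by
      have : (z ^ 2 / 2 : ℂ) = z ^ 2 / ((2 : ℝ) : ℂ) := by norm_num
      rw [this, Complex.div_ofReal_re]
    rw [Complex.sub_re, Complex.sub_re, Complex.neg_re, Complex.log_re, e3]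
    ring
  rw [e2, abs_neg] at h2
  refine (h2.trans h).trans ?_
  have h3 : (1 - ‖z‖)⁻¹ ≤ 4 := by
    rw [inv_le_comm₀ (by linarith) (by norm_num)]
    linarith
  have h4 : 0 ≤ ‖z‖ ^ 3 := by positivity
  have h5 : ‖z‖ ^ 3 * (1 - ‖z‖)⁻¹ ≤ ‖z‖ ^ 3 * 4 := mul_le_mul_of_nonneg_left h3 h4
  norm_num
  linarith

theorem zp_eq (p : ℕ) (hp : 0 < p) (t : ℝ) :
    (p : ℂ) ^ (-(1 / 2 + t * I)) = (((p : ℝ) ^ (-(1 / 2) : ℝ) : ℝ) : ℂ) * e0 p t := by
  have hp0 : (p : ℂ) ≠ 0 := by exact_mod_cast hp.ne'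
  have hp1 : (0 : ℝ) < p := by exact_mod_cast hp
  rw [Complex.cpow_def_of_ne_zero hp0, ← Complex.natCast_log, Real.rpow_def_of_pos hp1, e0,
    Complex.ofReal_exp, ← Complex.exp_add]
  congr 1
  push_cast
  ring

theorem zp_norm (p : ℕ) (hp : 0 < p) (t : ℝ) :
    ‖(p : ℂ) ^ (-(1 / 2 + t * I))‖ = (p : ℝ) ^ (-(1 / 2) : ℝ) := by
  rw [Complex.norm_natCast_cpow_of_pos hp]
  simp

theorem zp_sq_re (p : ℕ) (hp : 0 < p) (t : ℝ) :
    (((p : ℂ) ^ (-(1 / 2 + t * I))) ^ 2).re / 2 = 1 / (2 * (p : ℝ)) * Real.cos (2 * Real.log p * t) := by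
  have hp1 : (0 : ℝ) < p := by exact_mod_cast hp
  rw [zp_eq p hp t, mul_pow, ← Complex.ofReal_pow, Complex.re_ofReal_mul, e0, ← Complex.exp_nat_mul]
  have h1 : ((p : ℝ) ^ (-(1 / 2) : ℝ)) ^ 2 = 1 / p := by
    rw [← Real.rpow_natCast, ← Real.rpow_mul hp1.le]
    norm_num
    rw [Real.rpow_neg_one]
  have h2 : (((2 : ℕ) : ℂ) * -(((t * Real.log p : ℝ) : ℂ) * I)) = ((-(2 * Real.log p * t) : ℝ) : ℂ) * I := by
    push_cast
    ring
  rw [h1, h2, Complex.exp_ofReal_mul_I_re, Real.cos_neg]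
  field_simp

/-- the second order term -/
noncomputable def q2 (X : ℕ) (t : ℝ) : ℝ :=
  ∑ p ∈ (Finset.Icc 1 X).filter Nat.Prime, 1 / (2 * (p:ℝ)) * Real.cos (2 * Real.log p * t)

theorem summ32 : Summable (fun n : ℕ => 2 * (n : ℝ) ^ (-(3 / 2) : ℝ)) :=
  (Real.summable_nat_rpow.mpr (by norm_num)).mul_left 2

theorem ep_pr (X : ℕ) (t : ℝ) : |ep X t - pr X t - q2 X t| ≤ ∑' n : ℕ, 2 * (n : ℝ) ^ (-(3 / 2) : ℝ) := by
  have h1 : ep X t - pr X t - q2 X t = ∑ p ∈ (Finset.Icc 1 X).filter Nat.Prime,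
      ((-Real.log ‖1 - (p : ℂ) ^ (-(1 / 2 + t * I))‖) - ((p : ℂ) ^ (-(1 / 2 + t * I))).re -
        (((p : ℂ) ^ (-(1 / 2 + t * I))) ^ 2).re / 2) := by
    rw [Finset.sum_sub_distrib, Finset.sum_sub_distrib]
    unfold ep pr q2
    rw [Complex.re_sum, Finset.sum_neg_distrib]
    congr 1
    · congr 1
      refine Finset.sum_congr rfl fun p hp => ?_
      have hp' := (Finset.mem_filter.mp hp).2
      rw [zp_eq p hp'.pos t]
    · refine Finset.sum_congr rfl fun p hp => ?_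
      have hp' := (Finset.mem_filter.mp hp).2
      rw [zp_sq_re p hp'.pos t]
  rw [h1]
  refine (Finset.abs_sum_le_sum_abs _ _).trans ?_
  refine le_trans (Finset.sum_le_sum fun p hp => ?_)
    (summ32.sum_le_tsum ((Finset.Icc 1 X).filter Nat.Prime) (fun n _ => by positivity))
  have hp' := (Finset.mem_filter.mp hp).2
  have hn := zp_norm p hp'.pos t
  have hp1 : (0 : ℝ) < p := by exact_mod_cast hp'.pos
  have hp2 : (2 : ℝ) ≤ p := by exact_mod_cast hp'.two_le
  have h2 : (p : ℝ) ^ (-(1 / 2) : ℝ) ≤ 3 / 4 := by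
    have h3 : (p : ℝ) ^ (-(1 / 2) : ℝ) ≤ (2 : ℝ) ^ (-(1 / 2) : ℝ) :=
      Real.rpow_le_rpow_of_nonpos (by norm_num) hp2 (by norm_num)
    refine h3.trans ?_
    have h4 : ((2 : ℝ) ^ (-(1 / 2) : ℝ)) ^ 2 ≤ (3 / 4) ^ 2 := by
      rw [← Real.rpow_natCast, ← Real.rpow_mul (by norm_num)]
      norm_num
    exact le_of_sq_le_sq h4 (by norm_num)
  have h5 := log_taylor _ (hn.trans_le h2)
  rw [hn] at h5
  refine h5.trans (le_of_eq ?_)
  congr 1
  rw [← Real.rpow_natCast, ← Real.rpow_mul hp1.le]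
  norm_num

theorem int_cos (a A B : ℝ) (ha : a ≠ 0) : |∫ t in A..B, Real.cos (a * t)| ≤ 2 / |a| := by
  have h : ∫ t in A..B, Real.cos (a * t) = (Real.sin (a * B) - Real.sin (a * A)) / a := by
    rw [intervalIntegral.integral_comp_mul_left (fun x => Real.cos x) ha, integral_cos]
    simp [div_eq_inv_mul]
  rw [h, abs_div]
  apply div_le_div_of_nonneg_right _ (abs_nonneg a)
  have h1 := Real.abs_sin_le_one (a * B)
  have h2 := Real.abs_sin_le_one (a * A)
  calc |Real.sin (a * B) - Real.sin (a * A)| ≤ |Real.sin (a * B)| + |Real.sin (a * A)| := abs_sub _ _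
    _ ≤ 2 := by linarith

theorem log_gap (p r X : ℕ) (hr : 0 < r) (hpr : r < p) (hX : p ≤ X) :
    1 / (X : ℝ) ≤ Real.log p - Real.log r := by
  have hr1 : (0 : ℝ) < r := by exact_mod_cast hr
  have hp1 : (0 : ℝ) < p := by exact_mod_cast (hr.trans hpr)
  have hX1 : (p : ℝ) ≤ X := by exact_mod_cast hX
  have hpr1 : (r : ℝ) + 1 ≤ p := by exact_mod_cast hpr
  have h1 := Real.one_sub_inv_le_log_of_pos (x := (p : ℝ) / r) (by positivity)
  rw [Real.log_div hp1.ne' hr1.ne', inv_div] at h1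
  have h2 : 1 / (X : ℝ) ≤ 1 / p := one_div_le_one_div_of_le hp1 hX1
  have h3 : 1 / (p : ℝ) ≤ 1 - r / p := by
    rw [le_sub_iff_add_le, ← add_div, div_le_one hp1]
    linarith
  linarith

theorem int_pair (p r X : ℕ) (hr : 0 < r) (hp : 0 < p) (hpX : p ≤ X) (hrX : r ≤ X) (hne : p ≠ r) (A B : ℝ) :
    |∫ t in A..B, Real.cos (2 * Real.log p * t) * Real.cos (2 * Real.log r * t)| ≤ X := by
  have hX : (0 : ℝ) < X := by exact_mod_cast hp.trans_le hpX
  have hlp : 0 ≤ Real.log p := Real.log_natCast_nonneg p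
  have hlr : 0 ≤ Real.log r := Real.log_natCast_nonneg r
  have hgap : 1 / (X : ℝ) ≤ |Real.log p - Real.log r| := by
    rcases lt_or_gt_of_ne hne with h | h
    · rw [abs_sub_comm]
      exact (log_gap r p X hp h hrX).trans (le_abs_self _)
    · exact (log_gap p r X hr h hpX).trans (le_abs_self _)
  have hsum : |Real.log p - Real.log r| ≤ Real.log p + Real.log r := by
    rw [abs_le]
    constructor <;> linarith
  have hpos : 0 < 1 / (X : ℝ) := by positivity
  have e : ∀ t : ℝ, Real.cos (2 * Real.log p * t) * Real.cos (2 * Real.log r * t) =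
      1 / 2 * Real.cos (2 * (Real.log p - Real.log r) * t) + 1 / 2 * Real.cos (2 * (Real.log p + Real.log r) * t) := by
    intro t
    rw [show 2 * (Real.log p - Real.log r) * t = 2 * Real.log p * t - 2 * Real.log r * t by ring,
      show 2 * (Real.log p + Real.log r) * t = 2 * Real.log p * t + 2 * Real.log r * t by ring,
      Real.cos_sub, Real.cos_add]
    ring
  have hi : ∀ a : ℝ, IntervalIntegrable (fun t : ℝ => 1 / 2 * Real.cos (a * t)) volume A B := by
    intro a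
    apply Continuous.intervalIntegrable
    fun_prop
  simp_rw [e]
  rw [intervalIntegral.integral_add (hi _) (hi _), intervalIntegral.integral_const_mul,
    intervalIntegral.integral_const_mul]
  have h1 := int_cos (2 * (Real.log p - Real.log r)) A B (by
    have : Real.log p - Real.log r ≠ 0 := by
      intro h0
      rw [h0, abs_zero] at hgap
      linarith
    exact mul_ne_zero two_ne_zero this)
  have h2 := int_cos (2 * (Real.log p + Real.log r)) A B (by
    have : 0 < Real.log p + Real.log r := by linarith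
    positivity)
  have h3 : ∀ y : ℝ, 1 / (X : ℝ) ≤ |y| → 2 / |2 * y| ≤ X := by
    intro y hy
    have hy0 : 0 < |y| := hpos.trans_le hy
    rw [abs_mul, abs_two, div_le_iff₀ (by positivity)]
    rw [div_le_iff₀ hX] at hy
    linarith
  have h4 := h1.trans (h3 _ hgap)
  have h5 := h2.trans (h3 _ ((hgap.trans hsum).trans (le_abs_self _)))
  rw [abs_le] at h4 h5 ⊢
  constructor <;> linarith [h4.1, h4.2, h5.1, h5.2]

theorem summ2 : Summable (fun n : ℕ => 1 / (n : ℝ) ^ 2) :=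
  Real.summable_one_div_nat_pow.mpr (by norm_num)

theorem q2_sq (X : ℕ) (T : ℝ) (hT : 0 < T) (hX : (X : ℝ) ^ 3 ≤ T) :
    ∫ t in (T / 2)..(4 * T), q2 X t ^ 2 ≤ (4 * (∑' n : ℕ, 1 / (n : ℝ) ^ 2) + 1) * T := by
  set s := (Finset.Icc 1 X).filter Nat.Prime with hs
  have hmem : ∀ p ∈ s, 0 < p ∧ p ≤ X := by
    intro p hp
    rw [hs, Finset.mem_filter, Finset.mem_Icc] at hp
    exact ⟨hp.2.pos, hp.1.2⟩
  have e : ∀ t : ℝ, q2 X t ^ 2 = ∑ p ∈ s, ∑ r ∈ s, (1 / (2 * (p:ℝ)) * (1 / (2 * (r:ℝ)))) *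
      (Real.cos (2 * Real.log p * t) * Real.cos (2 * Real.log r * t)) := by
    intro t
    rw [sq, q2, Finset.sum_mul_sum]
    refine Finset.sum_congr rfl fun p _ => Finset.sum_congr rfl fun r _ => ?_
    ring
  have hc : ∀ p r : ℕ, Continuous (fun t : ℝ => (1 / (2 * (p:ℝ)) * (1 / (2 * (r:ℝ)))) *
      (Real.cos (2 * Real.log p * t) * Real.cos (2 * Real.log r * t))) := by
    intro p r
    fun_prop
  simp_rw [e]
  rw [intervalIntegral.integral_finsetSum (fun p _ =>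
    (continuous_finsetSum _ fun r _ => hc p r).intervalIntegrable _ _)]
  have h1 : ∀ p ∈ s, (∫ t in (T / 2)..(4 * T), ∑ r ∈ s, (1 / (2 * (p:ℝ)) * (1 / (2 * (r:ℝ)))) *
      (Real.cos (2 * Real.log p * t) * Real.cos (2 * Real.log r * t))) ≤
      ∑ r ∈ s, (if p = r then 1 / (p:ℝ) ^ 2 * (4 * T) else (X : ℝ)) := by
    intro p hp
    rw [intervalIntegral.integral_finsetSum (fun r _ => (hc p r).intervalIntegrable _ _)]
    refine Finset.sum_le_sum fun r hr => ?_
    rw [intervalIntegral.integral_const_mul]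
    obtain ⟨hp0, hpX⟩ := hmem p hp
    obtain ⟨hr0, hrX⟩ := hmem r hr
    have hp1 : (1 : ℝ) ≤ p := by exact_mod_cast hp0
    have hr1 : (1 : ℝ) ≤ r := by exact_mod_cast hr0
    split_ifs with h
    · subst h
      have h2 : ∫ t in (T / 2)..(4 * T), Real.cos (2 * Real.log p * t) * Real.cos (2 * Real.log p * t) ≤
          ∫ t in (T / 2)..(4 * T), (1 : ℝ) := by
        refine intervalIntegral.integral_mono_on (by linarith) ?_ ?_ ?_
        · apply Continuous.intervalIntegrable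
          fun_prop
        · exact intervalIntegrable_const
        · intro t _
          have := Real.cos_sq_le_one (2 * Real.log p * t)
          nlinarith
      rw [intervalIntegral.integral_const, smul_eq_mul, mul_one] at h2
      have h3 : 1 / (2 * (p:ℝ)) * (1 / (2 * (p:ℝ))) ≤ 1 / (p:ℝ) ^ 2 := by
        rw [div_mul_div_comm, one_mul]
        apply one_div_le_one_div_of_le (by positivity)
        nlinarith
      calc 1 / (2 * (p:ℝ)) * (1 / (2 * (p:ℝ))) * ∫ t in (T / 2)..(4 * T),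
            Real.cos (2 * Real.log p * t) * Real.cos (2 * Real.log p * t)
          ≤ 1 / (2 * (p:ℝ)) * (1 / (2 * (p:ℝ))) * (4 * T) :=
            mul_le_mul_of_nonneg_left (by linarith) (by positivity)
        _ ≤ 1 / (p:ℝ) ^ 2 * (4 * T) := mul_le_mul_of_nonneg_right h3 (by positivity)
    · have h2 := int_pair p r X hr0 hp0 hpX hrX h (T / 2) (4 * T)
      have h3 : 1 / (2 * (p:ℝ)) * (1 / (2 * (r:ℝ))) ≤ 1 := by
        rw [div_mul_div_comm, one_mul]
        apply div_le_one_of_le₀ _ (by positivity)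
        nlinarith
      calc 1 / (2 * (p:ℝ)) * (1 / (2 * (r:ℝ))) * ∫ t in (T / 2)..(4 * T),
            Real.cos (2 * Real.log p * t) * Real.cos (2 * Real.log r * t)
          ≤ 1 / (2 * (p:ℝ)) * (1 / (2 * (r:ℝ))) * X :=
            mul_le_mul_of_nonneg_left ((le_abs_self _).trans h2) (by positivity)
        _ ≤ 1 * X := mul_le_mul_of_nonneg_right h3 (Nat.cast_nonneg X)
        _ = X := one_mul _
  refine (Finset.sum_le_sum h1).trans ?_
  have h2 : ∀ p ∈ s, (∑ r ∈ s, (if p = r then 1 / (p:ℝ) ^ 2 * (4 * T) else (X : ℝ))) ≤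
      1 / (p:ℝ) ^ 2 * (4 * T) + s.card * X := by
    intro p hp
    have h3 : ∀ r ∈ s, (if p = r then 1 / (p:ℝ) ^ 2 * (4 * T) else (X : ℝ)) ≤
        (if p = r then 1 / (p:ℝ) ^ 2 * (4 * T) else 0) + X := by
      intro r _
      have hX0 : (0 : ℝ) ≤ X := Nat.cast_nonneg X
      split_ifs <;> linarith
    refine (Finset.sum_le_sum h3).trans ?_
    rw [Finset.sum_add_distrib, Finset.sum_ite_eq, if_pos hp, Finset.sum_const, nsmul_eq_mul]
  refine (Finset.sum_le_sum h2).trans ?_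
  rw [Finset.sum_add_distrib, ← Finset.sum_mul, Finset.sum_const, nsmul_eq_mul]
  have h4 : ∑ p ∈ s, 1 / (p:ℝ) ^ 2 ≤ ∑' n : ℕ, 1 / (n : ℝ) ^ 2 :=
    summ2.sum_le_tsum s (fun n _ => by positivity)
  have h5 : (s.card : ℝ) ≤ X := by
    have : s.card ≤ X := by
      calc s.card ≤ (Finset.Icc 1 X).card := Finset.card_filter_le _ _
        _ = X := by simp
    exact_mod_cast this
  have hX0 : (0 : ℝ) ≤ X := Nat.cast_nonneg X
  have h6 : (s.card : ℝ) * (s.card * X) ≤ X ^ 3 := by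
    calc (s.card : ℝ) * (s.card * X) ≤ X * (X * X) := by gcongr
      _ = X ^ 3 := by ring
  have h7 : (∑ p ∈ s, 1 / (p:ℝ) ^ 2) * (4 * T) ≤ (∑' n : ℕ, 1 / (n : ℝ) ^ 2) * (4 * T) :=
    mul_le_mul_of_nonneg_right h4 (by positivity)
  nlinarith

theorem q2_cont (X : ℕ) : Continuous (q2 X) := by
  unfold q2
  refine continuous_finsetSum _ fun p _ => ?_
  fun_prop

theorem pr_cont (X : ℕ) : Continuous (pr X) := by
  unfold pr e0
  refine Complex.continuous_re.comp (continuous_finsetSum _ fun p _ => ?_)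
  fun_prop

theorem lz_meas : Measurable lz := by
  unfold lz
  apply Real.measurable_log.comp
  apply Continuous.measurable
  apply Continuous.norm
  rw [continuous_iff_continuousAt]
  intro t
  have h1 : (1 / 2 + (t : ℂ) * I) ≠ 1 := by
    intro h
    have := congrArg Complex.re h
    simp at this
  have h2 : ContinuousAt riemannZeta (1 / 2 + (t : ℂ) * I) := (differentiableAt_riemannZeta h1).continuousAt
  have h3 : ContinuousAt (fun t : ℝ => (1 / 2 + (t : ℂ) * I)) t := by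
    apply Continuous.continuousAt
    fun_prop
  exact ContinuousAt.comp (f := fun t : ℝ => (1 / 2 + (t : ℂ) * I)) h2 h3

end APZL

theorem t_APZ : J_APZ := by
  rintro ⟨δ₀, hδ₀, H⟩
  refine ⟨min δ₀ (1 / 8), by positivity, min_le_right _ _, fun κ hκ hκ2 => ?_⟩
  obtain ⟨C, hC, HC⟩ := H κ hκ (hκ2.trans (min_le_left _ _))
  have hκ8 : κ ≤ 1 / 8 := hκ2.trans (min_le_right _ _)
  set C1 := ∑' n : ℕ, 2 * (n : ℝ) ^ (-(3 / 2) : ℝ) with hC1
  set C2 := 4 * (∑' n : ℕ, 1 / (n : ℝ) ^ 2) + 1 with hC2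
  have hC1' : 0 ≤ C1 := tsum_nonneg fun n => by positivity
  have hC2' : 0 ≤ C2 := by
    have : 0 ≤ ∑' n : ℕ, 1 / (n : ℝ) ^ 2 := tsum_nonneg fun n => by positivity
    positivity
  refine ⟨3 * (C + 4 * C1 ^ 2 + C2), by positivity, ?_⟩
  filter_upwards [HC, eventually_ge_atTop 1] with T hT hT1
  obtain ⟨hi, hb⟩ := hT
  set X := ⌊T ^ κ⌋₊ with hX
  have hT0 : 0 < T := by linarith
  have hX3 : (X : ℝ) ^ 3 ≤ T := by
    have h1 : (X : ℝ) ≤ T ^ κ := Nat.floor_le (by positivity)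
    have h2 : T ^ κ ≤ T ^ (1 / 3 : ℝ) := Real.rpow_le_rpow_of_exponent_le hT1 (by linarith)
    calc (X : ℝ) ^ 3 ≤ (T ^ (1 / 3 : ℝ)) ^ 3 := pow_le_pow_left₀ (Nat.cast_nonneg _) (h1.trans h2) 3
      _ = T := by
        rw [← Real.rpow_natCast, ← Real.rpow_mul hT0.le]
        norm_num
  have hpt : ∀ t : ℝ, (lz t - pr X t) ^ 2 ≤ 3 * (|lz t - ep X t| ^ 2 + C1 ^ 2 + APZL.q2 X t ^ 2) := by
    intro t
    have h1 := APZL.ep_pr X t
    rw [← hC1] at h1
    rw [sq_abs]
    have h2 : (ep X t - pr X t - APZL.q2 X t) ^ 2 ≤ C1 ^ 2 := sq_le_sq' (abs_le.mp h1).1 (abs_le.mp h1).2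
    have e : lz t - pr X t = (lz t - ep X t) + (ep X t - pr X t - APZL.q2 X t) + APZL.q2 X t := by ring
    rw [e]
    nlinarith [sq_nonneg ((lz t - ep X t) - (ep X t - pr X t - APZL.q2 X t)),
      sq_nonneg ((lz t - ep X t) - APZL.q2 X t),
      sq_nonneg ((ep X t - pr X t - APZL.q2 X t) - APZL.q2 X t)]
  have hq : IntervalIntegrable (fun t => APZL.q2 X t ^ 2) volume (T / 2) (4 * T) :=
    ((APZL.q2_cont X).pow 2).intervalIntegrable _ _
  have hmaj : IntervalIntegrable (fun t => 3 * (|lz t - ep X t| ^ 2 + C1 ^ 2 + APZL.q2 X t ^ 2)) volume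
      (T / 2) (4 * T) :=
    ((hi.add intervalIntegrable_const).add hq).const_mul 3
  have hint : IntervalIntegrable (fun t => (lz t - pr X t) ^ 2) volume (T / 2) (4 * T) := by
    refine hmaj.mono_fun' ?_ ?_
    · exact ((APZL.lz_meas.sub (APZL.pr_cont X).measurable).pow_const 2).aestronglyMeasurable
    · refine Eventually.of_forall fun t => ?_
      simp only []
      rw [Real.norm_of_nonneg (sq_nonneg _)]
      exact hpt t
  refine ⟨hint, ?_⟩
  have h1 : ∫ t in (T / 2)..(4 * T), (lz t - pr X t) ^ 2 ≤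
      ∫ t in (T / 2)..(4 * T), 3 * (|lz t - ep X t| ^ 2 + C1 ^ 2 + APZL.q2 X t ^ 2) :=
    intervalIntegral.integral_mono_on (by linarith) hint hmaj fun t _ => hpt t
  refine h1.trans ?_
  rw [intervalIntegral.integral_const_mul, intervalIntegral.integral_add (hi.add intervalIntegrable_const) hq,
    intervalIntegral.integral_add hi intervalIntegrable_const, intervalIntegral.integral_const, smul_eq_mul]
  have h2 := APZL.q2_sq X T hT0 hX3
  rw [← hC2] at h2
  have h3 : (4 * T - T / 2) * C1 ^ 2 ≤ 4 * C1 ^ 2 * T := by nlinarith [sq_nonneg C1]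
  linarith

end Pool.Agent.H493.SZ
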