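import Pool.Agent.H493.SZ.Def

set_option autoImplicit false

/-!
# Project SZ (helper493): the characteristic function of prime sums at several points (by helper390)
-/

open Complex Filter Topology Set MeasureTheory

namespace Pool.Agent.H493.SZ

namespace CHAL

lemma e0_add (n : ℕ) (t y : ℝ) : e0 n (t + y) = e0 n y * e0 n t := by
  unfold e0
  rw [← Complex.exp_add]
  congr 1
  push_cast
  ring

lemma norm_e0 (n : ℕ) (t : ℝ) : ‖e0 n t‖ = 1 := by
  unfold e0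
  rw [← neg_mul, ← Complex.ofReal_neg]
  exact Complex.norm_exp_ofReal_mul_I _

lemma e0_re (n : ℕ) (t : ℝ) : (e0 n t).re = Real.cos (t * Real.log n) := by
  unfold e0
  rw [← neg_mul, ← Complex.ofReal_neg, Complex.exp_ofReal_mul_I_re, Real.cos_neg]

lemma e0_im (n : ℕ) (t : ℝ) : (e0 n t).im = -Real.sin (t * Real.log n) := by
  unfold e0
  rw [← neg_mul, ← Complex.ofReal_neg, Complex.exp_ofReal_mul_I_im, Real.sin_neg]

/-- the coefficients -/
noncomputable def co {n : ℕ} (w y : Fin n → ℝ) (p : ℕ) : ℂ :=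
  (((p : ℝ) ^ (-(1 / 2) : ℝ) : ℝ) : ℂ) * ∑ a, ((w a : ℝ) : ℂ) * e0 p (y a)

lemma co_norm_le {n : ℕ} (w y : Fin n → ℝ) (p : ℕ) : ‖co w y p‖ ≤ ∑ a, |w a| := by
  have h1 : ‖(((p : ℝ) ^ (-(1 / 2) : ℝ) : ℝ) : ℂ)‖ ≤ 1 := by
    rw [Complex.norm_real, Real.norm_eq_abs, abs_of_nonneg (Real.rpow_nonneg (Nat.cast_nonneg p) _)]
    rcases Nat.eq_zero_or_pos p with h | h
    · subst h
      rw [Nat.cast_zero, Real.zero_rpow (by norm_num)]
      exact zero_le_one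
    · exact Real.rpow_le_one_of_one_le_of_nonpos (by exact_mod_cast h) (by norm_num)
  have h2 : ‖∑ a, ((w a : ℝ) : ℂ) * e0 p (y a)‖ ≤ ∑ a, |w a| := by
    refine (norm_sum_le _ _).trans (Finset.sum_le_sum fun a _ => ?_)
    rw [norm_mul, norm_e0, mul_one, Complex.norm_real, Real.norm_eq_abs]
  unfold co
  rw [norm_mul]
  calc _ ≤ 1 * ∑ a, |w a| := mul_le_mul h1 h2 (norm_nonneg _) zero_le_one
    _ = _ := one_mul _

lemma co_sq {n : ℕ} (w y : Fin n → ℝ) (p : ℕ) (hp : 0 < p) :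
    ‖co w y p‖ ^ 2 = ∑ a, ∑ b, w a * w b * (Real.cos ((y a - y b) * Real.log p) / p) := by
  have hp' : (0 : ℝ) < p := by exact_mod_cast hp
  have hre : (∑ a, ((w a : ℝ) : ℂ) * e0 p (y a)).re = ∑ a, w a * Real.cos (y a * Real.log p) := by
    rw [Complex.re_sum]
    refine Finset.sum_congr rfl fun a _ => ?_
    rw [Complex.re_ofReal_mul, e0_re]
  have him : (∑ a, ((w a : ℝ) : ℂ) * e0 p (y a)).im = -∑ a, w a * Real.sin (y a * Real.log p) := by
    rw [Complex.im_sum, ← Finset.sum_neg_distrib]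
    refine Finset.sum_congr rfl fun a _ => ?_
    rw [Complex.im_ofReal_mul, e0_im]
    ring
  have hs : ‖∑ a, ((w a : ℝ) : ℂ) * e0 p (y a)‖ ^ 2 =
      ∑ a, ∑ b, w a * w b * Real.cos ((y a - y b) * Real.log p) := by
    rw [← Complex.normSq_eq_norm_sq, Complex.normSq_apply, hre, him, neg_mul_neg, Finset.sum_mul_sum,
      Finset.sum_mul_sum, ← Finset.sum_add_distrib]
    refine Finset.sum_congr rfl fun a _ => ?_
    rw [← Finset.sum_add_distrib]
    refine Finset.sum_congr rfl fun b _ => ?_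
    rw [sub_mul, Real.cos_sub]
    ring
  have hq : ((p : ℝ) ^ (-(1 / 2) : ℝ)) ^ 2 = 1 / p := by
    rw [← Real.rpow_natCast, ← Real.rpow_mul hp'.le]
    have : (-(1 / 2) : ℝ) * ((2 : ℕ) : ℝ) = -1 := by norm_num
    rw [this, Real.rpow_neg_one, one_div]
  unfold co
  rw [norm_mul, mul_pow, hs, Complex.norm_real, Real.norm_eq_abs,
    abs_of_nonneg (Real.rpow_nonneg (Nat.cast_nonneg p) _), hq, Finset.mul_sum]
  refine Finset.sum_congr rfl fun a _ => ?_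
  rw [Finset.mul_sum]
  refine Finset.sum_congr rfl fun b _ => ?_
  ring

lemma sum_pr {n : ℕ} (w y : Fin n → ℝ) (X : ℕ) (t : ℝ) :
    ∑ a, w a * pr X (t + y a) =
      (∑ p ∈ (Finset.Icc 1 X).filter Nat.Prime, co w y p * e0 p t).re := by
  unfold pr co
  have h1 : ∀ a, w a * (∑ p ∈ (Finset.Icc 1 X).filter Nat.Prime,
      (((p : ℝ) ^ (-(1 / 2) : ℝ) : ℝ) : ℂ) * e0 p (t + y a)).re =
      (∑ p ∈ (Finset.Icc 1 X).filter Nat.Prime,
        (((p : ℝ) ^ (-(1 / 2) : ℝ) : ℝ) : ℂ) * (((w a : ℝ) : ℂ) * e0 p (y a)) * e0 p t).re := by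
    intro a
    rw [← Complex.re_ofReal_mul, Finset.mul_sum]
    congr 1
    refine Finset.sum_congr rfl fun p _ => ?_
    rw [e0_add]
    ring
  rw [Finset.sum_congr rfl fun a _ => h1 a, ← Complex.re_sum, Finset.sum_comm]
  congr 1
  refine Finset.sum_congr rfl fun p _ => ?_
  rw [Finset.mul_sum, Finset.sum_mul]

lemma V_tendsto : Tendsto V atTop atTop := Real.tendsto_log_atTop.comp Real.tendsto_log_atTop

lemma W_tendsto : Tendsto (fun T : ℝ => Real.sqrt (V T / 2)) atTop atTop :=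
  Real.tendsto_sqrt_atTop.comp (V_tendsto.atTop_div_const (by norm_num))

/-- the variance converges -/
lemma var_tendsto (hC : S_COVC) {k : ℕ} {d : Fin k → ℝ → ℝ} {S : Matrix (Fin k) (Fin k) ℝ} (hS : Sh d S)
    {h : ℝ → ℝ} (hh : Sc h) (M : ℕ) (u : Fin (k * M) → ℝ) (κ : ℝ) (h0 : 0 < κ) (h1 : κ ≤ 1) :
    Tendsto (fun T : ℝ => ∑ p ∈ (Finset.Icc 1 ⌊T ^ κ⌋₊).filter Nat.Prime,
      ‖co (fun a => u a / Real.sqrt (V T / 2)) (fun a => pt d h a T) p‖ ^ 2) atTop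
      (𝓝 (2 * ∑ a, ∑ b, u a * u b * SM S M a b)) := by
  have hT : Tendsto (fun T : ℝ => 2 * ∑ a, ∑ b, u a * u b *
      ((∑ p ∈ (Finset.Icc 1 ⌊T ^ κ⌋₊).filter Nat.Prime,
        Real.cos ((pt d h a T - pt d h b T) * Real.log p) / p) / V T)) atTop
      (𝓝 (2 * ∑ a, ∑ b, u a * u b * SM S M a b)) := by
    refine Tendsto.const_mul 2 (tendsto_finsetSum _ fun a _ => tendsto_finsetSum _ fun b _ =>
      Tendsto.const_mul _ ?_)
    have hc := hC k d S hS h hh κ h0 h1 (finProdFinEquiv.symm a).1 (finProdFinEquiv.symm b).1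
      ((finProdFinEquiv.symm a).2 : ℕ) ((finProdFinEquiv.symm b).2 : ℕ)
    have he : SM S M a b = if (((finProdFinEquiv.symm a).2 : ℕ)) = ((finProdFinEquiv.symm b).2 : ℕ) then
        S (finProdFinEquiv.symm a).1 (finProdFinEquiv.symm b).1 else 0 := by
      unfold SM
      rw [Matrix.of_apply]
      by_cases hm : (finProdFinEquiv.symm a).2 = (finProdFinEquiv.symm b).2
      · rw [if_pos hm, if_pos (congrArg Fin.val hm)]
      · rw [if_neg hm, if_neg fun hv => hm (Fin.ext hv)]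
    rw [he]
    exact hc
  refine hT.congr' ?_
  filter_upwards [V_tendsto.eventually_gt_atTop 0] with T hV
  have hW : Real.sqrt (V T / 2) ^ 2 = V T / 2 := Real.sq_sqrt (by positivity)
  have hWp : 0 < Real.sqrt (V T / 2) := Real.sqrt_pos.2 (by positivity)
  have h2 : ∀ p ∈ (Finset.Icc 1 ⌊T ^ κ⌋₊).filter Nat.Prime,
      ‖co (fun a => u a / Real.sqrt (V T / 2)) (fun a => pt d h a T) p‖ ^ 2 =
      ∑ a, ∑ b, u a * u b * (2 / V T) * (Real.cos ((pt d h a T - pt d h b T) * Real.log p) / p) := by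
    intro p hp
    have hp0 : 0 < p := (Finset.mem_filter.1 hp).2.pos
    rw [co_sq _ _ p hp0]
    refine Finset.sum_congr rfl fun a _ => Finset.sum_congr rfl fun b _ => ?_
    have : u a / Real.sqrt (V T / 2) * (u b / Real.sqrt (V T / 2)) = u a * u b * (2 / V T) := by
      rw [div_mul_div_comm, ← sq, hW]
      field_simp
    rw [this]
  rw [Finset.sum_congr rfl h2, Finset.mul_sum]
  symm
  rw [Finset.sum_comm]
  refine Finset.sum_congr rfl fun a _ => ?_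
  rw [Finset.mul_sum, Finset.sum_comm]
  refine Finset.sum_congr rfl fun b _ => ?_
  rw [← Finset.mul_sum]
  ring

end CHAL

open CHAL

theorem t_CHA : J_CHA := by
  intro hL hC k d S hk hS h hh M u ε κ₀ hε hκ₀ hκ₀1
  set Q : ℝ := ∑ a, ∑ b, u a * u b * SM S M a b with hQ
  obtain ⟨η, κ₁, T0, hη, hκ₁, hκ₁1, hT0, hmain⟩ := hL (2 * |Q| + 1) (ε / 2) (by positivity) (half_pos hε)
  refine ⟨min κ₁ κ₀, lt_min hκ₁ hκ₀, min_le_right _ _, ?_⟩
  have hκ : 0 < min κ₁ κ₀ := lt_min hκ₁ hκ₀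
  have hκ1 : min κ₁ κ₀ ≤ 1 := (min_le_left _ _).trans hκ₁1
  have hvar := var_tendsto hC hS hh M u (min κ₁ κ₀) hκ hκ1
  rw [← hQ] at hvar
  have hexp : Tendsto (fun T : ℝ => cexp (-((∑ p ∈ (Finset.Icc 1 ⌊T ^ (min κ₁ κ₀)⌋₊).filter Nat.Prime,
      ‖co (fun a => u a / Real.sqrt (V T / 2)) (fun a => pt d h a T) p‖ ^ 2 : ℝ) : ℂ) / 4)) atTop
      (𝓝 (cexp (-((Q : ℝ) : ℂ) / 2))) := by
    have h4 : -((Q : ℝ) : ℂ) / 2 = -((2 * Q : ℝ) : ℂ) / 4 := by
      push_cast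
      ring
    rw [h4]
    have hcont : Continuous (fun x : ℝ => cexp (-((x : ℝ) : ℂ) / 4)) := by fun_prop
    exact (hcont.tendsto (2 * Q)).comp hvar
  have he1 := hexp.eventually (Metric.ball_mem_nhds _ (half_pos hε))
  have he2 : ∀ᶠ T : ℝ in atTop, ∑ p ∈ (Finset.Icc 1 ⌊T ^ (min κ₁ κ₀)⌋₊).filter Nat.Prime,
      ‖co (fun a => u a / Real.sqrt (V T / 2)) (fun a => pt d h a T) p‖ ^ 2 ≤ 2 * |Q| + 1 := by
    have : 2 * Q < 2 * |Q| + 1 := by
      have := le_abs_self Q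
      linarith
    exact (hvar.eventually (Iio_mem_nhds this)).mono fun T hT => le_of_lt hT
  have he3 : ∀ᶠ T : ℝ in atTop, (∑ a, |u a|) / Real.sqrt (V T / 2) ≤ η :=
    ((W_tendsto.const_div_atTop (∑ a, |u a|)).eventually (Iio_mem_nhds hη)).mono fun T hT => le_of_lt hT
  filter_upwards [he1, he2, he3, eventually_ge_atTop T0, eventually_ge_atTop (1 : ℝ),
    W_tendsto.eventually_gt_atTop 0] with T h1 h2 h3 h4 h5 h6
  have hm := hmain T h4 ⌊T ^ (min κ₁ κ₀)⌋₊ (co (fun a => u a / Real.sqrt (V T / 2)) (fun a => pt d h a T))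
    ((Nat.floor_le (Real.rpow_nonneg (by linarith) _)).trans
      (Real.rpow_le_rpow_of_exponent_le h5 (min_le_left _ _))) ?_ h2
  · have hint : (∫ t in T..(2 * T),
        cexp (I * ((∑ a, u a * (pr ⌊T ^ (min κ₁ κ₀)⌋₊ (t + pt d h a T) / Real.sqrt (V T / 2)) : ℝ) : ℂ))) =
        ∫ t in T..(2 * T), cexp (I * ((∑ p ∈ (Finset.Icc 1 ⌊T ^ (min κ₁ κ₀)⌋₊).filter Nat.Prime,
          co (fun a => u a / Real.sqrt (V T / 2)) (fun a => pt d h a T) p * e0 p t).re : ℂ)) := by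
      congr 1
      funext t
      rw [← sum_pr (fun a => u a / Real.sqrt (V T / 2)) (fun a => pt d h a T) ⌊T ^ (min κ₁ κ₀)⌋₊ t]
      congr 4
      funext a
      ring
    rw [hint]
    have hd : ‖cexp (-((∑ p ∈ (Finset.Icc 1 ⌊T ^ (min κ₁ κ₀)⌋₊).filter Nat.Prime,
      ‖co (fun a => u a / Real.sqrt (V T / 2)) (fun a => pt d h a T) p‖ ^ 2 : ℝ) : ℂ) / 4) -
        cexp (-((Q : ℝ) : ℂ) / 2)‖ < ε / 2 := by
      rw [← dist_eq_norm]
      exact h1
    calc _ ≤ _ := norm_sub_le_norm_sub_add_norm_sub _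
          (cexp (-((∑ p ∈ (Finset.Icc 1 ⌊T ^ (min κ₁ κ₀)⌋₊).filter Nat.Prime,
            ‖co (fun a => u a / Real.sqrt (V T / 2)) (fun a => pt d h a T) p‖ ^ 2 : ℝ) : ℂ) / 4)) _
      _ ≤ ε / 2 + ε / 2 := add_le_add hm hd.le
      _ = ε := add_halves ε
  · intro p
    refine (co_norm_le _ _ p).trans ?_
    refine le_trans (le_of_eq ?_) h3
    rw [Finset.sum_div]
    refine Finset.sum_congr rfl fun a _ => ?_
    rw [abs_div, abs_of_pos h6]

end Pool.Agent.H493.SZ
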