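import Pool.Agent.H493.SZ.Def

set_option autoImplicit false

/-!
# CHZ: the characteristic function of `log |ζ|`
-/

open Complex Filter Topology Set MeasureTheory

namespace Pool.Agent.H493.SZ

namespace CHZL

theorem exp_sub_le (x y : ℝ) : ‖cexp (I * (x : ℂ)) - cexp (I * (y : ℂ))‖ ≤ |x - y| := by
  have h1 : cexp (I * (x : ℂ)) - cexp (I * (y : ℂ)) =
      cexp (I * (y : ℂ)) * (cexp (I * ((x - y : ℝ) : ℂ)) - 1) := by
    rw [mul_sub, ← Complex.exp_add, mul_one]
    congr 2
    push_cast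
    ring
  rw [h1, norm_mul]
  have h2 : ‖cexp (I * (y : ℂ))‖ = 1 := by
    rw [mul_comm]
    exact Complex.norm_exp_ofReal_mul_I y
  rw [h2, one_mul, ← Real.norm_eq_abs]
  exact Real.norm_exp_I_mul_ofReal_sub_one_le

theorem cf_int {f : ℝ → ℝ} (hf : Measurable f) (a b : ℝ) :
    IntervalIntegrable (fun t => cexp (I * (f t : ℂ))) volume a b := by
  refine IntervalIntegrable.mono_fun' (g := fun _ => (1 : ℝ)) intervalIntegrable_const ?_ ?_
  · have h1 : Measurable fun t => cexp (I * (f t : ℂ)) := by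
      refine Complex.measurable_exp.comp (Measurable.const_mul ?_ I)
      exact Complex.measurable_ofReal.comp hf
    exact h1.aestronglyMeasurable
  · refine Filter.Eventually.of_forall fun t => ?_
    show ‖cexp (I * (f t : ℂ))‖ ≤ 1
    rw [mul_comm]
    exact (Complex.norm_exp_ofReal_mul_I (f t)).le

theorem cf_diff {T : ℝ} (hT : 0 < T) {f g b : ℝ → ℝ} (hf : Measurable f) (hg : Measurable g)
    (hb : IntervalIntegrable b volume T (2 * T)) (h : ∀ t, |f t - g t| ≤ b t) :
    ‖(1 / T : ℂ) * (∫ t in T..(2 * T), cexp (I * (f t : ℂ))) -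
      (1 / T : ℂ) * (∫ t in T..(2 * T), cexp (I * (g t : ℂ)))‖ ≤
      1 / T * ∫ t in T..(2 * T), b t := by
  rw [← mul_sub, ← intervalIntegral.integral_sub (cf_int hf _ _) (cf_int hg _ _), norm_mul]
  have h1 : ‖(1 / T : ℂ)‖ = 1 / T := by
    rw [norm_div, norm_one, Complex.norm_real, Real.norm_of_nonneg hT.le]
  rw [h1]
  refine mul_le_mul_of_nonneg_left ?_ (by positivity)
  refine intervalIntegral.norm_integral_le_of_norm_le (by linarith) ?_ hb
  exact Filter.Eventually.of_forall fun t _ => (exp_sub_le (f t) (g t)).trans (h t)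

theorem pr_cont (X : ℕ) : Continuous (pr X) := by
  unfold pr e0
  fun_prop

theorem shift {X : ℕ} {T y C : ℝ} (hT : 0 < T) (hy : |y| ≤ T / 2)
    (hI : IntervalIntegrable (fun t => (lz t - pr X t) ^ 2) volume (T / 2) (4 * T))
    (hC : ∫ t in (T / 2)..(4 * T), (lz t - pr X t) ^ 2 ≤ C * T) :
    IntervalIntegrable (fun t => (lz (t + y) - pr X (t + y)) ^ 2) volume T (2 * T) ∧
      ∫ t in T..(2 * T), (lz (t + y) - pr X (t + y)) ^ 2 ≤ C * T := by
  rw [abs_le] at hy
  have h1 : IntervalIntegrable (fun t => (lz t - pr X t) ^ 2) volume (T + y) (2 * T + y) := by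
    refine hI.mono_set ?_
    rw [uIcc_of_le (by linarith), uIcc_of_le (by linarith)]
    exact Icc_subset_Icc (by linarith) (by linarith)
  constructor
  · have h2 := h1.comp_add_right y
    rwa [add_sub_cancel_right, add_sub_cancel_right] at h2
  · have h2 := intervalIntegral.integral_comp_add_right (a := T) (b := 2 * T)
      (fun t => (lz t - pr X t) ^ 2) y
    rw [h2]
    refine le_trans ?_ hC
    exact intervalIntegral.integral_mono_interval (by linarith) (by linarith) (by linarith)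
      (Filter.Eventually.of_forall fun t => sq_nonneg _) hI

theorem abs_le_half (x : ℝ) : |x| ≤ (1 + x ^ 2) / 2 := by
  rw [← sq_abs x]
  nlinarith [sq_nonneg (|x| - 1)]

/-- the points are small compared with `T` -/
theorem pt_small {k : ℕ} {d : Fin k → ℝ → ℝ} {S : Matrix (Fin k) (Fin k) ℝ} (hS : Sh d S)
    {h : ℝ → ℝ} (hh : Sc h) (M : ℕ) :
    ∀ᶠ T : ℝ in atTop, ∀ a : Fin (k * M), |pt d h a T| ≤ T / 2 := by
  obtain ⟨δ, hδ, hd⟩ := hS.small
  have h1 := hh 2 (by norm_num)
  have h2 : ∀ᶠ T : ℝ in atTop, ∀ j, |d j T| ≤ Real.log T ^ (-δ) := by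
    rw [Filter.eventually_all]
    exact hd
  have h3 : ∀ᶠ T : ℝ in atTop, (2 * (M : ℝ) + 2) ^ 2 ≤ Real.log T :=
    Real.tendsto_log_atTop.eventually_ge_atTop _
  have h4 : ∀ᶠ T : ℝ in atTop, (1 : ℝ) ≤ Real.log T :=
    Real.tendsto_log_atTop.eventually_ge_atTop _
  filter_upwards [h1, h2, h3, h4, eventually_gt_atTop 0] with T g1 g2 g3 g4 g5 a
  obtain ⟨s, hs⟩ : ∃ s : ℝ, s = Real.log T ^ (1 / 2 : ℝ) := ⟨_, rfl⟩
  have hs2 : s ^ 2 = Real.log T := by
    rw [hs, ← Real.rpow_natCast, ← Real.rpow_mul (by linarith)]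
    norm_num
  have hs0 : 0 ≤ s := by
    rw [hs]
    exact Real.rpow_nonneg (by linarith) _
  have hsM : 2 * (M : ℝ) + 2 ≤ s := by
    rw [← hs2] at g3
    exact le_of_sq_le_sq g3 hs0
  have hM0 : (0 : ℝ) ≤ M := Nat.cast_nonneg M
  have hT : T = Real.exp (s ^ 2) := by rw [hs2, Real.exp_log g5]
  have e1 : 2 * (M : ℝ) + 2 ≤ Real.exp s := by
    have := Real.add_one_le_exp s
    linarith
  have e2 : Real.exp s * Real.exp s ≤ T := by
    rw [hT, ← Real.exp_add]
    apply Real.exp_le_exp.mpr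
    nlinarith
  have e3 : (1 : ℝ) ≤ Real.exp s := by linarith
  have hh0 : 0 ≤ h T := le_trans (Real.rpow_nonneg (by linarith) _) g1.1
  have hh1 : h T ≤ Real.exp s := by rw [hs]; exact g1.2
  have hd1 : |d (finProdFinEquiv.symm a).1 T| ≤ 1 :=
    (g2 _).trans (Real.rpow_le_one_of_one_le_of_nonpos g4 (by linarith))
  have hm : (((finProdFinEquiv.symm a).2 : ℕ) : ℝ) ≤ M := by
    exact_mod_cast (finProdFinEquiv.symm a).2.isLt.le
  unfold pt
  refine (abs_add_le _ _).trans ?_
  rw [abs_mul, abs_of_nonneg hh0, abs_of_nonneg (Nat.cast_nonneg _ : (0 : ℝ) ≤ _)]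
  have e4 : (((finProdFinEquiv.symm a).2 : ℕ) : ℝ) * h T ≤ M * Real.exp s :=
    mul_le_mul hm hh1 hh0 hM0
  have e5 : (2 * (M : ℝ) + 2) * Real.exp s ≤ Real.exp s * Real.exp s :=
    mul_le_mul_of_nonneg_right e1 (by linarith)
  nlinarith

theorem main_bound {n : ℕ} (hlz : Measurable lz) (u y : Fin n → ℝ) {X : ℕ} {T C W : ℝ}
    (hT : 0 < T) (hW : 0 < W) (hy : ∀ a, |y a| ≤ T / 2)
    (hI : IntervalIntegrable (fun t => (lz t - pr X t) ^ 2) volume (T / 2) (4 * T))
    (hC : ∫ t in (T / 2)..(4 * T), (lz t - pr X t) ^ 2 ≤ C * T) :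
    ‖(1 / T : ℂ) * (∫ t in T..(2 * T),
        cexp (I * ((∑ a, u a * (lz (t + y a) / W) : ℝ) : ℂ))) -
      (1 / T : ℂ) * (∫ t in T..(2 * T),
        cexp (I * ((∑ a, u a * (pr X (t + y a) / W) : ℝ) : ℂ)))‖ ≤
      (∑ a, |u a|) * ((1 + C) / 2) / W := by
  have hs := fun a => shift hT (hy a) hI hC
  have hi : ∀ a, IntervalIntegrable (fun t => |u a| * ((1 + (lz (t + y a) - pr X (t + y a)) ^ 2) / 2))
      volume T (2 * T) := fun a =>
    ((intervalIntegrable_const.add (hs a).1).div_const 2).const_mul _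
  have hb : IntervalIntegrable
      (fun t => (∑ a, |u a| * ((1 + (lz (t + y a) - pr X (t + y a)) ^ 2) / 2)) / W)
      volume T (2 * T) := by
    refine IntervalIntegrable.div_const ?_ W
    have h1 := IntervalIntegrable.sum (μ := volume) (a := T) (b := 2 * T) Finset.univ
      (f := fun a t => |u a| * ((1 + (lz (t + y a) - pr X (t + y a)) ^ 2) / 2))
      fun a _ => hi a
    refine h1.congr ?_
    intro t _
    exact Finset.sum_apply t _ _
  refine (cf_diff hT ?_ ?_ hb fun t => ?_).trans ?_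
  · refine Finset.measurable_fun_sum _ fun a _ => ?_
    exact ((hlz.comp (measurable_add_const (y a))).div_const W).const_mul (u a)
  · refine Finset.measurable_fun_sum _ fun a _ => ?_
    exact (((pr_cont X).measurable.comp (measurable_add_const (y a))).div_const W).const_mul (u a)
  · rw [← Finset.sum_sub_distrib, Finset.sum_div]
    refine (Finset.abs_sum_le_sum_abs _ _).trans (Finset.sum_le_sum fun a _ => ?_)
    have h1 : u a * (lz (t + y a) / W) - u a * (pr X (t + y a) / W) =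
        u a * (lz (t + y a) - pr X (t + y a)) / W := by ring
    rw [h1, abs_div, abs_mul, abs_of_pos hW]
    refine div_le_div_of_nonneg_right ?_ hW.le
    exact mul_le_mul_of_nonneg_left (abs_le_half _) (abs_nonneg _)
  · have h1 : ∫ t in T..(2 * T),
        (∑ a, |u a| * ((1 + (lz (t + y a) - pr X (t + y a)) ^ 2) / 2)) / W =
        (∑ a, |u a| * ((T + ∫ t in T..(2 * T), (lz (t + y a) - pr X (t + y a)) ^ 2) / 2)) / W := by
      rw [intervalIntegral.integral_div, intervalIntegral.integral_finsetSum fun a _ => hi a]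
      congr 1
      refine Finset.sum_congr rfl fun a _ => ?_
      rw [intervalIntegral.integral_const_mul, intervalIntegral.integral_div,
        intervalIntegral.integral_add intervalIntegrable_const (hs a).1,
        intervalIntegral.integral_const, smul_eq_mul, mul_one]
      congr 3
      ring
    rw [h1]
    have h2 : ∑ a, |u a| * ((T + ∫ t in T..(2 * T), (lz (t + y a) - pr X (t + y a)) ^ 2) / 2) ≤
        (∑ a, |u a|) * ((T + C * T) / 2) := by
      rw [Finset.sum_mul]
      refine Finset.sum_le_sum fun a _ => mul_le_mul_of_nonneg_left ?_ (abs_nonneg _)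
      have := (hs a).2
      linarith
    calc 1 / T * ((∑ a, |u a| *
          ((T + ∫ t in T..(2 * T), (lz (t + y a) - pr X (t + y a)) ^ 2) / 2)) / W)
        ≤ 1 / T * ((∑ a, |u a|) * ((T + C * T) / 2) / W) := by gcongr
      _ = (∑ a, |u a|) * ((1 + C) / 2) / W := by
        field_simp

end CHZL

open CHZL

theorem t_CHZ : J_CHZ := by
  intro hCHA hAPZ hMIZ k d S hk hS h hh M u
  obtain ⟨κ₀, hκ₀, hκ₀8, hA⟩ := hAPZ
  rw [Metric.tendsto_nhds]
  intro ε hε
  obtain ⟨κ, hκ, hκle, hB⟩ := hCHA k d S hk hS h hh M u (ε / 2) κ₀ (by linarith) hκ₀ (by linarith)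
  obtain ⟨C, hC0, hC⟩ := hA κ hκ hκle
  have hV : Tendsto (fun T : ℝ => Real.sqrt (V T / 2)) atTop atTop := by
    refine Real.tendsto_sqrt_atTop.comp ?_
    refine Filter.Tendsto.atTop_div_const (by norm_num) ?_
    exact Real.tendsto_log_atTop.comp Real.tendsto_log_atTop
  have hsmall : ∀ᶠ T : ℝ in atTop,
      (∑ a, |u a|) * ((1 + C) / 2) / Real.sqrt (V T / 2) < ε / 2 := by
    have h1 : Tendsto (fun T : ℝ => (∑ a, |u a|) * ((1 + C) / 2) / Real.sqrt (V T / 2)) atTop
        (𝓝 0) := hV.const_div_atTop _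
    exact h1.eventually_lt_const (by linarith)
  filter_upwards [hB, hC, hsmall, pt_small hS hh M, hV.eventually_gt_atTop 0,
    eventually_gt_atTop 0] with T g1 g2 g3 g4 g5 g6
  have h1 := main_bound hMIZ.1 u (fun a => pt d h a T) g6 g5 g4 g2.1 g2.2
  rw [dist_eq_norm]
  refine lt_of_le_of_lt (norm_sub_le_norm_sub_add_norm_sub _ ((1 / T : ℂ) * (∫ t in T..(2 * T),
    cexp (I * ((∑ a, u a * (pr ⌊T ^ κ⌋₊ (t + pt d h a T) / Real.sqrt (V T / 2)) : ℝ) : ℂ)))) _) ?_
  linarith

end Pool.Agent.H493.SZ
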