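import Pool.Agent.H493.SZ.Def

/-!
# COVC: the covariances of the prime sums at shifted points (helper864 for helper493)
-/

set_option autoImplicit false

open Complex Filter Topology Set MeasureTheory

namespace Pool.Agent.H493.SZ

namespace COVCL

theorem tendsto_V : Tendsto V atTop atTop := Real.tendsto_log_atTop.comp Real.tendsto_log_atTop

/-- The logarithm of the modulus of zeta near the line `1`. -/
noncomputable def L (T u : ℝ) : ℝ := Real.log ‖riemannZeta (1 + 1 / Real.log T + u * I)‖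

theorem L_eq (T u : ℝ) :
    L T u = Real.log ‖riemannZeta (1 + ((1 / Real.log T : ℝ) : ℂ) + u * I)‖ := by
  unfold L
  push_cast
  rfl

theorem lim_of_bdd {f g : ℝ → ℝ} {C l : ℝ} (h : ∀ᶠ T in atTop, |f T - g T| ≤ C)
    (hg : Tendsto (fun T => g T / V T) atTop (𝓝 l)) :
    Tendsto (fun T => f T / V T) atTop (𝓝 l) := by
  have h1 : Tendsto (fun T => (f T - g T) / V T) atTop (𝓝 0) := by
    refine squeeze_zero_norm' (a := fun T => C / V T) ?_ (tendsto_const_nhds.div_atTop tendsto_V)
    filter_upwards [h, tendsto_V.eventually_gt_atTop 0] with T h1 h2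
    rw [Real.norm_eq_abs, abs_div, abs_of_pos h2]
    exact div_le_div_of_nonneg_right h1 h2.le
  have h2 := h1.add hg
  rw [zero_add] at h2
  refine h2.congr (fun T => ?_)
  ring

theorem near (hN : S_ZNEAR) : ∃ C : ℝ, 0 ≤ C ∧ ∀ᶠ T : ℝ in atTop, ∀ u : ℝ, |u| ≤ 1 →
    |L T u + Real.log (|u| + 1 / Real.log T)| ≤ C := by
  obtain ⟨C, hC, h⟩ := hN
  refine ⟨C, hC, ?_⟩
  filter_upwards [Real.tendsto_log_atTop.eventually_ge_atTop 1] with T hT u hu
  rw [L_eq]
  exact h (1 / Real.log T) u (by positivity) (by rw [div_le_one (by linarith)]; exact hT) hu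

theorem far (hF : S_ZFAR) : ∃ C : ℝ, 0 ≤ C ∧ ∀ᶠ T : ℝ in atTop, ∀ u : ℝ, 1 ≤ |u| →
    |L T u| ≤ C * (1 + Real.log (Real.log (|u| + 3))) := by
  obtain ⟨C, hC, h⟩ := hF
  refine ⟨C, hC, ?_⟩
  filter_upwards [Real.tendsto_log_atTop.eventually_ge_atTop 1] with T hT u hu
  rw [L_eq]
  exact h (1 / Real.log T) u (by positivity) (by rw [div_le_one (by linarith)]; exact hT) hu

theorem small_tendsto {δ : ℝ} (hδ : 0 < δ) :
    Tendsto (fun T : ℝ => Real.log T ^ (-δ)) atTop (𝓝 0) :=
  (tendsto_rpow_neg_atTop hδ).comp Real.tendsto_log_atTop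

/-- Points at different multiples of the step. -/
theorem bound {C₁ C₂ δ K x z w y s u a : ℝ} {N : ℝ} (hC₁ : 0 ≤ C₁) (hC₂ : 0 ≤ C₂) (hK : 1 ≤ K)
    (hx : 1 ≤ x) (hz : z = x ^ (-δ)) (hδ : 0 < δ) (hw : w = x ^ (-(1 / K))) (hy : y = x ^ (1 / K))
    (hzw : 4 * z ≤ w) (hs : w ≤ s) (hs' : s ≤ Real.exp y) (h1a : 1 ≤ |a|) (haN : |a| ≤ N)
    {di dj : ℝ} (hdi : |di| ≤ z) (hdj : |dj| ≤ z) (hu : u = a * s + (di - dj))
    {l : ℝ} (h1 : |u| ≤ 1 → |l + Real.log (|u| + 1 / x)| ≤ C₁)
    (h2 : 1 ≤ |u| → |l| ≤ C₂ * (1 + Real.log (Real.log (|u| + 3)))) :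
    |l| ≤ (C₁ + Real.log 2 + C₂ * (1 + Real.log (1 + Real.log (N + 5)))) +
      (C₂ + 1) * (Real.log x / K) := by
  have hx0 : 0 < x := by linarith
  have hK0 : 0 < K := by linarith
  have hN1 : 1 ≤ N := h1a.trans haN
  have hw0 : 0 < w := by rw [hw]; exact Real.rpow_pos_of_pos hx0 _
  have hlx : 0 ≤ Real.log x / K := div_nonneg (Real.log_nonneg hx) hK0.le
  have hl2 : 0 < Real.log 2 := Real.log_pos one_lt_two
  have hG0 : 0 ≤ Real.log (N + 5) := Real.log_nonneg (by linarith)
  have hG : 0 ≤ Real.log (1 + Real.log (N + 5)) := Real.log_nonneg (by linarith)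
  have hdd : |di - dj| ≤ 2 * z := (abs_sub _ _).trans (by linarith)
  have hs0 : 0 < s := hw0.trans_le hs
  rcases le_total |u| 1 with hu1 | hu1
  · have h3 := h1 hu1
    have hlow : w / 2 ≤ |u| := by
      have h4 : |a * s| ≤ |u| + |di - dj| := by
        have h5 : a * s = u - (di - dj) := by rw [hu]; ring
        rw [h5]
        exact abs_sub _ _
      rw [abs_mul, abs_of_pos hs0] at h4
      have h5 : s ≤ |a| * s := by nlinarith
      linarith
    have h4 : Real.log (w / 2) ≤ Real.log (|u| + 1 / x) := by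
      apply Real.log_le_log (by positivity)
      have : 0 ≤ 1 / x := by positivity
      linarith
    have h5 : Real.log (w / 2) = -(Real.log x / K) - Real.log 2 := by
      rw [Real.log_div hw0.ne' two_ne_zero, hw, Real.log_rpow hx0]
      ring
    have h6 : Real.log (|u| + 1 / x) ≤ Real.log 2 := by
      apply Real.log_le_log (by
        have : 0 ≤ |u| := abs_nonneg u
        have : 0 < 1 / x := by positivity
        linarith)
      have : 1 / x ≤ 1 := by rw [div_le_one hx0]; exact hx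
      linarith
    rw [h5] at h4
    rw [abs_le] at h3 ⊢
    have h7 : 0 ≤ C₂ * (1 + Real.log (1 + Real.log (N + 5))) := by positivity
    have h8 : 0 ≤ C₂ * (Real.log x / K) := by positivity
    constructor <;> nlinarith
  · have h3 := h2 hu1
    have hz1 : z ≤ 1 := by
      rw [hz]
      exact Real.rpow_le_one_of_one_le_of_nonpos hx (by linarith)
    have hy1 : 1 ≤ y := by
      rw [hy]
      exact Real.one_le_rpow hx (by positivity)
    have hE1 : 1 ≤ Real.exp y := Real.one_le_exp (by linarith)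
    have hup : |u| ≤ N * Real.exp y + 2 := by
      rw [hu]
      refine (abs_add_le _ _).trans ?_
      rw [abs_mul, abs_of_pos hs0]
      have h4 : |a| * s ≤ N * Real.exp y :=
        mul_le_mul haN hs' hs0.le (by linarith)
      linarith
    have h4 : |u| + 3 ≤ (N + 5) * Real.exp y := by nlinarith
    have h5 : Real.log (|u| + 3) ≤ Real.log (N + 5) + y := by
      have h6 := Real.log_le_log (by positivity) h4
      rwa [Real.log_mul (by linarith) (Real.exp_pos _).ne', Real.log_exp] at h6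
    have h6 : Real.log (|u| + 3) ≤ (1 + Real.log (N + 5)) * y := by nlinarith
    have h7 : 0 < Real.log (|u| + 3) := Real.log_pos (by linarith)
    have h8 : Real.log (Real.log (|u| + 3)) ≤
        Real.log (1 + Real.log (N + 5)) + Real.log x / K := by
      have h9 := Real.log_le_log h7 h6
      rw [Real.log_mul (by linarith) (by linarith), hy, Real.log_rpow hx0] at h9
      have h10 : 1 / K * Real.log x = Real.log x / K := by ring
      rwa [h10] at h9
    have h9 : C₂ * (1 + Real.log (Real.log (|u| + 3))) ≤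
        C₂ * (1 + (Real.log (1 + Real.log (N + 5)) + Real.log x / K)) :=
      mul_le_mul_of_nonneg_left (by linarith) hC₂
    nlinarith

end COVCL

open COVCL in
theorem t_COVC : J_COVC := by
  intro hMZ hN hF k d S hd h hh κ hκ hκ1 i j m m'
  obtain ⟨C, hC⟩ := hMZ κ hκ hκ1
  obtain ⟨C₁, hC₁, hnear⟩ := near hN
  obtain ⟨C₂, hC₂, hfar⟩ := far hF
  obtain ⟨δ, hδ, hsm⟩ := hd.small
  refine lim_of_bdd (g := fun T => L T ((m : ℝ) * h T + d i T - (m' * h T + d j T))) (C := C)
    ?_ ?_
  · filter_upwards [hC] with T hT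
    exact hT _
  by_cases hmm : m = m'
  · subst hmm
    rw [if_pos rfl]
    refine lim_of_bdd (g := fun T => -Real.log (|d i T - d j T| + 1 / Real.log T)) (C := C₁)
      ?_ (hd.cov i j)
    have hle := (small_tendsto hδ).eventually_lt_const (show (0 : ℝ) < 1 / 2 by norm_num)
    filter_upwards [hnear, hsm i, hsm j, hle] with T h1 h2 h3 h4
    have hu : (m : ℝ) * h T + d i T - (m * h T + d j T) = d i T - d j T := by ring
    rw [hu, sub_neg_eq_add]
    refine h1 _ ((abs_sub _ _).trans ?_)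
    linarith
  · rw [if_neg hmm, Metric.tendsto_nhds]
    intro ε hε
    set K : ℝ := max 1 (max (2 / δ) (4 * (C₂ + 1) / ε)) with hKdef
    have hK1 : 1 ≤ K := le_max_left _ _
    have hK2 : 2 / δ ≤ K := (le_max_left _ _).trans (le_max_right _ _)
    have hK3 : 4 * (C₂ + 1) / ε ≤ K := (le_max_right _ _).trans (le_max_right _ _)
    have hK0 : 0 < K := by linarith
    have hKδ : 1 / K ≤ δ / 2 := by
      rw [div_le_iff₀ hδ] at hK2
      rw [div_le_iff₀ hK0]
      nlinarith
    have hKε : (C₂ + 1) / K ≤ ε / 4 := by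
      rw [div_le_iff₀ hε] at hK3
      rw [div_le_iff₀ hK0]
      nlinarith
    have hx : Tendsto (fun T : ℝ => Real.log T ^ (δ - 1 / K)) atTop atTop :=
      (tendsto_rpow_atTop (by linarith)).comp Real.tendsto_log_atTop
    set D : ℝ := C₁ + Real.log 2 +
      C₂ * (1 + Real.log (1 + Real.log (((m : ℝ) + m') + 5))) with hD
    filter_upwards [hnear, hfar, hsm i, hsm j, hh K hK1, hx.eventually_ge_atTop 4,
      Real.tendsto_log_atTop.eventually_ge_atTop 1, tendsto_V.eventually_gt_atTop 0,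
      tendsto_V.eventually_ge_atTop (4 * D / ε)] with T h1 h2 h3 h4 h5 h6 h7 h8 h9
    have hlT : 0 < Real.log T := by linarith
    have h4z : 4 * Real.log T ^ (-δ) ≤ Real.log T ^ (-(1 / K)) := by
      have h10 : Real.log T ^ (-(1 / K)) = Real.log T ^ (δ - 1 / K) * Real.log T ^ (-δ) := by
        rw [← Real.rpow_add hlT]
        congr 1
        ring
      rw [h10]
      exact mul_le_mul_of_nonneg_right h6 (Real.rpow_nonneg hlT.le _)
    have ha1 : 1 ≤ |(m : ℝ) - m'| := by
      have h10 : (1 : ℤ) ≤ |(m : ℤ) - m'| :=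
        Int.one_le_abs (sub_ne_zero.2 (by exact_mod_cast hmm))
      exact_mod_cast h10
    have ha2 : |(m : ℝ) - m'| ≤ (m : ℝ) + m' := by
      have h10 : (0 : ℝ) ≤ m := Nat.cast_nonneg _
      have h11 : (0 : ℝ) ≤ m' := Nat.cast_nonneg _
      rw [abs_le]
      constructor <;> linarith
    have h10 := bound (C₁ := C₁) (C₂ := C₂) (δ := δ) (K := K) (x := Real.log T) (s := h T)
      (u := (m : ℝ) * h T + d i T - (m' * h T + d j T)) (a := (m : ℝ) - m')
      (N := (m : ℝ) + m') (di := d i T) (dj := d j T) hC₁ hC₂ hK1 h7 rfl hδ rfl rfl h4z h5.1 h5.2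
      ha1 ha2 h3 h4 (by ring) (h1 _) (h2 _)
    rw [Real.dist_eq, sub_zero, abs_div, abs_of_pos h8, div_lt_iff₀ h8]
    have h11 : (C₂ + 1) * (Real.log (Real.log T) / K) ≤ ε / 4 * V T := by
      have h12 : (C₂ + 1) * (Real.log (Real.log T) / K) = (C₂ + 1) / K * V T := by
        unfold V
        ring
      rw [h12]
      exact mul_le_mul_of_nonneg_right hKε h8.le
    have h12 : D ≤ ε / 4 * V T := by
      rw [div_le_iff₀ hε] at h9
      linarith
    have h13 : 0 < ε * V T := mul_pos hε h8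
    linarith

end Pool.Agent.H493.SZ


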