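import Pool.Agent.H493.SZ.Def

set_option autoImplicit false

/-!
# MIZ: measurability and local square integrability of `log |ζ(1/2 + it)|` (helper385)
-/

open Complex Filter Topology Set MeasureTheory

namespace Pool.Agent.H493.SZ

namespace MIZL

theorem lz_meas : Measurable lz := by
  have h1 : Continuous fun t : ℝ => riemannZeta (1 / 2 + t * I) := by
    rw [continuous_iff_continuousAt]
    intro t
    have h2 : (1 / 2 + t * I : ℂ) ≠ 1 := by
      intro h
      have h3 := congrArg Complex.re h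
      simp at h3
    have h4 : ContinuousAt (fun t : ℝ => (1 / 2 + t * I : ℂ)) t := by fun_prop
    exact ContinuousAt.comp (f := fun t : ℝ => (1 / 2 + t * I : ℂ)) (g := riemannZeta)
      (differentiableAt_riemannZeta h2).continuousAt h4
  exact Real.measurable_log.comp h1.norm.measurable

theorem pr_cont (X : ℕ) : Continuous (pr X) := by
  unfold pr
  refine Complex.continuous_re.comp (continuous_finsetSum _ fun p _ => continuous_const.mul ?_)
  unfold e0
  fun_prop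

theorem loc (hA : S_APZ) : ∃ A : ℝ, 1 ≤ A ∧ ∀ T : ℝ, A ≤ T →
    IntervalIntegrable (fun t => lz t ^ 2) volume (T / 2) (4 * T) := by
  obtain ⟨κ₀, h0, -, h⟩ := hA
  obtain ⟨C, -, hC⟩ := h κ₀ h0 le_rfl
  obtain ⟨T0, hT0⟩ := eventually_atTop.1 hC
  refine ⟨max 1 T0, le_max_left _ _, fun T hT => ?_⟩
  have h1 := (hT0 T ((le_max_right _ _).trans hT)).1
  have h2 : IntervalIntegrable (fun t => pr ⌊T ^ κ₀⌋₊ t ^ 2) volume (T / 2) (4 * T) :=
    ((pr_cont _).pow 2).intervalIntegrable _ _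
  refine ((h1.const_mul 2).add (h2.const_mul 2)).mono_fun
    (lz_meas.pow_const 2).aestronglyMeasurable (Eventually.of_forall fun t => ?_)
  show ‖lz t ^ 2‖ ≤ ‖2 * (lz t - pr ⌊T ^ κ₀⌋₊ t) ^ 2 + 2 * pr ⌊T ^ κ₀⌋₊ t ^ 2‖
  rw [Real.norm_eq_abs, Real.norm_eq_abs, abs_of_nonneg (by positivity),
    abs_of_nonneg (by positivity)]
  nlinarith [sq_nonneg (lz t - 2 * pr ⌊T ^ κ₀⌋₊ t)]

theorem int_A {A : ℝ} (hA1 : 1 ≤ A) (hA : ∀ T : ℝ, A ≤ T →
    IntervalIntegrable (fun t => lz t ^ 2) volume (T / 2) (4 * T)) (n : ℕ) :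
    IntervalIntegrable (fun t => lz t ^ 2) volume A (2 ^ n * A) := by
  induction n with
  | zero =>
    rw [pow_zero, one_mul]
  | succ n ih =>
    refine ih.trans ?_
    have h0 : (1 : ℝ) ≤ 2 ^ n := one_le_pow₀ (by norm_num)
    have h1 : A ≤ 2 ^ n * A := by nlinarith
    have h2 := hA (2 ^ n * A) h1
    refine h2.mono_set ?_
    have h3 : (2 : ℝ) ^ (n + 1) * A = 2 * (2 ^ n * A) := by ring
    rw [h3, uIcc_of_le (by linarith), uIcc_of_le (by linarith)]
    apply Icc_subset_Icc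
    · linarith
    · linarith

theorem int_b {A : ℝ} (hA1 : 1 ≤ A) (hA : ∀ T : ℝ, A ≤ T →
    IntervalIntegrable (fun t => lz t ^ 2) volume (T / 2) (4 * T)) {b : ℝ} (hb : A ≤ b) :
    IntervalIntegrable (fun t => lz t ^ 2) volume A b := by
  obtain ⟨n, hn⟩ := pow_unbounded_of_one_lt b (by norm_num : (1 : ℝ) < 2)
  have h0 : (1 : ℝ) ≤ 2 ^ n := one_le_pow₀ (by norm_num)
  have h1 : b ≤ 2 ^ n * A := by nlinarith
  refine (int_A hA1 hA n).mono_set ?_
  rw [uIcc_of_le hb, uIcc_of_le (hb.trans h1)]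
  exact Icc_subset_Icc le_rfl h1

end MIZL

open MIZL in
theorem t_MIZ : J_MIZ := by
  intro hAPZ
  obtain ⟨A, hA1, hA⟩ := loc hAPZ
  exact ⟨lz_meas, A, hA1, fun a b ha hb => (int_b hA1 hA ha).symm.trans (int_b hA1 hA hb)⟩

end Pool.Agent.H493.SZ
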