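import Mathlib

set_option autoImplicit false

/-! Project SZ (helper493), second list of statements (only Mathlib notions). -/

open Filter Topology Set MeasureTheory
open scoped BoundedContinuousFunction

namespace Pool.Agent.H493.SZ

/-- IND: indicator functions of continuity sets between continuous functions.
PROOF. For `δ > 0` let `g₁ = thickenedIndicator δ (closure A)` and `g₂ = thickenedIndicator δ (closure Aᶜ)` (values in `[0, 1]`, as real
bounded continuous functions).  Then `1 - g₂ ≤ 1_A ≤ g₁`.  Take `g = g₁` and `G = g₁ + g₂ - 1 ≥ 0`: `0 ≤ g₁ - 1_A ≤ G`.  As `δ → 0`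
(`δ_n = 1/(n+1)`), `g₁ → 1_{closure A}` and `g₂ → 1_{closure Aᶜ}` pointwise (`thickenedIndicator_tendsto_indicator_closure`) and boundedly, so
`∫ G → μ (closure A) + μ (closure Aᶜ) - μ univ = μ (frontier A) = 0` (`closure A ∩ closure Aᶜ = frontier A`, union everything). -/
def S_IND : Prop := ∀ (n : ℕ) (μ : Measure (EuclideanSpace ℝ (Fin n))), IsProbabilityMeasure μ →
  ∀ A : Set (EuclideanSpace ℝ (Fin n)), μ (frontier A) = 0 → ∀ ε : ℝ, 0 < ε →
  ∃ g G : EuclideanSpace ℝ (Fin n) →ᵇ ℝ, (∀ x, |A.indicator (fun _ => (1 : ℝ)) x - g x| ≤ G x) ∧ ∫ x, G x ∂μ ≤ ε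

/-- SHB: independent Gaussian variables and signs (used for the sharpness of the entropy bound).
For every real `r ≥ 1` the function `x ↦ |x|` has Gaussian mean `√(2/π) > 0`; see the other lists. -/
def S_RNG : Prop := ∀ c : ℝ, 0 < c → ∃ K : ℝ, 1 ≤ K ∧ ∀ T s : ℝ, K ≤ T →
  Real.log T ^ (-(1 / K)) ≤ s ∧ s ≤ Real.exp (Real.log T ^ (1 / K)) → 0 < s ∧ s ≤ c * T

end Pool.Agent.H493.SZ
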