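import Pool.Agent.H493.SZ.Def
import Pool.Agent.H493.SZ.Def2
import Pool.Agent.H493.SZ.AG
import Pool.Agent.H493.EN.Cnt

set_option autoImplicit false

/-! The values of `log |ζ(1/2 + it)|` as an instance of the abstract theory. -/

open Complex Filter Topology Set MeasureTheory ProbabilityTheory
open scoped BoundedContinuousFunction RealInnerProductSpace NNReal

namespace Pool.Agent.H493.SZ

open Pool.Agent.H493.EN

theorem rng (hR : S_RNG) : Rng Rg := by
  have hl3 : ∀ T : ℝ, 3 ≤ T → 1 ≤ Real.log T := by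
    intro T hT
    rw [Real.le_log_iff_exp_le (by linarith)]
    exact (Real.exp_one_lt_d9.le.trans (by norm_num)).trans hT
  refine ⟨fun K K' T s hK hKK hT h => ?_, fun c hc => ?_, ⟨fun _ => 1, fun K hK => ?_⟩⟩
  · have h1 := hl3 T hT
    have h2 : 1 / K' ≤ 1 / K := one_div_le_one_div_of_le (by linarith) hKK
    refine ⟨(Real.rpow_le_rpow_of_exponent_le h1 (neg_le_neg h2)).trans h.1, h.2.trans ?_⟩
    exact Real.exp_le_exp.2 (Real.rpow_le_rpow_of_exponent_le h1 h2)
  · obtain ⟨K, hK, h1⟩ := hR c hc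
    exact ⟨K, hK, fun T s hT hs => h1 T s hT hs⟩
  · filter_upwards [eventually_ge_atTop (3 : ℝ)] with T hT
    have h1 := hl3 T hT
    have h2 : 0 ≤ 1 / K := by positivity
    refine ⟨?_, ?_⟩
    · exact Real.rpow_le_one_of_one_le_of_nonpos h1 (by linarith)
    · rw [← Real.exp_zero]
      exact Real.exp_le_exp.2 (Real.rpow_nonneg (by linarith) _)

/-- the normalised values at the points `t + d_j(T)` (the variable `s` is a dummy) -/
noncomputable def Xz {k : ℕ} (d : Fin k → ℝ → ℝ) (_s T t : ℝ) : EuclideanSpace ℝ (Fin k) :=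
  WithLp.toLp 2 fun j => lz (t + d j T) / Real.sqrt (V T / 2)

lemma Xz_meas (hM : S_MIZ) {k : ℕ} (d : Fin k → ℝ → ℝ) (s T c : ℝ) : Measurable fun t => Xz d s T (t + c) := by
  unfold Xz
  refine (PiLp.continuous_toLp 2 _).measurable.comp (measurable_pi_lambda _ fun j => ?_)
  exact (hM.1.comp (by fun_prop)).div_const _

theorem Gsz (hE : S_GSE) {k : ℕ} (hk : 0 < k) {d : Fin k → ℝ → ℝ} {S : Matrix (Fin k) (Fin k) ℝ} (hS : Sh d S) :
    Gs k k S (SM S) := by
  obtain ⟨_, h2, h3, h4⟩ := hE k d S hk hS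
  refine ⟨by exact_mod_cast hk, h2, h3, h4, fun M m i j => ?_⟩
  unfold SM
  rw [Matrix.of_apply, Equiv.symm_apply_apply, Equiv.symm_apply_apply]
  simp

lemma inner_pt {k M : ℕ} (d : Fin k → ℝ → ℝ) (h : ℝ → ℝ) (T t : ℝ) (u : EuclideanSpace ℝ (Fin (k * M))) :
    (⟪vecB fun m : Fin M => Xz d (h T) T (t + (m : ℕ) * h T), u⟫ : ℝ) =
      ∑ a, u a * (lz (t + pt d h a T) / Real.sqrt (V T / 2)) := by
  rw [PiLp.inner_apply]
  refine Finset.sum_congr rfl fun a _ => ?_
  unfold vecB Xz pt
  simp only [RCLike.inner_apply, conj_trivial]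
  rw [add_assoc]

theorem Famz (hR : S_RNG) (hM : S_MIZ) (hE : S_GSE) (hC : S_CHZ) (hZ : S_SEZ) {k : ℕ} (hk : 0 < k)
    {d : Fin k → ℝ → ℝ} {S : Matrix (Fin k) (Fin k) ℝ} (hS : Sh d S) : FamR Rg k S (SM S) (Xz d) := by
  intro h hh
  have hr := rng hR
  have hpos : ∀ᶠ T : ℝ in atTop, 0 < h T := by
    obtain ⟨K, hK, h1⟩ := hr.small 1 one_pos
    filter_upwards [hh K hK, eventually_ge_atTop K] with T h2 h3
    exact (h1 T _ h3 h2).1
  have hzero : Tendsto (fun T => h T / T) atTop (𝓝 0) := by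
    rw [Metric.tendsto_nhds]
    intro ε hε
    obtain ⟨K, hK, h1⟩ := hr.small (ε / 2) (by positivity)
    filter_upwards [hh K hK, eventually_ge_atTop K, eventually_gt_atTop (0 : ℝ)] with T h2 h3 h4
    obtain ⟨h5, h6⟩ := h1 T _ h3 h2
    rw [Real.dist_eq, sub_zero, abs_of_nonneg (by positivity), div_lt_iff₀ h4]
    have : 0 < ε / 2 * T := by positivity
    linarith
  have hd : ∀ j, ∀ᶠ T : ℝ in atTop, |d j T| ≤ 1 := by
    obtain ⟨δ, hδ, h1⟩ := hS.small
    intro j
    filter_upwards [h1 j, eventually_ge_atTop (3 : ℝ)] with T h2 h3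
    refine h2.trans (Real.rpow_le_one_of_one_le_of_nonpos ?_ (by linarith))
    rw [Real.le_log_iff_exp_le (by linarith)]
    exact (Real.exp_one_lt_d9.le.trans (by norm_num)).trans h3
  have hd' : ∀ᶠ T : ℝ in atTop, ∀ j, |d j T| ≤ 1 := eventually_all.2 hd
  have hcomp : ∀ᶠ T : ℝ in atTop, ∀ (m : ℕ) (j : Fin k),
      IntervalIntegrable (fun t => (lz (t + m * h T + d j T) / Real.sqrt (V T / 2)) ^ 2) volume T (2 * T) := by
    obtain ⟨A, hA, h1⟩ := hM.2
    filter_upwards [hpos, hd', eventually_ge_atTop (A + 1)] with T h2 h3 h4 m j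
    have h5 := abs_le.1 (h3 j)
    have h6 : 0 ≤ (m : ℝ) * h T := by positivity
    have h7 := (h1 (T + (m * h T + d j T)) (2 * T + (m * h T + d j T)) (by linarith) (by linarith)).comp_add_right
      (m * h T + d j T)
    simp only [add_sub_cancel_right] at h7
    have h8 := h7.div_const (Real.sqrt (V T / 2) ^ 2)
    refine h8.congr fun t _ => ?_
    simp only [div_pow, add_assoc]
  refine ⟨hpos, hzero, ?_, ?_, fun M Φ => ?_, fun m => ?_⟩
  · filter_upwards with T m
    exact (Xz_meas hM d (h T) T (m * h T)).aestronglyMeasurable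
  · filter_upwards [hcomp] with T h2 m
    have h3 := IntervalIntegrable.sum Finset.univ fun j (_ : j ∈ Finset.univ) => h2 m j
    refine h3.congr fun t _ => ?_
    rw [EuclideanSpace.norm_sq_eq, Finset.sum_apply]
    exact Finset.sum_congr rfl fun j _ => by rw [Real.norm_eq_abs, sq_abs]; rfl
  · refine weak_char ?_ (fun u => ?_) Φ
    · filter_upwards with T
      have h7 : Measurable (fun t => fun m : Fin M => Xz d (h T) T (t + (m : ℕ) * h T)) :=
        measurable_pi_lambda _ fun m => Xz_meas hM d (h T) T _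
      exact (vecB_cont.measurable.comp h7).aemeasurable
    · rw [charG2 ((hE k d S hk hS).2.2.1 M)]
      have h2 := hC k d S hk hS h hh M u
      refine h2.congr fun T => ?_
      congr 1
      refine intervalIntegral.integral_congr fun t _ => ?_
      simp only
      rw [inner_pt]
  · rw [gauss_sq (hE k d S hk hS).2.1]
    have h2 : ∀ j : Fin k, Tendsto (fun T : ℝ => 1 / T * ∫ t in T..(2 * T),
        (lz (t + m * h T + d j T) / Real.sqrt (V T / 2)) ^ 2) atTop (𝓝 (S j j)) := by
      intro j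
      rw [(hE k d S hk hS).1 j]
      have h3 := hZ (fun T => m * h T + d j T) ?_
      · refine h3.congr fun T => ?_
        simp only [add_assoc]
      · have h4 : Tendsto (fun T : ℝ => d j T / T) atTop (𝓝 0) := by
          refine squeeze_zero_norm' (a := fun T : ℝ => 1 / T) ?_ ?_
          · filter_upwards [hd j, eventually_gt_atTop (0 : ℝ)] with T h5 h6
            rw [Real.norm_eq_abs, abs_div, abs_of_pos h6]
            gcongr
          · simpa using (tendsto_inv_atTop_zero : Tendsto (fun T : ℝ => T⁻¹) atTop (𝓝 0))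
        have h5 := (hzero.const_mul (m : ℝ)).add h4
        rw [mul_zero, add_zero] at h5
        refine h5.congr fun T => by ring
    have h3 := tendsto_finsetSum Finset.univ fun j _ => h2 j
    refine h3.congr' ?_
    filter_upwards [hcomp] with T h4
    rw [← Finset.mul_sum, ← intervalIntegral.integral_finsetSum fun j _ => h4 m j]
    congr 1
    refine intervalIntegral.integral_congr fun t _ => ?_
    beta_reduce
    rw [EuclideanSpace.norm_sq_eq]
    exact Finset.sum_congr rfl fun j _ => by rw [Real.norm_eq_abs, sq_abs]; rfl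

end Pool.Agent.H493.SZ
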