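import Pool.Agent.H493.SZ.Def2

set_option autoImplicit false

/-! Project SZ (helper493): the range of the steps (by helper390) -/

namespace Pool.Agent.H493.SZ

theorem t_RNG : S_RNG := by
  intro c hc
  have hL4 : (4 : ℝ) ≤ max 4 (-2 * Real.log c) := le_max_left _ _
  have hLc : -2 * Real.log c ≤ max 4 (-2 * Real.log c) := le_max_right _ _
  generalize max 4 (-2 * Real.log c) = L at hL4 hLc
  have hK : (2 : ℝ) ≤ Real.exp L := by
    have := Real.add_one_le_exp L
    linarith
  refine ⟨Real.exp L, by linarith, ?_⟩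
  intro T s hT h12
  have hT0 : 0 < T := (Real.exp_pos _).trans_le hT
  have hy : L ≤ Real.log T := (Real.le_log_iff_exp_le hT0).2 hT
  have hy4 : 4 ≤ Real.log T := hL4.trans hy
  refine ⟨lt_of_lt_of_le (Real.rpow_pos_of_pos (by linarith) _) h12.1, h12.2.trans ?_⟩
  have h3 : Real.log T ^ (1 / Real.exp L) ≤ Real.log T ^ (1 / 2 : ℝ) :=
    Real.rpow_le_rpow_of_exponent_le (by linarith) (one_div_le_one_div_of_le (by norm_num) hK)
  have h4 : Real.log T ^ (1 / 2 : ℝ) ≤ Real.log T / 2 := by
    rw [← Real.sqrt_eq_rpow]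
    exact Real.sqrt_le_iff.2 ⟨by linarith, by nlinarith⟩
  calc Real.exp (Real.log T ^ (1 / Real.exp L)) ≤ Real.exp (Real.log c + Real.log T) :=
        Real.exp_le_exp.2 (by linarith)
    _ = c * T := by rw [Real.exp_add, Real.exp_log hc, Real.exp_log hT0]

end Pool.Agent.H493.SZ
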