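import Pool.Agent.H493.SZ.Def

set_option autoImplicit false

open Complex Filter Topology Set MeasureTheory

namespace Pool.Agent.H493.SZ

namespace SEZL

lemma e0_add (n : ℕ) (t y : ℝ) : e0 n (t + y) = e0 n y * e0 n t := by
  unfold e0
  rw [← Complex.exp_add]
  congr 1
  push_cast
  ring

lemma e0_norm (n : ℕ) (t : ℝ) : ‖e0 n t‖ = 1 := by
  unfold e0
  have h : -(((t * Real.log n : ℝ) : ℂ) * I) = ((-(t * Real.log n) : ℝ) : ℂ) * I := by
    rw [Complex.ofReal_neg]
    ring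
  rw [h, Complex.norm_exp_ofReal_mul_I]

lemma e0_cont (n : ℕ) : Continuous (e0 n) := by
  unfold e0
  fun_prop

lemma pr_cont (X : ℕ) : Continuous (pr X) := by
  unfold pr
  refine Complex.continuous_re.comp (continuous_finsetSum _ fun p _ => ?_)
  exact continuous_const.mul (e0_cont p)

lemma co_nonneg (p : ℕ) : 0 ≤ (p : ℝ) ^ (-(1 / 2) : ℝ) := Real.rpow_nonneg (Nat.cast_nonneg p) _

lemma co_le_one (p : ℕ) : (p : ℝ) ^ (-(1 / 2) : ℝ) ≤ 1 := by
  rcases Nat.eq_zero_or_pos p with h | h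
  · subst h
    rw [Nat.cast_zero, Real.zero_rpow (by norm_num)]
    exact zero_le_one
  · exact Real.rpow_le_one_of_one_le_of_nonpos (by exact_mod_cast h) (by norm_num)

lemma co_sq {p : ℕ} (hp : 1 ≤ p) : ((p : ℝ) ^ (-(1 / 2) : ℝ)) ^ 2 = 1 / (p : ℝ) := by
  have hp0 : (0 : ℝ) < p := by exact_mod_cast hp
  rw [← Real.rpow_natCast, ← Real.rpow_mul hp0.le]
  have : (-(1 / 2) : ℝ) * ((2 : ℕ) : ℝ) = -1 := by norm_num
  rw [this, Real.rpow_neg_one, one_div]

lemma re_sq (z : ℂ) : z.re ^ 2 = (z ^ 1 * ((starRingEnd ℂ) z) ^ 1).re / 2 + (z ^ 2 * ((starRingEnd ℂ) z) ^ 0).re / 2 := by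
  simp only [pow_one, pow_zero, mul_one, Complex.mul_re, Complex.conj_re, Complex.conj_im, sq]
  ring

/-- the second moment of the shifted prime sum -/
lemma key (hM : S_MOM0) (N : ℕ) (hN : 1 ≤ N) (T y σ : ℝ) (hT : 1 ≤ T) (hσ : 1 ≤ σ) :
    |1 / T * (∫ t in T..(2 * T), (pr N (t + y) / σ) ^ 2) -
      (∑ p ∈ (Finset.Icc 1 N).filter Nat.Prime, 1 / (p : ℝ)) / σ ^ 2 / 2| ≤
    5 * (1 / σ ^ 2) * (1 + (∑ p ∈ (Finset.Icc 1 N).filter Nat.Prime, 1 / (p : ℝ)) / σ ^ 2) ^ 2 +
      2 * (N : ℝ) ^ 4 / T := by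
  have hσ0 : 0 < σ := by linarith
  have hT0 : 0 < T := by linarith
  set S : ℝ := (∑ p ∈ (Finset.Icc 1 N).filter Nat.Prime, 1 / (p : ℝ)) / σ ^ 2 with hS
  have hS0 : 0 ≤ S := div_nonneg (Finset.sum_nonneg fun p _ => by positivity) (by positivity)
  set a : ℕ → ℂ := fun p => (((p : ℝ) ^ (-(1 / 2) : ℝ) / σ : ℝ) : ℂ) * e0 p y with ha
  set A : ℝ → ℂ := fun t => ∑ p ∈ (Finset.Icc 1 N).filter Nat.Prime, a p * e0 p t with hAdef
  have hAc : Continuous A := by
    rw [hAdef]
    exact continuous_finsetSum _ fun p _ => continuous_const.mul (e0_cont p)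
  have hnorm : ∀ p : ℕ, ‖a p‖ = (p : ℝ) ^ (-(1 / 2) : ℝ) / σ := by
    intro p
    rw [ha]
    show ‖(((p : ℝ) ^ (-(1 / 2) : ℝ) / σ : ℝ) : ℂ) * e0 p y‖ = _
    rw [norm_mul, e0_norm, mul_one, Complex.norm_real, Real.norm_eq_abs,
      abs_of_nonneg (div_nonneg (co_nonneg p) hσ0.le)]
  have hnorm' : ∀ p : ℕ, ‖a p‖ ≤ 1 / σ := by
    intro p
    rw [hnorm]
    exact div_le_div_of_nonneg_right (co_le_one p) hσ0.le
  have hsum : ∑ p ∈ (Finset.Icc 1 N).filter Nat.Prime, ‖a p‖ ^ 2 = S := by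
    rw [hS, Finset.sum_div]
    refine Finset.sum_congr rfl fun p hp => ?_
    have hp1 : 1 ≤ p := (Finset.mem_Icc.1 (Finset.mem_filter.1 hp).1).1
    rw [hnorm, div_pow, co_sq hp1]
  have hre : ∀ t : ℝ, pr N (t + y) / σ = (A t).re := by
    intro t
    have h1 : A t = (∑ p ∈ (Finset.Icc 1 N).filter Nat.Prime,
        (((p : ℝ) ^ (-(1 / 2) : ℝ) : ℝ) : ℂ) * e0 p (t + y)) * ((1 / σ : ℝ) : ℂ) := by
      rw [hAdef, Finset.sum_mul]
      refine Finset.sum_congr rfl fun p _ => ?_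
      rw [ha, e0_add]
      show (((p : ℝ) ^ (-(1 / 2) : ℝ) / σ : ℝ) : ℂ) * e0 p y * e0 p t = _
      rw [div_eq_mul_one_div, Complex.ofReal_mul]
      ring
    rw [h1, Complex.re_mul_ofReal, ← pr]
    ring
  have hθ0 : (0 : ℝ) ≤ 1 / σ := by positivity
  have hθ1 : 1 / σ ≤ 1 := by
    rw [div_le_one hσ0]; exact hσ
  have m1 := hM 1 1 N a (1 / σ) T hN hθ0 hθ1 hT hnorm'
  have m2 := hM 2 0 N a (1 / σ) T hN hθ0 hθ1 hT hnorm'
  rw [hsum] at m1 m2
  rw [if_pos rfl] at m1
  rw [if_neg (by norm_num), sub_zero] at m2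
  have hI1 : IntervalIntegrable (fun t => A t ^ 1 * ((starRingEnd ℂ) (A t)) ^ 1) volume T (2 * T) :=
    ((hAc.pow 1).mul ((Complex.continuous_conj.comp hAc).pow 1)).intervalIntegrable _ _
  have hI2 : IntervalIntegrable (fun t => A t ^ 2 * ((starRingEnd ℂ) (A t)) ^ 0) volume T (2 * T) :=
    ((hAc.pow 2).mul ((Complex.continuous_conj.comp hAc).pow 0)).intervalIntegrable _ _
  have hc1 : Continuous fun t => (A t ^ 1 * ((starRingEnd ℂ) (A t)) ^ 1).re / 2 :=
    (Complex.continuous_re.comp ((hAc.pow 1).mul ((Complex.continuous_conj.comp hAc).pow 1))).div_const _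
  have hc2 : Continuous fun t => (A t ^ 2 * ((starRingEnd ℂ) (A t)) ^ 0).re / 2 :=
    (Complex.continuous_re.comp ((hAc.pow 2).mul ((Complex.continuous_conj.comp hAc).pow 0))).div_const _
  have hsplit : ∫ t in T..(2 * T), (pr N (t + y) / σ) ^ 2 =
      (∫ t in T..(2 * T), A t ^ 1 * ((starRingEnd ℂ) (A t)) ^ 1).re / 2 +
      (∫ t in T..(2 * T), A t ^ 2 * ((starRingEnd ℂ) (A t)) ^ 0).re / 2 := by
    have h1 : ∀ t : ℝ, (pr N (t + y) / σ) ^ 2 =
        (A t ^ 1 * ((starRingEnd ℂ) (A t)) ^ 1).re / 2 + (A t ^ 2 * ((starRingEnd ℂ) (A t)) ^ 0).re / 2 := by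
      intro t
      rw [hre, re_sq]
    simp only [h1]
    rw [intervalIntegral.integral_add (hc1.intervalIntegrable _ _) (hc2.intervalIntegrable _ _),
      intervalIntegral.integral_div, intervalIntegral.integral_div]
    have e1 := Complex.reCLM.intervalIntegral_comp_comm hI1
    have e2 := Complex.reCLM.intervalIntegral_comp_comm hI2
    rw [← Complex.reCLM_apply, ← e1, ← Complex.reCLM_apply, ← e2]
    rfl
  set I1 : ℂ := ∫ t in T..(2 * T), A t ^ 1 * ((starRingEnd ℂ) (A t)) ^ 1 with hI1d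
  set I2 : ℂ := ∫ t in T..(2 * T), A t ^ 2 * ((starRingEnd ℂ) (A t)) ^ 0 with hI2d
  have r1 : |1 / T * I1.re - S| ≤ (1 / σ ^ 2) * (1 + S) + 2 * (N : ℝ) ^ 4 / T := by
    have h1 := (Complex.abs_re_le_norm _).trans m1
    have h2 : ((1 / T : ℂ) * I1 - ((Nat.factorial 1 : ℕ) : ℂ) * ((S : ℝ) : ℂ) ^ 1).re = 1 / T * I1.re - S := by
      have h3 : (1 / T : ℂ) = ((1 / T : ℝ) : ℂ) := by push_cast; rfl
      rw [h3, Complex.sub_re, Complex.re_ofReal_mul, Nat.factorial_one, Nat.cast_one, one_mul, pow_one,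
        Complex.ofReal_re]
    rw [h2] at h1
    refine h1.trans (le_of_eq ?_)
    norm_num
  have r2 : |1 / T * I2.re| ≤ 8 * (1 / σ ^ 2) * (1 + S) ^ 2 + 2 * (N : ℝ) ^ 4 / T := by
    have h1 := (Complex.abs_re_le_norm _).trans m2
    have h2 : ((1 / T : ℂ) * I2).re = 1 / T * I2.re := by
      have h3 : (1 / T : ℂ) = ((1 / T : ℝ) : ℂ) := by push_cast; rfl
      rw [h3, Complex.re_ofReal_mul]
    rw [h2] at h1
    refine h1.trans (le_of_eq ?_)
    have h4 : ((Nat.factorial 2 : ℕ) : ℝ) = 2 := by norm_num [Nat.factorial]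
    rw [h4]
    norm_num
  rw [hsplit]
  have h5 : 1 / T * (I1.re / 2 + I2.re / 2) - S / 2 = (1 / T * I1.re - S) / 2 + (1 / T * I2.re) / 2 := by ring
  rw [h5]
  have h6 : (1 / σ ^ 2) * (1 + S) ≤ (1 / σ ^ 2) * (1 + S) ^ 2 := by
    refine mul_le_mul_of_nonneg_left ?_ (by positivity)
    nlinarith
  have h7 : 0 ≤ (1 / σ ^ 2) * (1 + S) ^ 2 := by positivity
  rw [abs_le] at r1 r2 ⊢
  constructor <;> linarith [r1.1, r1.2, r2.1, r2.2]

lemma V_tendsto : Tendsto V atTop atTop := Real.tendsto_log_atTop.comp Real.tendsto_log_atTop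

/-- the sum of `1/p` -/
lemma psum (hC : S_COVC) (κ : ℝ) (h0 : 0 < κ) (h1 : κ ≤ 1) :
    Tendsto (fun T : ℝ => (∑ p ∈ (Finset.Icc 1 ⌊T ^ κ⌋₊).filter Nat.Prime, 1 / (p : ℝ)) / V T) atTop (𝓝 1) := by
  have hSh : Sh (k := 1) (fun _ _ => (0 : ℝ)) (fun _ _ => (1 : ℝ)) := by
    refine ⟨⟨1, one_pos, fun _ => ?_⟩, fun _ _ => ?_⟩
    · filter_upwards [eventually_ge_atTop (1 : ℝ)] with T hT
      rw [abs_zero]
      exact Real.rpow_nonneg (Real.log_nonneg hT) _
    · refine Tendsto.congr' ?_ tendsto_const_nhds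
      filter_upwards [V_tendsto.eventually_gt_atTop 0] with T hT
      rw [sub_self, abs_zero, zero_add, one_div, Real.log_inv, neg_neg]
      exact (div_self hT.ne').symm
  have hSc : Sc (fun _ => (1 : ℝ)) := by
    intro K hK
    filter_upwards [Real.tendsto_log_atTop.eventually_ge_atTop 1] with T hT
    refine ⟨?_, ?_⟩
    · refine Real.rpow_le_one_of_one_le_of_nonpos hT ?_
      have : 0 < 1 / K := by positivity
      linarith
    · exact Real.one_le_exp (Real.rpow_nonneg (by linarith) _)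
  have h := hC 1 (fun _ _ => (0 : ℝ)) (fun _ _ => (1 : ℝ)) hSh (fun _ => (1 : ℝ)) hSc κ h0 h1 0 0 0 0
  rw [if_pos rfl] at h
  refine h.congr fun T => ?_
  congr 1
  refine Finset.sum_congr rfl fun p _ => ?_
  have e : (((0 : ℕ) : ℝ) * 1 + 0 - (((0 : ℕ) : ℝ) * 1 + 0)) * Real.log p = 0 := by ring
  rw [e, Real.cos_zero]

end SEZL

open SEZL

theorem t_SEZ : J_SEZ := by
  intro hM hC hA hI y hy
  obtain ⟨κ, hκ0, hκ1, hA'⟩ := hA
  obtain ⟨C, hC0, hAC⟩ := hA' κ hκ0 le_rfl
  obtain ⟨hmeas, A, hA1, hint⟩ := hI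
  set s : ℝ → ℝ := fun T => Real.sqrt (V T / 2) with hs
  have hs_top : Tendsto s atTop atTop := by
    refine Real.tendsto_sqrt_atTop.comp ?_
    exact V_tendsto.atTop_div_const (by norm_num)
  set N : ℝ → ℕ := fun T => ⌊T ^ κ⌋₊ with hN
  set S : ℝ → ℝ := fun T => (∑ p ∈ (Finset.Icc 1 (N T)).filter Nat.Prime, 1 / (p : ℝ)) / s T ^ 2 with hS
  have hS_lim : Tendsto S atTop (𝓝 2) := by
    have h := (psum hC κ hκ0 (by linarith)).const_mul 2
    rw [mul_one] at h
    refine h.congr' ?_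
    filter_upwards [V_tendsto.eventually_gt_atTop 0] with T hT
    rw [hS, hs]
    show 2 * (_ / V T) = _ / Real.sqrt (V T / 2) ^ 2
    rw [Real.sq_sqrt (by positivity)]
    field_simp
    rfl
  set F : ℝ → ℝ := fun T => 1 / T * ∫ t in T..(2 * T), (pr (N T) (t + y T) / s T) ^ 2 with hF
  set G : ℝ → ℝ := fun T => 1 / T * ∫ t in T..(2 * T), (lz (t + y T) / s T) ^ 2 with hG
  have hs_inv : Tendsto (fun T => 1 / s T) atTop (𝓝 0) := by
    refine (tendsto_inv_atTop_zero.comp hs_top).congr fun T => ?_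
    rw [one_div]
    rfl
  have hs_inv2 : Tendsto (fun T => 1 / s T ^ 2) atTop (𝓝 0) := by
    have h := hs_inv.mul hs_inv
    rw [mul_zero] at h
    refine h.congr fun T => ?_
    rw [one_div, one_div, sq, mul_inv]
  have hN4 : Tendsto (fun T => 2 * (N T : ℝ) ^ 4 / T) atTop (𝓝 0) := by
    have h1 : Tendsto (fun T : ℝ => 2 * T ^ (-(1 / 2) : ℝ)) atTop (𝓝 0) := by
      have := (tendsto_rpow_neg_atTop (y := 1 / 2) (by norm_num)).const_mul 2
      rwa [mul_zero] at this
    refine squeeze_zero' ?_ ?_ h1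
    · filter_upwards [eventually_ge_atTop (1 : ℝ)] with T hT
      positivity
    · filter_upwards [eventually_ge_atTop (1 : ℝ)] with T hT
      have hT0 : 0 < T := by linarith
      have h2 : (N T : ℝ) ≤ T ^ (1 / 8 : ℝ) :=
        (Nat.floor_le (Real.rpow_nonneg hT0.le _)).trans (Real.rpow_le_rpow_of_exponent_le hT hκ1)
      have h3 : (N T : ℝ) ^ 4 ≤ T ^ (1 / 2 : ℝ) := by
        refine (pow_le_pow_left₀ (Nat.cast_nonneg _) h2 4).trans (le_of_eq ?_)
        rw [← Real.rpow_natCast, ← Real.rpow_mul hT0.le]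
        norm_num
      have h4 : T ^ (-(1 / 2) : ℝ) = T ^ (1 / 2 : ℝ) / T := by
        rw [show (-(1 / 2) : ℝ) = 1 / 2 - 1 by norm_num, Real.rpow_sub_one hT0.ne']
      rw [h4, mul_div_assoc]
      refine mul_le_mul_of_nonneg_left ?_ (by norm_num)
      exact div_le_div_of_nonneg_right h3 hT0.le
  have hev : ∀ᶠ T : ℝ in atTop, 1 ≤ T ∧ 1 ≤ s T ∧ |y T| ≤ T / 2 ∧ 2 * A ≤ T ∧ 1 ≤ N T := by
    have e1 : ∀ᶠ T : ℝ in atTop, |y T / T| < 1 / 2 := by
      have := (tendsto_zero_iff_abs_tendsto_zero _).1 hy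
      exact this.eventually_lt_const (by norm_num)
    filter_upwards [eventually_ge_atTop (1 : ℝ), hs_top.eventually_ge_atTop 1, e1,
      eventually_ge_atTop (2 * A)] with T h1 h2 h3 h4
    have hT0 : 0 < T := by linarith
    refine ⟨h1, h2, ?_, h4, ?_⟩
    · rw [abs_div, abs_of_pos hT0, div_lt_iff₀ hT0] at h3
      linarith
    · rw [hN]
      refine Nat.le_floor ?_
      rw [Nat.cast_one]
      exact Real.one_le_rpow h1 hκ0.le
  -- the second moment of the prime sum
  have hF_lim : Tendsto F atTop (𝓝 1) := by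
    have hE : Tendsto (fun T => 5 * (1 / s T ^ 2) * (1 + S T) ^ 2 + 2 * (N T : ℝ) ^ 4 / T) atTop (𝓝 0) := by
      have h1 := ((hs_inv2.const_mul 5).mul ((hS_lim.const_add 1).pow 2)).add hN4
      have e : (5 * 0 * (1 + 2) ^ 2 + 0 : ℝ) = 0 := by norm_num
      rwa [e] at h1
    have hd : Tendsto (fun T => F T - S T / 2) atTop (𝓝 0) := by
      refine squeeze_zero_norm' ?_ hE
      filter_upwards [hev] with T hT
      rw [Real.norm_eq_abs]
      exact key hM (N T) hT.2.2.2.2 T (y T) (s T) hT.1 hT.2.1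
    have h2 := hd.add (hS_lim.div_const 2)
    have e : (0 + 2 / 2 : ℝ) = 1 := by norm_num
    rw [e] at h2
    refine h2.congr fun T => ?_
    ring
  -- comparison
  have hcmp : ∀ᶠ T : ℝ in atTop, G T ≤ (1 + 1 / s T) * F T + (1 + s T) * (C * (1 / s T ^ 2)) ∧
      F T ≤ (1 + 1 / s T) * G T + (1 + s T) * (C * (1 / s T ^ 2)) := by
    filter_upwards [hev, hAC] with T hT hAT
    obtain ⟨h1, h2, h3, h4, h5⟩ := hT
    obtain ⟨hAi, hAb⟩ := hAT
    have hT0 : 0 < T := by linarith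
    have hs0 : 0 < s T := by linarith
    rw [abs_le] at h3
    have hT2 : T ≤ 2 * T := by linarith
    -- the three integrals
    have iB : IntervalIntegrable (fun t => (pr (N T) (t + y T) / s T) ^ 2) volume T (2 * T) := by
      refine Continuous.intervalIntegrable ?_ _ _
      exact (((pr_cont _).comp (continuous_id.add continuous_const)).div_const _).pow 2
    have iL : IntervalIntegrable (fun t => (lz (t + y T) / s T) ^ 2) volume T (2 * T) := by
      have g1 := hint (T + y T) (2 * T + y T) (by linarith) (by linarith)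
      have g2 := (g1.comp_add_right (y T)).div_const (s T ^ 2)
      rw [add_sub_cancel_right, add_sub_cancel_right] at g2
      refine g2.congr fun t _ => ?_
      show lz (t + y T) ^ 2 / s T ^ 2 = (lz (t + y T) / s T) ^ 2
      rw [div_pow]
    have iD0 : IntervalIntegrable (fun t => (lz t - pr ⌊T ^ κ⌋₊ t) ^ 2) volume (T + y T) (2 * T + y T) := by
      refine hAi.mono_set ?_
      rw [Set.uIcc_of_le (by linarith), Set.uIcc_of_le (by linarith)]
      exact Set.Icc_subset_Icc (by linarith) (by linarith)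
    have iD : IntervalIntegrable (fun t => ((lz (t + y T) - pr (N T) (t + y T)) / s T) ^ 2) volume T (2 * T) := by
      have g2 := (iD0.comp_add_right (y T)).div_const (s T ^ 2)
      rw [add_sub_cancel_right, add_sub_cancel_right] at g2
      refine g2.congr fun t _ => ?_
      show (lz (t + y T) - pr ⌊T ^ κ⌋₊ (t + y T)) ^ 2 / s T ^ 2 = _
      rw [div_pow]
    have vD : 1 / T * ∫ t in T..(2 * T), ((lz (t + y T) - pr (N T) (t + y T)) / s T) ^ 2 ≤
        C * (1 / s T ^ 2) := by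
      have g1 : ∫ t in T..(2 * T), ((lz (t + y T) - pr (N T) (t + y T)) / s T) ^ 2 =
          (∫ t in (T + y T)..(2 * T + y T), (lz t - pr ⌊T ^ κ⌋₊ t) ^ 2) / s T ^ 2 := by
        rw [← intervalIntegral.integral_comp_add_right (fun t => (lz t - pr ⌊T ^ κ⌋₊ t) ^ 2) (y T),
          ← intervalIntegral.integral_div]
        refine intervalIntegral.integral_congr fun t _ => ?_
        show ((lz (t + y T) - pr (N T) (t + y T)) / s T) ^ 2 = (lz (t + y T) - pr ⌊T ^ κ⌋₊ (t + y T)) ^ 2 / s T ^ 2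
        rw [div_pow]
      have g2 : ∫ t in (T + y T)..(2 * T + y T), (lz t - pr ⌊T ^ κ⌋₊ t) ^ 2 ≤
          ∫ t in (T / 2)..(4 * T), (lz t - pr ⌊T ^ κ⌋₊ t) ^ 2 := by
        refine intervalIntegral.integral_mono_interval (by linarith) (by linarith) (by linarith) ?_ hAi
        exact Filter.Eventually.of_forall fun t => sq_nonneg _
      have g3 := g2.trans hAb
      rw [g1]
      have g4 : (∫ t in (T + y T)..(2 * T + y T), (lz t - pr ⌊T ^ κ⌋₊ t) ^ 2) / s T ^ 2 ≤ C * T / s T ^ 2 :=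
        div_le_div_of_nonneg_right g3 (by positivity)
      calc 1 / T * ((∫ t in (T + y T)..(2 * T + y T), (lz t - pr ⌊T ^ κ⌋₊ t) ^ 2) / s T ^ 2)
          ≤ 1 / T * (C * T / s T ^ 2) := mul_le_mul_of_nonneg_left g4 (by positivity)
        _ = C * (1 / s T ^ 2) := by field_simp
    -- pointwise inequality
    have hpt : ∀ a b : ℝ, a ^ 2 ≤ (1 + 1 / s T) * b ^ 2 + (1 + s T) * (a - b) ^ 2 := by
      intro a b
      have e : (1 + 1 / s T) * b ^ 2 + (1 + s T) * (a - b) ^ 2 - a ^ 2 =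
          (1 / s T) * (b - s T * (a - b)) ^ 2 := by
        field_simp
        ring
      have e2 : 0 ≤ (1 / s T) * (b - s T * (a - b)) ^ 2 := by positivity
      linarith
    have hη : 0 < 1 / s T := by positivity
    constructor
    · have g := intervalIntegral.integral_mono_on hT2 iL
        ((iB.const_mul (1 + 1 / s T)).add (iD.const_mul (1 + s T))) (fun t _ => by
          have := hpt (lz (t + y T) / s T) (pr (N T) (t + y T) / s T)
          rw [← sub_div] at this
          exact this)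
      rw [intervalIntegral.integral_add (iB.const_mul _) (iD.const_mul _),
        intervalIntegral.integral_const_mul, intervalIntegral.integral_const_mul] at g
      have g' := mul_le_mul_of_nonneg_left g (show 0 ≤ 1 / T by positivity)
      refine g'.trans ?_
      rw [mul_add]
      have k1 : 1 / T * ((1 + 1 / s T) * ∫ t in T..(2 * T), (pr (N T) (t + y T) / s T) ^ 2) =
          (1 + 1 / s T) * F T := by
        rw [hF]; ring
      have k2 : 1 / T * ((1 + s T) * ∫ t in T..(2 * T), ((lz (t + y T) - pr (N T) (t + y T)) / s T) ^ 2) =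
          (1 + s T) * (1 / T * ∫ t in T..(2 * T), ((lz (t + y T) - pr (N T) (t + y T)) / s T) ^ 2) := by
        ring
      rw [k1, k2]
      exact add_le_add le_rfl (mul_le_mul_of_nonneg_left vD (by linarith))
    · have g := intervalIntegral.integral_mono_on hT2 iB
        ((iL.const_mul (1 + 1 / s T)).add (iD.const_mul (1 + s T))) (fun t _ => by
          have := hpt (pr (N T) (t + y T) / s T) (lz (t + y T) / s T)
          rw [← sub_div, ← neg_sub (lz (t + y T)), neg_div, neg_sq] at this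
          exact this)
      rw [intervalIntegral.integral_add (iL.const_mul _) (iD.const_mul _),
        intervalIntegral.integral_const_mul, intervalIntegral.integral_const_mul] at g
      have g' := mul_le_mul_of_nonneg_left g (show 0 ≤ 1 / T by positivity)
      refine g'.trans ?_
      rw [mul_add]
      have k1 : 1 / T * ((1 + 1 / s T) * ∫ t in T..(2 * T), (lz (t + y T) / s T) ^ 2) =
          (1 + 1 / s T) * G T := by
        rw [hG]; ring
      have k2 : 1 / T * ((1 + s T) * ∫ t in T..(2 * T), ((lz (t + y T) - pr (N T) (t + y T)) / s T) ^ 2) =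
          (1 + s T) * (1 / T * ∫ t in T..(2 * T), ((lz (t + y T) - pr (N T) (t + y T)) / s T) ^ 2) := by
        ring
      rw [k1, k2]
      exact add_le_add le_rfl (mul_le_mul_of_nonneg_left vD (by linarith))
  have hEr : Tendsto (fun T => (1 + s T) * (C * (1 / s T ^ 2))) atTop (𝓝 0) := by
    have h1 := (hs_inv2.add hs_inv).const_mul C
    have e : C * (0 + 0) = 0 := by ring
    rw [e] at h1
    refine h1.congr' ?_
    filter_upwards [hs_top.eventually_gt_atTop 0] with T hT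
    field_simp
  have hup : Tendsto (fun T => (1 + 1 / s T) * F T + (1 + s T) * (C * (1 / s T ^ 2))) atTop (𝓝 1) := by
    have h1 := ((hs_inv.const_add 1).mul hF_lim).add hEr
    have e : ((1 + 0) * 1 + 0 : ℝ) = 1 := by norm_num
    rwa [e] at h1
  have hlo : Tendsto (fun T => (F T - (1 + s T) * (C * (1 / s T ^ 2))) / (1 + 1 / s T)) atTop (𝓝 1) := by
    have h1 := (hF_lim.sub hEr).div (hs_inv.const_add 1) (by norm_num)
    have e : ((1 - 0) / (1 + 0) : ℝ) = 1 := by norm_num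
    rwa [e] at h1
  refine tendsto_of_tendsto_of_tendsto_of_le_of_le' hlo hup ?_ ?_
  · filter_upwards [hcmp, hev] with T h1 h2
    have hs0 : 0 < s T := by linarith [h2.2.1]
    have : 0 < 1 + 1 / s T := by positivity
    rw [div_le_iff₀ this]
    have h3 := h1.2
    rw [mul_comm (G T)]
    linarith
  · filter_upwards [hcmp] with T h1
    exact h1.1

end Pool.Agent.H493.SZ
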