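import Pool.Agent.H493.SZ.Def
import Pool.Graph.R_seed8.Y957.VK.Fin1

set_option autoImplicit false

/-! ZFAR: zeta to the right of the line `Re s = 1`, away from the pole. -/

open Complex Filter Topology Set MeasureTheory

namespace Pool.Agent.H493.SZ

namespace ZFARL

theorem pt_eq (ε u : ℝ) : (1 + (ε : ℂ) + (u : ℂ) * I) = ⟨1 + ε, u⟩ := by
  apply Complex.ext
  · simp
  · simp

/-- the compact part -/
theorem near (t₀ : ℝ) : ∃ C : ℝ, 0 ≤ C ∧ ∀ ε u : ℝ, 0 < ε → ε ≤ 1 → 1 ≤ |u| → |u| ≤ t₀ →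
    |Real.log ‖riemannZeta (1 + ε + u * I)‖| ≤ C := by
  have hcomp : IsCompact (Icc (0 : ℝ) 1 ×ˢ (Icc (-t₀) t₀ ∩ {y : ℝ | 1 ≤ |y|})) :=
    isCompact_Icc.prod (isCompact_Icc.inter_right (isClosed_le continuous_const continuous_abs))
  have hcont : ContinuousOn (fun p : ℝ × ℝ => Real.log ‖riemannZeta (1 + (p.1 : ℂ) + p.2 * I)‖)
      (Icc (0 : ℝ) 1 ×ˢ (Icc (-t₀) t₀ ∩ {y : ℝ | 1 ≤ |y|})) := by
    intro p hp
    obtain ⟨h1, h2⟩ := hp
    have hy : 1 ≤ |p.2| := h2.2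
    have hx : 0 ≤ p.1 := h1.1
    have hne : (1 + (p.1 : ℂ) + p.2 * I) ≠ 1 := by
      intro h
      have := congrArg Complex.im h
      simp at this
      rw [this, abs_zero] at hy
      norm_num at hy
    have hz : riemannZeta (1 + (p.1 : ℂ) + p.2 * I) ≠ 0 := by
      apply riemannZeta_ne_zero_of_one_le_re
      simp
      exact hx
    have hc1 : ContinuousAt riemannZeta (1 + (p.1 : ℂ) + p.2 * I) :=
      (differentiableAt_riemannZeta hne).continuousAt
    have hc2 : ContinuousAt (fun p : ℝ × ℝ => (1 + (p.1 : ℂ) + p.2 * I)) p := by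
      fun_prop
    have hc3 : ContinuousAt (fun p : ℝ × ℝ => riemannZeta (1 + (p.1 : ℂ) + p.2 * I)) p :=
      ContinuousAt.comp (f := fun p : ℝ × ℝ => (1 + (p.1 : ℂ) + p.2 * I)) hc1 hc2
    exact (hc3.norm.log (norm_ne_zero_iff.2 hz)).continuousWithinAt
  obtain ⟨C, hC⟩ := hcomp.exists_bound_of_continuousOn hcont
  refine ⟨max C 0, le_max_right _ _, fun ε u h0 h1 hu hut => ?_⟩
  have h := hC (ε, u) ⟨⟨h0.le, h1⟩, ⟨by
    have := abs_le.1 hut
    exact ⟨this.1, this.2⟩, hu⟩⟩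
  rw [Real.norm_eq_abs] at h
  exact h.trans (le_max_left _ _)

end ZFARL

open ZFARL in
theorem t_ZFAR : S_ZFAR := by
  obtain ⟨δ1, K1, t1, hδ1, hδ1', hK1, ht1, hZ⟩ := Pool.Agent.Y957.VK.zeta_all
  obtain ⟨δ2, K2, t2, hδ2, hδ2', hK2, ht2, hI⟩ := Pool.Agent.Y957.VK.zf_all
  obtain ⟨C, hC0, hC⟩ := near (max t1 t2)
  have hK1l : 0 ≤ Real.log K1 := Real.log_nonneg hK1
  refine ⟨C + Real.log K1 + K2 + 1, by positivity, fun ε u h0 h1 hu => ?_⟩
  have hlog4 : 1 ≤ Real.log (|u| + 3) := by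
    rw [Real.le_log_iff_exp_le (by positivity)]
    have := Real.exp_one_lt_d9
    linarith
  have hLL : 0 ≤ Real.log (Real.log (|u| + 3)) := Real.log_nonneg hlog4
  rcases le_or_gt (|u|) (max t1 t2) with h | h
  · refine (hC ε u h0 h1 hu h).trans ?_
    nlinarith [mul_nonneg hC0 hLL, mul_nonneg hK1l hLL]
  · have hu1 : t1 ≤ |u| := (le_max_left _ _).trans h.le
    have hu2 : t2 ≤ |u| := (le_max_right _ _).trans h.le
    have hu3 : 3 ≤ |u| := ht1.trans hu1
    have hlu : 1 ≤ Real.log |u| := by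
      rw [Real.le_log_iff_exp_le (by linarith)]
      have := Real.exp_one_lt_d9
      linarith
    have hlu0 : 0 < Real.log |u| := by linarith
    have hLu : 0 ≤ Real.log (Real.log |u|) := Real.log_nonneg hlu
    have hmono : Real.log (Real.log |u|) ≤ Real.log (Real.log (|u| + 3)) :=
      Real.log_le_log hlu0 (Real.log_le_log (by linarith) (by linarith))
    have e1 : 1 - (Real.log |u|) ^ (δ1 - 1) ≤ 1 + ε := by
      have : 0 ≤ (Real.log |u|) ^ (δ1 - 1) := by positivity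
      linarith
    have e2 : 1 - (Real.log |u|) ^ (δ2 - 1) ≤ 1 + ε := by
      have : 0 ≤ (Real.log |u|) ^ (δ2 - 1) := by positivity
      linarith
    have hup := hZ (1 + ε) u hu1 e1 (by linarith)
    obtain ⟨hne, hlow⟩ := hI (1 + ε) u hu2 e2 (by linarith)
    rw [← pt_eq] at hup hne hlow
    have hpos : 0 < ‖riemannZeta (1 + ε + u * I)‖ := norm_pos_iff.2 hne
    have h3 : Real.log ‖riemannZeta (1 + ε + u * I)‖ ≤
        Real.log K1 + Real.log (Real.log |u|) := by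
      rw [← Real.log_mul (by linarith) hlu0.ne']
      exact Real.log_le_log hpos hup
    have h4 : -Real.log ‖riemannZeta (1 + ε + u * I)‖ ≤ K2 * Real.log (Real.log |u|) := by
      rw [norm_inv] at hlow
      rw [← Real.log_inv, ← Real.log_rpow hlu0]
      exact Real.log_le_log (inv_pos.2 hpos) hlow
    rw [abs_le]
    constructor
    · nlinarith [mul_nonneg hC0 hLL, mul_nonneg hK1l hLL]
    · nlinarith [mul_nonneg hC0 hLL, mul_nonneg hK1l hLL]

end Pool.Agent.H493.SZ
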