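import Pool.Agent.H493.SZ.ZNEAR
import Pool.Agent.H493.SZ.ZFAR
import Pool.Agent.H493.SZ.COVC
import Pool.Agent.H493.SZ.APZ
import Pool.Agent.H493.SZ.MIZ
import Pool.Agent.H493.SZ.CHA
import Pool.Agent.H493.SZ.CHZ
import Pool.Agent.H493.SZ.SEZ
import Pool.Agent.H493.SZ.RNG
import Pool.Agent.H493.SZ.Obz
import Pool.Agent.H203.ME.MOM
import Pool.Agent.H203.ME.CLT
import Pool.Graph.R_pool_sql_team_seeded_3997aac3.Q97.UM.Base8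
import Pool.Graph.R_pool_sql_team_seeded_3997aac3.Q149.UM.MZ

set_option autoImplicit false

/-! Assembly of the lemmas of the project SZ. -/

open Complex Filter Topology Set MeasureTheory

namespace Pool.Agent.H493.SZ

theorem p_MZ0 : S_MZ0 := Pool.Agent.Q149.UM.t_MZ

theorem p_MOM0 : S_MOM0 := Pool.Agent.H203.ME.t_MOM

theorem p_CLT0 : S_CLT0 := Pool.Agent.H203.ME.t_CLT Pool.Agent.H203.ME.t_MOM

theorem p_THP0 : S_THP0 := by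
  obtain ⟨θ, δ₀, hθ, hδ₀, h⟩ := Pool.Agent.Q97.UM.b_THP 2
  refine ⟨δ₀, hδ₀, fun δ hδ hδ1 => ?_⟩
  obtain ⟨C, hC, h1⟩ := h δ hδ hδ1
  refine ⟨C, hC, ?_⟩
  filter_upwards [h1, eventually_ge_atTop (1 : ℝ)] with T h2 h3
  obtain ⟨h4, h5⟩ := h2 1 (by rw [Nat.cast_one]; exact Real.one_le_rpow h3 hθ.le) (fun _ => 1)
  have e1 : ∀ t : ℝ, Pool.Agent.Q97.UM.dp 1 (fun _ => 1) t = 1 := by
    intro t
    unfold Pool.Agent.Q97.UM.dp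
    simp
  have e2 : Pool.Agent.Q97.UM.N2 1 (fun _ => 1) = 1 := by
    unfold Pool.Agent.Q97.UM.N2
    simp
  have e3 : (fun t => |Real.log ‖Pool.Agent.Q97.UM.zt t‖ - Pool.Agent.Q97.UM.EP ⌊T ^ δ⌋₊ t| ^ 2 *
      ‖Pool.Agent.Q97.UM.dp 1 (fun _ => 1) t‖ ^ 2) = fun t => |lz t - ep ⌊T ^ δ⌋₊ t| ^ 2 := by
    funext t
    rw [e1, norm_one, one_pow, mul_one]
    rfl
  rw [e3] at h4 h5
  rw [e2, mul_one] at h5
  exact ⟨h4, h5⟩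

theorem p_COVC : S_COVC := t_COVC p_MZ0 t_ZNEAR t_ZFAR

theorem p_APZ : S_APZ := t_APZ p_THP0

theorem p_MIZ : S_MIZ := t_MIZ p_APZ

theorem p_CHA : S_CHA := t_CHA p_CLT0 p_COVC

theorem p_CHZ : S_CHZ := t_CHZ p_CHA p_APZ p_MIZ

theorem p_SEZ : S_SEZ := t_SEZ p_MOM0 p_COVC p_APZ p_MIZ

end Pool.Agent.H493.SZ
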