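import Pool.Agent.H493.SZ.Def3

set_option autoImplicit false

/-! Project SZ (helper493), task EXB (helper791): exponential moments of `log |ζ| / √(½ log log T)`. -/

open Complex Filter Topology Set MeasureTheory

namespace Pool.Agent.H493.SZ

namespace EXBL

theorem cont_zeta : Continuous fun t : ℝ => riemannZeta (1 / 2 + (t : ℂ) * I) := by
  rw [continuous_iff_continuousAt]
  intro t
  have h1 : (1 / 2 + (t : ℂ) * I) ≠ 1 := by
    intro h
    have := congrArg Complex.re h
    simp at this
  have h2 : ContinuousAt riemannZeta (1 / 2 + (t : ℂ) * I) :=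
    (differentiableAt_riemannZeta h1).continuousAt
  have h3 : Continuous fun t : ℝ => (1 / 2 + (t : ℂ) * I) := by fun_prop
  exact ContinuousAt.comp (f := fun t : ℝ => (1 / 2 + (t : ℂ) * I)) h2 h3.continuousAt

/-- the function which is integrated -/
noncomputable def Z (β t : ℝ) : ℝ := ‖riemannZeta (1 / 2 + (t : ℂ) * I)‖ ^ β

theorem cont_Z {β : ℝ} (hβ : 0 ≤ β) : Continuous (Z β) := by
  unfold Z
  exact cont_zeta.norm.rpow_const fun _ => Or.inr hβ

theorem Z_nonneg (β t : ℝ) : 0 ≤ Z β t := Real.rpow_nonneg (norm_nonneg _) _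

theorem exp_le {β : ℝ} (t : ℝ) : Real.exp (β * lz t) ≤ Z β t + 1 := by
  unfold lz Z
  by_cases h : riemannZeta (1 / 2 + (t : ℂ) * I) = 0
  · rw [h, norm_zero, Real.log_zero, mul_zero, Real.exp_zero]
    have : (0 : ℝ) ≤ 0 ^ β := Real.rpow_nonneg le_rfl _
    linarith
  · have h1 : 0 < ‖riemannZeta (1 / 2 + (t : ℂ) * I)‖ := norm_pos_iff.2 h
    rw [Real.rpow_def_of_pos h1, mul_comm β]
    linarith

theorem meas_lz : Measurable lz := by
  unfold lz
  exact Real.measurable_log.comp cont_zeta.norm.measurable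

end EXBL

open EXBL in
theorem t_EXB : J_EXB := by
  rintro ⟨C₀, hC₀, hM⟩ b hb
  obtain ⟨C₁, hC₁⟩ : ∃ C₁ : ℝ, C₁ = (2 + C₀ * 4) * Real.exp (b ^ 2) := ⟨_, rfl⟩
  have hC₁0 : 0 ≤ C₁ := by
    rw [hC₁]
    positivity
  refine ⟨4 * C₁ + 1, by positivity, ?_⟩
  have h4 : Tendsto (fun T : ℝ => 4 * T) atTop atTop :=
    tendsto_id.const_mul_atTop (by norm_num)
  have hV : Tendsto V atTop atTop := Real.tendsto_log_atTop.comp Real.tendsto_log_atTop
  filter_upwards [h4.eventually (hM 0), hV.eventually_ge_atTop (b ^ 2 / 2),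
    hV.eventually_ge_atTop 1, Real.tendsto_log_atTop.eventually_ge_atTop 4,
    eventually_ge_atTop 1] with T h1 h2 h3 h5 h6 d hd
  obtain ⟨W, hW⟩ : ∃ W : ℝ, W = Real.sqrt (V T / 2) := ⟨_, rfl⟩
  rw [← hW]
  have hW2 : W ^ 2 = V T / 2 := by
    rw [hW, Real.sq_sqrt (by linarith)]
  have hW0 : 0 < W := by
    rw [hW]
    exact Real.sqrt_pos.2 (by linarith)
  obtain ⟨β, hβ⟩ : ∃ β : ℝ, β = b / W := ⟨_, rfl⟩
  have hβ0 : 0 < β := by
    rw [hβ]
    positivity
  have hβ2 : β ^ 2 = 2 * b ^ 2 / V T := by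
    rw [hβ, div_pow, hW2]
    field_simp
  have hβ3 : β ≤ 2 := by
    have h7 : β ^ 2 ≤ 2 ^ 2 := by
      rw [hβ2, div_le_iff₀ (by linarith)]
      linarith
    exact le_of_sq_le_sq h7 (by norm_num)
  have hexp : ∀ t, Real.exp (b * (lz (t + d) / W)) = Real.exp (β * lz (t + d)) := by
    intro t
    congr 1
    rw [hβ]
    ring
  simp only [hexp]
  -- the integral of `Z`
  have hT0 : 0 < T := by linarith
  have hlog4 : Real.log (4 * T) = Real.log 4 + Real.log T := Real.log_mul (by norm_num) hT0.ne'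
  have hl4 : Real.log 4 ≤ 3 := by
    have := Real.log_le_sub_one_of_pos (show (0 : ℝ) < 4 by norm_num)
    linarith
  have hl40 : 0 ≤ Real.log 4 := Real.log_nonneg (by norm_num)
  have hL1 : 1 ≤ Real.log (4 * T) := by linarith
  have hLV : Real.log (Real.log (4 * T)) ≤ 2 * V T := by
    have h7 : Real.log (4 * T) ≤ Real.log T ^ 2 := by
      rw [hlog4]
      nlinarith
    calc Real.log (Real.log (4 * T)) ≤ Real.log (Real.log T ^ 2) :=
          Real.log_le_log (by linarith) h7
      _ = 2 * V T := by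
          rw [Real.log_pow]
          unfold V
          push_cast
          ring
  have hpow : Real.log (4 * T) ^ (β ^ 2 / 4) ≤ Real.exp (b ^ 2) := by
    rw [Real.rpow_def_of_pos (by linarith), Real.exp_le_exp]
    have h7 : 0 ≤ β ^ 2 / 4 := by positivity
    calc Real.log (Real.log (4 * T)) * (β ^ 2 / 4) ≤ (2 * V T) * (β ^ 2 / 4) :=
          mul_le_mul_of_nonneg_right hLV h7
      _ = b ^ 2 := by
          rw [hβ2]
          field_simp
          ring
  have hbl : β * Real.log (4 / β) ≤ 4 := by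
    have h7 : Real.log (4 / β) ≤ 4 / β := by
      have := Real.log_le_sub_one_of_pos (show (0 : ℝ) < 4 / β by positivity)
      linarith
    calc β * Real.log (4 / β) ≤ β * (4 / β) := mul_le_mul_of_nonneg_left h7 hβ0.le
      _ = 4 := by field_simp
  have hneg : Real.log (4 * T) ^ (-(1 / 7) : ℝ) ≤ 1 :=
    Real.rpow_le_one_of_one_le_of_nonpos hL1 (by norm_num)
  have hI1 : ∫ u in (0:ℝ)..1, Z β (u * (4 * T)) ≤ C₁ := by
    have h7 := h1 β hβ0 hβ3
    have e : ∀ u : ℝ, ‖riemannZeta (1 / 2 + ((0 : ℝ) : ℂ) * Complex.I +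
        (u : ℂ) * ((4 * T : ℝ) : ℂ) * Complex.I)‖ ^ β = Z β (u * (4 * T)) := by
      intro u
      unfold Z
      congr 3
      push_cast
      ring
    simp only [e] at h7
    have h8 := (abs_le.1 h7).2
    have hp0 : 0 ≤ Real.log (4 * T) ^ (β ^ 2 / 4) := Real.rpow_nonneg (by linarith) _
    have h9 : (C₀ * β * Real.log (4 / β) + Real.log (4 * T) ^ (-(1 / 7) : ℝ)) *
        Real.log (4 * T) ^ (β ^ 2 / 4) ≤ (C₀ * 4 + 1) * Real.log (4 * T) ^ (β ^ 2 / 4) := by
      refine mul_le_mul_of_nonneg_right ?_ hp0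
      have h10 := mul_le_mul_of_nonneg_left hbl hC₀.le
      linarith
    have h11 : (2 + C₀ * 4) * Real.log (4 * T) ^ (β ^ 2 / 4) ≤ C₁ := by
      rw [hC₁]
      exact mul_le_mul_of_nonneg_left hpow (by positivity)
    linarith
  have hI2 : ∫ t in (0:ℝ)..(4 * T), Z β t ≤ 4 * T * C₁ := by
    have h7 := intervalIntegral.integral_comp_mul_right (a := (0 : ℝ)) (b := 1) (Z β)
      (show (4 * T) ≠ 0 by positivity)
    rw [zero_mul, one_mul, smul_eq_mul] at h7
    rw [h7] at hI1
    have h8 : (0 : ℝ) < 4 * T := by positivity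
    have h9 := mul_le_mul_of_nonneg_left hI1 h8.le
    rw [← mul_assoc, mul_inv_cancel₀ h8.ne', one_mul] at h9
    exact h9
  have hZc := cont_Z hβ0.le
  have hZd : Continuous fun t : ℝ => Z β (t + d) + 1 :=
    (hZc.comp (continuous_id.add continuous_const)).add continuous_const
  have hint : IntervalIntegrable (fun t => Real.exp (β * lz (t + d))) volume T (2 * T) := by
    refine (hZd.intervalIntegrable T (2 * T)).mono_fun ?_ ?_
    · refine Measurable.aestronglyMeasurable ?_
      exact Real.measurable_exp.comp ((meas_lz.comp (measurable_id.add_const d)).const_mul β)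
    · refine Eventually.of_forall fun t => ?_
      show ‖Real.exp (β * lz (t + d))‖ ≤ ‖Z β (t + d) + 1‖
      rw [Real.norm_eq_abs, Real.norm_eq_abs, abs_of_pos (Real.exp_pos _),
        abs_of_nonneg (by linarith [Z_nonneg β (t + d)])]
      exact exp_le (t + d)
  refine ⟨hint, ?_⟩
  have hTT : T ≤ 2 * T := by linarith
  have hd' := abs_le.1 hd
  calc ∫ t in T..(2 * T), Real.exp (β * lz (t + d))
      ≤ ∫ t in T..(2 * T), (Z β (t + d) + 1) :=
        intervalIntegral.integral_mono_on hTT hint (hZd.intervalIntegrable _ _)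
          fun t _ => exp_le (t + d)
    _ = (∫ t in T..(2 * T), Z β (t + d)) + T := by
        rw [intervalIntegral.integral_add]
        · rw [intervalIntegral.integral_const, smul_eq_mul, mul_one]
          ring
        · exact (hZc.comp (continuous_id.add continuous_const)).intervalIntegrable _ _
        · exact continuous_const.intervalIntegrable _ _
    _ = (∫ t in (T + d)..(2 * T + d), Z β t) + T := by
        rw [intervalIntegral.integral_comp_add_right]
    _ ≤ (∫ t in (0:ℝ)..(4 * T), Z β t) + T := by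
        refine add_le_add ?_ le_rfl
        refine intervalIntegral.integral_mono_interval (by linarith) (by linarith) (by linarith)
          ?_ (hZc.intervalIntegrable _ _)
        exact Eventually.of_forall fun t => Z_nonneg β t
    _ ≤ 4 * T * C₁ + T := by linarith
    _ = (4 * C₁ + 1) * T := by ring

end Pool.Agent.H493.SZ
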