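import Pool.Agent.H493.SZ.Def

set_option autoImplicit false

open Complex Filter Topology Set MeasureTheory

namespace Pool.Agent.H493.SZ

namespace GSEL

theorem psd_of {ι : Type} [Fintype ι] (S : Matrix ι ι ℝ) (hs : ∀ i j, S i j = S j i)
    (h : ∀ u : ι → ℝ, 0 ≤ ∑ i, ∑ j, u i * u j * S i j) : S.PosSemidef := by
  refine Matrix.PosSemidef.of_dotProduct_mulVec_nonneg ?_ ?_
  · ext i j
    rw [Matrix.conjTranspose_apply, hs j i]
    simp
  · intro x
    have h1 : star x ⬝ᵥ (S.mulVec x) = ∑ i, ∑ j, x i * x j * S i j := by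
      unfold dotProduct Matrix.mulVec dotProduct
      refine Finset.sum_congr rfl fun i _ => ?_
      rw [Finset.mul_sum]
      refine Finset.sum_congr rfl fun j _ => ?_
      simp only [Pi.star_apply, star_trivial]
      ring
    rw [h1]
    exact h x

theorem cos_quad {k : ℕ} (u a : Fin k → ℝ) (L : ℝ) :
    ∑ i, ∑ j, u i * u j * Real.cos ((a i - a j) * L) =
      (∑ i, u i * Real.cos (a i * L)) ^ 2 + (∑ i, u i * Real.sin (a i * L)) ^ 2 := by
  rw [sq, sq, Finset.sum_mul_sum, Finset.sum_mul_sum, ← Finset.sum_add_distrib]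
  refine Finset.sum_congr rfl fun i _ => ?_
  rw [← Finset.sum_add_distrib]
  refine Finset.sum_congr rfl fun j _ => ?_
  rw [sub_mul, Real.cos_sub]
  ring

theorem V_tendsto : Tendsto V atTop atTop :=
  Real.tendsto_log_atTop.comp Real.tendsto_log_atTop

theorem sc_one : Sc (fun _ => 1) := by
  intro K hK
  have h1 : ∀ᶠ T : ℝ in atTop, (1 : ℝ) ≤ Real.log T := Real.tendsto_log_atTop.eventually_ge_atTop 1
  filter_upwards [h1] with T hT
  refine ⟨?_, ?_⟩
  · exact Real.rpow_le_one_of_one_le_of_nonpos hT (by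
      have : 0 < 1 / K := by positivity
      linarith)
  · exact Real.one_le_exp (by positivity)

theorem sym {k : ℕ} {d : Fin k → ℝ → ℝ} {S : Matrix (Fin k) (Fin k) ℝ} (h : Sh d S) (i j : Fin k) :
    S i j = S j i := by
  refine tendsto_nhds_unique (h.cov i j) ?_
  refine (h.cov j i).congr fun T => ?_
  rw [abs_sub_comm]

theorem diag {k : ℕ} {d : Fin k → ℝ → ℝ} {S : Matrix (Fin k) (Fin k) ℝ} (h : Sh d S) (i : Fin k) :
    S i i = 1 := by
  refine tendsto_nhds_unique (h.cov i i) ?_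
  refine tendsto_const_nhds.congr' ?_
  filter_upwards [V_tendsto.eventually_gt_atTop 0] with T hT
  rw [sub_self, abs_zero, zero_add, one_div, Real.log_inv, neg_neg]
  exact (div_self hT.ne').symm

theorem quad (hC : S_COVC) {k : ℕ} {d : Fin k → ℝ → ℝ} {S : Matrix (Fin k) (Fin k) ℝ} (h : Sh d S)
    (u : Fin k → ℝ) : 0 ≤ ∑ i, ∑ j, u i * u j * S i j := by
  have h1 : ∀ i j, Tendsto (fun T : ℝ => (∑ p ∈ (Finset.Icc 1 ⌊T ^ (1 : ℝ)⌋₊).filter Nat.Prime,
      Real.cos ((d i T - d j T) * Real.log p) / p) / V T) atTop (𝓝 (S i j)) := by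
    intro i j
    have h2 := hC k d S h (fun _ => 1) sc_one 1 one_pos le_rfl i j 0 0
    rw [if_pos rfl] at h2
    refine h2.congr fun T => ?_
    simp only [Nat.cast_zero, zero_mul, zero_add]
  have h2 : Tendsto (fun T : ℝ => ∑ i, ∑ j, u i * u j *
      ((∑ p ∈ (Finset.Icc 1 ⌊T ^ (1 : ℝ)⌋₊).filter Nat.Prime,
        Real.cos ((d i T - d j T) * Real.log p) / p) / V T)) atTop
      (𝓝 (∑ i, ∑ j, u i * u j * S i j)) :=
    tendsto_finsetSum _ fun i _ => tendsto_finsetSum _ fun j _ => (h1 i j).const_mul _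
  refine ge_of_tendsto h2 ?_
  filter_upwards [V_tendsto.eventually_gt_atTop 0] with T hT
  have h3 : ∑ i, ∑ j, u i * u j *
      ((∑ p ∈ (Finset.Icc 1 ⌊T ^ (1 : ℝ)⌋₊).filter Nat.Prime,
        Real.cos ((d i T - d j T) * Real.log p) / p) / V T) =
      (∑ p ∈ (Finset.Icc 1 ⌊T ^ (1 : ℝ)⌋₊).filter Nat.Prime,
        (∑ i, ∑ j, u i * u j * Real.cos ((d i T - d j T) * Real.log p)) / p) / V T := by
    rw [Finset.sum_div]
    have e1 : ∀ i j, u i * u j *
        ((∑ p ∈ (Finset.Icc 1 ⌊T ^ (1 : ℝ)⌋₊).filter Nat.Prime,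
          Real.cos ((d i T - d j T) * Real.log p) / p) / V T) =
        ∑ p ∈ (Finset.Icc 1 ⌊T ^ (1 : ℝ)⌋₊).filter Nat.Prime,
          u i * u j * Real.cos ((d i T - d j T) * Real.log p) / p / V T := by
      intro i j
      rw [Finset.sum_div, Finset.mul_sum]
      refine Finset.sum_congr rfl fun p _ => ?_
      ring
    simp_rw [e1]
    rw [Finset.sum_congr rfl fun i _ => Finset.sum_comm, Finset.sum_comm]
    refine Finset.sum_congr rfl fun p _ => ?_
    simp_rw [Finset.sum_div]
  rw [h3]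
  refine div_nonneg (Finset.sum_nonneg fun p _ => ?_) hT.le
  rw [cos_quad u (fun i => d i T)]
  positivity

theorem sum_split {k M : ℕ} (F : Fin (k * M) → ℝ) :
    ∑ a, F a = ∑ i : Fin k, ∑ m : Fin M, F (finProdFinEquiv (i, m)) := by
  rw [← Equiv.sum_comp finProdFinEquiv F, Fintype.sum_prod_type]

theorem SM_sum {k : ℕ} (S : Matrix (Fin k) (Fin k) ℝ) (M : ℕ) (u : Fin (k * M) → ℝ) :
    ∑ a, ∑ b, u a * u b * SM S M a b = ∑ m : Fin M, ∑ i, ∑ j,
      u (finProdFinEquiv (i, m)) * u (finProdFinEquiv (j, m)) * S i j := by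
  rw [sum_split, Finset.sum_comm]
  refine Finset.sum_congr rfl fun m _ => Finset.sum_congr rfl fun i _ => ?_
  rw [sum_split]
  refine Finset.sum_congr rfl fun j _ => ?_
  rw [Finset.sum_eq_single m]
  · unfold SM
    rw [Matrix.of_apply, Equiv.symm_apply_apply, Equiv.symm_apply_apply, if_pos rfl]
  · intro m' _ hm
    unfold SM
    rw [Matrix.of_apply, Equiv.symm_apply_apply, Equiv.symm_apply_apply, if_neg (Ne.symm hm),
      mul_zero]
  · intro h
    exact absurd (Finset.mem_univ m) h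

theorem SM_symm {k : ℕ} (S : Matrix (Fin k) (Fin k) ℝ) (hs : ∀ i j, S i j = S j i) (M : ℕ)
    (a b : Fin (k * M)) : SM S M a b = SM S M b a := by
  unfold SM
  rw [Matrix.of_apply, Matrix.of_apply]
  by_cases h : (finProdFinEquiv.symm a).2 = (finProdFinEquiv.symm b).2
  · rw [if_pos h, if_pos h.symm, hs]
  · rw [if_neg h, if_neg (fun h' => h h'.symm)]

theorem abs_le_one {k : ℕ} {S : Matrix (Fin k) (Fin k) ℝ} (hd : ∀ i, S i i = 1)
    (hs : ∀ i j, S i j = S j i) (hq : ∀ u : Fin k → ℝ, 0 ≤ ∑ i, ∑ j, u i * u j * S i j)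
    (i j : Fin k) : |S i j| ≤ 1 := by
  classical
  have key : ∀ c : ℝ, ∑ a, ∑ b, ((if a = i then (1 : ℝ) else 0) + (if a = j then c else 0)) *
      ((if b = i then (1 : ℝ) else 0) + (if b = j then c else 0)) * S a b =
      S i i + 2 * c * S i j + c ^ 2 * S j j := by
    intro c
    have e1 : ∀ a, ∑ b, ((if a = i then (1 : ℝ) else 0) + (if a = j then c else 0)) *
        ((if b = i then (1 : ℝ) else 0) + (if b = j then c else 0)) * S a b =
        (if a = i then (S a i + c * S a j) else 0) + (if a = j then c * (S a i + c * S a j) else 0) := by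
      intro a
      have e2 : ∑ b, ((if a = i then (1 : ℝ) else 0) + (if a = j then c else 0)) *
          ((if b = i then (1 : ℝ) else 0) + (if b = j then c else 0)) * S a b =
          ((if a = i then (1 : ℝ) else 0) + (if a = j then c else 0)) *
            ∑ b, ((if b = i then S a b else 0) + (if b = j then c * S a b else 0)) := by
        rw [Finset.mul_sum]
        refine Finset.sum_congr rfl fun b _ => ?_
        split_ifs <;> ring
      rw [e2, Finset.sum_add_distrib, Finset.sum_ite_eq', Finset.sum_ite_eq',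
        if_pos (Finset.mem_univ _), if_pos (Finset.mem_univ _)]
      split_ifs <;> ring
    rw [Finset.sum_congr rfl fun a _ => e1 a, Finset.sum_add_distrib, Finset.sum_ite_eq',
      Finset.sum_ite_eq', if_pos (Finset.mem_univ _), if_pos (Finset.mem_univ _), hs j i]
    ring
  have h1 := hq (fun a => (if a = i then (1 : ℝ) else 0) + (if a = j then 1 else 0))
  have h2 := hq (fun a => (if a = i then (1 : ℝ) else 0) + (if a = j then (-1) else 0))
  rw [key, hd, hd] at h1 h2
  rw [abs_le]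
  constructor <;> linarith

theorem quad_le {k : ℕ} {S : Matrix (Fin k) (Fin k) ℝ} (h1 : ∀ i j, |S i j| ≤ 1) (v : Fin k → ℝ) :
    ∑ i, ∑ j, v i * v j * S i j ≤ k * ∑ i, v i ^ 2 := by
  calc ∑ i, ∑ j, v i * v j * S i j ≤ ∑ i, ∑ j, |v i| * |v j| := by
        refine Finset.sum_le_sum fun i _ => Finset.sum_le_sum fun j _ => ?_
        calc v i * v j * S i j ≤ |v i * v j * S i j| := le_abs_self _
          _ = |v i| * |v j| * |S i j| := by rw [abs_mul, abs_mul]
          _ ≤ |v i| * |v j| * 1 := mul_le_mul_of_nonneg_left (h1 i j) (by positivity)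
          _ = _ := mul_one _
    _ = (∑ i, |v i|) ^ 2 := by rw [sq, Finset.sum_mul_sum]
    _ ≤ (Finset.univ : Finset (Fin k)).card * ∑ i, |v i| ^ 2 := sq_sum_le_card_mul_sum_sq
    _ = k * ∑ i, v i ^ 2 := by
        rw [Finset.card_univ, Fintype.card_fin]
        congr 1
        exact Finset.sum_congr rfl fun i _ => sq_abs _

end GSEL

open GSEL in
/-- job GSE -/
theorem t_GSE : J_GSE := by
  intro hC k d S _ hSh
  have hd := diag hSh
  have hs := sym hSh
  have hq := quad hC hSh
  refine ⟨hd, psd_of S hs hq, ?_, ?_⟩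
  · intro M
    refine psd_of _ (SM_symm S hs M) fun u => ?_
    rw [SM_sum]
    exact Finset.sum_nonneg fun m _ => hq _
  · intro M u
    have e1 : ∑ a, u a ^ 2 = ∑ m : Fin M, ∑ i : Fin k, u (finProdFinEquiv (i, m)) ^ 2 := by
      rw [sum_split (fun a => u a ^ 2), Finset.sum_comm]
    rw [SM_sum, e1, Finset.mul_sum]
    refine Finset.sum_le_sum fun m _ => ?_
    exact quad_le (abs_le_one hd hs hq) (fun i => u (finProdFinEquiv (i, m)))

end Pool.Agent.H493.SZ
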