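import Pool.Agent.H493.SZ.Def

set_option autoImplicit false

/-! Project SZ (helper493), third list of statements (only Mathlib notions). -/

open Complex Filter Topology Set MeasureTheory

namespace Pool.Agent.H493.SZ

/-- AEC: almost everywhere continuous functions between continuous functions.
PROOF. Choose `R ≥ max R₀ 1` with `∫ max (H - R) 0 ≤ ε` (dominated convergence along `R = R₀ + n`, dominated by `|H|`).  Let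
`ψ₀ = max (-R) (min R ψ)`: `|ψ₀| ≤ R`, `ψ₀` is continuous wherever `ψ` is, and `|ψ - ψ₀| ≤ max (|ψ| - R) 0 ≤ max (H - R) 0`.
For `n : ℕ` let `gₙ x = ⨅ y, ψ₀ y + n * dist x y` and `hₙ x = ⨆ y, ψ₀ y - n * dist x y`: both are `n`-Lipschitz, and
`-R ≤ gₙ ≤ ψ₀ ≤ hₙ ≤ R`; at a point `x` where `ψ₀` is continuous `gₙ x → ψ₀ x` and `hₙ x → ψ₀ x` (if `|ψ₀ y - ψ₀ x| ≤ δ` for `dist x y ≤ r`
then for `n ≥ 2R/r` all `ψ₀ y + n dist x y ≥ ψ₀ x - δ`).  So `∫ (hₙ - gₙ) ∂μ → 0` by dominated convergence (the bound is `2R`); take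
`g = gₙ` and `G = hₙ - gₙ`, so that `|ψ₀ - g| ≤ G`. -/
def S_AEC : Prop := ∀ (n : ℕ) (μ : Measure (EuclideanSpace ℝ (Fin n))), IsProbabilityMeasure μ →
  ∀ H ψ : EuclideanSpace ℝ (Fin n) → ℝ, Continuous H → Integrable H μ → Measurable ψ → (∀ x, |ψ x| ≤ H x) →
  μ {x | ¬ ContinuousAt ψ x} = 0 → ∀ ε R₀ : ℝ, 0 < ε →
  ∃ R : ℝ, R₀ ≤ R ∧ 1 ≤ R ∧ ∃ g G : EuclideanSpace ℝ (Fin n) → ℝ, Continuous g ∧ Continuous G ∧ (∀ x, |g x| ≤ R) ∧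
    (∀ x, 0 ≤ G x ∧ G x ≤ 2 * R) ∧ (∀ x, |ψ x - g x| ≤ G x + max (H x - R) 0) ∧ ∫ x, G x ∂μ ≤ ε ∧
    ∫ x, max (H x - R) 0 ∂μ ≤ ε

/-- moments of order at most two (library, `Pool.Agent.Q276.KZ.main`) -/
def S_MN0 : Prop := ∃ C : ℝ, 0 < C ∧ ∀ x : ℝ, ∀ᶠ T : ℝ in atTop, ∀ β : ℝ, 0 < β → β ≤ 2 →
  |(∫ u in (0:ℝ)..1, ‖riemannZeta (1 / 2 + (x : ℂ) * Complex.I + (u : ℂ) * (T : ℂ) * Complex.I)‖ ^ β) -
    Real.log T ^ (β ^ 2 / 4)| ≤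
    (C * β * Real.log (4 / β) + Real.log T ^ (-(1 / 7) : ℝ)) * Real.log T ^ (β ^ 2 / 4)

/-- EXB: exponential moments of `log |ζ| / √(½ log log T)`.
PROOF. `W = √(V T / 2)`, `β = b/W → 0`.  `exp(b lz/W) ≤ ‖ζ‖^β + 1` for all `t` (equal to `‖ζ‖^β` where `ζ ≠ 0`; `lz = 0` at a zero).
`S_MN0` at `x = 0` and the height `4T` gives `∫_0^{4T} ‖ζ(1/2+it)‖^β dt ≤ 4T (2 + C β log(4/β)) (log 4T)^{β²/4}` (substitute `t = 4Tu`), and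
`β log(4/β) ≤ 4`, `(log 4T)^{β²/4} = exp(b² log log(4T)/(2 V T)) ≤ exp(b²)` for large `T`; and `[T + d, 2T + d] ⊆ [0, 4T]`.
Measurability: `t ↦ riemannZeta (1/2 + it)` is continuous. -/
def S_EXB : Prop := ∀ b : ℝ, 0 < b → ∃ C : ℝ, 0 ≤ C ∧ ∀ᶠ T : ℝ in atTop, ∀ d : ℝ, |d| ≤ 1 →
  IntervalIntegrable (fun t => Real.exp (b * (lz (t + d) / Real.sqrt (V T / 2)))) volume T (2 * T) ∧
  ∫ t in T..(2 * T), Real.exp (b * (lz (t + d) / Real.sqrt (V T / 2))) ≤ C * T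

def J_EXB : Prop := S_MN0 → S_EXB

end Pool.Agent.H493.SZ
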