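import Pool.Agent.H493.SZ.AG2
import Pool.Agent.H493.SZ.Obz
import Pool.Agent.H493.SZ.Def3

set_option autoImplicit false

/-! Almost everywhere continuous observables, of exponential growth to the right. -/

open Complex Filter Topology Set MeasureTheory ProbabilityTheory
open scoped BoundedContinuousFunction RealInnerProductSpace NNReal

namespace Pool.Agent.H493.SZ

open Pool.Agent.H493.EN

/-- the growth `1 + ‖x‖² + ∑ exp(b x_j)` -/
noncomputable def grw {k : ℕ} (b : ℝ) (x : EuclideanSpace ℝ (Fin k)) : ℝ := 1 + ‖x‖ ^ 2 + ∑ j, Real.exp (b * x j)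

lemma grw_cont {k : ℕ} (b : ℝ) : Continuous (grw (k := k) b) := by
  unfold grw
  fun_prop

lemma grw_pos {k : ℕ} (b : ℝ) (x : EuclideanSpace ℝ (Fin k)) : 0 < grw b x := by
  unfold grw
  have h1 : 0 ≤ ∑ j, Real.exp (b * x j) := Finset.sum_nonneg fun j _ => (Real.exp_pos _).le
  positivity

lemma gauss_exp {k : ℕ} (S : Matrix (Fin k) (Fin k) ℝ) (b : ℝ) (j : Fin k) :
    Integrable (fun x : EuclideanSpace ℝ (Fin k) => Real.exp (b * x j)) (multivariateGaussian 0 S) := by
  obtain ⟨C, hC, hC1⟩ := IsGaussian.exists_integrable_exp_sq (multivariateGaussian 0 S)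
  refine (hC1.const_mul (Real.exp (b ^ 2 / (4 * C)))).mono' ?_ (Filter.Eventually.of_forall fun x => ?_)
  · have : Continuous fun x : EuclideanSpace ℝ (Fin k) => Real.exp (b * x j) := by fun_prop
    exact this.aestronglyMeasurable
  · rw [Real.norm_eq_abs, abs_of_pos (Real.exp_pos _), ← Real.exp_add]
    apply Real.exp_le_exp.2
    have h1 : |x j| ≤ ‖x‖ := by
      have := PiLp.norm_apply_le x j
      rwa [Real.norm_eq_abs] at this
    have h2 : b * x j ≤ |b| * ‖x‖ := (le_abs_self _).trans (by rw [abs_mul]; gcongr)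
    have h3 : 0 ≤ (|b| - 2 * C * ‖x‖) ^ 2 / (4 * C) := by positivity
    have h4 : (|b| - 2 * C * ‖x‖) ^ 2 / (4 * C) = b ^ 2 / (4 * C) + C * ‖x‖ ^ 2 - |b| * ‖x‖ := by
      rw [← sq_abs b]
      field_simp
      ring
    linarith

lemma grw_int {k : ℕ} (S : Matrix (Fin k) (Fin k) ℝ) (b : ℝ) : Integrable (grw (k := k) b) (multivariateGaussian 0 S) := by
  unfold grw
  exact ((integrable_const 1).add (gauss_int2 S)).add (integrable_finsetSum _ fun j _ => gauss_exp S b j)

section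

variable {k : ℕ} {Λ : ℝ} {S₁ : Matrix (Fin k) (Fin k) ℝ} {S : ∀ M : ℕ, Matrix (Fin (k * M)) (Fin (k * M)) ℝ}
  {X : ℝ → ℝ → ℝ → EuclideanSpace ℝ (Fin k)} {Ra : ℝ → ℝ → ℝ → Prop}

/-- means of continuous functions of quadratic growth -/
lemma mean1 (hG : Gs k Λ S₁ S) (hRa : Rng Ra) (hX : FamR Ra k S₁ S X) {Φ : EuclideanSpace ℝ (Fin k) → ℝ} {C : ℝ}
    (hΦ : Continuous Φ) (hC : ∀ x, |Φ x| ≤ C * (1 + ‖x‖ ^ 2)) {ε : ℝ} (hε : 0 < ε) :
    ∃ K : ℝ, 1 ≤ K ∧ ∀ T : ℝ, K ≤ T → ∀ s : ℝ, Ra K T s →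
      IntervalIntegrable (fun t => Φ (X s T t)) volume T (2 * T) ∧
      ∫ t in T..(2 * T), Φ (X s T t) ≤ (∫ x, Φ x ∂(multivariateGaussian 0 S₁) + ε) * T := by
  obtain ⟨K, hK, h1⟩ := slowR hG hRa hX hΦ hC hε
  obtain ⟨K₁, hK₁, h2⟩ := intR hRa hX hΦ hC
  have k1 : K ≤ max (max K K₁) 3 := (le_max_left _ _).trans (le_max_left _ _)
  have k2 : K₁ ≤ max (max K K₁) 3 := (le_max_right _ _).trans (le_max_left _ _)
  refine ⟨max (max K K₁) 3, hK.trans k1, fun T hT s hs => ?_⟩
  have hT3 : 3 ≤ T := (le_max_right _ _).trans hT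
  have hK0 : 0 < K := by linarith
  have h3 := h1 T (k1.trans hT) s (hRa.mono _ _ _ _ hK k1 hT3 hs) (fun _ => 1) measurable_const (fun _ => by simp)
    (by simp; positivity)
  have h4 := h2 T (k2.trans hT) s (hRa.mono _ _ _ _ hK₁ k2 hT3 hs)
  have i1 : IntervalIntegrable (fun t => Φ (X s T t)) volume T (2 * T) := by
    refine (h4.add (intervalIntegrable_const (c := ∫ x, Φ x ∂(multivariateGaussian 0 S₁)))).congr fun t _ => ?_
    simp only [Yg]
    ring
  refine ⟨i1, ?_⟩
  have e1 : ∫ t in T..(2 * T), (1 : ℂ) * (Yg X S₁ Φ s T t : ℂ) =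
      (((∫ t in T..(2 * T), Φ (X s T t)) - (∫ x, Φ x ∂(multivariateGaussian 0 S₁)) * T : ℝ) : ℂ) := by
    have e2 : (∫ t in T..(2 * T), Φ (X s T t)) - (∫ x, Φ x ∂(multivariateGaussian 0 S₁)) * T =
        ∫ t in T..(2 * T), Yg X S₁ Φ s T t := by
      unfold Yg
      rw [intervalIntegral.integral_sub i1 intervalIntegrable_const, intervalIntegral.integral_const]
      rw [smul_eq_mul]
      ring
    rw [e2, ← intervalIntegral.integral_ofReal]
    simp only [one_mul]
  rw [e1, Complex.norm_real, Real.norm_eq_abs] at h3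
  have := (abs_le.1 h3).2
  linarith

end

lemma tail_le {a b R : ℝ} : max (a + b - R) 0 ≤ max (a - R / 2) 0 + max (b - R / 2) 0 := by
  refine max_le ?_ (by positivity)
  have h1 := le_max_left (a - R / 2) 0
  have h2 := le_max_left (b - R / 2) 0
  linarith

lemma tail_sq {b R : ℝ} (hR : 0 < R) (hb : 0 ≤ b) : max (b - R / 2) 0 ≤ 2 / R * b ^ 2 := by
  refine max_le ?_ (by positivity)
  rw [div_mul_eq_mul_div, le_div_iff₀ hR]
  nlinarith [sq_nonneg (b - R / 2), sq_nonneg (b - R / 4), mul_nonneg hb hR.le]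

/-- **almost everywhere continuous observables** -/
theorem apx_ae (hAEC : S_AEC) (hEXB : S_EXB) (hR : S_RNG) (hM : S_MIZ) (hE : S_GSE) (hC : S_CHZ) (hZ : S_SEZ)
    {k : ℕ} (hk : 0 < k) {d : Fin k → ℝ → ℝ} {S : Matrix (Fin k) (Fin k) ℝ} (hS : Sh d S)
    {ψ : EuclideanSpace ℝ (Fin k) → ℝ} (hψ : Measurable ψ) {C b : ℝ} (hb : 0 < b) (hψC : ∀ x, |ψ x| ≤ C * grw b x)
    (hae : multivariateGaussian 0 S {x | ¬ ContinuousAt ψ x} = 0) : Apx Rg S (Xz d) ψ := by
  have hG := Gsz hE hk hS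
  have hRa := rng hR
  have hX := Famz hR hM hE hC hZ hk hS
  have hC0 : 0 ≤ C := by
    by_contra h
    push Not at h
    have h1 := hψC 0
    have h2 := grw_pos b (0 : EuclideanSpace ℝ (Fin k))
    have h3 := abs_nonneg (ψ 0)
    nlinarith
  intro ε hε
  set γ := multivariateGaussian 0 S with hγ
  -- the tail of the quadratic part
  obtain ⟨R₁, hR₁⟩ : ∃ R₁ : ℝ, ∀ R : ℝ, R₁ ≤ R → ∫ x, max (C * (1 + ‖x‖ ^ 2) - R / 2) 0 ∂γ ≤ ε / 8 := by
    have hlim : Tendsto (fun R : ℝ => ∫ x, max (C * (1 + ‖x‖ ^ 2) - R / 2) 0 ∂γ) atTop (𝓝 (∫ _x : EuclideanSpace ℝ (Fin k), (0 : ℝ) ∂γ)) := by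
      refine tendsto_integral_filter_of_dominated_convergence (fun x => C * (1 + ‖x‖ ^ 2)) ?_ ?_ ?_ ?_
      · refine Filter.Eventually.of_forall fun R => ?_
        have : Continuous fun x : EuclideanSpace ℝ (Fin k) => max (C * (1 + ‖x‖ ^ 2) - R / 2) 0 := by fun_prop
        exact this.aestronglyMeasurable
      · filter_upwards [eventually_ge_atTop (0 : ℝ)] with R hR0
        refine Filter.Eventually.of_forall fun x => ?_
        rw [Real.norm_eq_abs, abs_of_nonneg (le_max_right _ _)]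
        exact max_le (by linarith) (by positivity)
      · exact ((integrable_const 1).add (gauss_int2 S)).const_mul C
      · refine Filter.Eventually.of_forall fun x => ?_
        refine tendsto_const_nhds.congr' ?_
        filter_upwards [eventually_ge_atTop (2 * (C * (1 + ‖x‖ ^ 2)))] with R hR0
        rw [max_eq_right]
        linarith
    rw [integral_zero] at hlim
    obtain ⟨R₁, h1⟩ := eventually_atTop.1 (hlim.eventually_le_const (show (0 : ℝ) < ε / 8 by positivity))
    exact ⟨R₁, h1⟩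
  -- the exponential moments
  obtain ⟨D, hD, hEx⟩ := hEXB (2 * b) (by positivity)
  obtain ⟨R, hR0, hR1, g, G, hg, hGc, hgR, hGR, hψg, hGi, hHi⟩ := hAEC k γ inferInstance (fun x => C * grw b x) ψ
    ((grw_cont b).const_mul C) ((grw_int S b).const_mul C) hψ hψC hae (ε / 8)
    (max R₁ (8 * (2 * (C ^ 2 * (k * (k * D))) / ε))) (by positivity)
  have hRp : 0 < R := by linarith
  have hR2 : 2 / R * (C ^ 2 * (k * (k * D))) ≤ ε / 8 := by
    have h1 := (le_max_right _ _).trans hR0
    rw [← mul_div_assoc, div_le_iff₀ hε] at h1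
    rw [div_mul_eq_mul_div, div_le_div_iff₀ hRp (by norm_num)]
    linarith
  -- integrability for the Gaussian measure
  have iH : Integrable (fun x => C * grw b x) γ := (grw_int S b).const_mul C
  have iψ : Integrable ψ γ := iH.mono' hψ.aestronglyMeasurable (Filter.Eventually.of_forall fun x => hψC x)
  have ig : Integrable g γ := (integrable_const R).mono' hg.aestronglyMeasurable
    (Filter.Eventually.of_forall fun x => by rw [Real.norm_eq_abs]; exact hgR x)
  have iG : Integrable G γ := (integrable_const (2 * R)).mono' hGc.aestronglyMeasurable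
    (Filter.Eventually.of_forall fun x => by rw [Real.norm_eq_abs, abs_of_nonneg (hGR x).1]; exact (hGR x).2)
  have iT : Integrable (fun x => max (C * grw b x - R) 0) γ := by
    refine iH.mono' ?_ (Filter.Eventually.of_forall fun x => ?_)
    · have : Continuous fun x : EuclideanSpace ℝ (Fin k) => max (C * grw b x - R) 0 :=
        (((grw_cont b).const_mul C).sub continuous_const).max continuous_const
      exact this.aestronglyMeasurable
    · rw [Real.norm_eq_abs, abs_of_nonneg (le_max_right _ _)]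
      exact max_le (by linarith) (mul_nonneg hC0 (grw_pos b x).le)
  refine ⟨g, R, hg, fun x => (hgR x).trans ?_, ?_, ?_⟩
  · nlinarith [sq_nonneg ‖x‖]
  · rw [← integral_sub iψ ig]
    refine (abs_integral_le_integral_abs).trans ?_
    calc ∫ x, |ψ x - g x| ∂γ ≤ ∫ x, (G x + max (C * grw b x - R) 0) ∂γ :=
          integral_mono (iψ.sub ig).abs (iG.add iT) hψg
      _ = ∫ x, G x ∂γ + ∫ x, max (C * grw b x - R) 0 ∂γ := integral_add iG iT
      _ ≤ ε := by linarith
  -- the means over `[T, 2T]`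
  obtain ⟨K₁, hK₁, m1⟩ := mean1 hG hRa hX (Φ := G) (C := 2 * R) hGc (fun x => by
    rw [abs_of_nonneg (hGR x).1]
    nlinarith [(hGR x).2, sq_nonneg ‖x‖]) (ε := ε / 8) (by positivity)
  obtain ⟨K₂, hK₂, m2⟩ := mean1 hG hRa hX (Φ := fun x => max (C * (1 + ‖x‖ ^ 2) - R / 2) 0) (C := C) (by fun_prop) (fun x => by
    rw [abs_of_nonneg (le_max_right _ _)]
    exact max_le (by linarith) (by positivity)) (ε := ε / 8) (by positivity)
  have hd' : ∀ᶠ T : ℝ in atTop, ∀ j, |d j T| ≤ 1 := by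
    obtain ⟨δ, hδ, h1⟩ := hS.small
    refine eventually_all.2 fun j => ?_
    filter_upwards [h1 j, eventually_ge_atTop (3 : ℝ)] with T h2 h3
    refine h2.trans (Real.rpow_le_one_of_one_le_of_nonpos ?_ (by linarith))
    rw [Real.le_log_iff_exp_le (by linarith)]
    exact (Real.exp_one_lt_d9.le.trans (by norm_num)).trans h3
  obtain ⟨T₀, hT₀⟩ := eventually_atTop.1 (hEx.and hd')
  set K' := max (max K₁ K₂) (max T₀ 3) with hK'
  have k1 : K₁ ≤ K' := (le_max_left _ _).trans (le_max_left _ _)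
  have k2 : K₂ ≤ K' := (le_max_right _ _).trans (le_max_left _ _)
  have k3 : T₀ ≤ K' := (le_max_left _ _).trans (le_max_right _ _)
  have k4 : 3 ≤ K' := (le_max_right _ _).trans (le_max_right _ _)
  refine ⟨K', hK₁.trans k1, fun T hT s hs => ?_⟩
  have hT3 : 3 ≤ T := k4.trans hT
  have hT0 : 0 ≤ T := by linarith
  have hT2 : T ≤ 2 * T := by linarith
  obtain ⟨hE1, hd1⟩ := hT₀ T (k3.trans hT)
  obtain ⟨a1, a2⟩ := m1 T (k1.trans hT) s (hRa.mono _ _ _ _ hK₁ k1 hT3 hs)
  obtain ⟨b1, b2⟩ := m2 T (k2.trans hT) s (hRa.mono _ _ _ _ hK₂ k2 hT3 hs)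
  have c1 : ∀ j, IntervalIntegrable (fun t => Real.exp (2 * b * Xz d s T t j)) volume T (2 * T) :=
    fun j => (hE1 (d j T) (hd1 j)).1
  have c2 : ∀ j, ∫ t in T..(2 * T), Real.exp (2 * b * Xz d s T t j) ≤ D * T :=
    fun j => (hE1 (d j T) (hd1 j)).2
  -- the pointwise bound
  have pw : ∀ t, |ψ (Xz d s T t) - g (Xz d s T t)| ≤ G (Xz d s T t) + (max (C * (1 + ‖Xz d s T t‖ ^ 2) - R / 2) 0 +
      2 / R * (C ^ 2 * (k * ∑ j, Real.exp (2 * b * Xz d s T t j)))) := by
    intro t
    refine (hψg _).trans (add_le_add le_rfl ?_)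
    unfold grw
    rw [mul_add C]
    refine tail_le.trans (add_le_add le_rfl ?_)
    refine (tail_sq hRp (mul_nonneg hC0 (Finset.sum_nonneg fun j _ => (Real.exp_pos _).le))).trans ?_
    refine mul_le_mul_of_nonneg_left ?_ (by positivity)
    rw [mul_pow]
    refine mul_le_mul_of_nonneg_left ?_ (by positivity)
    have h2 := sq_sum_le_card_mul_sum_sq (s := Finset.univ) (f := fun j : Fin k => Real.exp (b * Xz d s T t j))
    rw [Finset.card_univ, Fintype.card_fin] at h2
    refine h2.trans (le_of_eq ?_)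
    congr 1
    refine Finset.sum_congr rfl fun j _ => ?_
    rw [← Real.exp_nat_mul]
    congr 1
    push_cast
    ring
  have iS : IntervalIntegrable (fun t => ∑ j, Real.exp (2 * b * Xz d s T t j)) volume T (2 * T) := by
    refine (IntervalIntegrable.sum Finset.univ fun j (_ : j ∈ Finset.univ) => c1 j).congr fun t _ => ?_
    rw [Finset.sum_apply]
  have iB : IntervalIntegrable (fun t => G (Xz d s T t) + (max (C * (1 + ‖Xz d s T t‖ ^ 2) - R / 2) 0 +
      2 / R * (C ^ 2 * (k * ∑ j, Real.exp (2 * b * Xz d s T t j))))) volume T (2 * T) :=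
    a1.add (b1.add (((iS.const_mul _).const_mul _).const_mul _))
  have hXm : Measurable fun t => Xz d s T t := by simpa using Xz_meas hM d s T 0
  have iD : IntervalIntegrable (fun t => ψ (Xz d s T t) - g (Xz d s T t)) volume T (2 * T) := by
    rw [intervalIntegrable_iff] at iB ⊢
    refine Integrable.mono' iB ?_ (Filter.Eventually.of_forall pw)
    exact ((hψ.comp hXm).sub (hg.measurable.comp hXm)).aestronglyMeasurable
  refine ⟨iD, (intervalIntegral.integral_mono_on hT2 iD.abs iB fun t _ => pw t).trans ?_⟩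
  rw [intervalIntegral.integral_add a1 (b1.add (((iS.const_mul _).const_mul _).const_mul _)),
    intervalIntegral.integral_add b1 (((iS.const_mul _).const_mul _).const_mul _),
    intervalIntegral.integral_const_mul, intervalIntegral.integral_const_mul, intervalIntegral.integral_const_mul,
    intervalIntegral.integral_finsetSum fun j _ => c1 j]
  have h5 : ∑ j, ∫ t in T..(2 * T), Real.exp (2 * b * Xz d s T t j) ≤ k * (D * T) := by
    refine (Finset.sum_le_sum fun j _ => c2 j).trans ?_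
    rw [Finset.sum_const, Finset.card_univ, Fintype.card_fin, nsmul_eq_mul]
  have h6 : 2 / R * (C ^ 2 * (k * ∑ j, ∫ t in T..(2 * T), Real.exp (2 * b * Xz d s T t j))) ≤ ε / 8 * T := by
    calc _ ≤ 2 / R * (C ^ 2 * (k * (k * (D * T)))) := by gcongr
      _ = 2 / R * (C ^ 2 * (k * (k * D))) * T := by ring
      _ ≤ ε / 8 * T := mul_le_mul_of_nonneg_right hR2 hT0
  have h7 := hR₁ R ((le_max_left _ _).trans hR0)
  have h8 : (∫ x, G x ∂γ + ε / 8) * T ≤ (ε / 8 + ε / 8) * T := by gcongr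
  have h9 : (∫ x, max (C * (1 + ‖x‖ ^ 2) - R / 2) 0 ∂γ + ε / 8) * T ≤ (ε / 8 + ε / 8) * T := by gcongr
  have h10 : 0 ≤ ε * T := by positivity
  linarith

end Pool.Agent.H493.SZ
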