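import Pool.Agent.H493.SZ.All
import Pool.Agent.H493.SZ.GSE
import Pool.Agent.H493.SZ.AEC
import Pool.Agent.H493.SZ.EXB
import Pool.Agent.H493.SZ.Grw
import Pool.Agent.H493.SZ.Low
import Pool.Agent.H493.EN.All
import Pool.Graph.R_pool_sql_team_seeded_3997aac3.Q276.KZ.All

set_option autoImplicit false

/-! Assembly of the lemmas of the project SZ, second part. -/

open Complex Filter Topology Set MeasureTheory

namespace Pool.Agent.H493.SZ

theorem p_GSE : S_GSE := t_GSE p_COVC

theorem p_EXB : S_EXB := t_EXB Pool.Agent.Q276.KZ.main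

end Pool.Agent.H493.SZ
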