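import Pool.Agent.H493.SZ.Def7

set_option autoImplicit false

/-! The balanced prior. -/

open Complex Filter Topology Set MeasureTheory ProbabilityTheory

namespace Pool.Agent.H493.SZ

namespace BALL

theorem Dn_ge (l m x : ℝ) : (1 - |m|) * Real.cosh (l * x) ≤ Dn l m x := by
  unfold Dn
  have h1 : |Real.sinh (l * x)| ≤ Real.cosh (l * x) := by
    rw [abs_le]
    constructor
    · have h := Real.exp_pos (l * x)
      rw [← Real.cosh_add_sinh] at h
      linarith
    · exact (Real.sinh_lt_cosh _).le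
  have h2 : |m * Real.sinh (l * x)| ≤ |m| * Real.cosh (l * x) := by
    rw [abs_mul]
    exact mul_le_mul_of_nonneg_left h1 (abs_nonneg m)
  have h3 := neg_abs_le (m * Real.sinh (l * x))
  linarith

theorem Dn_pos (l m x : ℝ) (hm : |m| < 1) : 0 < Dn l m x :=
  lt_of_lt_of_le (mul_pos (by linarith) (Real.cosh_pos _)) (Dn_ge l m x)

theorem quot_bound (l m x : ℝ) (hm : |m| < 1) :
    |Real.sinh (l * x) / Dn l m x| ≤ 1 / (1 - |m|) := by
  have hD := Dn_pos l m x hm
  have h1 : |Real.sinh (l * x)| ≤ Real.cosh (l * x) := by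
    rw [abs_le]
    constructor
    · have h := Real.exp_pos (l * x)
      rw [← Real.cosh_add_sinh] at h
      linarith
    · exact (Real.sinh_lt_cosh _).le
  have h2 : 0 < 1 - |m| := by linarith
  rw [abs_div, abs_of_pos hD, div_le_div_iff₀ hD h2, one_mul]
  have h3 := Dn_ge l m x
  have h4 := mul_le_mul_of_nonneg_left h1 h2.le
  linarith

theorem meas_quot (l m : ℝ) (U : ℝ → ℝ) (hU : Measurable U) :
    Measurable (fun x => Real.sinh (l * U x) / Dn l m (U x)) := by
  unfold Dn
  have h1 : Measurable (fun x => l * U x) := hU.const_mul l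
  have h2 : Measurable (fun x => Real.sinh (l * U x)) := Real.measurable_sinh.comp h1
  have h3 : Measurable (fun x => Real.cosh (l * U x)) := Real.measurable_cosh.comp h1
  exact h2.div (h3.add (h2.const_mul m))

theorem meas_quot2 (l m : ℝ) (U : ℝ → ℝ) (hU : Measurable U) :
    Measurable (fun x => Real.cosh (l * U x) / Dn l m (U x)) := by
  unfold Dn
  have h1 : Measurable (fun x => l * U x) := hU.const_mul l
  have h2 : Measurable (fun x => Real.sinh (l * U x)) := Real.measurable_sinh.comp h1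
  have h3 : Measurable (fun x => Real.cosh (l * U x)) := Real.measurable_cosh.comp h1
  exact h3.div (h3.add (h2.const_mul m))

theorem int_quot (ν : Measure ℝ) [IsProbabilityMeasure ν] (l m : ℝ) (hm : |m| < 1) (U : ℝ → ℝ)
    (hU : Measurable U) : Integrable (fun x => Real.sinh (l * U x) / Dn l m (U x)) ν := by
  refine Integrable.of_bound (meas_quot l m U hU).aestronglyMeasurable (1 / (1 - |m|)) ?_
  refine Eventually.of_forall fun x => ?_
  rw [Real.norm_eq_abs]
  exact quot_bound l m (U x) hm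

/-- The key step (Fatou). -/
theorem key (ν : Measure ℝ) [IsProbabilityMeasure ν] (U : ℝ → ℝ) (hUm : Measurable U)
    (hU : Integrable U ν) (h0 : ∫ x, U x ∂ν = 0) (h1 : 0 < ∫ x, |U x| ∂ν) (l : ℝ) (hl : 0 < l) :
    ∃ m : ℝ, 0 < m ∧ m < 1 ∧ ∫ x, Real.sinh (l * U x) / Dn l m (U x) ∂ν < 0 := by
  by_contra hcon
  push Not at hcon
  -- the integrals of `cosh / Dn`
  have hf : ∀ m : ℝ, 0 < m → m < 1 →
      ∫⁻ x, ENNReal.ofReal (Real.cosh (l * U x) / Dn l m (U x)) ∂ν ≤ 1 := by
    intro m hm0 hm1
    have hm : |m| < 1 := by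
      rw [abs_of_pos hm0]
      exact hm1
    have e : (fun x => Real.cosh (l * U x) / Dn l m (U x)) =
        fun x => 1 - m * (Real.sinh (l * U x) / Dn l m (U x)) := by
      funext x
      have hD := Dn_pos l m (U x) hm
      rw [eq_sub_iff_add_eq, ← mul_div_assoc, ← add_div, div_eq_one_iff_eq hD.ne']
      rfl
    have hi := int_quot ν l m hm U hUm
    have hi2 : Integrable (fun x => 1 - m * (Real.sinh (l * U x) / Dn l m (U x))) ν :=
      (integrable_const 1).sub (hi.const_mul m)
    have hint : ∫ x, Real.cosh (l * U x) / Dn l m (U x) ∂ν ≤ 1 := by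
      rw [e, integral_sub (integrable_const 1) (hi.const_mul m), integral_const_mul]
      simp only [integral_const, probReal_univ, smul_eq_mul, mul_one]
      have := mul_nonneg hm0.le (hcon m hm0 hm1)
      linarith
    have hnn : 0 ≤ᵐ[ν] fun x => Real.cosh (l * U x) / Dn l m (U x) :=
      Eventually.of_forall fun x => div_nonneg (Real.cosh_pos _).le (Dn_pos l m (U x) hm).le
    rw [← ofReal_integral_eq_lintegral_ofReal (by rw [e]; exact hi2) hnn]
    rw [← ENNReal.ofReal_one]
    exact ENNReal.ofReal_le_ofReal hint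
  -- Fatou
  have hD1 : ∀ x : ℝ, Dn l 1 x = Real.exp (l * x) := by
    intro x
    rw [Dn, one_mul, Real.cosh_add_sinh]
  have hlim : ∀ x : ℝ, Tendsto (fun n : ℕ => ENNReal.ofReal (Real.cosh (l * U x) / Dn l (1 - 1 / ((n : ℝ) + 2)) (U x)))
      atTop (𝓝 (ENNReal.ofReal (Real.cosh (l * U x) / Dn l 1 (U x)))) := by
    intro x
    refine ENNReal.tendsto_ofReal ?_
    refine Tendsto.div tendsto_const_nhds ?_ (by rw [hD1]; exact (Real.exp_pos _).ne')
    unfold Dn
    refine Tendsto.add tendsto_const_nhds (Tendsto.mul_const _ ?_)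
    have h2 : Tendsto (fun n : ℕ => 1 / ((n : ℝ) + 2)) atTop (𝓝 0) := by
      refine Tendsto.div_atTop tendsto_const_nhds ?_
      exact tendsto_atTop_add_const_right _ _ tendsto_natCast_atTop_atTop
    have h3 := h2.const_sub 1
    rw [sub_zero] at h3
    exact h3
  have hFatou : ∫⁻ x, ENNReal.ofReal (Real.cosh (l * U x) / Dn l 1 (U x)) ∂ν ≤ 1 := by
    have h2 : ∫⁻ x, ENNReal.ofReal (Real.cosh (l * U x) / Dn l 1 (U x)) ∂ν =
        ∫⁻ x, liminf (fun n : ℕ => ENNReal.ofReal (Real.cosh (l * U x) / Dn l (1 - 1 / ((n : ℝ) + 2)) (U x))) atTop ∂ν := by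
      refine lintegral_congr fun x => ?_
      exact (hlim x).liminf_eq.symm
    rw [h2]
    refine le_trans (lintegral_liminf_le fun n => ?_) ?_
    · exact (meas_quot2 l _ U hUm).ennreal_ofReal
    · refine liminf_le_of_le (by isBoundedDefault) ?_
      intro b hb
      obtain ⟨n, hn⟩ := hb.exists
      refine le_trans hn (hf _ ?_ ?_)
      · have h3 : (0 : ℝ) < (n : ℝ) + 2 := by positivity
        rw [sub_pos, div_lt_one h3]
        have : (0 : ℝ) ≤ (n : ℝ) := Nat.cast_nonneg n
        linarith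
      · have h3 : (0 : ℝ) < 1 / ((n : ℝ) + 2) := by positivity
        linarith
  -- the limit function
  have hnn : 0 ≤ᵐ[ν] fun x => Real.cosh (l * U x) / Dn l 1 (U x) := by
    refine Eventually.of_forall fun x => ?_
    show 0 ≤ Real.cosh (l * U x) / Dn l 1 (U x)
    rw [hD1]
    exact div_nonneg (Real.cosh_pos _).le (Real.exp_pos _).le
  have hmeas := (meas_quot2 l 1 U hUm).aestronglyMeasurable (μ := ν)
  have hint : Integrable (fun x => Real.cosh (l * U x) / Dn l 1 (U x)) ν := by
    refine ⟨hmeas, ?_⟩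
    rw [hasFiniteIntegral_iff_ofReal hnn]
    exact lt_of_le_of_lt hFatou ENNReal.one_lt_top
  have hle : ∫ x, Real.cosh (l * U x) / Dn l 1 (U x) ∂ν ≤ 1 := by
    rw [integral_eq_lintegral_of_nonneg_ae hnn hmeas]
    have h2 := ENNReal.toReal_mono ENNReal.one_ne_top hFatou
    rw [ENNReal.toReal_one] at h2
    exact h2
  -- the convex function
  have hh : ∀ y : ℝ, Real.cosh (l * y) / Dn l 1 y - 1 + l * y = (Real.exp (-(2 * l * y)) - (-(2 * l * y) + 1)) / 2 := by
    intro y
    rw [hD1, Real.cosh_eq]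
    have e1 : Real.exp (-(2 * l * y)) = Real.exp (-(l * y)) / Real.exp (l * y) := by
      rw [← Real.exp_sub]
      congr 1
      ring
    rw [e1]
    have h2 : Real.exp (l * y) ≠ 0 := (Real.exp_pos _).ne'
    field_simp
    ring
  have hhnn : 0 ≤ fun x : ℝ => Real.cosh (l * U x) / Dn l 1 (U x) - 1 + l * U x := by
    intro x
    show 0 ≤ Real.cosh (l * U x) / Dn l 1 (U x) - 1 + l * U x
    rw [hh]
    have := Real.add_one_le_exp (-(2 * l * U x))
    linarith
  have hhint : Integrable (fun x : ℝ => Real.cosh (l * U x) / Dn l 1 (U x) - 1 + l * U x) ν :=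
    (hint.sub (integrable_const 1)).add (hU.const_mul l)
  have hhle : ∫ x, (Real.cosh (l * U x) / Dn l 1 (U x) - 1 + l * U x) ∂ν ≤ 0 := by
    have hi1 : Integrable (fun x : ℝ => Real.cosh (l * U x) / Dn l 1 (U x) - 1) ν :=
      hint.sub (integrable_const 1)
    rw [integral_add hi1 (hU.const_mul l),
      integral_sub hint (integrable_const 1), integral_const_mul, h0]
    simp only [integral_const, probReal_univ, smul_eq_mul, mul_one, mul_zero, add_zero]
    linarith
  have hz := (integral_eq_zero_iff_of_nonneg hhnn hhint).mp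
    (le_antisymm hhle (integral_nonneg hhnn))
  have hU0 : ∀ᵐ x ∂ν, |U x| = 0 := by
    filter_upwards [hz] with x hx
    have hx' : Real.cosh (l * U x) / Dn l 1 (U x) - 1 + l * U x = 0 := hx
    rw [hh] at hx'
    by_contra hne
    have h2 : U x ≠ 0 := fun h => hne (by rw [h, abs_zero])
    have h3 : -(2 * l * U x) ≠ 0 := neg_ne_zero.mpr (mul_ne_zero (by positivity) h2)
    have h4 := Real.add_one_lt_exp h3
    linarith
  have h5 : ∫ x, |U x| ∂ν = 0 := by
    rw [integral_congr_ae hU0, integral_zero]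
  linarith

end BALL

open BALL in
theorem t_BAL : S_BAL := by
  intro ν _ hi h0 h1 l hl
  obtain ⟨m₁, hm₁0, hm₁1, hg₁⟩ := key ν (fun x => x) measurable_id hi h0 h1 l hl
  obtain ⟨m₂, hm₂0, hm₂1, hg₂⟩ := key ν (fun x => -x) measurable_neg hi.neg
    (by rw [integral_neg, h0, neg_zero]) (by simpa only [abs_neg] using h1) l hl
  have e2 : (fun x : ℝ => Real.sinh (l * -x) / Dn l m₂ (-x)) =
      fun x : ℝ => -(Real.sinh (l * x) / Dn l (-m₂) x) := by
    funext x
    rw [Dn, Dn, mul_neg, Real.sinh_neg, Real.cosh_neg, neg_div, mul_neg, neg_mul]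
  rw [e2, integral_neg] at hg₂
  have hc : ContinuousOn (fun m : ℝ => ∫ x, Real.sinh (l * x) / Dn l m x ∂ν) (Icc (-m₂) m₁) := by
    have habs : ∀ m ∈ Icc (-m₂) m₁, |m| ≤ max m₁ m₂ := by
      intro m hm
      rw [abs_le]
      constructor
      · have := le_max_right m₁ m₂
        linarith [hm.1]
      · have := le_max_left m₁ m₂
        linarith [hm.2]
    have hM : max m₁ m₂ < 1 := max_lt hm₁1 hm₂1
    refine continuousOn_of_dominated (bound := fun _ => 1 / (1 - max m₁ m₂)) ?_ ?_ (integrable_const _) ?_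
    · intro m _
      exact (meas_quot l m (fun x => x) measurable_id).aestronglyMeasurable
    · intro m hm
      refine Eventually.of_forall fun x => ?_
      rw [Real.norm_eq_abs]
      refine le_trans (quot_bound l m x (lt_of_le_of_lt (habs m hm) hM)) ?_
      refine one_div_le_one_div_of_le (by linarith) ?_
      have := habs m hm
      linarith
    · refine Eventually.of_forall fun x => ?_
      refine ContinuousOn.div continuousOn_const ?_ ?_
      · unfold Dn
        fun_prop
      · intro m hm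
        exact (Dn_pos l m x (lt_of_le_of_lt (habs m hm) hM)).ne'
  obtain ⟨m, hm, hgm⟩ := intermediate_value_Icc' (by linarith : -m₂ ≤ m₁) hc
    (show (0 : ℝ) ∈ Icc (∫ x, Real.sinh (l * x) / Dn l m₁ x ∂ν) (∫ x, Real.sinh (l * x) / Dn l (-m₂) x ∂ν) from
      ⟨hg₁.le, by linarith⟩)
  refine ⟨m, ?_, hgm⟩
  rw [abs_lt]
  constructor
  · linarith [hm.1]
  · linarith [hm.2]

end Pool.Agent.H493.SZ
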