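import Pool.Agent.H493.SZ.Def4

set_option autoImplicit false

/-! SZ2-BLKC: a function which follows few patterns and correlates with a given function, from a code.
Generalises `Pool.Agent.H493.EN.t_BLK` (helper81), from which the steps on the positions are taken (helper127). -/

open Complex Filter Topology Set MeasureTheory ProbabilityTheory

namespace Pool.Agent.H493.SZ

namespace BLKCL

/-! ### The position in the block -/

/-- the position in the block -/
noncomputable def pos (q : ℕ) (s : ℝ) (r : ℕ) (t : ℝ) : ℕ := ((⌊t / s⌋ + r) % q).toNat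

lemma pos_cast {q : ℕ} (hq : 0 < q) (s : ℝ) (r : ℕ) (t : ℝ) :
    (pos q s r t : ℤ) = (⌊t / s⌋ + r) % q := by
  unfold pos
  exact Int.toNat_of_nonneg (Int.emod_nonneg _ (by exact_mod_cast hq.ne'))

lemma pos_lt {q : ℕ} (hq : 0 < q) (s : ℝ) (r : ℕ) (t : ℝ) : pos q s r t < q := by
  have h : (pos q s r t : ℤ) < q := by
    rw [pos_cast hq]
    exact Int.emod_lt_of_pos _ (by exact_mod_cast hq)
  exact_mod_cast h

lemma pos_image {q : ℕ} (hq : 0 < q) (s : ℝ) (t : ℝ) (F : ℕ → ℝ) :
    ∑ r ∈ Finset.range q, F (pos q s r t) = ∑ m ∈ Finset.range q, F m := by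
  have hinj : Set.InjOn (fun r => pos q s r t) (Finset.range q : Set ℕ) := by
    intro r hr r' hr' h
    have hr1 : r < q := Finset.mem_range.1 (Finset.mem_coe.1 hr)
    have hr2 : r' < q := Finset.mem_range.1 (Finset.mem_coe.1 hr')
    have h0 : pos q s r t = pos q s r' t := h
    have h1 : (⌊t / s⌋ + (r : ℤ)) % q = (⌊t / s⌋ + r') % q := by
      rw [← pos_cast hq, ← pos_cast hq, h0]
    have h2 : (r : ℤ) ≡ r' [ZMOD q] := Int.ModEq.add_left_cancel' ⌊t / s⌋ h1
    have h3 : (r : ℤ) = r' := by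
      have h4 : (r : ℤ) % q = r' % q := h2
      rwa [Int.emod_eq_of_lt (by positivity) (by exact_mod_cast hr1),
        Int.emod_eq_of_lt (by positivity) (by exact_mod_cast hr2)] at h4
    exact_mod_cast h3
  have him : (Finset.range q).image (fun r => pos q s r t) = Finset.range q := by
    refine Finset.eq_of_subset_of_card_le ?_ ?_
    · intro m hm
      obtain ⟨r, -, rfl⟩ := Finset.mem_image.1 hm
      exact Finset.mem_range.2 (pos_lt hq s r t)
    · rw [Finset.card_image_of_injOn hinj]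
  conv_rhs => rw [← him]
  rw [Finset.sum_image hinj]

lemma meas_pos (q : ℕ) (s : ℝ) (r : ℕ) : Measurable (pos q s r) := by
  have h1 : Measurable (fun t : ℝ => ⌊t / s⌋) := (measurable_id.div_const s).floor
  have h2 : Measurable (fun n : ℤ => ((n + r) % q).toNat) := measurable_of_countable _
  exact h2.comp h1

lemma pos_add {q : ℕ} (hq : 0 < q) {s : ℝ} (hs : 0 < s) (r m : ℕ) (t : ℝ) :
    pos q s r (t + m * s) = (pos q s r t + m) % q := by
  have h1 : (pos q s r (t + m * s) : ℤ) = (((pos q s r t + m) % q : ℕ) : ℤ) := by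
    rw [pos_cast hq]
    push_cast
    rw [pos_cast hq]
    have h2 : (t + m * s) / s = t / s + (m : ℕ) := by
      field_simp
    rw [h2, Int.floor_add_natCast, Int.emod_add_emod]
    congr 1
    ring
  exact_mod_cast h1

/-! ### The choice of the vector -/

variable {N : ℕ}

/-- A measurable choice of the largest of finitely many measurable functions. -/
lemma exists_sel (hN : 0 < N) (S : Fin N → ℝ → ℝ) (hS : ∀ j, Measurable (S j)) :
    ∃ sel : ℝ → Fin N, Measurable sel ∧ ∀ t k, S k t ≤ S (sel t) t := by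
  classical
  have : Nonempty (Fin N) := ⟨⟨0, hN⟩⟩
  have hex : ∀ t, ∃ j : ℕ, ∃ h : j < N, ∀ k, S k t ≤ S ⟨j, h⟩ t := by
    intro t
    obtain ⟨j, hj⟩ := Finite.exists_max (fun k => S k t)
    exact ⟨j.1, j.2, hj⟩
  have hm : ∀ j : ℕ, MeasurableSet {t : ℝ | ∃ h : j < N, ∀ k, S k t ≤ S ⟨j, h⟩ t} := by
    intro j
    by_cases h : j < N
    · have h1 : {t : ℝ | ∃ h : j < N, ∀ k, S k t ≤ S ⟨j, h⟩ t} =
          ⋂ k, {t | S k t ≤ S ⟨j, h⟩ t} := by
        ext t
        rw [Set.mem_iInter]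
        exact ⟨fun h2 => h2.2, fun h2 => ⟨h, h2⟩⟩
      rw [h1]
      exact MeasurableSet.iInter fun k => measurableSet_le (hS k) (hS _)
    · have h1 : {t : ℝ | ∃ h : j < N, ∀ k, S k t ≤ S ⟨j, h⟩ t} = ∅ :=
        Set.eq_empty_of_forall_notMem fun t h2 => h h2.1
      rw [h1]
      exact MeasurableSet.empty
  have h1 := measurable_find hex hm
  have hlt : ∀ t, Nat.find (hex t) < N := fun t => (Nat.find_spec (hex t)).1
  refine ⟨fun t => ⟨Nat.find (hex t), hlt t⟩, ?_, fun t k => (Nat.find_spec (hex t)).2 k⟩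
  refine measurable_to_countable' fun j => ?_
  have h2 : (fun t => (⟨Nat.find (hex t), hlt t⟩ : Fin N)) ⁻¹' {j} =
      (fun t => Nat.find (hex t)) ⁻¹' {j.1} := by
    ext t
    rw [Set.mem_preimage, Set.mem_preimage, Set.mem_singleton_iff, Set.mem_singleton_iff,
      Fin.ext_iff]
  rw [h2]
  exact h1 (measurableSet_singleton _)

/-- the correlation sums -/
noncomputable def Sig (v : Fin N → ℕ → ℝ) (q : ℕ) (s : ℝ) (D : ℝ → ℝ) (j : Fin N) (t : ℝ) : ℝ :=
  ∑ m ∈ Finset.range q, v j m * D (t + m * s)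

/-- the function -/
noncomputable def th (v : Fin N → ℕ → ℝ) (q : ℕ) (s : ℝ) (sel : ℝ → Fin N) (r : ℕ) (t : ℝ) : ℝ :=
  v (sel (t - pos q s r t * s)) (pos q s r t)

/-- the patterns -/
noncomputable def pat (v : Fin N → ℕ → ℝ) (q M : ℕ) (x : Fin q × (Fin (M / q + 2) → Fin N))
    (m : ℕ) : ℂ :=
  if h : (x.1.val + m) / q < M / q + 2 then
    ((v (x.2 ⟨(x.1.val + m) / q, h⟩) ((x.1.val + m) % q) : ℝ) : ℂ) else 0

lemma meas_Sig (v : Fin N → ℕ → ℝ) (q : ℕ) (s : ℝ) {D : ℝ → ℝ} (hD : Measurable D) (j : Fin N) :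
    Measurable (Sig v q s D j) := by
  unfold Sig
  exact Finset.measurable_fun_sum _ fun m _ => (hD.comp (measurable_id.add_const _)).const_mul _

lemma meas_sel (v : Fin N → ℕ → ℝ) {sel : ℝ → Fin N} (hsel : Measurable sel) (m : ℕ) :
    Measurable (fun t => v (sel t) m) := by
  have h1 : Measurable (fun j : Fin N => v j m) := measurable_of_countable _
  exact h1.comp hsel

lemma meas_th (v : Fin N → ℕ → ℝ) {q : ℕ} (hq : 0 < q) (s : ℝ) {sel : ℝ → Fin N}
    (hsel : Measurable sel) (r : ℕ) : Measurable (th v q s sel r) := by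
  have h1 : th v q s sel r = fun t => ∑ m ∈ Finset.range q,
      if pos q s r t = m then v (sel (t - m * s)) m else 0 := by
    funext t
    rw [Finset.sum_ite_eq, if_pos (Finset.mem_range.2 (pos_lt hq s r t))]
    rfl
  rw [h1]
  refine Finset.measurable_fun_sum _ fun m _ => ?_
  refine Measurable.ite (meas_pos q s r (measurableSet_singleton m)) ?_ measurable_const
  exact (meas_sel v hsel m).comp (measurable_id.sub_const _)

lemma abs_th {v : Fin N → ℕ → ℝ} (hv : ∀ j m, |v j m| ≤ 1) (q : ℕ) (s : ℝ) (sel : ℝ → Fin N)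
    (r : ℕ) (t : ℝ) : |th v q s sel r t| ≤ 1 := hv _ _

lemma int_bdd {f D : ℝ → ℝ} (hf : Measurable f) (h1 : ∀ t, |f t| ≤ 1) (hD : Integrable D) :
    Integrable (fun t => f t * D t) := by
  refine hD.norm.mono' (hf.aestronglyMeasurable.mul hD.1) (Eventually.of_forall fun t => ?_)
  rw [norm_mul, Real.norm_eq_abs]
  exact mul_le_of_le_one_left (norm_nonneg _) (h1 t)

lemma sum_int {v : Fin N → ℕ → ℝ} (hv : ∀ j m, |v j m| ≤ 1) {q : ℕ} (hq : 0 < q) (s : ℝ)
    {D : ℝ → ℝ} (hI : Integrable D) {sel : ℝ → Fin N} (hsel : Measurable sel) :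
    ∑ r ∈ Finset.range q, ∫ t, th v q s sel r t * D t = ∫ t, Sig v q s D (sel t) t := by
  have hsg : ∀ m : ℕ, Measurable (fun t => v (sel (t - m * s)) m) := fun m =>
    (meas_sel v hsel m).comp (measurable_id.sub_const _)
  have hi : ∀ m : ℕ, Integrable (fun t => v (sel (t - m * s)) m * D t) := fun m =>
    int_bdd (hsg m) (fun t => hv _ _) hI
  rw [← integral_finsetSum _ (fun r _ => int_bdd (meas_th v hq s hsel r) (abs_th hv q s sel r) hI)]
  have h1 : ∀ t, ∑ r ∈ Finset.range q, th v q s sel r t * D t =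
      ∑ m ∈ Finset.range q, v (sel (t - m * s)) m * D t := by
    intro t
    rw [← Finset.sum_mul, ← Finset.sum_mul]
    have h3 : ∑ r ∈ Finset.range q, th v q s sel r t =
        ∑ m ∈ Finset.range q, v (sel (t - m * s)) m :=
      pos_image hq s t (fun m => v (sel (t - m * s)) m)
    rw [h3]
  have h2 : (fun t => ∑ r ∈ Finset.range q, th v q s sel r t * D t) =
      fun t => ∑ m ∈ Finset.range q, v (sel (t - m * s)) m * D t := funext h1
  rw [h2, integral_finsetSum _ (fun m _ => hi m)]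
  have h3 : ∀ m : ℕ, ∫ t, v (sel (t - m * s)) m * D t = ∫ t, v (sel t) m * D (t + m * s) := by
    intro m
    rw [← integral_add_right_eq_self (fun t => v (sel (t - m * s)) m * D t) ((m : ℝ) * s)]
    congr 1
    funext t
    rw [add_sub_cancel_right]
  have hi2 : ∀ m : ℕ, Integrable (fun t => v (sel t) m * D (t + m * s)) := fun m =>
    int_bdd (meas_sel v hsel m) (fun t => hv _ _) (hI.comp_add_right _)
  rw [Finset.sum_congr rfl fun m _ => h3 m, ← integral_finsetSum _ (fun m _ => hi2 m)]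
  rfl

lemma norm_pat {v : Fin N → ℕ → ℝ} (hv : ∀ j m, |v j m| ≤ 1) (q M : ℕ)
    (x : Fin q × (Fin (M / q + 2) → Fin N)) (m : ℕ) : ‖pat v q M x m‖ ≤ 1 := by
  unfold pat
  split_ifs with h
  · rw [Complex.norm_real, Real.norm_eq_abs]
    exact hv _ _
  · rw [norm_zero]
    exact zero_le_one

/-- The function follows the patterns. -/
lemma th_pat (v : Fin N → ℕ → ℝ) {q : ℕ} (hq : 0 < q) {s : ℝ} (hs : 0 < s) (sel : ℝ → Fin N)
    (r : ℕ) (t : ℝ) (M m : ℕ) (hm : m < M) :
    ((th v q s sel r (t + m * s) : ℝ) : ℂ) = pat v q M (⟨pos q s r t, pos_lt hq s r t⟩,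
        fun j => sel (t - pos q s r t * s + j.val * q * s)) m := by
  have hlt : (pos q s r t + m) / q < M / q + 2 := by
    have h1 := pos_lt hq s r t
    have h2 : pos q s r t + m ≤ M + q := by omega
    have h3 : (pos q s r t + m) / q ≤ (M + q) / q := Nat.div_le_div_right h2
    rw [Nat.add_div_right _ hq] at h3
    omega
  have harg : t + m * s - ((pos q s r t + m) % q : ℕ) * s =
      t - pos q s r t * s + ((pos q s r t + m) / q : ℕ) * q * s := by
    have h1 : (pos q s r t + m) % q + q * ((pos q s r t + m) / q) = pos q s r t + m :=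
      Nat.mod_add_div _ _
    have h2 : ((((pos q s r t + m) % q : ℕ) : ℝ)) + q * (((pos q s r t + m) / q : ℕ) : ℝ) =
        pos q s r t + m := by exact_mod_cast h1
    have h3 : (((pos q s r t + m) % q : ℕ) : ℝ) =
        pos q s r t + m - q * (((pos q s r t + m) / q : ℕ) : ℝ) := by linarith
    rw [h3]
    ring
  have hth : th v q s sel r (t + m * s) =
      v (sel (t - pos q s r t * s + ((pos q s r t + m) / q : ℕ) * q * s))
        ((pos q s r t + m) % q) := by
    unfold th
    rw [pos_add hq hs, harg]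
  unfold pat
  rw [dif_pos hlt, hth]

/-- The statement for a numbered list of vectors. -/
lemma main (hN : 0 < N) (v : Fin N → ℕ → ℝ) (hv : ∀ j m, |v j m| ≤ 1) {q : ℕ} (hq : 0 < q) :
    ∃ P : ℕ → Finset (ℕ → ℂ), (∀ M, (P M).card ≤ q * N ^ (M / q + 2)) ∧
    (∀ M, ∀ p ∈ P M, ∀ m, ‖p m‖ ≤ 1) ∧ ∀ (s : ℝ) (D : ℝ → ℝ), 0 < s → Measurable D →
      Integrable D → ∃ sel : ℝ → Fin N, (∀ t k, Sig v q s D k t ≤ Sig v q s D (sel t) t) ∧
        ∃ θ : ℝ → ℂ, Measurable θ ∧ (∀ t, ‖θ t‖ ≤ 1) ∧
          (∀ (t : ℝ) (M : ℕ), ∃ p ∈ P M, ∀ m < M, θ (t + m * s) = p m) ∧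
          1 / q * ∫ t, Sig v q s D (sel t) t ≤ ‖∫ t, θ t * (D t : ℂ)‖ := by
  classical
  have hq1 : (0 : ℝ) < q := by exact_mod_cast hq
  refine ⟨fun M => Finset.univ.image (pat v q M), ?_, ?_, ?_⟩
  · intro M
    refine Finset.card_image_le.trans ?_
    rw [Finset.card_univ, Fintype.card_prod, Fintype.card_fin, Fintype.card_fun, Fintype.card_fin,
      Fintype.card_fin]
  · intro M p hp m
    obtain ⟨x, -, rfl⟩ := Finset.mem_image.1 hp
    exact norm_pat hv q M x m
  · intro s D hs hD hI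
    obtain ⟨sel, hsel, hmax⟩ := exists_sel hN (Sig v q s D) (meas_Sig v q s hD)
    refine ⟨sel, hmax, ?_⟩
    obtain ⟨r, -, hr⟩ := Finset.exists_le_of_sum_le
      (f := fun _ : ℕ => 1 / (q : ℝ) * ∫ t, Sig v q s D (sel t) t)
      (g := fun r => ∫ t, th v q s sel r t * D t) (s := Finset.range q)
      (Finset.nonempty_range_iff.2 hq.ne') (by
        rw [sum_int hv hq s hI hsel, Finset.sum_const, Finset.card_range, nsmul_eq_mul,
          ← mul_assoc, mul_one_div_cancel hq1.ne', one_mul])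
    refine ⟨fun t => (th v q s sel r t : ℂ), ?_, ?_, ?_, ?_⟩
    · exact Complex.measurable_ofReal.comp (meas_th v hq s hsel r)
    · intro t
      rw [Complex.norm_real, Real.norm_eq_abs]
      exact abs_th hv q s sel r t
    · intro t M
      exact ⟨_, Finset.mem_image.2 ⟨_, Finset.mem_univ _, rfl⟩,
        fun m hm => th_pat v hq hs sel r t M m hm⟩
    · have h1 : (fun t => ((th v q s sel r t : ℂ)) * (D t : ℂ)) =
          fun t => (((th v q s sel r t * D t : ℝ)) : ℂ) := by
        funext t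
        push_cast
        rfl
      rw [h1, integral_complex_ofReal, Complex.norm_real, Real.norm_eq_abs]
      exact hr.trans (le_abs_self _)

end BLKCL

open BLKCL in
/-- SZ2-BLKC. -/
theorem t_BLKC : S_BLKC := by
  classical
  intro q C hC hq hC1
  set C2 : Finset (ℕ → ℝ) := C ∪ C.image (fun p => -p) with hC2
  have hcard : C2.card ≤ 2 * C.card := by
    refine (Finset.card_union_le _ _).trans ?_
    have h1 : (C.image (fun p => -p)).card ≤ C.card := Finset.card_image_le
    omega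
  have hne : C2.Nonempty := hC.mono Finset.subset_union_left
  have hN : 0 < C2.card := Finset.card_pos.2 hne
  have hC21 : ∀ p ∈ C2, ∀ m, |p m| ≤ 1 := by
    intro p hp m
    rcases Finset.mem_union.1 hp with h | h
    · exact hC1 p h m
    · obtain ⟨p', hp', rfl⟩ := Finset.mem_image.1 h
      rw [Pi.neg_apply, abs_neg]
      exact hC1 p' hp' m
  obtain ⟨P, hP1, hP2, hP3⟩ := main hN (fun j => ((C2.equivFin.symm j : C2) : ℕ → ℝ))
    (fun j m => hC21 _ (C2.equivFin.symm j).2 m) hq
  refine ⟨P, fun M => (hP1 M).trans (Nat.mul_le_mul_left _ (Nat.pow_le_pow_left hcard _)), hP2, ?_⟩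
  intro s D hs hD hI
  obtain ⟨sel, hsel, θ, hθ1, hθ2, hθ3, hθ4⟩ := hP3 s D hs hD hI
  refine ⟨θ, hθ1, hθ2, hθ3, ?_⟩
  have hval : ∀ p ∈ C2, ∀ t, ∑ m ∈ Finset.range q, p m * D (t + m * s) ≤
      Sig (fun j => ((C2.equivFin.symm j : C2) : ℕ → ℝ)) q s D (sel t) t := by
    intro p hp t
    have h1 := hsel t (C2.equivFin ⟨p, hp⟩)
    have h2 : ((C2.equivFin.symm (C2.equivFin ⟨p, hp⟩) : C2) : ℕ → ℝ) = p := by
      rw [Equiv.symm_apply_apply]
    refine le_trans (le_of_eq ?_) h1
    unfold Sig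
    exact Finset.sum_congr rfl fun m _ => by
      show p m * _ = ((C2.equivFin.symm (C2.equivFin ⟨p, hp⟩) : C2) : ℕ → ℝ) m * _
      rw [h2]
  have hneg : ∀ (p : ℕ → ℝ) (t : ℝ), ∑ m ∈ Finset.range q, (-p) m * D (t + m * s) =
      - ∑ m ∈ Finset.range q, p m * D (t + m * s) := by
    intro p t
    rw [← Finset.sum_neg_distrib]
    exact Finset.sum_congr rfl fun m _ => by rw [Pi.neg_apply, neg_mul]
  have heq : ∀ t, C.sup' hC (fun p => |∑ m ∈ Finset.range q, p m * D (t + m * s)|) =
      Sig (fun j => ((C2.equivFin.symm j : C2) : ℕ → ℝ)) q s D (sel t) t := by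
    intro t
    apply le_antisymm
    · refine Finset.sup'_le hC _ fun p hp => ?_
      refine abs_le'.2 ⟨hval p (Finset.mem_union_left _ hp) t, ?_⟩
      rw [← hneg]
      exact hval (-p) (Finset.mem_union_right _ (Finset.mem_image_of_mem _ hp)) t
    · have h1 : ∀ p ∈ C2, ∑ m ∈ Finset.range q, p m * D (t + m * s) ≤
          C.sup' hC (fun p => |∑ m ∈ Finset.range q, p m * D (t + m * s)|) := by
        intro p hp
        rcases Finset.mem_union.1 hp with h | h
        · exact (le_abs_self _).trans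
            (Finset.le_sup' (fun p => |∑ m ∈ Finset.range q, p m * D (t + m * s)|) h)
        · obtain ⟨p', hp', rfl⟩ := Finset.mem_image.1 h
          rw [hneg]
          exact (neg_le_abs _).trans
            (Finset.le_sup' (fun p => |∑ m ∈ Finset.range q, p m * D (t + m * s)|) hp')
      exact h1 _ (C2.equivFin.symm (sel t)).2
  rw [integral_congr_ae (Eventually.of_forall heq)]
  exact hθ4

end Pool.Agent.H493.SZ
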