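import Pool.Agent.H493.SZ.Def7

set_option autoImplicit false

/-! Project SZ (helper493): J_COD, by helper124, adapted from J_CODE by helper357. -/

open Complex Filter Topology Set MeasureTheory ProbabilityTheory

namespace Pool.Agent.H493.SZ

namespace CODL

theorem Dn_eq (l m x : ℝ) :
    Dn l m x = ((1 + m) * Real.exp (l * x) + (1 - m) * Real.exp (-(l * x))) / 2 := by
  unfold Dn
  rw [Real.cosh_eq, Real.sinh_eq]
  ring

theorem Dn_le {l m : ℝ} (hm : |m| < 1) (x : ℝ) : Dn l m x ≤ Real.exp |l * x| := by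
  rw [abs_lt] at hm
  rw [Dn_eq]
  have h1 : Real.exp (l * x) ≤ Real.exp |l * x| := Real.exp_le_exp.2 (le_abs_self _)
  have h2 : Real.exp (-(l * x)) ≤ Real.exp |l * x| := Real.exp_le_exp.2 (neg_le_abs _)
  have h3 := mul_le_mul_of_nonneg_left h1 (by linarith [hm.1] : 0 ≤ 1 + m)
  have h4 := mul_le_mul_of_nonneg_left h2 (by linarith [hm.2] : 0 ≤ 1 - m)
  linarith

theorem le_Dn {l m : ℝ} (hm : |m| < 1) (x : ℝ) : Real.exp (-|l * x|) ≤ Dn l m x := by
  rw [abs_lt] at hm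
  rw [Dn_eq]
  have h1 : Real.exp (-|l * x|) ≤ Real.exp (l * x) := Real.exp_le_exp.2 (neg_abs_le _)
  have h2 : Real.exp (-|l * x|) ≤ Real.exp (-(l * x)) :=
    Real.exp_le_exp.2 (neg_le_neg (le_abs_self _))
  have h3 := mul_le_mul_of_nonneg_left h1 (by linarith [hm.1] : 0 ≤ 1 + m)
  have h4 := mul_le_mul_of_nonneg_left h2 (by linarith [hm.2] : 0 ≤ 1 - m)
  linarith

theorem Dn_pos {l m : ℝ} (hm : |m| < 1) (x : ℝ) : 0 < Dn l m x :=
  (Real.exp_pos _).trans_le (le_Dn hm x)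

theorem abs_log_Dn {l m : ℝ} (hl : 0 < l) (hm : |m| < 1) (x : ℝ) :
    |Real.log (Dn l m x)| ≤ l * |x| := by
  have h0 : |l * x| = l * |x| := by rw [abs_mul, abs_of_pos hl]
  rw [← h0, abs_le]
  constructor
  · rw [Real.le_log_iff_exp_le (Dn_pos hm x)]
    exact le_Dn hm x
  · rw [Real.log_le_iff_le_exp (Dn_pos hm x)]
    exact Dn_le hm x

theorem abs_tn {l m : ℝ} (hm : |m| < 1) (x : ℝ) : |tn l m x| ≤ 1 := by
  have h0 := Dn_pos (l := l) hm x
  rw [abs_lt] at hm
  unfold tn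
  rw [abs_div, abs_of_pos h0, div_le_one h0, abs_le]
  have h1 : Dn l m x - (Real.sinh (l * x) + m * Real.cosh (l * x)) =
      (1 - m) * Real.exp (-(l * x)) := by
    unfold Dn
    rw [Real.cosh_eq, Real.sinh_eq]
    ring
  have h2 : Dn l m x + (Real.sinh (l * x) + m * Real.cosh (l * x)) =
      (1 + m) * Real.exp (l * x) := by
    unfold Dn
    rw [Real.cosh_eq, Real.sinh_eq]
    ring
  have h3 : 0 ≤ (1 - m) * Real.exp (-(l * x)) := mul_nonneg (by linarith [hm.2]) (Real.exp_pos _).le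
  have h4 : 0 ≤ (1 + m) * Real.exp (l * x) := mul_nonneg (by linarith [hm.1]) (Real.exp_pos _).le
  constructor
  · linarith
  · linarith

theorem meas_Dn (l m : ℝ) : Measurable (Dn l m) := by
  unfold Dn
  exact (Real.continuous_cosh.comp (continuous_const.mul continuous_id)).measurable.add
    (measurable_const.mul (Real.continuous_sinh.comp (continuous_const.mul continuous_id)).measurable)

theorem meas_logDn (l m : ℝ) : Measurable fun x => Real.log (Dn l m x) :=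
  Real.measurable_log.comp (meas_Dn l m)

theorem meas_tn (l m : ℝ) : Measurable (tn l m) := by
  have h : Measurable fun x : ℝ => Real.sinh (l * x) + m * Real.cosh (l * x) :=
    (Real.continuous_sinh.comp (continuous_const.mul continuous_id)).measurable.add
      (measurable_const.mul (Real.continuous_cosh.comp (continuous_const.mul continuous_id)).measurable)
  exact h.div (meas_Dn l m)

/-- the prior weights -/
noncomputable def wg (n : ℕ) (m : ℝ) (σ : Fin n → Bool) : ℝ := ∏ i, (1 + m * sgb (σ i)) / 2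

theorem wg_nonneg (n : ℕ) {m : ℝ} (hm : |m| < 1) (σ : Fin n → Bool) : 0 ≤ wg n m σ := by
  rw [abs_lt] at hm
  refine Finset.prod_nonneg fun i _ => ?_
  unfold sgb
  split
  · linarith [hm.1]
  · linarith [hm.2]

theorem wg_sum (n : ℕ) (m : ℝ) : ∑ σ : Fin n → Bool, wg n m σ = 1 := by
  have h := Finset.prod_univ_sum (fun _ : Fin n => (Finset.univ : Finset Bool))
    (fun _ b => (1 + m * sgb b) / 2)
  rw [Fintype.piFinset_univ] at h
  unfold wg
  rw [← h]
  refine Finset.prod_eq_one fun i _ => ?_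
  rw [Fintype.sum_bool]
  unfold sgb
  rw [if_pos rfl, if_neg Bool.false_ne_true]
  ring

end CODL

open CODL

theorem t_COD : J_COD := by
  intro hTLT hGRW hWLP Ω _ ν₀ _ ξ hξ hξ2 l m η ε hl hm hη hε
  have hm1 : 0 < 1 - |m| := by linarith
  obtain ⟨δ, hδ, hδε, hδη⟩ : ∃ δ : ℝ, 0 < δ ∧ 2 * δ ≤ ε ∧ (1 + 2 * l) * δ ≤ η / 4 := by
    refine ⟨min (ε / 2) (η / (4 * (1 + 2 * l))), lt_min (by positivity) (by positivity), ?_, ?_⟩
    · have := min_le_left (ε / 2) (η / (4 * (1 + 2 * l)))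
      linarith
    · have h := min_le_right (ε / 2) (η / (4 * (1 + 2 * l)))
      have h2 : (1 + 2 * l) * min (ε / 2) (η / (4 * (1 + 2 * l))) ≤ (1 + 2 * l) * (η / (4 * (1 + 2 * l))) :=
        mul_le_mul_of_nonneg_left h (by positivity)
      have h3 : (1 + 2 * l) * (η / (4 * (1 + 2 * l))) = η / 4 := by
        field_simp
      linarith
  obtain ⟨ε', hε', hε'δ, hε'4, hε'1⟩ : ∃ ε' : ℝ, 0 < ε' ∧ ε' ≤ δ ∧ ε' ≤ ε / 4 ∧ ε' ≤ 1 / 4 := by
    refine ⟨min δ (min (ε / 4) (1 / 4)), lt_min hδ (lt_min (by positivity) (by norm_num)), min_le_left _ _, ?_, ?_⟩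
    · exact (min_le_right _ _).trans (min_le_left _ _)
    · exact (min_le_right _ _).trans (min_le_right _ _)
  have hf1 : Measurable fun y => Real.log (Dn l m (ξ y)) := (meas_logDn l m).comp hξ
  have hf2 : Measurable fun y => ξ y * tn l m (ξ y) := hξ.mul ((meas_tn l m).comp hξ)
  have hL1 : MemLp (fun y => Real.log (Dn l m (ξ y))) 2 ν₀ := by
    refine hξ2.of_le_mul (c := l) hf1.aestronglyMeasurable (Filter.Eventually.of_forall fun y => ?_)
    rw [Real.norm_eq_abs, Real.norm_eq_abs]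
    exact abs_log_Dn hl hm _
  have hL2 : MemLp (fun y => ξ y * tn l m (ξ y)) 2 ν₀ := by
    refine hξ2.of_le hf2.aestronglyMeasurable (Filter.Eventually.of_forall fun y => ?_)
    rw [norm_mul, Real.norm_eq_abs, Real.norm_eq_abs]
    exact mul_le_of_le_one_right (abs_nonneg _) (abs_tn hm _)
  obtain ⟨n₁, hn₁⟩ := hWLP Ω ν₀ (fun y => Real.log (Dn l m (ξ y))) hf1 hL1 ε' hε'
  obtain ⟨n₂, hn₂⟩ := hWLP Ω ν₀ (fun y => ξ y * tn l m (ξ y)) hf2 hL2 ε' hε'
  obtain ⟨n₃, hn₃⟩ := exists_nat_ge (2 * (1 + |m|) / ((1 - |m|) * (l * δ) ^ 2))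
  obtain ⟨n₄, hn₄⟩ := exists_nat_ge (12 / η)
  obtain ⟨n₅, hn₅⟩ := exists_nat_ge ((8 / η) * (1 / 2 + |Real.log (ε / 2)|))
  refine ⟨n₁ + n₂ + n₃ + n₄ + n₅ + 1, fun n hn => ?_⟩
  have hn1 : n₁ ≤ n := by omega
  have hn2 : n₂ ≤ n := by omega
  have hn3 : (2 * (1 + |m|) / ((1 - |m|) * (l * δ) ^ 2)) ≤ (n : ℝ) :=
    hn₃.trans (by exact_mod_cast (by omega : n₃ ≤ n))
  have hn4 : (12 / η) ≤ (n : ℝ) := hn₄.trans (by exact_mod_cast (by omega : n₄ ≤ n))
  have hn5 : ((8 / η) * (1 / 2 + |Real.log (ε / 2)|)) ≤ (n : ℝ) := hn₅.trans (by exact_mod_cast (by omega : n₅ ≤ n))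
  have hnpos : (0 : ℝ) < n := by exact_mod_cast (by omega : 0 < n)
  set ν : Measure (Fin n → Ω) := Measure.pi fun _ : Fin n => ν₀ with hν
  set a : ℝ := ∫ x, ξ x * tn l m (ξ x) ∂ν₀ with ha
  set L : ℝ := ∫ x, Real.log (Dn l m (ξ x)) ∂ν₀ with hL
  set R : ℝ := l * a - L with hRe
  set G : Set (Fin n → Ω) := {x | |∑ i, Real.log (Dn l m (ξ (x i))) - n * L| ≤ δ * n ∧
    |∑ i, ξ (x i) * tn l m (ξ (x i)) - n * a| ≤ δ * n} with hG
  have hGm : MeasurableSet G := by
    have h1 : Measurable fun x : Fin n → Ω => ∑ i, Real.log (Dn l m (ξ (x i))) :=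
      Finset.measurable_sum _ fun i _ => hf1.comp (measurable_pi_apply i)
    have h2 : Measurable fun x : Fin n → Ω => ∑ i, ξ (x i) * tn l m (ξ (x i)) :=
      Finset.measurable_sum _ fun i _ => hf2.comp (measurable_pi_apply i)
    exact (measurableSet_le (h1.sub measurable_const).abs measurable_const).inter
      (measurableSet_le (h2.sub measurable_const).abs measurable_const)
  set Bs : (Fin n → Bool) → Set (Fin n → Ω) := fun σ =>
    {x | (a - 2 * δ) * n ≤ ∑ i, sgb (σ i) * ξ (x i)} with hBs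
  have hBm : ∀ σ, MeasurableSet (Bs σ) := by
    intro σ
    refine measurableSet_le measurable_const ?_
    exact Finset.measurable_sum _ fun i _ => measurable_const.mul (hξ.comp (measurable_pi_apply i))
  -- the complement of G
  have hGc : ν.real Gᶜ ≤ ε' + ε' := by
    have h1 := hn₁ n hn1
    have h2 := hn₂ n hn2
    have hsub : Gᶜ ⊆ {x : Fin n → Ω | ε' * n ≤ |∑ i, Real.log (Dn l m (ξ (x i))) - n * L|} ∪
        {x : Fin n → Ω | ε' * n ≤ |∑ i, ξ (x i) * tn l m (ξ (x i)) - n * a|} := by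
      intro x hx
      have hx' : ¬ (|∑ i, Real.log (Dn l m (ξ (x i))) - n * L| ≤ δ * n ∧
        |∑ i, ξ (x i) * tn l m (ξ (x i)) - n * a| ≤ δ * n) := hx
      have hle : ε' * n ≤ δ * n := mul_le_mul_of_nonneg_right hε'δ hnpos.le
      rw [not_and_or, not_le, not_le] at hx'
      rcases hx' with h | h
      · left
        exact hle.trans h.le
      · right
        exact hle.trans h.le
    refine (measureReal_mono hsub).trans ((measureReal_union_le _ _).trans ?_)
    exact add_le_add h1 h2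
  have hGne : G.Nonempty := by
    by_contra hne
    rw [Set.not_nonempty_iff_eq_empty] at hne
    rw [hne, Set.compl_empty] at hGc
    have : ν.real Set.univ = 1 := by simp
    rw [this] at hGc
    linarith
  set ρ : ℝ := 1 / 2 * Real.exp (-(n * (R + (1 + 2 * l) * δ))) with hρ
  have hρ0 : 0 < ρ := by positivity
  have hτ : 2 * (n : ℝ) * (1 + |m|) ≤ (1 - |m|) * (l * (δ * n)) ^ 2 := by
    have hpos : 0 < (1 - |m|) * (l * δ) ^ 2 := by positivity
    rw [div_le_iff₀ hpos] at hn3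
    have e1 : (1 - |m|) * (l * (δ * n)) ^ 2 = (n * ((1 - |m|) * (l * δ) ^ 2)) * n := by ring
    rw [e1]
    have e2 := mul_le_mul_of_nonneg_right hn3 hnpos.le
    linarith
  have hcov : ∀ y ∈ G, ∃ A : Finset (Fin n → Bool), (∀ i ∈ A, y ∈ Bs i) ∧
      ρ ≤ ∑ i ∈ A, wg n m i := by
    intro y hy
    obtain ⟨hy1, hy2⟩ := hy
    have h := hTLT n (fun i => ξ (y i)) l m (δ * n) hl hm (by positivity) hτ
    rw [abs_le] at hy1 hy2
    refine ⟨Finset.univ.filter fun σ : Fin n → Bool =>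
        ∑ i, ξ (y i) * tn l m (ξ (y i)) - δ * n ≤ ∑ i, sgb (σ i) * ξ (y i), ?_, ?_⟩
    · intro σ hσ
      rw [Finset.mem_filter] at hσ
      have h2 := hσ.2
      show (a - 2 * δ) * n ≤ ∑ i, sgb (σ i) * ξ (y i)
      nlinarith [hy2.1]
    · refine le_trans ?_ h
      rw [hρ]
      refine mul_le_mul_of_nonneg_left (Real.exp_le_exp.2 ?_) (by norm_num)
      have h3 : l * (∑ i, ξ (y i) * tn l m (ξ (y i))) ≤ l * (n * a + δ * n) :=
        mul_le_mul_of_nonneg_left (by linarith [hy2.2]) hl.le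
      rw [hRe]
      nlinarith [hy1.1, h3]
  have hρ1 : ρ ≤ 1 := by
    obtain ⟨y, hy⟩ := hGne
    obtain ⟨A, -, hA⟩ := hcov y hy
    refine hA.trans ?_
    rw [← wg_sum n m]
    exact Finset.sum_le_sum_of_subset_of_nonneg (Finset.subset_univ A) fun σ _ _ => wg_nonneg n hm σ
  set E : ℝ := Real.exp ((R + η / 2) * n) with hE
  have hE0 : 0 < E := Real.exp_pos _
  obtain ⟨C₀, hC₀, hC₀m⟩ := hGRW (Fin n → Ω) ν (Fin n → Bool) (wg n m) Bs G ρ
    (wg_nonneg n hm) (wg_sum n m).le hBm hGm hρ0.le hcov ⌊E⌋₊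
  have hρE : 1 / 2 * Real.exp (η * n / 4) ≤ ρ * E := by
    have h1 : ρ * E = 1 / 2 * Real.exp ((η / 2 - (1 + 2 * l) * δ) * n) := by
      rw [hρ, hE, mul_assoc, ← Real.exp_add]
      ring_nf
    rw [h1]
    refine mul_le_mul_of_nonneg_left (Real.exp_le_exp.2 ?_) (by norm_num)
    nlinarith
  have hηn : 12 ≤ η * n := by
    rw [div_le_iff₀ hη] at hn4
    linarith
  have hexp4 : 4 ≤ Real.exp (η * n / 4) := by
    have := Real.add_one_le_exp (η * n / 4)
    linarith
  have hE2 : 2 ≤ E := by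
    have h1 : ρ * E ≤ 1 * E := mul_le_mul_of_nonneg_right hρ1 hE0.le
    linarith
  have hfl : (⌊E⌋₊ : ℝ) ≤ E := Nat.floor_le hE0.le
  have hfl2 : E - 1 ≤ (⌊E⌋₊ : ℝ) := (Nat.sub_one_lt_floor E).le
  refine ⟨insert (fun _ => true) C₀, Finset.insert_nonempty _ _, ?_, ?_⟩
  · have h1 : ((insert (fun _ => true) C₀ : Finset (Fin n → Bool)).card : ℝ) ≤ C₀.card + 1 := by
      exact_mod_cast Finset.card_insert_le _ _
    have h2 : (C₀.card : ℝ) ≤ (⌊E⌋₊ : ℝ) := by exact_mod_cast hC₀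
    have h3 : Real.exp ((R + η) * n) = E * Real.exp (η * n / 2) := by
      rw [hE, ← Real.exp_add]
      ring_nf
    have h4 : 4 ≤ Real.exp (η * n / 2) := by
      have := Real.add_one_le_exp (η * n / 2)
      linarith
    rw [h3]
    have h5 : E * 4 ≤ E * Real.exp (η * n / 2) := mul_le_mul_of_nonneg_left h4 hE0.le
    linarith
  · have hsub : {x : Fin n → Ω | ∀ σ ∈ (insert (fun _ => true) C₀ : Finset (Fin n → Bool)),
        ∑ i, sgb (σ i) * ξ (x i) < (a - ε) * n} ⊆ Gᶜ ∪ (G \ ⋃ i ∈ C₀, Bs i) := by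
      intro x hx
      by_cases hxG : x ∈ G
      · right
        refine ⟨hxG, fun hxB => ?_⟩
        rw [Set.mem_iUnion₂] at hxB
        obtain ⟨σ, hσ, hxσ⟩ := hxB
        have h1 := hx σ (Finset.mem_insert_of_mem hσ)
        have h2 : (a - 2 * δ) * n ≤ ∑ i, sgb (σ i) * ξ (x i) := hxσ
        nlinarith
      · left
        exact hxG
    refine (measureReal_mono hsub).trans ((measureReal_union_le _ _).trans ?_)
    have hexp : Real.exp (-(ρ * (⌊E⌋₊ : ℝ))) ≤ ε / 2 := by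
      have hlog : Real.exp (Real.log (ε / 2)) = ε / 2 := Real.exp_log (by positivity)
      rw [← hlog]
      refine Real.exp_le_exp.2 ?_
      have h1 : ρ * (E - 1) ≤ ρ * (⌊E⌋₊ : ℝ) := mul_le_mul_of_nonneg_left hfl2 hρ0.le
      have h2 := Real.add_one_le_exp (η * n / 4)
      have h3 : 1 / 2 + |Real.log (ε / 2)| ≤ η * n / 8 := by
        have h4 : (8 / η) * (1 / 2 + |Real.log (ε / 2)|) * η ≤ n * η := mul_le_mul_of_nonneg_right hn5 hη.le
        have h5 : (8 / η) * (1 / 2 + |Real.log (ε / 2)|) * η = 8 * (1 / 2 + |Real.log (ε / 2)|) := by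
          field_simp
        linarith
      have h6 := neg_abs_le (Real.log (ε / 2))
      nlinarith
    linarith

end Pool.Agent.H493.SZ
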