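import Pool.Agent.H493.SZ.Def5

set_option autoImplicit false

/-! Project SZ (helper493): J_CODE, by helper357. -/

open Complex Filter Topology Set MeasureTheory ProbabilityTheory

namespace Pool.Agent.H493.SZ

namespace CODEL

theorem cont_coord {n : ℕ} (i : Fin n) : Continuous fun x : EuclideanSpace ℝ (Fin n) => x i := by
  fun_prop

theorem cont_logcosh {n : ℕ} (l : ℝ) (i : Fin n) :
    Continuous fun x : EuclideanSpace ℝ (Fin n) => Real.log (Real.cosh (l * x i)) := by
  refine Continuous.log ?_ ?_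
  · exact Real.continuous_cosh.comp (continuous_const.mul (cont_coord i))
  · intro x
    exact (Real.cosh_pos _).ne'

theorem cont_tanh : Continuous Real.tanh := by
  have h : Real.tanh = fun x => Real.sinh x / Real.cosh x := by
    funext x
    exact Real.tanh_eq_sinh_div_cosh x
  rw [h]
  exact Real.continuous_sinh.div Real.continuous_cosh (fun x => (Real.cosh_pos x).ne')

theorem cont_xtanh {n : ℕ} (l : ℝ) (i : Fin n) :
    Continuous fun x : EuclideanSpace ℝ (Fin n) => x i * Real.tanh (l * x i) :=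
  (cont_coord i).mul (cont_tanh.comp (continuous_const.mul (cont_coord i)))

/-- the good set -/
def Gd (n : ℕ) (l L a d : ℝ) : Set (EuclideanSpace ℝ (Fin n)) :=
  {x | |∑ i, Real.log (Real.cosh (l * x i)) - n * L| ≤ d ∧ |∑ i, x i * Real.tanh (l * x i) - n * a| ≤ d}

theorem meas_Gd (n : ℕ) (l L a d : ℝ) : MeasurableSet (Gd n l L a d) := by
  have h1 : IsClosed {x : EuclideanSpace ℝ (Fin n) | |∑ i, Real.log (Real.cosh (l * x i)) - n * L| ≤ d} := by
    refine isClosed_le ?_ continuous_const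
    exact ((continuous_finsetSum _ fun i _ => cont_logcosh l i).sub continuous_const).abs
  have h2 : IsClosed {x : EuclideanSpace ℝ (Fin n) | |∑ i, x i * Real.tanh (l * x i) - n * a| ≤ d} := by
    refine isClosed_le ?_ continuous_const
    exact ((continuous_finsetSum _ fun i _ => cont_xtanh l i).sub continuous_const).abs
  exact (h1.inter h2).measurableSet

/-- the points which correlate with a word -/
def Bs (n : ℕ) (c : ℝ) (σ : Fin n → Bool) : Set (EuclideanSpace ℝ (Fin n)) :=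
  {x | c ≤ ∑ i, sgb (σ i) * x i}

theorem meas_Bs (n : ℕ) (c : ℝ) (σ : Fin n → Bool) : MeasurableSet (Bs n c σ) := by
  have h1 : IsClosed (Bs n c σ) := by
    refine isClosed_le continuous_const ?_
    exact continuous_finsetSum _ fun i _ => continuous_const.mul (cont_coord i)
  exact h1.measurableSet

end CODEL

open CODEL

theorem t_CODE : J_CODE := by
  intro hTILT hGRD hLPT hWLL l η ε hl hη hε
  have h12l : 0 < 4 * (1 + 2 * l) := by positivity
  obtain ⟨δ, hδ, hδε, hδη⟩ : ∃ δ : ℝ, 0 < δ ∧ 2 * δ ≤ ε ∧ (1 + 2 * l) * δ ≤ η / 4 := by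
    refine ⟨min (ε / 2) (η / (4 * (1 + 2 * l))), lt_min (by positivity) (by positivity), ?_, ?_⟩
    · have := min_le_left (ε / 2) (η / (4 * (1 + 2 * l)))
      linarith
    · have h := min_le_right (ε / 2) (η / (4 * (1 + 2 * l)))
      have h2 : (1 + 2 * l) * min (ε / 2) (η / (4 * (1 + 2 * l))) ≤ (1 + 2 * l) * (η / (4 * (1 + 2 * l))) :=
        mul_le_mul_of_nonneg_left h (by positivity)
      have h3 : (1 + 2 * l) * (η / (4 * (1 + 2 * l))) = η / 4 := by
        field_simp
      linarith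
  obtain ⟨ε', hε', hε'δ, hε'4, hε'1⟩ : ∃ ε' : ℝ, 0 < ε' ∧ ε' ≤ δ ∧ ε' ≤ ε / 4 ∧ ε' ≤ 1 / 4 := by
    refine ⟨min δ (min (ε / 4) (1 / 4)), lt_min hδ (lt_min (by positivity) (by norm_num)), min_le_left _ _, ?_, ?_⟩
    · exact (min_le_right _ _).trans (min_le_left _ _)
    · exact (min_le_right _ _).trans (min_le_right _ _)
  obtain ⟨n₁, hn₁⟩ := hWLL (fun x => Real.log (Real.cosh (l * x))) l (fun x y => (hLPT l hl x y).1) ε' hε'
  obtain ⟨n₂, hn₂⟩ := hWLL (fun x => x * Real.tanh (l * x)) 2 (fun x y => (hLPT l hl x y).2) ε' hε'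
  obtain ⟨n₃, hn₃⟩ := exists_nat_ge (2 / (l * δ) ^ 2)
  obtain ⟨n₄, hn₄⟩ := exists_nat_ge (12 / η)
  obtain ⟨n₅, hn₅⟩ := exists_nat_ge ((8 / η) * (1 / 2 + |Real.log (ε / 2)|))
  refine ⟨n₁ + n₂ + n₃ + n₄ + n₅ + 1, fun n hn => ?_⟩
  have hn1 : n₁ ≤ n := by omega
  have hn2 : n₂ ≤ n := by omega
  have hn3 : (2 / (l * δ) ^ 2) ≤ (n : ℝ) := hn₃.trans (by exact_mod_cast (by omega : n₃ ≤ n))
  have hn4 : (12 / η) ≤ (n : ℝ) := hn₄.trans (by exact_mod_cast (by omega : n₄ ≤ n))
  have hn5 : ((8 / η) * (1 / 2 + |Real.log (ε / 2)|)) ≤ (n : ℝ) := hn₅.trans (by exact_mod_cast (by omega : n₅ ≤ n))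
  have hnpos : (0 : ℝ) < n := by exact_mod_cast (by omega : 0 < n)
  set ν := multivariateGaussian 0 (1 : Matrix (Fin n) (Fin n) ℝ) with hν
  set a := cor l with ha
  set L := Lam l with hL
  set R := rat l with hR
  have hRe : R = l * a - L := rfl
  set G := Gd n l L a (δ * n) with hG
  have hGm : MeasurableSet G := meas_Gd _ _ _ _ _
  -- the complement of G
  have hGc : ν.real Gᶜ ≤ ε' + ε' := by
    have h1 := hn₁ n hn1
    have h2 := hn₂ n hn2
    have hsub : Gᶜ ⊆ {x : EuclideanSpace ℝ (Fin n) | ε' * n ≤ |∑ i, Real.log (Real.cosh (l * x i)) -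
          n * ∫ y, Real.log (Real.cosh (l * y)) ∂(gaussianReal 0 1)|} ∪
        {x : EuclideanSpace ℝ (Fin n) | ε' * n ≤ |∑ i, x i * Real.tanh (l * x i) -
          n * ∫ y, y * Real.tanh (l * y) ∂(gaussianReal 0 1)|} := by
      intro x hx
      have hx' : ¬ (|∑ i, Real.log (Real.cosh (l * x i)) - n * L| ≤ δ * n ∧
        |∑ i, x i * Real.tanh (l * x i) - n * a| ≤ δ * n) := hx
      have hle : ε' * n ≤ δ * n := mul_le_mul_of_nonneg_right hε'δ hnpos.le
      rw [not_and_or, not_le, not_le] at hx'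
      rcases hx' with h | h
      · left
        exact hle.trans h.le
      · right
        exact hle.trans h.le
    refine (measureReal_mono hsub).trans ((measureReal_union_le _ _).trans ?_)
    exact add_le_add h1 h2
  have hGne : G.Nonempty := by
    by_contra hne
    rw [Set.not_nonempty_iff_eq_empty] at hne
    rw [hne, Set.compl_empty] at hGc
    have : ν.real Set.univ = 1 := by simp
    rw [this] at hGc
    linarith
  set ρ : ℝ := 1 / 2 * Real.exp (-(n * (R + (1 + 2 * l) * δ))) with hρ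
  have hρ0 : 0 < ρ := by positivity
  have hcard : (Fintype.card (Fin n → Bool) : ℝ) = 2 ^ n := by
    simp
  have hτ : (2 : ℝ) * n ≤ (l * (δ * n)) ^ 2 := by
    have hpos : 0 < (l * δ) ^ 2 := by positivity
    rw [div_le_iff₀ hpos] at hn3
    have : (l * (δ * n)) ^ 2 = (n * (l * δ) ^ 2) * n := by ring
    rw [this]
    exact mul_le_mul_of_nonneg_right hn3 hnpos.le
  have hcov : ∀ y ∈ G, ∃ A : Finset (Fin n → Bool), (∀ i ∈ A, y ∈ Bs n ((a - 2 * δ) * n) i) ∧
      ρ * Fintype.card (Fin n → Bool) ≤ A.card := by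
    intro y hy
    obtain ⟨hy1, hy2⟩ := hy
    have h := hTILT n (fun i => y i) l (δ * n) hl (by positivity) hτ
    rw [abs_le] at hy1 hy2
    refine ⟨Finset.univ.filter fun σ : Fin n → Bool =>
        ∑ m, y m * Real.tanh (l * y m) - δ * n ≤ ∑ m, sgb (σ m) * y m, ?_, ?_⟩
    · intro σ hσ
      rw [Finset.mem_filter] at hσ
      have h2 := hσ.2
      show (a - 2 * δ) * n ≤ ∑ i, sgb (σ i) * y i
      nlinarith [hy2.1]
    · rw [hcard]
      refine le_trans ?_ h
      refine mul_le_mul_of_nonneg_right ?_ (by positivity)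
      rw [hρ]
      refine mul_le_mul_of_nonneg_left (Real.exp_le_exp.2 ?_) (by norm_num)
      have h3 : l * (∑ m, y m * Real.tanh (l * y m)) ≤ l * (n * a + δ * n) :=
        mul_le_mul_of_nonneg_left (by linarith [hy2.2]) hl.le
      rw [hRe]
      nlinarith [hy1.1, h3]
  have hρ1 : ρ ≤ 1 := by
    obtain ⟨y, hy⟩ := hGne
    obtain ⟨A, -, hA⟩ := hcov y hy
    have hA2 : (A.card : ℝ) ≤ Fintype.card (Fin n → Bool) := by exact_mod_cast A.card_le_univ
    have hpos : (0 : ℝ) < Fintype.card (Fin n → Bool) := by rw [hcard]; positivity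
    have : ρ * Fintype.card (Fin n → Bool) ≤ 1 * Fintype.card (Fin n → Bool) := by linarith
    exact le_of_mul_le_mul_right this hpos
  set E : ℝ := Real.exp ((R + η / 2) * n) with hE
  have hE0 : 0 < E := Real.exp_pos _
  obtain ⟨C₀, hC₀, hC₀m⟩ := hGRD (EuclideanSpace ℝ (Fin n)) ν (Fin n → Bool) (Bs n ((a - 2 * δ) * n)) G ρ
    (fun σ => meas_Bs _ _ _) hGm hρ0.le hcov ⌊E⌋₊
  have hρE : 1 / 2 * Real.exp (η * n / 4) ≤ ρ * E := by
    have h1 : ρ * E = 1 / 2 * Real.exp ((η / 2 - (1 + 2 * l) * δ) * n) := by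
      rw [hρ, hE, mul_assoc, ← Real.exp_add]
      ring_nf
    rw [h1]
    refine mul_le_mul_of_nonneg_left (Real.exp_le_exp.2 ?_) (by norm_num)
    nlinarith
  have hηn : 12 ≤ η * n := by
    rw [div_le_iff₀ hη] at hn4
    linarith
  have hexp4 : 4 ≤ Real.exp (η * n / 4) := by
    have := Real.add_one_le_exp (η * n / 4)
    linarith
  have hE2 : 2 ≤ E := by
    have h1 : ρ * E ≤ 1 * E := mul_le_mul_of_nonneg_right hρ1 hE0.le
    linarith
  have hfl : (⌊E⌋₊ : ℝ) ≤ E := Nat.floor_le hE0.le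
  have hfl2 : E - 1 ≤ (⌊E⌋₊ : ℝ) := (Nat.sub_one_lt_floor E).le
  refine ⟨insert (fun _ => true) C₀, Finset.insert_nonempty _ _, ?_, ?_⟩
  · have h1 : ((insert (fun _ => true) C₀ : Finset (Fin n → Bool)).card : ℝ) ≤ C₀.card + 1 := by
      exact_mod_cast Finset.card_insert_le _ _
    have h2 : (C₀.card : ℝ) ≤ (⌊E⌋₊ : ℝ) := by exact_mod_cast hC₀
    have h3 : Real.exp ((R + η) * n) = E * Real.exp (η * n / 2) := by
      rw [hE, ← Real.exp_add]
      ring_nf
    have h4 : 4 ≤ Real.exp (η * n / 2) := by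
      have := Real.add_one_le_exp (η * n / 2)
      linarith
    rw [h3]
    have h5 : E * 4 ≤ E * Real.exp (η * n / 2) := mul_le_mul_of_nonneg_left h4 hE0.le
    linarith
  · have hsub : {x : EuclideanSpace ℝ (Fin n) | ∀ σ ∈ (insert (fun _ => true) C₀ : Finset (Fin n → Bool)),
        ∑ i, sgb (σ i) * x i < (a - ε) * n} ⊆ Gᶜ ∪ (G \ ⋃ i ∈ C₀, Bs n ((a - 2 * δ) * n) i) := by
      intro x hx
      by_cases hxG : x ∈ G
      · right
        refine ⟨hxG, fun hxB => ?_⟩
        rw [Set.mem_iUnion₂] at hxB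
        obtain ⟨σ, hσ, hxσ⟩ := hxB
        have h1 := hx σ (Finset.mem_insert_of_mem hσ)
        have h2 : (a - 2 * δ) * n ≤ ∑ i, sgb (σ i) * x i := hxσ
        nlinarith
      · left
        exact hxG
    refine (measureReal_mono hsub).trans ((measureReal_union_le _ _).trans ?_)
    have hexp : Real.exp (-(ρ * (⌊E⌋₊ : ℝ))) ≤ ε / 2 := by
      have hlog : Real.exp (Real.log (ε / 2)) = ε / 2 := Real.exp_log (by positivity)
      rw [← hlog]
      refine Real.exp_le_exp.2 ?_
      have h1 : ρ * (E - 1) ≤ ρ * (⌊E⌋₊ : ℝ) := mul_le_mul_of_nonneg_left hfl2 hρ0.le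
      have h2 := Real.add_one_le_exp (η * n / 4)
      have h3 : 1 / 2 + |Real.log (ε / 2)| ≤ η * n / 8 := by
        have h4 : (8 / η) * (1 / 2 + |Real.log (ε / 2)|) * η ≤ n * η := mul_le_mul_of_nonneg_right hn5 hη.le
        have h5 : (8 / η) * (1 / 2 + |Real.log (ε / 2)|) * η = 8 * (1 / 2 + |Real.log (ε / 2)|) := by
          field_simp
        linarith
      have h6 := neg_abs_le (Real.log (ε / 2))
      nlinarith
    linarith

end Pool.Agent.H493.SZ
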