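import Pool.Agent.H493.SZ.Def6

/-! Project SZ, task CUR (helper706): the rates fill the interval `(0, log 2)`. -/

set_option autoImplicit false

open Filter Topology Set MeasureTheory ProbabilityTheory

namespace Pool.Agent.H493.SZ

namespace CURL

/-- the function `u tanh u - log cosh u`, by the binary entropy -/
noncomputable def G (u : ℝ) : ℝ := Real.log 2 - Real.binEntropy (1 / (1 + Real.exp (-(2 * u))))

theorem G_eq (u : ℝ) : u * Real.tanh u - Real.log (Real.cosh u) = G u := by
  have hc : 0 < Real.cosh u := Real.cosh_pos u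
  have he : 0 < Real.exp u := Real.exp_pos u
  have he' : 0 < Real.exp (-u) := Real.exp_pos _
  have hp : 1 / (1 + Real.exp (-(2 * u))) = Real.exp u / (2 * Real.cosh u) := by
    have h1 : Real.exp (-(2 * u)) = Real.exp (-u) / Real.exp u := by
      rw [← Real.exp_sub]; congr 1; ring
    rw [h1, Real.cosh_eq]
    field_simp
  have hq : 1 - Real.exp u / (2 * Real.cosh u) = Real.exp (-u) / (2 * Real.cosh u) := by
    rw [Real.cosh_eq]; field_simp; ring
  have hlp : Real.log (Real.exp u / (2 * Real.cosh u)) = u - (Real.log 2 + Real.log (Real.cosh u)) := by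
    rw [Real.log_div he.ne' (by positivity), Real.log_exp, Real.log_mul (by norm_num) hc.ne']
  have hlq : Real.log (Real.exp (-u) / (2 * Real.cosh u)) = -u - (Real.log 2 + Real.log (Real.cosh u)) := by
    rw [Real.log_div he'.ne' (by positivity), Real.log_exp, Real.log_mul (by norm_num) hc.ne']
  have ht : Real.tanh u = 2 * (Real.exp u / (2 * Real.cosh u)) - 1 := by
    rw [Real.tanh_eq_sinh_div_cosh, Real.sinh_eq, Real.cosh_eq]
    field_simp
    ring
  have hq' : Real.exp (-u) / (2 * Real.cosh u) = 1 - Real.exp u / (2 * Real.cosh u) := hq.symm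
  unfold G Real.binEntropy
  rw [hp, Real.log_inv, Real.log_inv, hq, hlp, hlq, hq', ht]
  ring

theorem G_nonneg (u : ℝ) : 0 ≤ G u := sub_nonneg.2 Real.binEntropy_le_log_two

theorem G_le (u : ℝ) : G u ≤ Real.log 2 := by
  unfold G
  have he : 0 < Real.exp (-(2 * u)) := Real.exp_pos _
  have h := Real.binEntropy_nonneg (p := 1 / (1 + Real.exp (-(2 * u)))) (by positivity)
    (by rw [div_le_one (by positivity)]; linarith)
  linarith

theorem G_cont : Continuous G := by
  unfold G
  refine continuous_const.sub (Real.binEntropy_continuous.comp ?_)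
  refine continuous_const.div (by fun_prop) fun u => ?_
  have he : 0 < Real.exp (-(2 * u)) := Real.exp_pos _
  positivity

theorem G_zero : G 0 = 0 := by
  rw [← G_eq]
  simp

theorem G_neg (u : ℝ) : G (-u) = G u := by
  rw [← G_eq, ← G_eq, Real.tanh_neg, Real.cosh_neg]
  ring

theorem G_top : Tendsto G atTop (𝓝 (Real.log 2)) := by
  have h1 : Tendsto (fun u : ℝ => 1 / (1 + Real.exp (-(2 * u)))) atTop (𝓝 (1 / (1 + 0))) := by
    refine tendsto_const_nhds.div (tendsto_const_nhds.add ?_) (by norm_num)
    refine Real.tendsto_exp_atBot.comp (tendsto_neg_atTop_atBot.comp ?_)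
    exact tendsto_id.const_mul_atTop (by norm_num)
  have h2 := (Real.binEntropy_continuous.tendsto (1 / (1 + 0))).comp h1
  have h3 : Real.binEntropy (1 / (1 + 0)) = 0 := by norm_num
  rw [h3] at h2
  have h4 := (tendsto_const_nhds (x := Real.log 2)).sub h2
  rw [sub_zero] at h4
  exact h4

theorem int_id : Integrable (fun x : ℝ => x) (gaussianReal 0 1) :=
  (memLp_id_gaussianReal (μ := 0) (v := 1) 1).integrable le_rfl

theorem abs_tanh_le (u : ℝ) : |Real.tanh u| ≤ 1 := (Real.abs_tanh_lt_one u).le

theorem int_tanh (l : ℝ) : Integrable (fun x : ℝ => x * Real.tanh (l * x)) (gaussianReal 0 1) := by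
  refine int_id.norm.mono' ?_ (ae_of_all _ fun x => ?_)
  · refine Continuous.aestronglyMeasurable ?_
    have h : Continuous Real.tanh := by
      have h0 : Real.tanh = fun x => Real.sinh x / Real.cosh x := funext Real.tanh_eq_sinh_div_cosh
      rw [h0]
      exact Real.continuous_sinh.div Real.continuous_cosh fun x => (Real.cosh_pos x).ne'
    exact continuous_id.mul (h.comp (by fun_prop))
  · rw [norm_mul]
    exact mul_le_of_le_one_right (norm_nonneg _) (abs_tanh_le _)

theorem int_logcosh (l : ℝ) : Integrable (fun x : ℝ => Real.log (Real.cosh (l * x))) (gaussianReal 0 1) := by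
  refine (int_id.norm.const_mul |l|).mono' ?_ (ae_of_all _ fun x => ?_)
  · refine Continuous.aestronglyMeasurable ?_
    refine Continuous.log (Real.continuous_cosh.comp (by fun_prop)) fun x => (Real.cosh_pos _).ne'
  · rw [Real.norm_of_nonneg (Real.log_nonneg (Real.one_le_cosh _))]
    have h1 : Real.cosh (l * x) ≤ Real.exp |l * x| := by
      rw [← Real.cosh_abs, Real.cosh_eq]
      have h2 : Real.exp (-|l * x|) ≤ Real.exp |l * x| := Real.exp_le_exp.2 (by linarith [abs_nonneg (l * x)])
      linarith
    calc Real.log (Real.cosh (l * x)) ≤ Real.log (Real.exp |l * x|) := Real.log_le_log (Real.cosh_pos _) h1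
      _ = |l| * ‖x‖ := by rw [Real.log_exp, abs_mul, Real.norm_eq_abs]

theorem rat_eq (l : ℝ) : rat l = ∫ x, G (l * x) ∂(gaussianReal 0 1) := by
  unfold rat cor Lam
  rw [← integral_const_mul, ← integral_sub ((int_tanh l).const_mul l) (int_logcosh l)]
  refine integral_congr_ae (ae_of_all _ fun x => ?_)
  change l * (x * Real.tanh (l * x)) - Real.log (Real.cosh (l * x)) = G (l * x)
  rw [← G_eq]
  ring

theorem G_norm (u : ℝ) : ‖G u‖ ≤ Real.log 2 := by
  rw [Real.norm_of_nonneg (G_nonneg u)]
  exact G_le u

theorem rat_cont : Continuous rat := by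
  have h : rat = fun l => ∫ x, G (l * x) ∂(gaussianReal 0 1) := funext rat_eq
  rw [h]
  refine continuous_of_dominated (bound := fun _ => Real.log 2) (fun l => ?_) (fun l => ae_of_all _ fun x => G_norm _)
    (integrable_const _) (ae_of_all _ fun x => ?_)
  · exact (G_cont.comp (by fun_prop)).aestronglyMeasurable
  · exact G_cont.comp (by fun_prop)

theorem rat_zero : rat 0 = 0 := by
  rw [rat_eq]
  simp [G_zero]

theorem rat_top : Tendsto rat atTop (𝓝 (Real.log 2)) := by
  have h : rat = fun l => ∫ x, G (l * x) ∂(gaussianReal 0 1) := funext rat_eq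
  rw [h]
  have h1 : Real.log 2 = ∫ _ : ℝ, Real.log 2 ∂(gaussianReal 0 1) := by simp
  rw [h1]
  refine tendsto_integral_filter_of_dominated_convergence (fun _ => Real.log 2)
    (Eventually.of_forall fun l => (G_cont.comp (by fun_prop)).aestronglyMeasurable)
    (Eventually.of_forall fun l => ae_of_all _ fun x => G_norm _) (integrable_const _) ?_
  have h2 : ∀ᵐ x : ℝ ∂(gaussianReal 0 1), x ≠ 0 := by
    have := nullSingletonClass_gaussianReal (μ := 0) (v := 1) one_ne_zero
    rw [ae_iff]
    simp
  filter_upwards [h2] with x hx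
  rcases lt_or_gt_of_ne hx with h | h
  · have h3 : Tendsto (fun l : ℝ => G (l * -x)) atTop (𝓝 (Real.log 2)) :=
      G_top.comp (tendsto_id.atTop_mul_const (by linarith))
    refine h3.congr fun l => ?_
    rw [mul_neg, G_neg]
  · exact G_top.comp (tendsto_id.atTop_mul_const h)

end CURL

open CURL in
theorem t_CUR : S_CUR := by
  intro κ h0 h1
  obtain ⟨L, hL⟩ := ((rat_top.eventually (lt_mem_nhds h1)).and (eventually_gt_atTop 0)).exists
  obtain ⟨l, hl, hl2⟩ := intermediate_value_Ioo hL.2.le rat_cont.continuousOn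
    ⟨by rw [rat_zero]; exact h0, hL.1⟩
  exact ⟨l, hl.1, hl2⟩

end Pool.Agent.H493.SZ
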