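import Pool.Agent.H493.SZ.LowG
import Pool.Agent.H493.EN.All

set_option autoImplicit false

/-! The exact entropy curve for the numbers of zeros in windows. -/

open Complex Filter Topology Set MeasureTheory ProbabilityTheory
open scoped BoundedContinuousFunction RealInnerProductSpace NNReal

namespace Pool.Agent.H493.SZ

open Pool.Agent.H493.EN Pool.Agent.H203.ME

lemma int_aux {x y : ℝ} {m n : ℕ} (hx0 : 0 ≤ x) (hx1 : x < 1) (hy0 : 0 ≤ y) (hy1 : y < 1) (hmn : m ≠ n) :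
    x + m ≠ y + n := by
  intro h
  rcases lt_or_gt_of_ne hmn with h1 | h1
  · have h2 : (m : ℝ) + 1 ≤ n := by exact_mod_cast h1
    linarith
  · have h2 : (n : ℝ) + 1 ≤ m := by exact_mod_cast h1
    linarith

/-- windows inside one step: the blocks are independent -/
lemma SC_eq {k : ℕ} {a b : Fin k → ℝ} (ha : ∀ j, 0 ≤ a j) (hab : ∀ j, a j < b j) (hb : ∀ j, b j < 1) (M : ℕ) :
    SC a b M = SM (Matrix.of (cw2 a b)) M := by
  classical
  ext p q
  obtain ⟨⟨i, m⟩, rfl⟩ := finProdFinEquiv.surjective p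
  obtain ⟨⟨j, n⟩, rfl⟩ := finProdFinEquiv.surjective q
  have ha1 : ∀ j, a j < 1 := fun j => (hab j).trans (hb j)
  have hb0 : ∀ j, 0 ≤ b j := fun j => (ha j).trans (hab j).le
  unfold SC SM aM
  simp only [Matrix.of_apply, Equiv.symm_apply_apply]
  by_cases h : m = n
  · subst h
    rw [if_pos rfl]
    exact cw2_shift a b _ _ ((m : ℕ) : ℝ) i j _ _ (by simp) (by simp) (by simp) (by simp)
  · rw [if_neg h]
    have h' : ((m : ℕ)) ≠ (n : ℕ) := fun h2 => h (Fin.ext h2)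
    unfold cw2
    simp only [Equiv.symm_apply_apply]
    rw [if_neg (int_aux (ha i) (ha1 i) (ha j) (ha1 j) h'), if_neg (int_aux (hb0 i) (hb i) (hb0 j) (hb j) h'),
      if_neg (int_aux (ha i) (ha1 i) (hb0 j) (hb j) h'), if_neg (int_aux (hb0 i) (hb i) (ha j) (ha1 j) h')]
    norm_num

lemma cnt_Loc {k : ℕ} (a b : Fin k → ℝ) {h : ℝ → ℝ} (h0 : Tendsto h atTop (𝓝 0)) : Loc (Xc a b) h := by
  unfold Loc
  filter_upwards [small_ev a h0, small_ev b h0, eventually_ge_atTop (10 : ℝ)] with T h2 h3 h5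
  have hh := fun j : Fin k =>
    XF0_loc (s := h T) (σ := sgm (h T) T) wd_sum (wd_small (h2 j) (h3 j)) (show 3 ≤ T by linarith) (3 * T) T
  choose G hG _ hGe using hh
  refine ⟨fun t => WithLp.toLp 2 fun j => G j t, ?_, fun t ht => ?_⟩
  · exact (PiLp.continuous_toLp 2 _).measurable.comp (measurable_pi_lambda _ fun j => hG j)
  · unfold Xc
    congr 1
    funext j
    exact hGe j t ht

lemma log_lt_tn {l m : ℝ} (hl : 0 < l) (hm : |m| < 1) {x : ℝ} (hx : x ≠ 0) : Real.log (Dn l m x) < l * (x * tn l m x) := by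
  have hm' := abs_lt.1 hm
  have hp : 0 < (1 + m) / 2 := by linarith [hm'.1]
  have hq : 0 < (1 - m) / 2 := by linarith [hm'.2]
  have hA := Real.exp_pos (l * x)
  have hB := Real.exp_pos (-(l * x))
  have hD : Dn l m x = (1 + m) / 2 * Real.exp (l * x) + (1 - m) / 2 * Real.exp (-(l * x)) := by
    unfold Dn
    rw [Real.cosh_eq, Real.sinh_eq]
    ring
  have hD0 : 0 < Dn l m x := by
    rw [hD]
    positivity
  have hne : Dn l m x / Real.exp (l * x) ≠ 1 := by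
    intro h
    rw [div_eq_one_iff_eq hA.ne', hD] at h
    have h1 : (1 - m) / 2 * (Real.exp (-(l * x)) - Real.exp (l * x)) = 0 := by linarith
    rcases mul_eq_zero.1 h1 with h2 | h2
    · exact hq.ne' h2
    · have h3 : -(l * x) = l * x := Real.exp_injective (sub_eq_zero.1 h2)
      have h4 : l * x = 0 := by linarith
      rcases mul_eq_zero.1 h4 with h5 | h5
      · exact hl.ne' h5
      · exact hx h5
  set wp := (1 + m) / 2 * Real.exp (l * x) / Dn l m x with hwp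
  set wm := (1 - m) / 2 * Real.exp (-(l * x)) / Dn l m x with hwm
  have hwp0 : 0 < wp := by positivity
  have hwm0 : 0 < wm := by positivity
  have hsum : wp + wm = 1 := by
    rw [hwp, hwm, ← add_div, ← hD, div_self hD0.ne']
  have ht : tn l m x = wp - wm := by
    rw [hwp, hwm, ← sub_div]
    unfold tn
    congr 1
    rw [Real.cosh_eq, Real.sinh_eq]
    ring
  have h1 : Real.log (Dn l m x) - l * x < Dn l m x / Real.exp (l * x) - 1 := by
    have := Real.log_lt_sub_one_of_pos (div_pos hD0 hA) hne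
    rwa [Real.log_div hD0.ne' hA.ne', Real.log_exp] at this
  have h2 : Real.log (Dn l m x) + l * x ≤ Dn l m x / Real.exp (-(l * x)) - 1 := by
    have := Real.log_le_sub_one_of_pos (div_pos hD0 hB)
    rw [Real.log_div hD0.ne' hB.ne', Real.log_exp] at this
    linarith
  have h3 := mul_lt_mul_of_pos_left h1 hwp0
  have h4 := mul_le_mul_of_nonneg_left h2 hwm0.le
  have h5 : wp * (Dn l m x / Real.exp (l * x) - 1) = (1 + m) / 2 - wp := by
    rw [hwp]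
    field_simp
  have h6 : wm * (Dn l m x / Real.exp (-(l * x)) - 1) = (1 - m) / 2 - wm := by
    rw [hwm]
    field_simp
  rw [h5] at h3
  rw [h6] at h4
  have h7 : l * (x * tn l m x) = l * x * wp - l * x * wm := by rw [ht]; ring
  have h8 : Real.log (Dn l m x) = wp * Real.log (Dn l m x) + wm * Real.log (Dn l m x) := by
    rw [← add_mul, hsum, one_mul]
  rw [h7]
  nlinarith

lemma log_le_tn {l m : ℝ} (hl : 0 < l) (hm : |m| < 1) (x : ℝ) : Real.log (Dn l m x) ≤ l * (x * tn l m x) := by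
  by_cases hx : x = 0
  · rw [hx, Dn_zero, Real.log_one, zero_mul, mul_zero]
  · exact (log_lt_tn hl hm hx).le

/-- rates are positive -/
lemma rate_pos (hLPG : S_LPG) {ν : Measure ℝ} [IsProbabilityMeasure ν] (h1 : Integrable (fun x : ℝ => x) ν)
    (h2 : 0 < ∫ x, |x| ∂ν) {l m : ℝ} (hl : 0 < l) (hm : |m| < 1) :
    0 < l * (∫ x, x * tn l m x ∂ν) - (∫ x, Real.log (Dn l m x) ∂ν) := by
  have htc : Continuous (tn l m) := by
    unfold tn
    exact ((Real.continuous_sinh.comp (by fun_prop)).add ((Real.continuous_cosh.comp (by fun_prop)).const_mul m)).div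
      (Dn_cont l m) fun x => ((hLPG l m hl hm).2.2.2.1 x).ne'
  have i1 : Integrable (fun x : ℝ => Real.log (Dn l m x)) ν := lD_int hLPG hl hm h1
  have i2 : Integrable (fun x : ℝ => l * (x * tn l m x)) ν := by
    refine Integrable.const_mul ?_ l
    refine h1.mono (measurable_id.mul htc.measurable).aestronglyMeasurable (Filter.Eventually.of_forall fun x => ?_)
    rw [norm_mul, Real.norm_eq_abs, Real.norm_eq_abs]
    have := (hLPG l m hl hm).2.1 x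
    calc |x| * |tn l m x| ≤ |x| * 1 := mul_le_mul_of_nonneg_left this (abs_nonneg _)
      _ = |x| := mul_one _
  rw [← integral_const_mul, ← integral_sub i2 i1]
  have h3 : 0 < ν (Function.support fun x : ℝ => |x|) :=
    (integral_pos_iff_support_of_nonneg (fun x => abs_nonneg x) h1.abs).1 h2
  refine (integral_pos_iff_support_of_nonneg (fun x => sub_nonneg.2 (log_le_tn hl hm x)) (i2.sub i1)).2 (h3.trans_le
    (measure_mono fun x hx => ?_))
  have hx' : x ≠ 0 := by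
    intro h
    rw [h] at hx
    simp at hx
  exact (sub_pos.2 (log_lt_tn hl hm hx')).ne'

section

variable {k : ℕ} {a b : Fin k → ℝ} (ha : ∀ j, 0 ≤ a j) (hab : ∀ j, a j < b j) (hb : ∀ j, b j < 1)

include ha hab hb in
lemma cnt_GsX (hk : 0 < k) : Gs k (2 * k) (Matrix.of (cw2 a b)) (SM (Matrix.of (cw2 a b))) := by
  have h1 := cnt_Gs t_CPS t_CQF hk a b
  have h2 : (SC a b) = (SM (Matrix.of (cw2 a b))) := funext fun M => SC_eq ha hab hb M
  rwa [h2] at h1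

include ha hab hb in
lemma cnt_ObsX {h : ℝ → ℝ} (h0 : Tendsto h atTop (𝓝 0)) (h1 : Tendsto (fun T => h T * Real.log T) atTop atTop) :
    Obs k (Matrix.of (cw2 a b)) (SM (Matrix.of (cw2 a b))) (Xc a b) h := by
  have h3 := cnt_Fam p_CHF p_SCF t_CPS a b h h0 h1
  have h2 : (SC a b) = (SM (Matrix.of (cw2 a b))) := funext fun M => SC_eq ha hab hb M
  rwa [h2] at h3

include ha hab hb in
theorem cnt_up (hUX : S_UXD) (hPIG : S_PIG) (hLPG : S_LPG) (hk : 0 < k) {ψ : EuclideanSpace ℝ (Fin k) → ℝ} {C : ℝ}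
    (hψ : Continuous ψ) (hC : ∀ x, |ψ x| ≤ C * (1 + ‖x‖ ^ 2)) {κ l m ε : ℝ} (hκ : 0 ≤ κ) (hl : 0 < l) (hm : |m| < 1) (hε : 0 < ε)
    (hbal : ∫ x, Real.sinh (l * (ψ x - ∫ y, ψ y ∂(multivariateGaussian 0 (Matrix.of (cw2 a b))))) /
      Dn l m (ψ x - ∫ y, ψ y ∂(multivariateGaussian 0 (Matrix.of (cw2 a b)))) ∂(multivariateGaussian 0 (Matrix.of (cw2 a b))) = 0) :
    ∃ (δ : ℝ) (M₀ : ℕ), 0 < δ ∧ ∀ M : ℕ, M₀ ≤ M → ∃ K : ℝ, 1 ≤ K ∧ ∀ T : ℝ, K ≤ T → ∀ s : ℝ, K ≤ s * Real.log T → s ≤ 1 / K →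
      ∀ θ : ℝ → ℂ, Measurable θ → (∀ t, ‖θ t‖ ≤ 1) → Follows T s M κ δ θ →
      ‖∫ t in T..(2 * T), θ t * (Yg (Xc a b) (Matrix.of (cw2 a b)) ψ s T t : ℂ)‖ ≤
        ((κ + ∫ x, Real.log (Dn l m (ψ x - ∫ y, ψ y ∂(multivariateGaussian 0 (Matrix.of (cw2 a b))))) ∂(multivariateGaussian 0
          (Matrix.of (cw2 a b)))) / l + ε) * T := by
  obtain ⟨δ, M₀, hδ, h1⟩ := upX hUX hPIG hLPG (cnt_GsX ha hab hb hk) hψ hC hκ hl hm hε hbal
  refine ⟨δ, M₀, hδ, fun M hM => unif (P := fun T s => ∀ θ : ℝ → ℂ, Measurable θ → (∀ t, ‖θ t‖ ≤ 1) → Follows T s M κ δ θ →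
      ‖∫ t in T..(2 * T), θ t * (Yg (Xc a b) (Matrix.of (cw2 a b)) ψ s T t : ℂ)‖ ≤
        ((κ + ∫ x, Real.log (Dn l m (ψ x - ∫ y, ψ y ∂(multivariateGaussian 0 (Matrix.of (cw2 a b))))) ∂(multivariateGaussian 0
          (Matrix.of (cw2 a b)))) / l + ε) * T) fun h h0 h2 => ?_⟩
  exact h1 M hM (Xc a b) h (cnt_Loc a b h0) (cnt_ObsX ha hab hb h0 h2)

include ha hab hb in
theorem cnt_low (hB : S_BLKC) (hCo : S_COD) (hPIG : S_PIG) (hk : 0 < k) {ψ : EuclideanSpace ℝ (Fin k) → ℝ} {C : ℝ}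
    (hψ : Continuous ψ) (hC : ∀ x, |ψ x| ≤ C * (1 + ‖x‖ ^ 2)) {l m η ε : ℝ} (hl : 0 < l) (hm : |m| < 1) (hη : 0 < η)
    (hε : 0 < ε) :
    ∃ (M₀ : ℕ) (K : ℝ), 1 ≤ K ∧ ∀ T : ℝ, K ≤ T → ∀ s : ℝ, K ≤ s * Real.log T → s ≤ 1 / K →
      ∃ θ : ℝ → ℂ, Measurable θ ∧ (∀ t, ‖θ t‖ ≤ 1) ∧
      (∀ M, M₀ ≤ M → Follows T s M (l * (∫ x, (ψ x - ∫ y, ψ y ∂(multivariateGaussian 0 (Matrix.of (cw2 a b)))) *
        tn l m (ψ x - ∫ y, ψ y ∂(multivariateGaussian 0 (Matrix.of (cw2 a b)))) ∂(multivariateGaussian 0 (Matrix.of (cw2 a b)))) -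
        (∫ x, Real.log (Dn l m (ψ x - ∫ y, ψ y ∂(multivariateGaussian 0 (Matrix.of (cw2 a b))))) ∂(multivariateGaussian 0
          (Matrix.of (cw2 a b)))) + η) 0 θ) ∧
      ((∫ x, (ψ x - ∫ y, ψ y ∂(multivariateGaussian 0 (Matrix.of (cw2 a b)))) *
        tn l m (ψ x - ∫ y, ψ y ∂(multivariateGaussian 0 (Matrix.of (cw2 a b)))) ∂(multivariateGaussian 0 (Matrix.of (cw2 a b)))) - ε) * T ≤
        ‖∫ t in T..(2 * T), θ t * (Yg (Xc a b) (Matrix.of (cw2 a b)) ψ s T t : ℂ)‖ := by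
  obtain ⟨M₀, h1⟩ := lowG hB hCo hPIG (cnt_GsX ha hab hb hk) hψ hC hl hm hη hε
  refine ⟨M₀, unif (P := fun T s => ∃ θ : ℝ → ℂ, Measurable θ ∧ (∀ t, ‖θ t‖ ≤ 1) ∧
      (∀ M, M₀ ≤ M → Follows T s M (l * (∫ x, (ψ x - ∫ y, ψ y ∂(multivariateGaussian 0 (Matrix.of (cw2 a b)))) *
        tn l m (ψ x - ∫ y, ψ y ∂(multivariateGaussian 0 (Matrix.of (cw2 a b)))) ∂(multivariateGaussian 0 (Matrix.of (cw2 a b)))) -
        (∫ x, Real.log (Dn l m (ψ x - ∫ y, ψ y ∂(multivariateGaussian 0 (Matrix.of (cw2 a b))))) ∂(multivariateGaussian 0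
          (Matrix.of (cw2 a b)))) + η) 0 θ) ∧
      ((∫ x, (ψ x - ∫ y, ψ y ∂(multivariateGaussian 0 (Matrix.of (cw2 a b)))) *
        tn l m (ψ x - ∫ y, ψ y ∂(multivariateGaussian 0 (Matrix.of (cw2 a b)))) ∂(multivariateGaussian 0 (Matrix.of (cw2 a b)))) - ε) * T ≤
        ‖∫ t in T..(2 * T), θ t * (Yg (Xc a b) (Matrix.of (cw2 a b)) ψ s T t : ℂ)‖) fun h h0 h2 => ?_⟩
  exact h1 (Xc a b) h (cnt_Loc a b h0) (cnt_ObsX ha hab hb h0 h2)

end

end Pool.Agent.H493.SZ
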