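import Mathlib

set_option autoImplicit false

/-!
# Project SZ (helper493): the entropy principle for `log |ζ(1/2 + it)|`

Statements of the lemmas (only Mathlib notions).  `V T = log log T`, `lz t = log |ζ(1/2 + it)|`.  The values
`lz (t + d_j(T)) / √(V T / 2)`, `j < k`, at the points `t, t + h(T), t + 2h(T), ...` are asymptotically Gaussian,
independent for different multiples of `h(T)`.
-/

open Complex Filter Topology Set MeasureTheory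

namespace Pool.Agent.H493.SZ

/-- `log |ζ(1/2 + it)|` -/
noncomputable def lz (t : ℝ) : ℝ := Real.log ‖riemannZeta (1 / 2 + t * I)‖

/-- `log log T` -/
noncomputable def V (T : ℝ) : ℝ := Real.log (Real.log T)

/-- `n^{-it}` -/
noncomputable def e0 (n : ℕ) (t : ℝ) : ℂ := cexp (-(((t * Real.log n : ℝ) : ℂ) * I))

/-- the real part of the prime sum `∑_{p ≤ X} p^{-1/2-it}` -/
noncomputable def pr (X : ℕ) (t : ℝ) : ℝ :=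
  (∑ p ∈ (Finset.Icc 1 X).filter Nat.Prime, (((p : ℝ) ^ (-(1 / 2) : ℝ) : ℝ) : ℂ) * e0 p t).re

/-- the logarithm of the modulus of the Euler product -/
noncomputable def ep (X : ℕ) (t : ℝ) : ℝ :=
  -∑ p ∈ (Finset.Icc 1 X).filter Nat.Prime, Real.log ‖1 - (p : ℂ) ^ (-(1 / 2 + t * I))‖

/-- the range of the step `s` -/
def Rg (K T s : ℝ) : Prop := Real.log T ^ (-(1 / K)) ≤ s ∧ s ≤ Real.exp (Real.log T ^ (1 / K))

/-- the admissible steps `h(T)` -/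
def Sc (h : ℝ → ℝ) : Prop := ∀ K : ℝ, 1 ≤ K → ∀ᶠ T : ℝ in atTop, Rg K T (h T)

/-- the shifts and their covariance matrix; for `i = j` the limit is `1` -/
structure Sh {k : ℕ} (d : Fin k → ℝ → ℝ) (S : Matrix (Fin k) (Fin k) ℝ) : Prop where
  small : ∃ δ : ℝ, 0 < δ ∧ ∀ j, ∀ᶠ T : ℝ in atTop, |d j T| ≤ Real.log T ^ (-δ)
  cov : ∀ i j, Tendsto (fun T : ℝ => -Real.log (|d i T - d j T| + 1 / Real.log T) / V T) atTop (𝓝 (S i j))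

/-- the covariance matrix at `M` consecutive points: `M` independent copies -/
noncomputable def SM {k : ℕ} (S : Matrix (Fin k) (Fin k) ℝ) (M : ℕ) : Matrix (Fin (k * M)) (Fin (k * M)) ℝ :=
  Matrix.of fun a b => if (finProdFinEquiv.symm a).2 = (finProdFinEquiv.symm b).2 then
    S (finProdFinEquiv.symm a).1 (finProdFinEquiv.symm b).1 else 0

/-- the points `m h(T) + d_j(T)` -/
noncomputable def pt {k M : ℕ} (d : Fin k → ℝ → ℝ) (h : ℝ → ℝ) (a : Fin (k * M)) (T : ℝ) : ℝ :=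
  ((finProdFinEquiv.symm a).2 : ℕ) * h T + d (finProdFinEquiv.symm a).1 T

/-! ### known theorems (already proved in the library or by the team), used as hypotheses -/

/-- Mertens and zeta near the line `1` (library, `Q149.UM.t_MZ`) -/
def S_MZ0 : Prop := ∀ δ : ℝ, 0 < δ → δ ≤ 1 → ∃ C : ℝ, ∀ᶠ T : ℝ in atTop, ∀ u : ℝ,
  |(∑ p ∈ (Finset.Icc 1 ⌊T ^ δ⌋₊).filter Nat.Prime, Real.cos (u * Real.log p) / p) -
    Real.log ‖riemannZeta (1 + 1 / Real.log T + u * I)‖| ≤ C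

/-- mean square of `log |ζ| - log |Euler product|` (library, `Q97.UM.b_THP`) -/
def S_THP0 : Prop := ∃ δ₀ : ℝ, 0 < δ₀ ∧ ∀ δ : ℝ, 0 < δ → δ ≤ δ₀ → ∃ C : ℝ, 0 ≤ C ∧ ∀ᶠ T : ℝ in atTop,
  IntervalIntegrable (fun t => |lz t - ep ⌊T ^ δ⌋₊ t| ^ 2) volume (T / 2) (4 * T) ∧
  ∫ t in (T / 2)..(4 * T), |lz t - ep ⌊T ^ δ⌋₊ t| ^ 2 ≤ C * T

/-- moments of prime polynomials (team, `H203.ME.t_MOM`) -/
def S_MOM0 : Prop := ∀ (j l : ℕ) (N : ℕ) (a : ℕ → ℂ) (θ T : ℝ), 1 ≤ N → 0 ≤ θ → θ ≤ 1 → 1 ≤ T →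
  (∀ p : ℕ, ‖a p‖ ≤ θ) →
  ‖(1 / T : ℂ) * (∫ t in T..(2 * T), (∑ p ∈ (Finset.Icc 1 N).filter Nat.Prime, a p * e0 p t) ^ j *
      ((starRingEnd ℂ) (∑ p ∈ (Finset.Icc 1 N).filter Nat.Prime, a p * e0 p t)) ^ l) -
    (if j = l then ((j.factorial : ℂ)) * ((∑ p ∈ (Finset.Icc 1 N).filter Nat.Prime, ‖a p‖ ^ 2 : ℝ) : ℂ) ^ j else 0)‖ ≤
    (j.factorial : ℝ) * j ^ 2 * θ ^ 2 * (1 + ∑ p ∈ (Finset.Icc 1 N).filter Nat.Prime, ‖a p‖ ^ 2) ^ j +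
      2 * (N : ℝ) ^ (2 * (j + l)) / T

/-- the central limit theorem for prime polynomials (team, `H203.ME.t_CLT t_MOM`) -/
def S_CLT0 : Prop := ∀ S0 ε : ℝ, 0 < S0 → 0 < ε → ∃ η κ T0 : ℝ, 0 < η ∧ 0 < κ ∧ κ ≤ 1 ∧ 1 ≤ T0 ∧ ∀ T : ℝ, T0 ≤ T →
  ∀ (N : ℕ) (a : ℕ → ℂ), (N : ℝ) ≤ T ^ κ → (∀ p : ℕ, ‖a p‖ ≤ η) →
    ∑ p ∈ (Finset.Icc 1 N).filter Nat.Prime, ‖a p‖ ^ 2 ≤ S0 →
  ‖(1 / T : ℂ) * (∫ t in T..(2 * T), cexp (I * ((∑ p ∈ (Finset.Icc 1 N).filter Nat.Prime, a p * e0 p t).re : ℂ))) -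
    cexp (-((∑ p ∈ (Finset.Icc 1 N).filter Nat.Prime, ‖a p‖ ^ 2 : ℝ) : ℂ) / 4)‖ ≤ ε

/-! ### jobs -/

/-- ZNEAR: zeta near `s = 1`.  PROOF. `(s - 1) ζ(s)` (value `1` at `s = 1`) is continuous and has no zero on the compact
set `1 ≤ Re s ≤ 2`, `|Im s| ≤ 1` (`riemannZeta_ne_zero_of_one_le_re`, `riemannZeta_residue_one`), and
`(|u| + ε)/2 ≤ |ε + iu| ≤ |u| + ε`. -/
def S_ZNEAR : Prop := ∃ C : ℝ, 0 ≤ C ∧ ∀ ε u : ℝ, 0 < ε → ε ≤ 1 → |u| ≤ 1 →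
  |Real.log ‖riemannZeta (1 + ε + u * I)‖ + Real.log (|u| + ε)| ≤ C

/-- ZFAR: zeta to the right of the line `Re s = 1`, away from the pole (classical: `ζ(s) ≪ log u`, `ζ(s)⁻¹ ≪ (log u)^7`;
any power of `log` will do).  Search the library for bounds of `1/ζ` or of `ζ'/ζ` near the line `1`; or prove it: `|ζ(s)|, |ζ'(s)|`
are `≪ (log |u|)²` for `1 ≤ σ ≤ 2`, `|u| ≥ 1`; the 3-4-1 inequality `1 ≤ ζ(σ)³ |ζ(σ+iu)|⁴ |ζ(σ+2iu)|` gives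
`|ζ(σ+iu)| ≥ c (σ-1)^{3/4} (log|u|)^{-1/4}`; use it at `σ = 1 + c' (log |u|)^{-12}` and the bound of `ζ'` to go to the left. -/
def S_ZFAR : Prop := ∃ C : ℝ, 0 ≤ C ∧ ∀ ε u : ℝ, 0 < ε → ε ≤ 1 → 1 ≤ |u| →
  |Real.log ‖riemannZeta (1 + ε + u * I)‖| ≤ C * (1 + Real.log (Real.log (|u| + 3)))

/-- COVC: the covariances.  PROOF. `S_MZ0` (with `δ = κ`, divided by `V T → ∞`) replaces the sum by
`log |ζ(1 + 1/log T + iu)|`, uniformly in `u = (m - m')h + d_i - d_j`.  If `m = m'` then `|u| ≤ 2 (log T)^{-δ} ≤ 1`: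
S_ZNEAR with `ε = 1/log T` and `Sh.cov`.  If `m ≠ m'`: with `K > 2/δ` and `Sc`, `|u| ≥ h - 2 (log T)^{-δ} ≥
(log T)^{-1/K}/2` for every large `K`, so where `|u| ≤ 1` S_ZNEAR gives `|log|ζ|| ≤ V/K + C`, and where `|u| ≥ 1`,
`|u| ≤ |m - m'| exp((log T)^{1/K}) + 1` and S_ZFAR gives `|log |ζ|| ≤ C(1 + log log(|u| + 3)) ≤ C' + 2 C V/K`; `K` is arbitrary. -/
def S_COVC : Prop := ∀ (k : ℕ) (d : Fin k → ℝ → ℝ) (S : Matrix (Fin k) (Fin k) ℝ), Sh d S → ∀ h : ℝ → ℝ, Sc h →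
  ∀ κ : ℝ, 0 < κ → κ ≤ 1 → ∀ (i j : Fin k) (m m' : ℕ),
  Tendsto (fun T : ℝ => (∑ p ∈ (Finset.Icc 1 ⌊T ^ κ⌋₊).filter Nat.Prime,
    Real.cos (((m : ℝ) * h T + d i T - (m' * h T + d j T)) * Real.log p) / p) / V T) atTop
    (𝓝 (if m = m' then S i j else 0))

def J_COVC : Prop := S_MZ0 → S_ZNEAR → S_ZFAR → S_COVC

/-- APZ: mean square approximation of `log |ζ|` by the prime sum.  PROOF. `S_THP0` with `δ = κ`.
`|ep X t - pr X t - ½ Re ∑_{p ≤ X} p^{-1-2it}| ≤ ∑ C p^{-3/2} ≤ C'` (`-log|1 - z| = Re (z + z²/2) + O(|z|³)` for `|z| ≤ 2^{-1/2}`), and the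
mean square of `∑_{p ≤ X} p^{-1-2it}` over `[T/2, 4T]` is `O(1)` (expand the square: `X ≤ T^{1/8}`; the diagonal is `≤ ∑ p^{-2}`, an off-diagonal
term has `|∫ (p/q)^{2it} dt| ≤ 2/|log(p/q)| ≤ 4X`).  Take `κ₀ = min δ₀ (1/8)`. -/
def S_APZ : Prop := ∃ κ₀ : ℝ, 0 < κ₀ ∧ κ₀ ≤ 1 / 8 ∧ ∀ κ : ℝ, 0 < κ → κ ≤ κ₀ → ∃ C : ℝ, 0 ≤ C ∧ ∀ᶠ T : ℝ in atTop,
  IntervalIntegrable (fun t => (lz t - pr ⌊T ^ κ⌋₊ t) ^ 2) volume (T / 2) (4 * T) ∧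
  ∫ t in (T / 2)..(4 * T), (lz t - pr ⌊T ^ κ⌋₊ t) ^ 2 ≤ C * T

def J_APZ : Prop := S_THP0 → S_APZ

/-- MIZ: measurability and local square integrability.  PROOF. `t ↦ riemannZeta (1/2 + it)` is continuous, so `lz` is
measurable.  Integrability from S_APZ (`pr` is continuous, hence bounded on compact sets):
for `T` large `lz² ≤ 2 (lz - pr)² + 2 pr²` on `[T/2, 4T]`; apply it with `T = a` to `[a, 4a]`, and cover `[a, b]` by finitely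
many such intervals (induction). -/
def S_MIZ : Prop := Measurable lz ∧ ∃ A : ℝ, 1 ≤ A ∧ ∀ a b : ℝ, A ≤ a → A ≤ b → IntervalIntegrable (fun t => lz t ^ 2) volume a b

def J_MIZ : Prop := S_APZ → S_MIZ

/-- GSE: the covariance matrices.  PROOF. `S i i = 1`: `-log(1/log T)/V T = 1`.  `S` is positive semidefinite: symmetric since
`|d_i - d_j|` is; `∑ u_i u_j S_ij` is by S_COVC (`m = m' = 0`, `κ = 1`, step `h = 1`, which satisfies `Sc`) the limit of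
`(1/V) ∑_p |∑_i u_i e^{i d_i log p}|² / p ≥ 0` (`cos(a - b) = cos a cos b + sin a sin b`).  `|S_ij| ≤ 1`
(`1/log T ≤ |d_i - d_j| + 1/log T ≤ 1` for large `T`).  `SM S M` is block diagonal: its quadratic form is
`∑_m ∑_{i,j} u_{im} u_{jm} S_ij`, between `0` and `∑_m (∑_i |u_{im}|)² ≤ k ∑ u²`. -/
def S_GSE : Prop := ∀ (k : ℕ) (d : Fin k → ℝ → ℝ) (S : Matrix (Fin k) (Fin k) ℝ), 0 < k → Sh d S →
  (∀ i, S i i = 1) ∧ S.PosSemidef ∧ (∀ M, (SM S M).PosSemidef) ∧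
  ∀ (M : ℕ) (u : Fin (k * M) → ℝ), ∑ a, ∑ b, u a * u b * SM S M a b ≤ k * ∑ a, u a ^ 2

def J_GSE : Prop := S_COVC → S_GSE

/-- CHA: the characteristic function of the prime sums.  PROOF. Let `W = √(V/2)`.
`∑_a u_a pr X (t + pt a)/W = Re ∑_{p ≤ X} c_p e0 p t`, `c_p = p^{-1/2} ∑_a u_a e^{-i (pt a) log p}/W`, so `|c_p| ≤ ∑|u_a|/W → 0`, and
`∑_{p ≤ X} |c_p|² = (2/V) ∑_{a,b} u_a u_b ∑_p cos((pt a - pt b) log p)/p → 2 Q`, `Q = ∑_{a,b} u_a u_b SM_ab`, by S_COVC (for every fixed `κ`).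
Let `η, κ₁, T0` be as in `S_CLT0` for `S0 = 2|Q| + 1` and `ε/2`, and `κ = min κ₁ κ₀`; then the mean of `exp(i Re ∑ c_p e0 p t)` is within
`ε/2` of `exp(-¼ ∑|c_p|²) → exp(-Q/2)`. -/
def S_CHA : Prop := ∀ (k : ℕ) (d : Fin k → ℝ → ℝ) (S : Matrix (Fin k) (Fin k) ℝ), 0 < k → Sh d S → ∀ h : ℝ → ℝ, Sc h →
  ∀ (M : ℕ) (u : Fin (k * M) → ℝ) (ε κ₀ : ℝ), 0 < ε → 0 < κ₀ → κ₀ ≤ 1 → ∃ κ : ℝ, 0 < κ ∧ κ ≤ κ₀ ∧
  ∀ᶠ T : ℝ in atTop, ‖(1 / T : ℂ) * (∫ t in T..(2 * T),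
    cexp (I * ((∑ a, u a * (pr ⌊T ^ κ⌋₊ (t + pt d h a T) / Real.sqrt (V T / 2)) : ℝ) : ℂ))) -
    cexp (-((∑ a, ∑ b, u a * u b * SM S M a b : ℝ) : ℂ) / 2)‖ ≤ ε

def J_CHA : Prop := S_CLT0 → S_COVC → S_CHA

/-- CHZ: the characteristic function of the field.  PROOF. Given `ε` take `κ` from S_CHA (`κ₀` of S_APZ).  By S_APZ (the intervals
`[T + pt a, 2T + pt a]` lie in `[T/2, 4T]` since `pt a = o(T)`) and Cauchy–Schwarz the mean over `t` in `[T, 2T]` of `|lz - pr X|` at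
`t + pt a` is bounded, so, divided by `√(V/2) → ∞`, it tends to `0`; `|e^{ix} - e^{iy}| ≤ |x - y|` gives the claim up to `2ε`.
Measurability from S_MIZ. -/
def S_CHZ : Prop := ∀ (k : ℕ) (d : Fin k → ℝ → ℝ) (S : Matrix (Fin k) (Fin k) ℝ), 0 < k → Sh d S → ∀ h : ℝ → ℝ, Sc h →
  ∀ (M : ℕ) (u : Fin (k * M) → ℝ),
  Tendsto (fun T : ℝ => (1 / T : ℂ) * ∫ t in T..(2 * T),
    cexp (I * ((∑ a, u a * (lz (t + pt d h a T) / Real.sqrt (V T / 2)) : ℝ) : ℂ))) atTop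
    (𝓝 (cexp (-((∑ a, ∑ b, u a * u b * SM S M a b : ℝ) : ℂ) / 2)))

def J_CHZ : Prop := S_CHA → S_APZ → S_MIZ → S_CHZ

/-- SEZ: second moments.  PROOF. `X = ⌊T^κ⌋`, `κ = κ₀` of S_APZ.  `S_MOM0` with `a_p = p^{-1/2} p^{-iy(T)}/√(V/2)`, `θ = 1/√(V/2)`, gives
`(1/T)∫ |A|² = (2/V) ∑_{p ≤ X} 1/p + o(1)` (`j = l = 1`) and `(1/T)∫ A² = o(1)` (`j = 2, l = 0`) for `A(t) = ∑ a_p e0 p t`, so
`(1/T)∫_T^{2T} (Re A)² → 1`; here `Re A(t) = pr X (t + y)/√(V/2)` and `∑_{p ≤ X} 1/p / V → 1` is S_COVC for `k = 1`, `d = 0`, `m = m' = 0`, `h = 1`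
(`S = 1`).  Then replace `pr` by `lz` (S_APZ: `L²`-distance `O(1)`, divided by `√(V/2)`; `[T + y, 2T + y]` lies in `[T/2, 4T]`). -/
def S_SEZ : Prop := ∀ y : ℝ → ℝ, Tendsto (fun T => y T / T) atTop (𝓝 0) →
  Tendsto (fun T : ℝ => 1 / T * ∫ t in T..(2 * T), (lz (t + y T) / Real.sqrt (V T / 2)) ^ 2) atTop (𝓝 1)

def J_SEZ : Prop := S_MOM0 → S_COVC → S_APZ → S_MIZ → S_SEZ

end Pool.Agent.H493.SZ
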