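import Mathlib

set_option autoImplicit false

/-! Project SZ (helper493), fourth list of statements (only Mathlib notions): the exact relation between entropy and
correlation for independent Gaussian variables. -/

open Complex Filter Topology Set MeasureTheory ProbabilityTheory

namespace Pool.Agent.H493.SZ

/-- `1` or `-1` -/
noncomputable def sgb (b : Bool) : ℝ := if b then 1 else -1

/-- TILT: many sign vectors correlate with `y`.
PROOF. Put `L = ∑ log cosh(l y_m)`, `A = ∑ y_m tanh(l y_m)`, `Z(σ) = ∑ sgb(σ_m) y_m`, and the weights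
`w(σ) = ∏ exp(l sgb(σ_m) y_m) / (2 cosh(l y_m))`.  Then `∑_σ w(σ) = 1`, `∑_σ w(σ) Z(σ) = A` and
`∑_σ w(σ) (Z(σ) - A)² = ∑ y_m² (1 - tanh²(l y_m)) ≤ q / l²` (the weights are a product measure, so the variance of the sum is the sum of the
variances; `y² (1 - tanh²(ly)) = y²/cosh²(ly) ≤ 1/l²` because `|u| ≤ cosh u`).  By Chebyshev the total weight of the `σ` with
`|Z(σ) - A| ≥ τ` is at most `q/(l τ)² ≤ 1/2`, so those with `|Z(σ) - A| < τ` have total weight `≥ 1/2`; and each of these has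
`w(σ) = 2^{-q} exp(l Z(σ) - L) ≤ 2^{-q} exp(l (A + τ) - L)`. -/
def S_TILT : Prop := ∀ (q : ℕ) (y : Fin q → ℝ) (l τ : ℝ), 0 < l → 0 < τ → 2 * (q : ℝ) ≤ (l * τ) ^ 2 →
  1 / 2 * Real.exp (∑ m, Real.log (Real.cosh (l * y m)) - l * (∑ m, y m * Real.tanh (l * y m) + τ)) * 2 ^ q ≤
    ((Finset.univ.filter fun σ : Fin q → Bool =>
      ∑ m, y m * Real.tanh (l * y m) - τ ≤ ∑ m, sgb (σ m) * y m).card : ℝ)

/-- GRD: greedy choice of a code.
PROOF. Induction on `n`: let `C` be the set chosen for `n` and `G' = G \ ⋃_{i ∈ C} B i`.  Summing over `i`: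
`∑_i ν.real (G' ∩ B i) = ∫_{G'} #{i | y ∈ B i} ∂ν ≥ ρ |ι| ν.real G'`, so some `i` has `ν.real (G' ∩ B i) ≥ ρ ν.real G'`; add it to `C`:
`ν.real (G' \ B i) ≤ (1 - ρ) ν.real G' ≤ exp(-ρ) ν.real G'`. -/
def S_GRD : Prop := ∀ (Ω : Type) [MeasurableSpace Ω] (ν : Measure Ω) [IsProbabilityMeasure ν] (ι : Type) [Fintype ι]
  [DecidableEq ι] [Nonempty ι] (B : ι → Set Ω) (G : Set Ω) (ρ : ℝ), (∀ i, MeasurableSet (B i)) → MeasurableSet G → 0 ≤ ρ →
  (∀ y ∈ G, ∃ A : Finset ι, (∀ i ∈ A, y ∈ B i) ∧ ρ * Fintype.card ι ≤ A.card) →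
  ∀ n : ℕ, ∃ C : Finset ι, C.card ≤ n ∧ ν.real (G \ ⋃ i ∈ C, B i) ≤ Real.exp (-(ρ * n))

/-- LPT: Lipschitz constants.  PROOF. The derivatives are `l tanh(lx)` and `tanh(lx) + lx / cosh²(lx)`, and `|u| ≤ cosh u ≤ cosh² u`. -/
def S_LPT : Prop := ∀ l : ℝ, 0 < l → ∀ x y : ℝ,
  |Real.log (Real.cosh (l * x)) - Real.log (Real.cosh (l * y))| ≤ l * |x - y| ∧
  |x * Real.tanh (l * x) - y * Real.tanh (l * y)| ≤ 2 * |x - y|

/-- ONE: PROOF. The law `multivariateGaussian 0 1` is invariant under `x ↦ (τ_i x_i)` for all signs `τ` (characteristic functions,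
`charFun_multivariateGaussian`, or `stdGaussian`).  So the integral is the mean over all sign vectors `τ` of
`∫ ∏ exp(l σ_i τ_i x_i)/cosh(l x_i)`, and `∑_τ ∏ exp(l σ_i τ_i x_i) = ∏ 2 cosh(l x_i)` (`Finset.prod_add` or
`Fintype.sum_pow`-like: `Finset.prod_univ_sum`), which gives `∫ 1 = 1`.  All functions are bounded by `2^n`. -/
def S_ONE : Prop := ∀ (n : ℕ) (l : ℝ) (σ : Fin n → ℝ), (∀ i, σ i = 1 ∨ σ i = -1) →
  ∫ x : EuclideanSpace ℝ (Fin n), ∏ i, (Real.exp (l * (σ i * x i)) / Real.cosh (l * x i))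
    ∂(multivariateGaussian 0 (1 : Matrix (Fin n) (Fin n) ℝ)) = 1

/-- BLKC: a function which follows few patterns and correlates with a given function, from a code of length `q`.
PROOF.  Generalises `Pool.Agent.H493.EN.t_BLK` (file Pool/Agent/H493/EN/BLK.lean on origin/main), where the code is one alternating vector.
Number the code: `C = {c_0, ..., c_{n-1}}`.  For `t` let `i(t)` be the least `i` for which `|∑_{m<q} c_i(m) D(t + ms)|` is maximal and `g(t)` the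
sign of `∑_{m<q} c_{i(t)}(m) D(t + ms)` (`1` if it is `≥ 0`, else `-1`); both are measurable.  For `r < q` let
`pos_r t = ((⌊t/s⌋ + r) mod q)` and `u = t - pos_r t * s`, `θ_r t = g(u) c_{i(u)}(pos_r t)`.  For every `t` and every `m < q` there is
exactly one `r < q` with `pos_r t = m`, so `∑_r ∫ θ_r D = ∑_m ∫ g(t - ms) c_{i(t-ms)}(m) D(t) dt = ∑_m ∫ g(t) c_{i(t)}(m) D(t + ms) dt
= ∫ max_i |∑_m c_i(m) D(t + ms)| dt`.  Hence `∫ θ_r D ≥ (1/q) ∫ max` for some `r`; this `θ_r` is taken.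
Patterns: `ρ = pos_r t`; `pos_r (t + ms) = (ρ + m) % q` and `t + ms - ((ρ + m) % q) s = t - ρ s + ((ρ + m)/q) q s`; so
`θ_r (t + ms) = e_j(( ρ + m) % q)` with `j = (ρ + m)/q < M/q + 2` for `m < M` and `e_j = g(u_j) c_{i(u_j)}`, `u_j = t - ρ s + j q s`.  `P M` is
the image of `Fin q × (Fin (M/q + 2) → Fin n × Bool)`. -/
def S_BLKC : Prop := ∀ (q : ℕ) (C : Finset (ℕ → ℝ)) (hC : C.Nonempty), 0 < q → (∀ p ∈ C, ∀ m, |p m| ≤ 1) →
  ∃ P : ℕ → Finset (ℕ → ℂ), (∀ M, (P M).card ≤ q * (2 * C.card) ^ (M / q + 2)) ∧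
  (∀ M, ∀ p ∈ P M, ∀ m, ‖p m‖ ≤ 1) ∧ ∀ (s : ℝ) (D : ℝ → ℝ), 0 < s → Measurable D → Integrable D →
    ∃ θ : ℝ → ℂ, Measurable θ ∧ (∀ t, ‖θ t‖ ≤ 1) ∧ (∀ (t : ℝ) (M : ℕ), ∃ p ∈ P M, ∀ m < M, θ (t + m * s) = p m) ∧
      1 / q * ∫ t, C.sup' hC (fun p => |∑ m ∈ Finset.range q, p m * D (t + m * s)|) ≤ ‖∫ t, θ t * (D t : ℂ)‖

end Pool.Agent.H493.SZ
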