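import Pool.Agent.H493.SZ.Def4

set_option autoImplicit false

/-! Project SZ (helper493), fifth list of statements (only Mathlib notions). -/

open Complex Filter Topology Set MeasureTheory ProbabilityTheory

namespace Pool.Agent.H493.SZ

/-- `E log cosh(l N)`, `N` standard Gaussian -/
noncomputable def Lam (l : ℝ) : ℝ := ∫ x, Real.log (Real.cosh (l * x)) ∂(gaussianReal 0 1)

/-- `E N tanh(l N)` -/
noncomputable def cor (l : ℝ) : ℝ := ∫ x, x * Real.tanh (l * x) ∂(gaussianReal 0 1)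

/-- `l E N tanh(l N) - E log cosh(l N)` -/
noncomputable def rat (l : ℝ) : ℝ := l * cor l - Lam l

/-- WLL: the weak law of large numbers for `multivariateGaussian 0 1`.
PROOF. The coordinates are independent standard Gaussian variables (`multivariateGaussian 0 1 = stdGaussian`, which is the image of
`Measure.pi (fun _ => gaussianReal 0 1)`; or characteristic functions); `f` is Lipschitz, so square integrable; the variance of
`∑ f(x_i)` is `n Var f(N)` (`IndepFun.variance_sum`/`iIndepFun`), Chebyshev (`meas_ge_le_variance_div_sq`): the probability is at most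
`Var f(N) / (n ε²) ≤ ε` for large `n`. -/
def S_WLL : Prop := ∀ (f : ℝ → ℝ) (L : ℝ), (∀ x y, |f x - f y| ≤ L * |x - y|) → ∀ ε : ℝ, 0 < ε → ∃ n₀ : ℕ, ∀ n : ℕ, n₀ ≤ n →
  (multivariateGaussian 0 (1 : Matrix (Fin n) (Fin n) ℝ)).real
    {x : EuclideanSpace ℝ (Fin n) | ε * n ≤ |∑ i, f (x i) - n * ∫ y, f y ∂(gaussianReal 0 1)|} ≤ ε

/-- CODE: a code with `exp((R + η) n)` words which correlates with almost all points.
PROOF. Let `a = cor l`, `R = rat l = l a - Lam l`.  Choose `δ > 0` with `2δ ≤ ε`, `2δ < ε`... and `(1 + 2l) δ ≤ η/4`.  Let `G` be the set of the `x` with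
`|∑ log cosh(l x_i) - n Lam l| ≤ δ n` and `|∑ x_i tanh(l x_i) - n a| ≤ δ n`; by S_WLL (with S_LPT) its complement has probability `≤ 2δ' ` for any fixed `δ'`
and `n` large.  For `x ∈ G`, S_TILT with `τ = δ n` (`2n ≤ (l δ n)²` for large `n`) gives at least `ρ 2^n` sign vectors `σ` with
`∑ sgb(σ_i) x_i ≥ (a - 2δ) n`, where `ρ = ½ exp(-n (R + (1 + 2l) δ))` (`L - l(A + τ) ≥ n Lam - δ n - l (n a + 2 δ n)`).  In particular `ρ ≤ 1`
(`G` is not empty).  S_GRD with `B σ = {x | (a - 2δ) n ≤ ∑ sgb(σ_i) x_i}` and `N = ⌊exp((R + η/2) n)⌋` words: the probability of the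
`x ∈ G` which are in no `B σ`, `σ ∈ C`, is at most `exp(-ρ N)`, and `ρ N ≥ ρ exp((R + η/2) n) - 1 ≥ ½ exp(η n/4) - 1 → ∞`.  Since `ρ ≤ 1`,
`exp((R + η/2) n) = exp((η/2 - (1+2l)δ) n)/(2ρ) ≥ ½ exp(η n/4) ≥ 2` for large `n`, so `2 (N + 1) ≤ 4 exp((R + η/2) n) ≤ exp((R + η) n)`: if `C` is empty
add any word. -/
def S_CODE : Prop := ∀ l η ε : ℝ, 0 < l → 0 < η → 0 < ε → ∃ n₀ : ℕ, ∀ n : ℕ, n₀ ≤ n →
  ∃ C : Finset (Fin n → Bool), C.Nonempty ∧ 2 * (C.card : ℝ) ≤ Real.exp ((rat l + η) * n) ∧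
    (multivariateGaussian 0 (1 : Matrix (Fin n) (Fin n) ℝ)).real
      {x : EuclideanSpace ℝ (Fin n) | ∀ σ ∈ C, ∑ i, sgb (σ i) * x i < (cor l - ε) * n} ≤ ε

def J_CODE : Prop := S_TILT → S_GRD → S_LPT → S_WLL → S_CODE

end Pool.Agent.H493.SZ
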