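import Pool.Agent.H493.SZ.Def5

set_option autoImplicit false

/-! Project SZ (helper493), sixth list of statements (only Mathlib notions). -/

open Complex Filter Topology Set MeasureTheory ProbabilityTheory

namespace Pool.Agent.H493.SZ

/-- UEXC: union bound over patterns from exponential moments.
PROOF. (a) For `|r_m| ≤ 1` convexity gives `exp(l r_m y) ≤ ((1 + r_m)/2) exp(l y) + ((1 - r_m)/2) exp(-l y)`; multiply over `m` and expand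
(`Finset.prod_univ_sum`): `∏ exp(l r_m y_m)/cosh(l y_m) ≤ ∑_σ w(σ) ∏ exp(l σ_m y_m)/cosh(l y_m)` with weights `w ≥ 0` of sum `1`.
So `∫_T^{2T} ∏ exp(l r_m y_m(t))/cosh(l y_m(t)) dt ≤ 2T` for all such `r` (all these functions are measurable and between `0` and `2^M`).
(b) Markov: `{t ∈ [T, 2T] : ∑_m (l r_m y_m(t) - log cosh(l y_m(t))) ≥ βM}` has measure at most `2 exp(-βM) T`.
(c) If `‖∑ p_m y_m(t)‖ ≥ ηM`, `v ∈ N` with `(1 - ρ) ‖z‖ ≤ Re(v z)` for `z = ∑ p_m y_m(t)`, and `∑ log cosh(l y_m(t)) < (Λ + ε₁) M`, then for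
`r_m = Re (v p_m)`: `∑ l r_m y_m(t) = l Re(v z) ≥ l (1 - ρ) η M ≥ (β + Λ + ε₁) M`, so `t` is in the set of (b).  Union over `p ∈ P` and `v ∈ N`. -/
def S_UEXC : Prop := ∀ (M : ℕ) (l Λ ε₁ β η ρ ρ₀ T K : ℝ) (N : Finset ℂ) (y : Fin M → ℝ → ℝ), 0 < l → 0 < T → 0 ≤ ρ₀ → ρ ≤ 1 →
  (∀ m, Measurable (y m)) → (∀ v ∈ N, ‖v‖ ≤ 1) → (∀ z : ℂ, ∃ v ∈ N, (1 - ρ) * ‖z‖ ≤ (v * z).re) →
  (∀ σ : Fin M → ℝ, (∀ m, σ m = 1 ∨ σ m = -1) →
    ∫ t in T..(2 * T), ∏ m, (Real.exp (l * (σ m * y m t)) / Real.cosh (l * y m t)) ≤ 2 * T) →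
  volume {t | t ∈ Icc T (2 * T) ∧ ε₁ * M ≤ |∑ m, (Real.log (Real.cosh (l * y m t)) - Λ)|} ≤ ENNReal.ofReal (ρ₀ * T) →
  β + Λ + ε₁ ≤ l * ((1 - ρ) * η) →
  ∀ P : Finset (ℕ → ℂ), (P.card : ℝ) ≤ K → (∀ p ∈ P, ∀ m, ‖p m‖ ≤ 1) →
  volume (⋃ p ∈ P, {t | t ∈ Icc T (2 * T) ∧ η * M ≤ ‖∑ m : Fin M, p m * (y m t : ℂ)‖}) ≤
    ENNReal.ofReal ((K * N.card * (2 * Real.exp (-(β * M))) + ρ₀) * T)

/-- CUR: the rates fill the interval `(0, log 2)`.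
PROOF. Intermediate value theorem.  `rat l = E g(l N)` with `g u = u tanh u - log cosh u`, continuous, even; `0 ≤ g u ≤ min (u²) (log 2)` and
`g u → log 2` as `u → ±∞`: `log cosh u = |u| + log(1 + e^{-2|u|}) - log 2`, so `g u = log 2 - (|u| (1 - tanh |u|) + log(1 + e^{-2|u|}))`; `g ≥ 0` since
`g 0 = 0`, `g' u = u / cosh² u` (or by convexity); `g u ≤ u tanh u ≤ u²`.  By dominated convergence `rat` is continuous, `rat l ≤ l²`, and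
`rat l → log 2` as `l → ∞`. -/
def S_CUR : Prop := ∀ κ : ℝ, 0 < κ → κ < Real.log 2 → ∃ l : ℝ, 0 < l ∧ rat l = κ

end Pool.Agent.H493.SZ
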