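import Pool.Agent.H493.SZ.Def
import Pool.Agent.H493.SZ.Def4

set_option autoImplicit false

/-! Project SZ (helper493), seventh list of statements: the relation between entropy and correlation for independent variables with
an arbitrary law.  `sgb b` is `1` or `-1` (Def4). -/

open Complex Filter Topology Set MeasureTheory ProbabilityTheory

namespace Pool.Agent.H493.SZ

/-- `cosh(lx) + m sinh(lx)` -/
noncomputable def Dn (l m x : ℝ) : ℝ := Real.cosh (l * x) + m * Real.sinh (l * x)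

/-- the mean sign under the tilted prior -/
noncomputable def tn (l m x : ℝ) : ℝ := (Real.sinh (l * x) + m * Real.cosh (l * x)) / Dn l m x

/-- TLT: many sign vectors correlate with `y`; a generalisation of S_TILT (theorem t_TILT, store: helper493_SZ_TILT_done.lean, to be adapted).
PROOF. Put `L = ∑ log (Dn l m y_i)`, `A = ∑ y_i tn(y_i)`, `Z(σ) = ∑ sgb(σ_i) y_i`, `q(σ) = ∏ (1 + m sgb(σ_i))/2` and
`w(σ) = ∏ ((1 + m sgb(σ_i))/2) exp(l sgb(σ_i) y_i) / Dn(y_i) = q(σ) exp(l Z(σ) - L)`.  Since `∑_{ε = ±1} ((1 + mε)/2) exp(l ε y) = Dn(y)`, `w` is a product of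
probability measures on the signs with means `tn(y_i)`; so `∑ w = 1` and `∑ w(σ) (Z(σ) - A)² = ∑ y_i² (1 - tn(y_i)²)`, where
`1 - tn² = (1 - m²)/Dn²` and `Dn ≥ (1 - |m|) cosh(l y)`, so `y² (1 - tn²) ≤ (1 + |m|)/((1 - |m|) l²)` (`|u| ≤ cosh u`).  By Chebyshev the total weight of the
`σ` with `|Z(σ) - A| ≥ τ` is at most `1/2`; the others satisfy `w(σ) ≤ q(σ) exp(l (A + τ) - L)`. -/
def S_TLT : Prop := ∀ (q : ℕ) (y : Fin q → ℝ) (l m τ : ℝ), 0 < l → |m| < 1 → 0 < τ →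
  2 * (q : ℝ) * (1 + |m|) ≤ (1 - |m|) * (l * τ) ^ 2 →
  1 / 2 * Real.exp (∑ i, Real.log (Dn l m (y i)) - l * (∑ i, y i * tn l m (y i) + τ)) ≤
    ∑ σ ∈ Finset.univ.filter (fun σ : Fin q → Bool => ∑ i, y i * tn l m (y i) - τ ≤ ∑ i, sgb (σ i) * y i),
      ∏ i, (1 + m * sgb (σ i)) / 2

/-- GRW: greedy choice of a code, with weights (generalises S_GRD, theorem t_GRD, store: helper493_SZ_GRD_done.lean, to be adapted).
PROOF. Induction on `n`: let `C` be the set chosen for `n` and `G' = G \ ⋃_{i ∈ C} B i`.  `∑_i w i * ν.real (G' ∩ B i) = ∫_{G'} ∑_{i : y ∈ B i} w i ∂ν ≥ ρ ν.real G'`, so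
some `i` has `ν.real (G' ∩ B i) ≥ ρ ν.real G'`; add it to `C`. -/
def S_GRW : Prop := ∀ (Ω : Type) [MeasurableSpace Ω] (ν : Measure Ω) [IsProbabilityMeasure ν] (ι : Type) [Fintype ι]
  [DecidableEq ι] [Nonempty ι] (w : ι → ℝ) (B : ι → Set Ω) (G : Set Ω) (ρ : ℝ), (∀ i, 0 ≤ w i) → ∑ i, w i ≤ 1 →
  (∀ i, MeasurableSet (B i)) → MeasurableSet G → 0 ≤ ρ →
  (∀ y ∈ G, ∃ A : Finset ι, (∀ i ∈ A, y ∈ B i) ∧ ρ ≤ ∑ i ∈ A, w i) →
  ∀ n : ℕ, ∃ C : Finset ι, C.card ≤ n ∧ ν.real (G \ ⋃ i ∈ C, B i) ≤ Real.exp (-(ρ * n))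

/-- WLP: the weak law of large numbers for product measures (see t_WLL, store: helper493_SZ_WLL_done.lean, for a Gaussian version).
PROOF. The coordinates are independent under `Measure.pi` (`iIndepFun_pi`); the variance of the sum is `n Var f`; Chebyshev. -/
def S_WLP : Prop := ∀ (Ω : Type) [MeasurableSpace Ω] (ν : Measure Ω) [IsProbabilityMeasure ν] (f : Ω → ℝ), Measurable f →
  MemLp f 2 ν → ∀ ε : ℝ, 0 < ε → ∃ n₀ : ℕ, ∀ n : ℕ, n₀ ≤ n →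
  (Measure.pi fun _ : Fin n => ν).real {x | ε * n ≤ |∑ i, f (x i) - n * ∫ y, f y ∂ν|} ≤ ε

/-- COD: a code with `exp((R + η) n)` words which correlates with almost all points (generalises S_CODE, theorem t_CODE, store:
helper493_SZ_CODE_done.lean, to be adapted; the proof is the same).
PROOF. Let `a = ∫ ξ tn(ξ)`, `Λ = ∫ log Dn(ξ)`, `R = l a - Λ`.  Both functions are square integrable: `|tn| ≤ 1`, and `|log Dn(x)| ≤ l |x|`
(`exp(-l|x|) ≤ Dn(x) ≤ exp(l|x|)` since `|m| < 1`).  Choose `δ > 0` small in terms of `ε`, `η`, `l`.  `G`: the `x` with `|∑ log Dn(ξ(x_i)) - n Λ| ≤ δ n` and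
`|∑ ξ(x_i) tn(ξ(x_i)) - n a| ≤ δ n`; by S_WLP its complement has small probability.  For `x ∈ G`, S_TLT (`y_i = ξ(x_i)`, `τ = δ n`) gives sign vectors of total
prior weight `≥ ρ = ½ exp(-n (R + (1 + 2l) δ))` with `∑ sgb(σ_i) ξ(x_i) ≥ (a - 2δ) n`.  S_GRW with the prior weights `w σ = ∏ (1 + m sgb(σ_i))/2` (their sum is `1`)
and `N = ⌊exp((R + η/2) n)⌋` words.  `ρ ≤ 1` since the weights have sum `1` (`G` is not empty).  If `C` is empty add any word. -/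
def S_COD : Prop := ∀ (Ω : Type) [MeasurableSpace Ω] (ν : Measure Ω) [IsProbabilityMeasure ν] (ξ : Ω → ℝ), Measurable ξ →
  MemLp ξ 2 ν → ∀ l m η ε : ℝ, 0 < l → |m| < 1 → 0 < η → 0 < ε → ∃ n₀ : ℕ, ∀ n : ℕ, n₀ ≤ n →
  ∃ C : Finset (Fin n → Bool), C.Nonempty ∧
    2 * (C.card : ℝ) ≤ Real.exp ((l * (∫ x, ξ x * tn l m (ξ x) ∂ν) - (∫ x, Real.log (Dn l m (ξ x)) ∂ν) + η) * n) ∧
    (Measure.pi fun _ : Fin n => ν).real
      {x | ∀ σ ∈ C, ∑ i, sgb (σ i) * ξ (x i) < ((∫ x, ξ x * tn l m (ξ x) ∂ν) - ε) * n} ≤ ε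

def J_COD : Prop := S_TLT → S_GRW → S_WLP → S_COD

/-- UXD: union bound over patterns from exponential moments, general denominators (generalises S_UEXC, theorem t_UEXC, store:
helper493_SZ_UEXC_done.lean, Def6: helper493_SZ_Def6.lean; to be adapted: replace `cosh(l y)` by `D y`, the bound `2T` by `A T`). -/
def S_UXD : Prop := ∀ (D : ℝ → ℝ) (C₀ : ℝ), Measurable D → (∀ x, 0 < D x) →
  ∀ (M : ℕ) (l Λ ε₁ β η ρ ρ₀ T K A : ℝ) (N : Finset ℂ) (y : Fin M → ℝ → ℝ), 0 < l → 0 < T → 0 ≤ ρ₀ → ρ ≤ 1 → 0 ≤ A →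
  (∀ x, Real.exp |l * x| ≤ C₀ * D x) →
  (∀ m, Measurable (y m)) → (∀ v ∈ N, ‖v‖ ≤ 1) → (∀ z : ℂ, ∃ v ∈ N, (1 - ρ) * ‖z‖ ≤ (v * z).re) →
  (∀ σ : Fin M → ℝ, (∀ m, σ m = 1 ∨ σ m = -1) →
    ∫ t in T..(2 * T), ∏ m, (Real.exp (l * (σ m * y m t)) / D (y m t)) ≤ A * T) →
  volume {t | t ∈ Icc T (2 * T) ∧ ε₁ * M ≤ |∑ m, (Real.log (D (y m t)) - Λ)|} ≤ ENNReal.ofReal (ρ₀ * T) →
  β + Λ + ε₁ ≤ l * ((1 - ρ) * η) →
  ∀ P : Finset (ℕ → ℂ), (P.card : ℝ) ≤ K → (∀ p ∈ P, ∀ m, ‖p m‖ ≤ 1) →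
  volume (⋃ p ∈ P, {t | t ∈ Icc T (2 * T) ∧ η * M ≤ ‖∑ m : Fin M, p m * (y m t : ℂ)‖}) ≤
    ENNReal.ofReal ((K * N.card * (A * Real.exp (-(β * M))) + ρ₀) * T)

/-- BAL: the balanced prior.
PROOF. `τ = tanh(l x)`, so `sinh(lx)/Dn = τ/(1 + mτ)`.  For `0 < m < 1`: `∫ τ/(1 + mτ) = (1/m)(1 - ∫ 1/(1 + mτ))`.  By Fatou
(`m → 1`) `liminf ∫ 1/(1 + mτ) ≥ ∫ 1/(1 + τ) = ∫ (1 + exp(-2lx))/2 > 1` (possibly `∞`), because `exp(-2lx) ≥ 1 - 2lx + c` on the set `|x| ≥ a` of positive measure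
(strict convexity) and `∫ x = 0`; so `g m = ∫ τ/(1 + mτ)` is negative for some `m` near `1`; by symmetry (`x ↦ -x`, `m ↦ -m`) it is positive for some
`m` near `-1`; `g` is continuous on `(-1, 1)` (dominated convergence, `|τ/(1 + mτ)| ≤ 1/(1 - |m|)`): intermediate value theorem. -/
def S_BAL : Prop := ∀ (ν : Measure ℝ) [IsProbabilityMeasure ν], Integrable (fun x => x) ν → ∫ x, x ∂ν = 0 → 0 < ∫ x, |x| ∂ν →
  ∀ l : ℝ, 0 < l → ∃ m : ℝ, |m| < 1 ∧ ∫ x, Real.sinh (l * x) / Dn l m x ∂ν = 0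

/-- PIG: the block diagonal Gaussian measure is a product.
PROOF. `Measure.ext_of_charFun`; the characteristic function of the left side at `u` is `∫ exp(i ∑_m ⟨x_m, u_m⟩) = ∏_m charFun (multivariateGaussian 0 S) u_m`
(`integral_fintype_prod_eq_prod`), and both sides are `exp(-½ ∑_m ∑_{i,j} u_{im} u_{jm} S_ij)` (`charFun_multivariateGaussian`). The posSemidef of `SM S n`:
its quadratic form is the sum of those of the blocks. -/
def S_PIG : Prop := ∀ (k n : ℕ) (S : Matrix (Fin k) (Fin k) ℝ), S.PosSemidef → (SM S n).PosSemidef →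
  (Measure.pi fun _ : Fin n => multivariateGaussian 0 S).map
    (fun x : Fin n → EuclideanSpace ℝ (Fin k) =>
      (WithLp.toLp 2 fun a : Fin (k * n) => x (finProdFinEquiv.symm a).2 (finProdFinEquiv.symm a).1 : EuclideanSpace ℝ (Fin (k * n)))) =
    multivariateGaussian 0 (SM S n)

/-- LPG: elementary inequalities.
PROOF. `Dn = ((1 + m) e^{lx} + (1 - m) e^{-lx})/2`.  (1) `(log Dn)' = l tn`.  (2) `|tn| ≤ 1`.  (3) For `σ = ±1`, `exp(lσx)/Dn = (1 + σ tanh(lx))/(1 + m tanh(lx))`, with derivative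
`l (σ - m) / (cosh² (lx) (1 + m tanh(lx))²)`, at most `2l/(1 - |m|)²` in absolute value.  (4) `Dn ≥ (1 - |m|) cosh(lx) ≥ (1 - |m|) exp|lx|/2`. -/
def S_LPG : Prop := ∀ l m : ℝ, 0 < l → |m| < 1 →
  (∀ x y : ℝ, |Real.log (Dn l m x) - Real.log (Dn l m y)| ≤ l * |x - y|) ∧ (∀ x, |tn l m x| ≤ 1) ∧
  (∀ σ : ℝ, (σ = 1 ∨ σ = -1) → ∀ x y : ℝ,
    |Real.exp (l * (σ * x)) / Dn l m x - Real.exp (l * (σ * y)) / Dn l m y| ≤ 2 * l / (1 - |m|) ^ 2 * |x - y|) ∧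
  (∀ x, 0 < Dn l m x) ∧ (∀ x, Real.exp |l * x| ≤ 2 / (1 - |m|) * Dn l m x)

end Pool.Agent.H493.SZ
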