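import Pool.Agent.H493.SZ.Def7

set_option autoImplicit false

/-! Project SZ (helper493), eighth list of statements. -/

open Complex Filter Topology Set MeasureTheory ProbabilityTheory

namespace Pool.Agent.H493.SZ

/-- FIL: the rates of the balanced pairs form an interval.
PROOF. For fixed `l` the function `g_l m = ∫ sinh(lx)/Dn l m x ∂ν` is strictly decreasing on `(-1, 1)`: for `m < m'`,
`sinh/Dn l m - sinh/Dn l m' = (m' - m) sinh²/(Dn l m Dn l m') ≥ 0`, and `> 0` where `x ≠ 0` (a set of positive measure).  So the balanced `m` (it exists by S_BAL) is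
unique; call it `m(l)`.  It is a continuous function of `l`: if `m(l₀) ± δ` lie in `(-1, 1)` then `g_{l₀}(m(l₀) - δ) > 0 > g_{l₀}(m(l₀) + δ)`, and for fixed `m` the
function `l ↦ g_l m` is continuous (dominated convergence, `|sinh/Dn| ≤ 2/(1 - |m|)`, S_LPG), so the same holds for `l` near `l₀`.
The rate `R(l) = ∫ (l x tn l m(l) x - log (Dn l m(l) x)) ∂ν` is a continuous function of `l` (dominated convergence: `|tn| ≤ 1`, `|log Dn| ≤ l |x|`), and
`R(l) ≤ l ∫ |x| ∂ν → 0` as `l → 0`: indeed `∫ log Dn ≥ 0` for balanced pairs, since `-log Dn ≤ log cosh(lx) - log Dn ≤ cosh(lx)/Dn - 1`, which has integral `0`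
(`cosh/Dn = 1 - m sinh/Dn`).  Intermediate value theorem on `[l', l₁]`. -/
def S_FIL : Prop := ∀ (ν : Measure ℝ) [IsProbabilityMeasure ν], Integrable (fun x => x) ν → ∫ x, x ∂ν = 0 → 0 < ∫ x, |x| ∂ν →
  ∀ l₁ m₁ : ℝ, 0 < l₁ → |m₁| < 1 → ∫ x, Real.sinh (l₁ * x) / Dn l₁ m₁ x ∂ν = 0 →
  ∀ κ : ℝ, 0 < κ → κ < l₁ * (∫ x, x * tn l₁ m₁ x ∂ν) - (∫ x, Real.log (Dn l₁ m₁ x) ∂ν) →
  ∃ l m : ℝ, 0 < l ∧ |m| < 1 ∧ ∫ x, Real.sinh (l * x) / Dn l m x ∂ν = 0 ∧
    l * (∫ x, x * tn l m x ∂ν) - (∫ x, Real.log (Dn l m x) ∂ν) = κ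

def J_FIL : Prop := S_BAL → S_LPG → S_FIL

end Pool.Agent.H493.SZ
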