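import Pool.Agent.H493.SZ.Def8

set_option autoImplicit false

/-! Project SZ (helper493), ninth list of statements: the end point of the curve of the rates. -/

open Complex Filter Topology Set MeasureTheory ProbabilityTheory

namespace Pool.Agent.H493.SZ

/-- `P(x ≠ 0) h(P(x > 0) / P(x ≠ 0))`, `h` the binary entropy -/
noncomputable def topR (ν : Measure ℝ) : ℝ :=
  ν.real {0}ᶜ * Real.binEntropy (ν.real (Ioi 0) / ν.real {0}ᶜ)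

/-- TOPA: the rate is at most `topR`, quantitatively.
PROOF. Put `A x = exp(l|x|) / Dn l m x`, `p = ν(0,∞)`, `q = ν(-∞,0)`, `P = ν({0}ᶜ) = p + q` (`p, q > 0` because `∫ x = 0 < ∫ |x|`).  Since
`cosh(lx)/Dn = 1 - m sinh(lx)/Dn`, balance gives `∫ cosh(lx)/Dn = 1`, hence `∫ exp(lx)/Dn = ∫ exp(-lx)/Dn = 1`; the integrand is `1` at `x = 0`, so
`∫_{(0,∞)} A = ∫_{(0,∞)} exp(lx)/Dn ≤ 1 - ν{0} = P`, and in the same way `∫_{(-∞,0)} A ≤ P`.  For all `c > 0`: `log A ≤ A/c - 1 + log c` (`Real.log_le_sub_one_of_pos`).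
With `c = P/p` on `(0,∞)` and `c = P/q` on `(-∞,0)` (and `log A = 0` at `0`):
`l ∫ |x| - ∫ log Dn = ∫ log A ≤ (p/P) P - p + p log(P/p) + (q/P) P - q + q log(P/q) = p log(P/p) + q log(P/q) = P binEntropy(p/P)` (`1 - p/P = q/P`). -/
def S_TOPA : Prop := ∀ (ν : Measure ℝ) [IsProbabilityMeasure ν], Integrable (fun x => x) ν → ∫ x, x ∂ν = 0 → 0 < ∫ x, |x| ∂ν →
  ∀ l m : ℝ, 0 < l → |m| < 1 → ∫ x, Real.sinh (l * x) / Dn l m x ∂ν = 0 →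
  l * (∫ x, |x| ∂ν) - (∫ x, Real.log (Dn l m x) ∂ν) ≤ topR ν

/-- TOPB: the rate as a difference of entropies.
PROOF. Put `A₊ x = (1 + tn l m x)/2 = (1 + m) exp(lx)/(2 Dn)`, `A₋ x = (1 - tn l m x)/2 = (1 - m) exp(-lx)/(2 Dn)`; they are positive with sum `1`.  Pointwise
`l x tn - log Dn = A₊ log(A₊/((1+m)/2)) + A₋ log(A₋/((1-m)/2))` (the logarithms are `lx - log Dn` and `-lx - log Dn`)
`= - binEntropy(A₊) - A₊ log((1+m)/2) - A₋ log((1-m)/2)`.  Since `tn = m + (1 - m²) sinh(lx)/Dn`, balance gives `∫ tn = m`, so `∫ A₊ = (1+m)/2`, `∫ A₋ = (1-m)/2` and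
`rate = binEntropy((1+m)/2) - ∫ binEntropy(A₊)`.  At `x = 0` `A₊ = (1+m)/2` (so this point contributes `ν{0} binEntropy((1+m)/2)`), and for `x ≠ 0`
`binEntropy(A₊) = binEntropy((1 - sign x · tn)/2)` (`Real.binEntropy_one_sub`). -/
def S_TOPB : Prop := ∀ (ν : Measure ℝ) [IsProbabilityMeasure ν], Integrable (fun x => x) ν →
  ∀ l m : ℝ, 0 < l → |m| < 1 → ∫ x, Real.sinh (l * x) / Dn l m x ∂ν = 0 →
  l * (∫ x, x * tn l m x ∂ν) - (∫ x, Real.log (Dn l m x) ∂ν) =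
    ν.real {0}ᶜ * Real.binEntropy ((1 + m) / 2) - ∫ x in {0}ᶜ, Real.binEntropy ((1 - Real.sign x * tn l m x) / 2) ∂ν

/-- TOPW: the probability of a wrong sign is small and the prior is close to `p/P`.
PROOF. Put `w x = (1 - sign x · tn l m x)/2`, in `[0, 1]`; `|x| - x tn = 2 |x| w`.  S_TOPA and `0 ≤ rate` (rate `≥ 0`: see below) give
`2 l ∫ |x| w = l ∫ |x| - l ∫ x tn ≤ topR ν - rate ≤ topR ν`.  `rate ≥ 0`: S_FIL file has FILL.logD_nonneg etc.; simplest: pointwise `l x tn - log Dn ≥ m-part`: by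
`log u ≥ 1 - 1/u`, `l x tn - log Dn = A₊ log(exp(lx)/Dn) + A₋ log(exp(-lx)/Dn) ≥ A₊ (1 - Dn exp(-lx)) + A₋ (1 - Dn exp(lx)) = 1 - (1+m)/2 - (1-m)/2 = 0`.
For `c > 0`: `w ≤ 1_{0<|x|<c} + |x| w/c` for `x ≠ 0`, so `∫_{x ≠ 0} w ≤ ν{0 < |x| < c} + topR ν/(2 l c)`; the first term tends to `0` as `c → 0`
(decreasing sets with empty intersection).  This proves the first bound.  The second: `∫ (1 + tn)/2 = (1 + m)/2` (balance) and at `x = 0` the integrand is `(1+m)/2`, so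
`P (1 + m)/2 = ∫_{x ≠ 0} (1 + tn)/2`, and `(1 + tn)/2 = 1 - w` for `x > 0`, `= w` for `x < 0`, so `|P (1+m)/2 - p| ≤ ∫_{x ≠ 0} w`. -/
def S_TOPW : Prop := ∀ (ν : Measure ℝ) [IsProbabilityMeasure ν], Integrable (fun x => x) ν → ∫ x, x ∂ν = 0 → 0 < ∫ x, |x| ∂ν →
  ∀ ε : ℝ, 0 < ε → ∃ L : ℝ, 0 < L ∧ ∀ l m : ℝ, L ≤ l → |m| < 1 → ∫ x, Real.sinh (l * x) / Dn l m x ∂ν = 0 →
    ∫ x in {0}ᶜ, (1 - Real.sign x * tn l m x) / 2 ∂ν ≤ ε ∧
    |ν.real {0}ᶜ * ((1 + m) / 2) - ν.real (Ioi 0)| ≤ ε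

def J_TOPW : Prop := S_LPG → S_TOPA → S_TOPW

/-- TOPC: the rates of the balanced pairs tend to `topR` as `l → ∞`.
PROOF. Let `w` as in S_TOPW, `P = ν.real {0}ᶜ > 0`.  `binEntropy` is continuous with `binEntropy 0 = 0` and is at most `log 2 ≤ 1`: for `δ > 0` there is `C` with
`binEntropy u ≤ δ + C u` for all `u ∈ [0, 1]`.  So by S_TOPB `rate ≥ P binEntropy((1+m)/2) - δ - C ∫_{x ≠ 0} w`, and `(1+m)/2` is within `ε'/P` of `ν.real (Ioi 0)/P`: use the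
continuity of `binEntropy` at this point. -/
def S_TOPC : Prop := ∀ (ν : Measure ℝ) [IsProbabilityMeasure ν], Integrable (fun x => x) ν → ∫ x, x ∂ν = 0 → 0 < ∫ x, |x| ∂ν →
  ∀ ε : ℝ, 0 < ε → ∃ L : ℝ, 0 < L ∧ ∀ l m : ℝ, L ≤ l → |m| < 1 → ∫ x, Real.sinh (l * x) / Dn l m x ∂ν = 0 →
    topR ν - ε < l * (∫ x, x * tn l m x ∂ν) - (∫ x, Real.log (Dn l m x) ∂ν)

def J_TOPC : Prop := S_LPG → S_TOPB → S_TOPW → S_TOPC

end Pool.Agent.H493.SZ
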