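import Pool.Agent.H493.SZ.Def8

set_option autoImplicit false

/-! The rates of the balanced pairs form an interval. -/

open Complex Filter Topology Set MeasureTheory ProbabilityTheory

namespace Pool.Agent.H493.SZ

namespace FILL

theorem sinh_le (u : ℝ) : |Real.sinh u| ≤ Real.cosh u := by
  rw [abs_le]
  constructor
  · have h := Real.exp_pos u
    rw [← Real.cosh_add_sinh] at h
    linarith
  · exact (Real.sinh_lt_cosh _).le

theorem Dn_ge (l m x : ℝ) : (1 - |m|) * Real.cosh (l * x) ≤ Dn l m x := by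
  unfold Dn
  have h2 : |m * Real.sinh (l * x)| ≤ |m| * Real.cosh (l * x) := by
    rw [abs_mul]
    exact mul_le_mul_of_nonneg_left (sinh_le _) (abs_nonneg m)
  have h3 := neg_abs_le (m * Real.sinh (l * x))
  linarith

theorem Dn_pos (l m x : ℝ) (hm : |m| < 1) : 0 < Dn l m x :=
  lt_of_lt_of_le (mul_pos (by linarith) (Real.cosh_pos _)) (Dn_ge l m x)

theorem quot_bound (l m x : ℝ) (hm : |m| < 1) :
    |Real.sinh (l * x) / Dn l m x| ≤ 1 / (1 - |m|) := by
  have hD := Dn_pos l m x hm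
  have h1 := sinh_le (l * x)
  have h2 : 0 < 1 - |m| := by linarith
  rw [abs_div, abs_of_pos hD, div_le_div_iff₀ hD h2, one_mul]
  have h3 := Dn_ge l m x
  have h4 := mul_le_mul_of_nonneg_left h1 h2.le
  linarith

theorem meas_Dn (l m : ℝ) : Measurable (fun x => Dn l m x) := by
  unfold Dn
  have h1 : Measurable (fun x : ℝ => l * x) := measurable_id.const_mul l
  have h2 : Measurable (fun x => Real.sinh (l * x)) := Real.measurable_sinh.comp h1
  have h3 : Measurable (fun x => Real.cosh (l * x)) := Real.measurable_cosh.comp h1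
  exact h3.add (h2.const_mul m)

theorem meas_quot (l m : ℝ) : Measurable (fun x => Real.sinh (l * x) / Dn l m x) := by
  have h1 : Measurable (fun x : ℝ => l * x) := measurable_id.const_mul l
  have h2 : Measurable (fun x => Real.sinh (l * x)) := Real.measurable_sinh.comp h1
  exact h2.div (meas_Dn l m)

theorem meas_tn (l m : ℝ) : Measurable (fun x => tn l m x) := by
  unfold tn
  have h1 : Measurable (fun x : ℝ => l * x) := measurable_id.const_mul l
  have h2 : Measurable (fun x => Real.sinh (l * x)) := Real.measurable_sinh.comp h1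
  have h3 : Measurable (fun x => Real.cosh (l * x)) := Real.measurable_cosh.comp h1
  exact (h2.add (h3.const_mul m)).div (meas_Dn l m)

theorem int_quot (ν : Measure ℝ) [IsProbabilityMeasure ν] (l m : ℝ) (hm : |m| < 1) :
    Integrable (fun x => Real.sinh (l * x) / Dn l m x) ν := by
  refine Integrable.of_bound (meas_quot l m).aestronglyMeasurable (1 / (1 - |m|)) ?_
  refine Eventually.of_forall fun x => ?_
  rw [Real.norm_eq_abs]
  exact quot_bound l m x hm

/-- the function `g` -/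
noncomputable def g (ν : Measure ℝ) (l m : ℝ) : ℝ := ∫ x, Real.sinh (l * x) / Dn l m x ∂ν

theorem g_anti (ν : Measure ℝ) [IsProbabilityMeasure ν] (h1 : 0 < ∫ x, |x| ∂ν) (l : ℝ) (hl : 0 < l)
    (m m' : ℝ) (hm : |m| < 1) (hm' : |m'| < 1) (h : m < m') : g ν l m' < g ν l m := by
  have e : ∀ x : ℝ, Real.sinh (l * x) / Dn l m x - Real.sinh (l * x) / Dn l m' x =
      (m' - m) * (Real.sinh (l * x) ^ 2 / (Dn l m x * Dn l m' x)) := by
    intro x
    have hD := (Dn_pos l m x hm).ne'
    have hD' := (Dn_pos l m' x hm').ne'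
    rw [div_sub_div _ _ hD hD', ← mul_div_assoc]
    congr 1
    unfold Dn
    ring
  have hnn : 0 ≤ fun x : ℝ => Real.sinh (l * x) / Dn l m x - Real.sinh (l * x) / Dn l m' x := by
    intro x
    show 0 ≤ Real.sinh (l * x) / Dn l m x - Real.sinh (l * x) / Dn l m' x
    rw [e]
    have hD := Dn_pos l m x hm
    have hD' := Dn_pos l m' x hm'
    exact mul_nonneg (by linarith) (div_nonneg (sq_nonneg _) (mul_pos hD hD').le)
  have hint : Integrable (fun x : ℝ => Real.sinh (l * x) / Dn l m x - Real.sinh (l * x) / Dn l m' x) ν :=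
    (int_quot ν l m hm).sub (int_quot ν l m' hm')
  have hI : ∫ x, (Real.sinh (l * x) / Dn l m x - Real.sinh (l * x) / Dn l m' x) ∂ν = g ν l m - g ν l m' :=
    integral_sub (int_quot ν l m hm) (int_quot ν l m' hm')
  by_contra hcon
  push Not at hcon
  have hz := (integral_eq_zero_iff_of_nonneg hnn hint).mp
    (le_antisymm (by rw [hI]; linarith) (integral_nonneg hnn))
  have hU0 : ∀ᵐ x ∂ν, |x| = 0 := by
    filter_upwards [hz] with x hx
    have hx' : Real.sinh (l * x) / Dn l m x - Real.sinh (l * x) / Dn l m' x = 0 := hx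
    rw [e] at hx'
    have hD := Dn_pos l m x hm
    have hD' := Dn_pos l m' x hm'
    rcases mul_eq_zero.mp hx' with h2 | h2
    · linarith
    · rcases div_eq_zero_iff.mp h2 with h3 | h3
      · have h4 : Real.sinh (l * x) = 0 := by
          exact pow_eq_zero_iff (two_ne_zero) |>.mp h3
        rw [Real.sinh_eq_zero] at h4
        rcases mul_eq_zero.mp h4 with h5 | h5
        · linarith
        · rw [h5, abs_zero]
      · exact absurd h3 (mul_pos hD hD').ne'
  have h5 : ∫ x, |x| ∂ν = 0 := by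
    rw [integral_congr_ae hU0, integral_zero]
  linarith

theorem g_cont (ν : Measure ℝ) [IsProbabilityMeasure ν] (m : ℝ) (hm : |m| < 1) :
    Continuous (fun l => g ν l m) := by
  unfold g
  refine continuous_of_dominated (bound := fun _ => 1 / (1 - |m|)) (fun l => ?_) (fun l => ae_of_all _ fun x => ?_)
    (integrable_const _) (ae_of_all _ fun x => ?_)
  · exact (meas_quot l m).aestronglyMeasurable
  · rw [Real.norm_eq_abs]
    exact quot_bound l m x hm
  · refine Continuous.div (by fun_prop) ?_ fun l => (Dn_pos l m x hm).ne'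
    unfold Dn
    fun_prop

theorem mm_cont (ν : Measure ℝ) [IsProbabilityMeasure ν] (h1 : 0 < ∫ x, |x| ∂ν) (mm : ℝ → ℝ)
    (hmm : ∀ l, 0 < l → |mm l| < 1 ∧ g ν l (mm l) = 0) : ContinuousOn mm (Ioi 0) := by
  intro l₀ hl₀
  refine ContinuousAt.continuousWithinAt ?_
  have hl₀' : 0 < l₀ := hl₀
  obtain ⟨ha, hb⟩ := hmm l₀ hl₀'
  have hpos : ∀ᶠ l in 𝓝 l₀, 0 < l := lt_mem_nhds hl₀'
  unfold ContinuousAt
  rw [tendsto_order]
  rw [abs_lt] at ha
  constructor
  · intro a haa
    obtain ⟨c, hc1, hc2⟩ := exists_between (max_lt haa ha.1)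
    have hca : a < c := lt_of_le_of_lt (le_max_left _ _) hc1
    have hc0 : -1 < c := lt_of_le_of_lt (le_max_right _ _) hc1
    have hc : |c| < 1 := abs_lt.mpr ⟨hc0, by linarith⟩
    have hg : 0 < g ν l₀ c := by
      rw [← hb]
      exact g_anti ν h1 l₀ hl₀' c (mm l₀) hc (abs_lt.mpr ha) hc2
    filter_upwards [hpos, ((g_cont ν c hc).tendsto l₀).eventually (lt_mem_nhds hg)] with l hl hgl
    obtain ⟨h3, h4⟩ := hmm l hl
    by_contra hcon
    push Not at hcon
    have h5 : mm l < c := lt_of_le_of_lt hcon hca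
    have h6 := g_anti ν h1 l hl (mm l) c h3 hc h5
    rw [h4] at h6
    linarith
  · intro a haa
    obtain ⟨c, hc1, hc2⟩ := exists_between (lt_min haa ha.2)
    have hca : c < a := lt_of_lt_of_le hc2 (min_le_left _ _)
    have hc0 : c < 1 := lt_of_lt_of_le hc2 (min_le_right _ _)
    have hc : |c| < 1 := abs_lt.mpr ⟨by linarith, hc0⟩
    have hg : g ν l₀ c < 0 := by
      rw [← hb]
      exact g_anti ν h1 l₀ hl₀' (mm l₀) c (abs_lt.mpr ha) hc hc1
    filter_upwards [hpos, ((g_cont ν c hc).tendsto l₀).eventually (gt_mem_nhds hg)] with l hl hgl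
    obtain ⟨h3, h4⟩ := hmm l hl
    by_contra hcon
    push Not at hcon
    have h5 : c < mm l := lt_of_lt_of_le hca hcon
    have h6 := g_anti ν h1 l hl c (mm l) hc h3 h5
    rw [h4] at h6
    linarith

theorem Dn_zero (l m : ℝ) : Dn l m 0 = 1 := by
  simp [Dn]

theorem logD_bound (hL : S_LPG) (l m x : ℝ) (hl : 0 < l) (hm : |m| < 1) :
    |Real.log (Dn l m x)| ≤ l * |x| := by
  have h := (hL l m hl hm).1 x 0
  rw [Dn_zero, Real.log_one, sub_zero, sub_zero] at h
  exact h

theorem int_logD (hL : S_LPG) (ν : Measure ℝ) (hi : Integrable (fun x => x) ν)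
    (l m : ℝ) (hl : 0 < l) (hm : |m| < 1) : Integrable (fun x => Real.log (Dn l m x)) ν := by
  refine (hi.norm.const_mul l).mono' (Real.measurable_log.comp (meas_Dn l m)).aestronglyMeasurable
    (ae_of_all _ fun x => ?_)
  rw [Real.norm_eq_abs, Real.norm_eq_abs]
  exact logD_bound hL l m x hl hm

theorem xtn_bound (hL : S_LPG) (l m x : ℝ) (hl : 0 < l) (hm : |m| < 1) :
    |x * tn l m x| ≤ |x| := by
  rw [abs_mul]
  exact mul_le_of_le_one_right (abs_nonneg _) ((hL l m hl hm).2.1 x)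

theorem int_xtn (hL : S_LPG) (ν : Measure ℝ) (hi : Integrable (fun x => x) ν)
    (l m : ℝ) (hl : 0 < l) (hm : |m| < 1) : Integrable (fun x => x * tn l m x) ν := by
  refine hi.norm.mono' (measurable_id.mul (meas_tn l m)).aestronglyMeasurable (ae_of_all _ fun x => ?_)
  rw [Real.norm_eq_abs, Real.norm_eq_abs]
  exact xtn_bound hL l m x hl hm

theorem logD_nonneg (hL : S_LPG) (ν : Measure ℝ) [IsProbabilityMeasure ν] (hi : Integrable (fun x => x) ν)
    (l m : ℝ) (hl : 0 < l) (hm : |m| < 1) (hb : g ν l m = 0) : 0 ≤ ∫ x, Real.log (Dn l m x) ∂ν := by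
  have h1 : ∫ x, m * (Real.sinh (l * x) / Dn l m x) ∂ν = 0 := by
    rw [integral_const_mul]
    have hb' : ∫ x, Real.sinh (l * x) / Dn l m x ∂ν = 0 := hb
    rw [hb', mul_zero]
  rw [← h1]
  refine integral_mono ((int_quot ν l m hm).const_mul m) (int_logD hL ν hi l m hl hm) fun x => ?_
  show m * (Real.sinh (l * x) / Dn l m x) ≤ Real.log (Dn l m x)
  have hD := Dn_pos l m x hm
  have hc := Real.cosh_pos (l * x)
  have e1 : m * (Real.sinh (l * x) / Dn l m x) = 1 - Real.cosh (l * x) / Dn l m x := by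
    rw [eq_sub_iff_add_eq, ← mul_div_assoc, ← add_div, div_eq_one_iff_eq hD.ne']
    unfold Dn
    ring
  have h2 := Real.log_le_sub_one_of_pos (div_pos hc hD)
  rw [Real.log_div hc.ne' hD.ne'] at h2
  have h3 := Real.log_nonneg (Real.one_le_cosh (l * x))
  rw [e1]
  linarith

theorem rate_le (hL : S_LPG) (ν : Measure ℝ) [IsProbabilityMeasure ν] (hi : Integrable (fun x => x) ν)
    (l m : ℝ) (hl : 0 < l) (hm : |m| < 1) (hb : g ν l m = 0) :
    l * (∫ x, x * tn l m x ∂ν) - (∫ x, Real.log (Dn l m x) ∂ν) ≤ l * ∫ x, |x| ∂ν := by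
  have h1 := logD_nonneg hL ν hi l m hl hm hb
  have h2 : ∫ x, x * tn l m x ∂ν ≤ ∫ x, |x| ∂ν := by
    refine integral_mono (int_xtn hL ν hi l m hl hm) hi.abs fun x => ?_
    exact le_trans (le_abs_self _) (xtn_bound hL l m x hl hm)
  have h3 := mul_le_mul_of_nonneg_left h2 hl.le
  linarith

theorem Dn_contOn (mm : ℝ → ℝ) (S : Set ℝ) (hc : ContinuousOn mm S) (x : ℝ) :
    ContinuousOn (fun l => Dn l (mm l) x) S := by
  unfold Dn
  have h1 : ContinuousOn (fun l : ℝ => Real.cosh (l * x)) S := by fun_prop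
  have h2 : ContinuousOn (fun l : ℝ => Real.sinh (l * x)) S := by fun_prop
  exact h1.add (hc.mul h2)

theorem rate_cont (hL : S_LPG) (ν : Measure ℝ) [IsProbabilityMeasure ν] (hi : Integrable (fun x => x) ν)
    (mm : ℝ → ℝ) (a b : ℝ) (ha : 0 < a) (hmm : ∀ l, 0 < l → |mm l| < 1) (hc : ContinuousOn mm (Icc a b)) :
    ContinuousOn (fun l => l * (∫ x, x * tn l (mm l) x ∂ν) - (∫ x, Real.log (Dn l (mm l) x) ∂ν)) (Icc a b) := by
  have hpos : ∀ l ∈ Icc a b, 0 < l := fun l hl => lt_of_lt_of_le ha hl.1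
  refine ContinuousOn.sub (ContinuousOn.mul continuousOn_id ?_) ?_
  · refine continuousOn_of_dominated (bound := fun x => |x|) ?_ ?_ hi.abs ?_
    · intro l hl
      exact (measurable_id.mul (meas_tn l (mm l))).aestronglyMeasurable
    · intro l hl
      refine ae_of_all _ fun x => ?_
      rw [Real.norm_eq_abs]
      exact xtn_bound hL l (mm l) x (hpos l hl) (hmm l (hpos l hl))
    · refine ae_of_all _ fun x => ?_
      refine ContinuousOn.mul continuousOn_const ?_
      unfold tn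
      refine ContinuousOn.div ?_ (Dn_contOn mm _ hc x) fun l hl => (Dn_pos l (mm l) x (hmm l (hpos l hl))).ne'
      have h1 : ContinuousOn (fun l : ℝ => Real.cosh (l * x)) (Icc a b) := by fun_prop
      have h2 : ContinuousOn (fun l : ℝ => Real.sinh (l * x)) (Icc a b) := by fun_prop
      exact h2.add (hc.mul h1)
  · refine continuousOn_of_dominated (bound := fun x => b * |x|) ?_ ?_ (hi.abs.const_mul b) ?_
    · intro l hl
      exact (Real.measurable_log.comp (meas_Dn l (mm l))).aestronglyMeasurable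
    · intro l hl
      refine ae_of_all _ fun x => ?_
      rw [Real.norm_eq_abs]
      refine le_trans (logD_bound hL l (mm l) x (hpos l hl) (hmm l (hpos l hl))) ?_
      exact mul_le_mul_of_nonneg_right hl.2 (abs_nonneg x)
    · refine ae_of_all _ fun x => ?_
      exact ContinuousOn.log (Dn_contOn mm _ hc x) fun l hl => (Dn_pos l (mm l) x (hmm l (hpos l hl))).ne'

end FILL

open FILL in
theorem t_FIL : J_FIL := by
  intro hB hL ν _ hi h0 h1 l₁ m₁ hl₁ hm₁ hb₁ κ hκ hκ1
  have hex : ∀ l : ℝ, ∃ m : ℝ, 0 < l → |m| < 1 ∧ g ν l m = 0 := by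
    intro l
    by_cases hl : 0 < l
    · obtain ⟨m, hm⟩ := hB ν hi h0 h1 l hl
      exact ⟨m, fun _ => hm⟩
    · exact ⟨0, fun h => absurd h hl⟩
  choose mm hmm using hex
  -- uniqueness at `l₁`
  have hm1 : mm l₁ = m₁ := by
    obtain ⟨h3, h4⟩ := hmm l₁ hl₁
    have hb₁' : g ν l₁ m₁ = 0 := hb₁
    rcases lt_trichotomy (mm l₁) m₁ with h | h | h
    · have h5 := g_anti ν h1 l₁ hl₁ _ _ h3 hm₁ h
      rw [h4, hb₁'] at h5
      exact absurd h5 (lt_irrefl _)
    · exact h
    · have h5 := g_anti ν h1 l₁ hl₁ _ _ hm₁ h3 h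
      rw [h4, hb₁'] at h5
      exact absurd h5 (lt_irrefl _)
  have hcont := mm_cont ν h1 mm hmm
  set A := ∫ x, |x| ∂ν with hA
  set l' := min l₁ (κ / (2 * A)) with hl'
  have hl'0 : 0 < l' := lt_min hl₁ (div_pos hκ (by linarith))
  have hl'1 : l' ≤ l₁ := min_le_left _ _
  have hl'2 : l' * A ≤ κ / 2 := by
    have h2 : l' ≤ κ / (2 * A) := min_le_right _ _
    have h3 := mul_le_mul_of_nonneg_right h2 h1.le
    have h4 : κ / (2 * A) * A = κ / 2 := by
      field_simp
    linarith
  have hR := rate_cont hL ν hi mm l' l₁ hl'0 (fun l hl => (hmm l hl).1)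
    (hcont.mono fun l hl => lt_of_lt_of_le hl'0 hl.1)
  have hRl' := rate_le hL ν hi l' (mm l') hl'0 (hmm l' hl'0).1 (hmm l' hl'0).2
  have hmem : κ ∈ Icc (l' * (∫ x, x * tn l' (mm l') x ∂ν) - (∫ x, Real.log (Dn l' (mm l') x) ∂ν))
      (l₁ * (∫ x, x * tn l₁ (mm l₁) x ∂ν) - (∫ x, Real.log (Dn l₁ (mm l₁) x) ∂ν)) := by
    constructor
    · linarith
    · rw [hm1]
      exact hκ1.le
  obtain ⟨l, hl, hRl⟩ := intermediate_value_Icc hl'1 hR hmem
  have hl0 : 0 < l := lt_of_lt_of_le hl'0 hl.1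
  exact ⟨l, mm l, hl0, (hmm l hl0).1, (hmm l hl0).2, hRl⟩

end Pool.Agent.H493.SZ
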