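import Pool.Agent.H493.SZ.Def4

set_option autoImplicit false

/-! Greedy choice of a code. -/

open MeasureTheory

namespace Pool.Agent.H493.SZ

namespace GRDL

theorem count_le {Ω ι : Type} [Fintype ι] (B : ι → Set Ω) (y : Ω) (A : Finset ι)
    (hA : ∀ i ∈ A, y ∈ B i) :
    (A.card : ℝ) ≤ ∑ i, (B i).indicator (fun _ => (1 : ℝ)) y := by
  classical
  have h1 : (A.card : ℝ) = ∑ i ∈ A, (B i).indicator (fun _ => (1 : ℝ)) y := by
    rw [Finset.sum_congr rfl fun i hi => Set.indicator_of_mem (hA i hi) (fun _ => (1 : ℝ)),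
      Finset.sum_const, nsmul_eq_mul, mul_one]
  rw [h1]
  exact Finset.sum_le_univ_sum_of_nonneg fun i => Set.indicator_nonneg (fun _ _ => zero_le_one) _

theorem avg {Ω : Type} [MeasurableSpace Ω] (ν : Measure Ω) [IsProbabilityMeasure ν] {ι : Type}
    [Fintype ι] (B : ι → Set Ω) (G : Set Ω) (ρ : ℝ) (hB : ∀ i, MeasurableSet (B i))
    (hG : MeasurableSet G)
    (h : ∀ y ∈ G, ∃ A : Finset ι, (∀ i ∈ A, y ∈ B i) ∧ ρ * Fintype.card ι ≤ A.card) :
    ρ * Fintype.card ι * ν.real G ≤ ∑ i, ν.real (G ∩ B i) := by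
  have h1 : ∀ i, ν.real (G ∩ B i) = ∫ y in G, (B i).indicator (fun _ => (1 : ℝ)) y ∂ν := by
    intro i
    rw [integral_indicator (hB i), setIntegral_const, smul_eq_mul, mul_one,
      measureReal_restrict_apply (hB i), Set.inter_comm]
  have hint : ∀ i, Integrable (fun y => (B i).indicator (fun _ => (1 : ℝ)) y) (ν.restrict G) :=
    fun i => (integrable_const (1 : ℝ)).indicator (hB i)
  rw [Finset.sum_congr rfl fun i _ => h1 i, ← integral_finsetSum _ fun i _ => hint i]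
  have h2 : ∫ _y in G, ρ * (Fintype.card ι : ℝ) ∂ν = ρ * Fintype.card ι * ν.real G := by
    rw [setIntegral_const, smul_eq_mul, mul_comm]
  rw [← h2]
  refine setIntegral_mono_on (integrable_const _) (integrable_finsetSum _ fun i _ => hint i) hG ?_
  intro y hy
  obtain ⟨A, hA, hc⟩ := h y hy
  exact hc.trans (count_le B y A hA)

theorem ex {Ω : Type} [MeasurableSpace Ω] (ν : Measure Ω) [IsProbabilityMeasure ν] {ι : Type}
    [Fintype ι] [Nonempty ι] (B : ι → Set Ω) (G : Set Ω) (ρ : ℝ) (hB : ∀ i, MeasurableSet (B i))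
    (hG : MeasurableSet G)
    (h : ∀ y ∈ G, ∃ A : Finset ι, (∀ i ∈ A, y ∈ B i) ∧ ρ * Fintype.card ι ≤ A.card) :
    ∃ i, ρ * ν.real G ≤ ν.real (G ∩ B i) := by
  by_contra hcon
  have hlt : ∀ i, ν.real (G ∩ B i) < ρ * ν.real G := fun i => lt_of_not_ge fun h' => hcon ⟨i, h'⟩
  have h1 := avg ν B G ρ hB hG h
  have h2 : ∑ i, ν.real (G ∩ B i) < ∑ _i : ι, ρ * ν.real G :=
    Finset.sum_lt_sum_of_nonempty Finset.univ_nonempty fun i _ => hlt i
  rw [Finset.sum_const, Finset.card_univ, nsmul_eq_mul] at h2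
  have h3 : ρ * Fintype.card ι * ν.real G = Fintype.card ι * (ρ * ν.real G) := by ring
  rw [h3] at h1
  exact absurd (h1.trans_lt h2) (lt_irrefl _)

end GRDL

open GRDL in
theorem t_GRD : S_GRD := by
  intro Ω _ ν _ ι _ _ _ B G ρ hB hG _ h n
  induction n with
  | zero =>
    refine ⟨∅, le_rfl, ?_⟩
    rw [Nat.cast_zero, mul_zero, neg_zero, Real.exp_zero]
    exact measureReal_le_one
  | succ n ih =>
    obtain ⟨C, hC, hle⟩ := ih
    have hU : MeasurableSet (⋃ i ∈ C, B i) := C.measurableSet_biUnion fun i _ => hB i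
    obtain ⟨i, hi⟩ := ex ν B (G \ ⋃ i ∈ C, B i) ρ hB (hG.diff hU) fun y hy => h y hy.1
    refine ⟨insert i C, (Finset.card_insert_le _ _).trans (Nat.add_le_add_right hC 1), ?_⟩
    have e1 : G \ ⋃ j ∈ insert i C, B j = (G \ ⋃ j ∈ C, B j) \ B i := by
      rw [Finset.set_biUnion_insert, Set.sdiff_sdiff, Set.union_comm]
    rw [e1]
    have e2 : ν.real ((G \ ⋃ j ∈ C, B j) \ B i) =
        ν.real (G \ ⋃ j ∈ C, B j) - ν.real ((G \ ⋃ j ∈ C, B j) ∩ B i) := by
      have := measureReal_inter_add_sdiff (μ := ν) (s := G \ ⋃ j ∈ C, B j) (hB i)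
      linarith
    rw [e2]
    have h0 : 0 ≤ ν.real (G \ ⋃ j ∈ C, B j) := measureReal_nonneg
    have h5 : (1 - ρ) * ν.real (G \ ⋃ j ∈ C, B j) ≤
        Real.exp (-ρ) * ν.real (G \ ⋃ j ∈ C, B j) :=
      mul_le_mul_of_nonneg_right (Real.one_sub_le_exp_neg ρ) h0
    have h6 : Real.exp (-ρ) * ν.real (G \ ⋃ j ∈ C, B j) ≤ Real.exp (-ρ) * Real.exp (-(ρ * n)) :=
      mul_le_mul_of_nonneg_left hle (Real.exp_pos _).le
    have h7 : Real.exp (-(ρ * ((n + 1 : ℕ) : ℝ))) = Real.exp (-ρ) * Real.exp (-(ρ * n)) := by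
      rw [← Real.exp_add]
      congr 1
      push_cast
      ring
    rw [h7]
    linarith

end Pool.Agent.H493.SZ
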