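import Pool.Agent.H493.SZ.Def7

set_option autoImplicit false

/-! Greedy choice of a code, with weights. -/

open MeasureTheory

namespace Pool.Agent.H493.SZ

namespace GRWL

theorem count_le {Ω ι : Type} [Fintype ι] (w : ι → ℝ) (hw : ∀ i, 0 ≤ w i) (B : ι → Set Ω) (y : Ω) (A : Finset ι)
    (hA : ∀ i ∈ A, y ∈ B i) :
    ∑ i ∈ A, w i ≤ ∑ i, w i * (B i).indicator (fun _ => (1 : ℝ)) y := by
  classical
  have h1 : ∑ i ∈ A, w i = ∑ i ∈ A, w i * (B i).indicator (fun _ => (1 : ℝ)) y := by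
    refine Finset.sum_congr rfl fun i hi => ?_
    rw [Set.indicator_of_mem (hA i hi) (fun _ => (1 : ℝ)), mul_one]
  rw [h1]
  exact Finset.sum_le_univ_sum_of_nonneg fun i =>
    mul_nonneg (hw i) (Set.indicator_nonneg (fun _ _ => zero_le_one) _)

theorem avg {Ω : Type} [MeasurableSpace Ω] (ν : Measure Ω) [IsProbabilityMeasure ν] {ι : Type}
    [Fintype ι] (w : ι → ℝ) (hw : ∀ i, 0 ≤ w i) (B : ι → Set Ω) (G : Set Ω) (ρ : ℝ)
    (hB : ∀ i, MeasurableSet (B i)) (hG : MeasurableSet G)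
    (h : ∀ y ∈ G, ∃ A : Finset ι, (∀ i ∈ A, y ∈ B i) ∧ ρ ≤ ∑ i ∈ A, w i) :
    ρ * ν.real G ≤ ∑ i, w i * ν.real (G ∩ B i) := by
  have h1 : ∀ i, w i * ν.real (G ∩ B i) = ∫ y in G, w i * (B i).indicator (fun _ => (1 : ℝ)) y ∂ν := by
    intro i
    rw [integral_const_mul, integral_indicator (hB i), setIntegral_const, smul_eq_mul, mul_one,
      measureReal_restrict_apply (hB i), Set.inter_comm]
  have hint : ∀ i, Integrable (fun y => w i * (B i).indicator (fun _ => (1 : ℝ)) y) (ν.restrict G) :=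
    fun i => ((integrable_const (1 : ℝ)).indicator (hB i)).const_mul _
  rw [Finset.sum_congr rfl fun i _ => h1 i, ← integral_finsetSum _ fun i _ => hint i]
  have h2 : ∫ _y in G, ρ ∂ν = ρ * ν.real G := by
    rw [setIntegral_const, smul_eq_mul, mul_comm]
  rw [← h2]
  refine setIntegral_mono_on (integrable_const _) (integrable_finsetSum _ fun i _ => hint i) hG ?_
  intro y hy
  obtain ⟨A, hA, hc⟩ := h y hy
  exact hc.trans (count_le w hw B y A hA)

theorem ex {Ω : Type} [MeasurableSpace Ω] (ν : Measure Ω) [IsProbabilityMeasure ν] {ι : Type}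
    [Fintype ι] [Nonempty ι] (w : ι → ℝ) (hw : ∀ i, 0 ≤ w i) (hw1 : ∑ i, w i ≤ 1) (B : ι → Set Ω)
    (G : Set Ω) (ρ : ℝ) (hB : ∀ i, MeasurableSet (B i)) (hG : MeasurableSet G) (hρ : 0 ≤ ρ)
    (h : ∀ y ∈ G, ∃ A : Finset ι, (∀ i ∈ A, y ∈ B i) ∧ ρ ≤ ∑ i ∈ A, w i) :
    ∃ i, ρ * ν.real G ≤ ν.real (G ∩ B i) := by
  by_contra hcon
  have hlt : ∀ i, ν.real (G ∩ B i) < ρ * ν.real G := fun i => lt_of_not_ge fun h' => hcon ⟨i, h'⟩
  have h1 := avg ν w hw B G ρ hB hG h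
  have hpos : 0 < ρ * ν.real G := by
    obtain ⟨i⟩ := (inferInstance : Nonempty ι)
    exact measureReal_nonneg.trans_lt (hlt i)
  have h2 : ∑ i, w i * (ρ * ν.real G - ν.real (G ∩ B i)) ≤ 0 := by
    have e1 : ∑ i, w i * (ρ * ν.real G - ν.real (G ∩ B i)) =
        (∑ i, w i) * (ρ * ν.real G) - ∑ i, w i * ν.real (G ∩ B i) := by
      rw [Finset.sum_mul, ← Finset.sum_sub_distrib]
      exact Finset.sum_congr rfl fun i _ => by ring
    rw [e1]
    have e2 : (∑ i, w i) * (ρ * ν.real G) ≤ 1 * (ρ * ν.real G) := mul_le_mul_of_nonneg_right hw1 hpos.le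
    linarith
  have h3 : ∀ i ∈ Finset.univ, 0 ≤ w i * (ρ * ν.real G - ν.real (G ∩ B i)) :=
    fun i _ => mul_nonneg (hw i) (sub_nonneg.mpr (hlt i).le)
  have h4 := (Finset.sum_eq_zero_iff_of_nonneg h3).mp (le_antisymm h2 (Finset.sum_nonneg h3))
  have h5 : ∀ i, w i = 0 := fun i => by
    rcases mul_eq_zero.mp (h4 i (Finset.mem_univ i)) with h6 | h6
    · exact h6
    · exact absurd (sub_eq_zero.mp h6) (hlt i).ne'
  have h6 : ∑ i, w i * ν.real (G ∩ B i) = 0 := Finset.sum_eq_zero fun i _ => by rw [h5 i, zero_mul]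
  rw [h6] at h1
  exact absurd (hpos.trans_le h1) (lt_irrefl _)

end GRWL

open GRWL in
theorem t_GRW : S_GRW := by
  intro Ω _ ν _ ι _ _ _ w B G ρ hw hw1 hB hG hρ h n
  induction n with
  | zero =>
    refine ⟨∅, le_rfl, ?_⟩
    rw [Nat.cast_zero, mul_zero, neg_zero, Real.exp_zero]
    exact measureReal_le_one
  | succ n ih =>
    obtain ⟨C, hC, hle⟩ := ih
    have hU : MeasurableSet (⋃ i ∈ C, B i) := C.measurableSet_biUnion fun i _ => hB i
    obtain ⟨i, hi⟩ := ex ν w hw hw1 B (G \ ⋃ i ∈ C, B i) ρ hB (hG.diff hU) hρ fun y hy => h y hy.1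
    refine ⟨insert i C, (Finset.card_insert_le _ _).trans (Nat.add_le_add_right hC 1), ?_⟩
    have e1 : G \ ⋃ j ∈ insert i C, B j = (G \ ⋃ j ∈ C, B j) \ B i := by
      rw [Finset.set_biUnion_insert, Set.sdiff_sdiff, Set.union_comm]
    rw [e1]
    have e2 : ν.real ((G \ ⋃ j ∈ C, B j) \ B i) =
        ν.real (G \ ⋃ j ∈ C, B j) - ν.real ((G \ ⋃ j ∈ C, B j) ∩ B i) := by
      have := measureReal_inter_add_sdiff (μ := ν) (s := G \ ⋃ j ∈ C, B j) (hB i)
      linarith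
    rw [e2]
    have h0 : 0 ≤ ν.real (G \ ⋃ j ∈ C, B j) := measureReal_nonneg
    have h5 : (1 - ρ) * ν.real (G \ ⋃ j ∈ C, B j) ≤
        Real.exp (-ρ) * ν.real (G \ ⋃ j ∈ C, B j) :=
      mul_le_mul_of_nonneg_right (Real.one_sub_le_exp_neg ρ) h0
    have h6 : Real.exp (-ρ) * ν.real (G \ ⋃ j ∈ C, B j) ≤ Real.exp (-ρ) * Real.exp (-(ρ * n)) :=
      mul_le_mul_of_nonneg_left hle (Real.exp_pos _).le
    have h7 : Real.exp (-(ρ * ((n + 1 : ℕ) : ℝ))) = Real.exp (-ρ) * Real.exp (-(ρ * n)) := by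
      rw [← Real.exp_add]
      congr 1
      push_cast
      ring
    rw [h7]
    linarith

end Pool.Agent.H493.SZ
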