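import Pool.Agent.H493.EN.GLO2

set_option autoImplicit false

/-! The pattern inequality at a fixed height, with the union bound as hypothesis (adapted from GLO2). -/

open Complex Filter Topology Set MeasureTheory

namespace Pool.Agent.H493.SZ

open Pool.Agent.H493.EN

open GLOL GLO2L in
/-- the pattern inequality, union bound -/
theorem glo3 (T h : ℝ) (M : ℕ) (Y : ℝ → ℝ) (B τ η ρ δ K : ℝ) (hT : 0 < T) (hh : 0 ≤ h) (hM : 1 ≤ M)
    (hMh : M * h ≤ T) (_hB : 0 ≤ B) (hτ : 0 < τ) (hη : 0 ≤ η) (hρ : 0 ≤ ρ) (hδ : 0 ≤ δ)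
    (hI1 : ∀ m ≤ M, IntervalIntegrable (fun t => Y (t + m * h)) volume T (2 * T))
    (hI2 : ∀ m ≤ M, IntervalIntegrable (fun t => Y (t + m * h) ^ 2) volume T (2 * T))
    (hBm : ∀ m ≤ M, ∫ t in T..(2 * T), Y (t + m * h) ^ 2 ≤ B * T)
    (hexc : ∀ P : Finset (ℕ → ℂ), (P.card : ℝ) ≤ K → (∀ p ∈ P, ∀ m, ‖p m‖ ≤ 1) →
      volume (⋃ p ∈ P, {t | t ∈ Icc T (2 * T) ∧ η * M ≤ ‖∑ m ∈ Finset.range M, p m * (Y (t + m * h) : ℂ)‖}) ≤
        ENNReal.ofReal (ρ * T))
    (θ : ℝ → ℂ) (hθm : Measurable θ) (hθ1 : ∀ t, ‖θ t‖ ≤ 1)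
    (hPE : ∃ (P : Finset (ℕ → ℂ)) (E : Set ℝ), (P.card : ℝ) ≤ K ∧ (∀ p ∈ P, ∀ m, ‖p m‖ ≤ 1) ∧
      volume E ≤ ENNReal.ofReal (δ * T) ∧ ∀ t ∈ Icc T (2 * T), t ∉ E →
        ∃ p ∈ P, ∑ m ∈ Finset.range M, ‖θ (t + m * h) - p m‖ ≤ δ * M) :
    ‖∫ t in T..(2 * T), θ t * (Y t : ℂ)‖ ≤
      (η + δ / τ + 3 / 2 * τ * B + (δ + ρ) / (2 * τ)) * T + M * h / τ := by
  obtain ⟨P, E, hPK, hP1, hE, hfol⟩ := hPE
  have hT2 : T ≤ 2 * T := by linarith
  have hM0 : (0 : ℝ) < M := by exact_mod_cast hM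
  have hc0 : IntervalIntegrable Y volume T (2 * T) := by
    have := hI1 0 (Nat.zero_le _)
    simpa using this
  have hc02 : IntervalIntegrable (fun t => Y t ^ 2) volume T (2 * T) := by
    have := hI2 0 (Nat.zero_le _)
    simpa using this
  have hB0 : ∫ t in T..(2 * T), Y t ^ 2 ≤ B * T := by
    have := hBm 0 (Nat.zero_le _)
    simpa using this
  -- exceptional set
  let Ex : (ℕ → ℂ) → Set ℝ := fun p =>
    {t | t ∈ Icc T (2 * T) ∧ η * M ≤ ‖∑ m ∈ Finset.range M, p m * (Y (t + m * h) : ℂ)‖}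
  let Z : Set ℝ := toMeasurable volume (E ∪ ⋃ p ∈ P, Ex p)
  have hZm : MeasurableSet Z := measurableSet_toMeasurable _ _
  have hZsub : E ∪ ⋃ p ∈ P, Ex p ⊆ Z := subset_toMeasurable _ _
  have hZv : volume Z ≤ ENNReal.ofReal ((δ + ρ) * T) := by
    have e1 : volume Z = volume (E ∪ ⋃ p ∈ P, Ex p) := measure_toMeasurable _
    rw [e1]
    have e2 : volume (⋃ p ∈ P, Ex p) ≤ ENNReal.ofReal (ρ * T) := hexc P hPK hP1
    calc volume (E ∪ ⋃ p ∈ P, Ex p) ≤ volume E + volume (⋃ p ∈ P, Ex p) := measure_union_le _ _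
      _ ≤ ENNReal.ofReal (δ * T) + ENNReal.ofReal (ρ * T) := add_le_add hE e2
      _ = ENNReal.ofReal ((δ + ρ) * T) := by
        rw [← ENNReal.ofReal_add (by positivity) (by positivity)]
        congr 1; ring
  -- integrability of squares
  have hsq : ∀ m ∈ Finset.range M,
      IntervalIntegrable (fun t => Y (t + m * h) ^ 2) volume T (2 * T) := by
    intro m hm
    exact hI2 m (Finset.mem_range.mp hm).le
  have hprod : ∀ m ∈ Finset.range M,
      IntervalIntegrable (fun t => θ (t + m * h) * (Y (t + m * h) : ℂ)) volume T (2 * T) := by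
    intro m hm
    exact ii_mul T (2 * T) (fun t => Y (t + m * h)) (hI1 m (Finset.mem_range.mp hm).le) (fun t => θ (t + m * h))
      (hθm.comp (measurable_id.add_const _)) (fun t => hθ1 _)
  have hIsum : IntervalIntegrable (fun t => ∑ m ∈ Finset.range M, Y (t + m * h) ^ 2)
      volume T (2 * T) := by
    have := IntervalIntegrable.sum (Finset.range M) hsq
    refine this.congr fun t _ => ?_
    simp [Finset.sum_apply]
  have hIZ : IntervalIntegrable (Z.indicator fun _ => M / (2 * τ)) volume T (2 * T) := by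
    constructor
    · exact (integrable_const _).indicator hZm
    · exact (integrable_const _).indicator hZm
  -- pointwise bound
  have hpt : ∀ t ∈ Icc T (2 * T),
      ‖∑ m ∈ Finset.range M, θ (t + m * h) * (Y (t + m * h) : ℂ)‖ ≤
        (η * M + δ * M / τ) + τ / 2 * (∑ m ∈ Finset.range M, Y (t + m * h) ^ 2) +
          Z.indicator (fun _ => M / (2 * τ)) t := by
    intro t ht
    by_cases htZ : t ∈ Z
    · rw [indicator_of_mem htZ]
      have h1 : ‖∑ m ∈ Finset.range M, θ (t + m * h) * (Y (t + m * h) : ℂ)‖ ≤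
          ∑ m ∈ Finset.range M, (τ / 2 * Y (t + m * h) ^ 2 + 1 / (2 * τ)) := by
        refine (norm_sum_le _ _).trans (Finset.sum_le_sum fun m _ => ?_)
        rw [norm_mul, Complex.norm_real, Real.norm_eq_abs]
        calc ‖θ (t + m * h)‖ * |Y (t + m * h)| ≤ 1 * |Y (t + m * h)| :=
              mul_le_mul_of_nonneg_right (hθ1 _) (abs_nonneg _)
          _ = |Y (t + m * h)| := one_mul _
          _ ≤ _ := abs_le τ _ hτ
      rw [Finset.sum_add_distrib, ← Finset.mul_sum, Finset.sum_const, Finset.card_range,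
        nsmul_eq_mul] at h1
      have h2 : (M : ℝ) * (1 / (2 * τ)) = M / (2 * τ) := by ring
      rw [h2] at h1
      have h3 : 0 ≤ η * M + δ * M / τ := by positivity
      linarith
    · rw [indicator_of_notMem htZ, add_zero]
      have htn : t ∉ E ∪ ⋃ p ∈ P, Ex p := fun hc => htZ (hZsub hc)
      have htE : t ∉ E := fun hc => htn (Or.inl hc)
      obtain ⟨p, hp, hps⟩ := hfol t ht htE
      have htp : ‖∑ m ∈ Finset.range M, p m * (Y (t + m * h) : ℂ)‖ ≤ η * M := by
        by_contra hcon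
        push Not at hcon
        apply htn
        right
        rw [mem_iUnion₂]
        exact ⟨p, hp, ht, hcon.le⟩
      have hsplit : ∑ m ∈ Finset.range M, θ (t + m * h) * (Y (t + m * h) : ℂ) =
          ∑ m ∈ Finset.range M, p m * (Y (t + m * h) : ℂ) +
          ∑ m ∈ Finset.range M, (θ (t + m * h) - p m) * (Y (t + m * h) : ℂ) := by
        rw [← Finset.sum_add_distrib]
        exact Finset.sum_congr rfl fun m _ => by ring
      have h1 : ‖∑ m ∈ Finset.range M, (θ (t + m * h) - p m) * (Y (t + m * h) : ℂ)‖ ≤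
          ∑ m ∈ Finset.range M, (‖θ (t + m * h) - p m‖ / τ + τ / 2 * Y (t + m * h) ^ 2) := by
        refine (norm_sum_le _ _).trans (Finset.sum_le_sum fun m _ => ?_)
        rw [norm_mul, Complex.norm_real, Real.norm_eq_abs]
        apply mul_abs_le τ _ _ hτ (norm_nonneg _)
        calc ‖θ (t + m * h) - p m‖ ≤ ‖θ (t + m * h)‖ + ‖p m‖ := norm_sub_le _ _
          _ ≤ 1 + 1 := add_le_add (hθ1 _) (hP1 p hp m)
          _ = 2 := by norm_num
      rw [Finset.sum_add_distrib, ← Finset.mul_sum, ← Finset.sum_div] at h1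
      have h2 : (∑ m ∈ Finset.range M, ‖θ (t + m * h) - p m‖) / τ ≤ δ * M / τ :=
        div_le_div_of_nonneg_right hps hτ.le
      rw [hsplit]
      refine (norm_add_le _ _).trans ?_
      linarith
  -- the integral of the pointwise bound
  have hconst : IntervalIntegrable (fun _ : ℝ => η * M + δ * M / τ) volume T (2 * T) :=
    intervalIntegrable_const
  have hint : ‖∫ t in T..(2 * T), ∑ m ∈ Finset.range M, θ (t + m * h) * (Y (t + m * h) : ℂ)‖ ≤
      M * ((η + δ / τ + τ * B / 2 + (δ + ρ) / (2 * τ)) * T) := by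
    have h1 := intervalIntegral.norm_integral_le_of_norm_le hT2
      (f := fun t => ∑ m ∈ Finset.range M, θ (t + m * h) * (Y (t + m * h) : ℂ))
      (Eventually.of_forall fun t ht => hpt t ⟨ht.1.le, ht.2⟩)
      ((hconst.add (hIsum.const_mul _)).add hIZ)
    refine h1.trans ?_
    rw [intervalIntegral.integral_add (hconst.add (hIsum.const_mul _)) hIZ,
      intervalIntegral.integral_add hconst (hIsum.const_mul _),
      intervalIntegral.integral_const, intervalIntegral.integral_const_mul,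
      intervalIntegral.integral_finsetSum hsq]
    have h2 : ∑ m ∈ Finset.range M, ∫ t in T..(2 * T), Y (t + m * h) ^ 2 ≤ M * (B * T) := by
      refine (Finset.sum_le_sum fun m hm => hBm m (Finset.mem_range.mp hm).le).trans ?_
      rw [Finset.sum_const, Finset.card_range, nsmul_eq_mul]
    have h3 : ∫ t in T..(2 * T), Z.indicator (fun _ => M / (2 * τ)) t ≤
        (δ + ρ) * T * (M / (2 * τ)) := by
      rw [intervalIntegral.integral_of_le hT2, setIntegral_indicator hZm, setIntegral_const,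
        smul_eq_mul]
      apply mul_le_mul_of_nonneg_right _ (by positivity)
      apply ENNReal.toReal_le_of_le_ofReal (by positivity)
      exact (measure_mono inter_subset_right).trans hZv
    have h4 := mul_le_mul_of_nonneg_left h2 (by positivity : (0 : ℝ) ≤ τ / 2)
    have h5 : (2 * T - T) • (η * M + δ * M / τ) + τ / 2 * (M * (B * T)) +
        (δ + ρ) * T * (M / (2 * τ)) =
        M * ((η + δ / τ + τ * B / 2 + (δ + ρ) / (2 * τ)) * T) := by
      rw [smul_eq_mul]
      field_simp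
      ring
    rw [← h5]
    linarith
  -- averaging over shifts
  have hsh : ∀ m ∈ Finset.range M,
      ‖(∫ t in T..(2 * T), θ t * (Y t : ℂ)) -
        ∫ t in T..(2 * T), θ (t + m * h) * (Y (t + m * h) : ℂ)‖ ≤ τ * B * T + M * h / τ := by
    intro m hm
    have hmM : (m : ℝ) ≤ M := by exact_mod_cast (Finset.mem_range.mp hm).le
    have hmh : (m : ℝ) * h ≤ M * h := mul_le_mul_of_nonneg_right hmM hh
    have := shift T (m * h) B τ Y hT (by positivity) (hmh.trans hMh) hc0
      (hI1 m (Finset.mem_range.mp hm).le) hc02 (hI2 m (Finset.mem_range.mp hm).le) hB0 (hBm m (Finset.mem_range.mp hm).le) hτ θ hθm hθ1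
    have h2 : (m : ℝ) * h / τ ≤ M * h / τ := div_le_div_of_nonneg_right hmh hτ.le
    linarith
  have hsum : (M : ℂ) * ∫ t in T..(2 * T), θ t * (Y t : ℂ) =
      ∑ m ∈ Finset.range M, ((∫ t in T..(2 * T), θ t * (Y t : ℂ)) -
        ∫ t in T..(2 * T), θ (t + m * h) * (Y (t + m * h) : ℂ)) +
      ∫ t in T..(2 * T), ∑ m ∈ Finset.range M, θ (t + m * h) * (Y (t + m * h) : ℂ) := by
    rw [intervalIntegral.integral_finsetSum hprod, Finset.sum_sub_distrib, Finset.sum_const,
      Finset.card_range, nsmul_eq_mul]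
    ring
  have hfin : (M : ℝ) * ‖∫ t in T..(2 * T), θ t * (Y t : ℂ)‖ ≤
      M * (τ * B * T + M * h / τ) +
        M * ((η + δ / τ + τ * B / 2 + (δ + ρ) / (2 * τ)) * T) := by
    have h1 : (M : ℝ) * ‖∫ t in T..(2 * T), θ t * (Y t : ℂ)‖ =
        ‖(M : ℂ) * ∫ t in T..(2 * T), θ t * (Y t : ℂ)‖ := by
      rw [norm_mul, Complex.norm_natCast]
    rw [h1, hsum]
    refine (norm_add_le _ _).trans (add_le_add ?_ hint)
    refine (norm_sum_le _ _).trans ((Finset.sum_le_sum hsh).trans ?_)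
    rw [Finset.sum_const, Finset.card_range, nsmul_eq_mul]
  rw [← mul_add] at hfin
  have hfin2 := le_of_mul_le_mul_left hfin hM0
  refine hfin2.trans (le_of_eq ?_)
  ring

end Pool.Agent.H493.SZ
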