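import Pool.Agent.H493.SZ.Def7

set_option autoImplicit false

/-! S_LPG (written by helper307): elementary inequalities for `cosh (lx) + m sinh (lx)`. -/

open Complex Filter Topology Set MeasureTheory ProbabilityTheory

namespace Pool.Agent.H493.SZ

namespace LPGL

theorem abs_sinh_le (u : ℝ) : |Real.sinh u| ≤ Real.cosh u := by
  have h1 := Real.cosh_sq u
  have h2 := Real.cosh_pos u
  apply abs_le_of_sq_le_sq _ h2.le
  nlinarith

/-- a function with derivative bounded by `C` -/
theorem lip {f f' : ℝ → ℝ} {C : ℝ} (hf : ∀ x, HasDerivAt f (f' x) x) (hC : ∀ x, |f' x| ≤ C)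
    (x y : ℝ) : |f x - f y| ≤ C * |x - y| := by
  have := Convex.norm_image_sub_le_of_norm_hasDerivWithin_le (f := f) (f' := f') (s := Set.univ)
    (C := C) (x := y) (y := x) (fun z _ => (hf z).hasDerivWithinAt)
    (fun z _ => by simpa using hC z) convex_univ (Set.mem_univ _) (Set.mem_univ _)
  simpa using this

theorem Dn_ge (l m x : ℝ) : (1 - |m|) * Real.cosh (l * x) ≤ Dn l m x := by
  unfold Dn
  have h1 := abs_sinh_le (l * x)
  have h2 : |m * Real.sinh (l * x)| ≤ |m| * Real.cosh (l * x) := by
    rw [abs_mul]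
    exact mul_le_mul_of_nonneg_left h1 (abs_nonneg m)
  have h3 := (abs_le.1 h2).1
  linarith

theorem Dn_pos (l m x : ℝ) (hm : |m| < 1) : 0 < Dn l m x :=
  lt_of_lt_of_le (mul_pos (by linarith) (Real.cosh_pos _)) (Dn_ge l m x)

theorem cosh_ge (u : ℝ) : Real.exp |u| / 2 ≤ Real.cosh u := by
  rw [← Real.cosh_abs, Real.cosh_eq]
  have := Real.exp_pos (-|u|)
  linarith

theorem hDn (l m x : ℝ) : HasDerivAt (fun x => Dn l m x)
    (l * (Real.sinh (l * x) + m * Real.cosh (l * x))) x := by
  have hch : HasDerivAt (fun x => Real.cosh (l * x)) (Real.sinh (l * x) * l) x := by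
    have h := ((hasDerivAt_id x).const_mul l).cosh
    rw [mul_one] at h
    exact h
  have hsh : HasDerivAt (fun x => Real.sinh (l * x)) (Real.cosh (l * x) * l) x := by
    have h := ((hasDerivAt_id x).const_mul l).sinh
    rw [mul_one] at h
    exact h
  have h := hch.add (hsh.const_mul m)
  refine h.congr_deriv ?_
  ring

theorem abs_num_le (l m x : ℝ) (hm : |m| < 1) :
    |Real.sinh (l * x) + m * Real.cosh (l * x)| ≤ Dn l m x := by
  obtain ⟨h1, h2⟩ := abs_lt.1 hm
  obtain ⟨h3, h4⟩ := abs_le.1 (abs_sinh_le (l * x))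
  unfold Dn
  rw [abs_le]
  constructor
  · have h5 : 0 ≤ (1 + m) * (Real.cosh (l * x) + Real.sinh (l * x)) :=
      mul_nonneg (by linarith) (by linarith)
    linarith
  · have h5 : 0 ≤ (1 - m) * (Real.cosh (l * x) - Real.sinh (l * x)) :=
      mul_nonneg (by linarith) (by linarith)
    linarith

theorem abs_tn_le (l m x : ℝ) (hm : |m| < 1) : |tn l m x| ≤ 1 := by
  unfold tn
  have h := Dn_pos l m x hm
  rw [abs_div, abs_of_pos h, div_le_one h]
  exact abs_num_le l m x hm

end LPGL

theorem t_LPG : S_LPG := by
  intro l m hl hm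
  have hm' : 0 < 1 - |m| := by linarith
  refine ⟨fun x y => ?_, fun x => LPGL.abs_tn_le l m x hm, ?_, fun x => LPGL.Dn_pos l m x hm,
    fun x => ?_⟩
  · refine LPGL.lip (f := fun x => Real.log (Dn l m x)) (f' := fun x => l * tn l m x)
      (fun x => ?_) (fun x => ?_) x y
    · refine ((LPGL.hDn l m x).log (LPGL.Dn_pos l m x hm).ne').congr_deriv ?_
      unfold tn
      rw [mul_div_assoc]
    · rw [abs_mul, abs_of_pos hl]
      have h := LPGL.abs_tn_le l m x hm
      nlinarith
  · intro σ hσ x y
    refine LPGL.lip (f := fun x => Real.exp (l * (σ * x)) / Dn l m x)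
      (f' := fun x => l * (σ - m) / Dn l m x ^ 2) (fun x => ?_) (fun x => ?_) x y
    · have hne := (LPGL.Dn_pos l m x hm).ne'
      have hexp : HasDerivAt (fun x => Real.exp (l * (σ * x))) (Real.exp (l * (σ * x)) * (l * σ))
          x := by
        have h := (((hasDerivAt_id x).const_mul σ).const_mul l).exp
        refine h.congr_deriv ?_
        simp only [id]
        ring
      refine (hexp.div (LPGL.hDn l m x) hne).congr_deriv ?_
      congr 1
      have e1 : Real.exp (l * (σ * x)) * (σ * Dn l m x -
          (Real.sinh (l * x) + m * Real.cosh (l * x))) = σ - m := by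
        unfold Dn
        rcases hσ with rfl | rfl
        · have h1 : Real.exp (l * (1 * x)) = Real.cosh (l * x) + Real.sinh (l * x) := by
            rw [Real.cosh_add_sinh, one_mul]
          rw [h1]
          have h2 := Real.cosh_sq (l * x)
          linear_combination (1 - m) * h2
        · have h1 : Real.exp (l * (-1 * x)) = Real.cosh (l * x) - Real.sinh (l * x) := by
            rw [Real.cosh_sub_sinh]
            congr 1
            ring
          rw [h1]
          have h2 := Real.cosh_sq (l * x)
          linear_combination (-1 - m) * h2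
      linear_combination l * e1
    · have h1 : 1 - |m| ≤ Dn l m x := by
        have h2 := LPGL.Dn_ge l m x
        have h3 := Real.one_le_cosh (l * x)
        nlinarith
      have h4 : (1 - |m|) ^ 2 ≤ Dn l m x ^ 2 := pow_le_pow_left₀ hm'.le h1 2
      have h5 : |l * (σ - m)| ≤ 2 * l := by
        rw [abs_mul, abs_of_pos hl]
        obtain ⟨h6, h7⟩ := abs_lt.1 hm
        have h8 : |σ - m| ≤ 2 := by
          rw [abs_le]
          rcases hσ with rfl | rfl
          · constructor <;> linarith
          · constructor <;> linarith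
        nlinarith
      rw [abs_div, abs_of_nonneg (sq_nonneg (Dn l m x))]
      exact div_le_div₀ (by positivity) h5 (by positivity) h4
  · have h1 := LPGL.Dn_ge l m x
    have h2 := LPGL.cosh_ge (l * x)
    have h3 : (1 - |m|) * (Real.exp |l * x| / 2) ≤ Dn l m x :=
      (mul_le_mul_of_nonneg_left h2 hm'.le).trans h1
    rw [div_mul_eq_mul_div, le_div_iff₀ hm']
    linarith

end Pool.Agent.H493.SZ
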