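import Pool.Agent.H493.SZ.Def4

set_option autoImplicit false

/-! S_LPT (written by helper142): the functions `log cosh (lx)` and `x tanh (lx)` are Lipschitz. -/

namespace Pool.Agent.H493.SZ

namespace LPTL

lemma abs_sinh_le (u : ℝ) : |Real.sinh u| ≤ Real.cosh u := by
  have h1 := Real.cosh_sq u
  have h2 := Real.cosh_pos u
  apply abs_le_of_sq_le_sq _ h2.le
  nlinarith

lemma abs_le_cosh_sq (u : ℝ) : |u| ≤ Real.cosh u ^ 2 := by
  have h0 : |u| ≤ Real.sinh |u| := Real.self_le_sinh_iff.2 (abs_nonneg u)
  have h1 : Real.sinh |u| ≤ Real.cosh |u| := le_trans (le_abs_self _) (abs_sinh_le _)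
  rw [Real.cosh_abs] at h1
  have h2 := Real.one_le_cosh u
  nlinarith

/-- a function with derivative bounded by `C` -/
lemma lip {f f' : ℝ → ℝ} {C : ℝ} (hf : ∀ x, HasDerivAt f (f' x) x) (hC : ∀ x, |f' x| ≤ C) (x y : ℝ) :
    |f x - f y| ≤ C * |x - y| := by
  have := Convex.norm_image_sub_le_of_norm_hasDerivWithin_le (f := f) (f' := f') (s := Set.univ) (C := C)
    (x := y) (y := x) (fun z _ => (hf z).hasDerivWithinAt) (fun z _ => by simpa using hC z) convex_univ
    (Set.mem_univ _) (Set.mem_univ _)
  simpa using this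

end LPTL

theorem t_LPT : S_LPT := by
  intro l hl x y
  have hch : ∀ x : ℝ, HasDerivAt (fun x => Real.cosh (l * x)) (Real.sinh (l * x) * l) x := by
    intro x
    have h := ((hasDerivAt_id x).const_mul l).cosh
    rw [mul_one] at h
    exact h
  have hsh : ∀ x : ℝ, HasDerivAt (fun x => Real.sinh (l * x)) (Real.cosh (l * x) * l) x := by
    intro x
    have h := ((hasDerivAt_id x).const_mul l).sinh
    rw [mul_one] at h
    exact h
  constructor
  · refine LPTL.lip (f := fun x => Real.log (Real.cosh (l * x)))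
      (f' := fun x => Real.sinh (l * x) * l / Real.cosh (l * x))
      (fun x => (hch x).log (Real.cosh_pos _).ne') (fun x => ?_) x y
    have h1 := LPTL.abs_sinh_le (l * x)
    have h2 := Real.cosh_pos (l * x)
    rw [abs_div, abs_mul, abs_of_pos hl, abs_of_pos h2, div_le_iff₀ h2]
    nlinarith
  · refine LPTL.lip (f := fun x => x * Real.tanh (l * x))
      (f' := fun x => Real.tanh (l * x) + x * (l / Real.cosh (l * x) ^ 2)) (fun x => ?_) (fun x => ?_) x y
    · have h2 := Real.cosh_pos (l * x)
      have h := (hasDerivAt_id x).mul ((hsh x).div (hch x) h2.ne')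
      have e : (fun x => x * Real.tanh (l * x)) = (id * ((fun x => Real.sinh (l * x)) / fun x => Real.cosh (l * x))) := by
        funext z
        simp [Real.tanh_eq_sinh_div_cosh]
      rw [e]
      refine h.congr_deriv ?_
      have h3 := Real.cosh_sq (l * x)
      have h4 : Real.cosh (l * x) * l * Real.cosh (l * x) - Real.sinh (l * x) * (Real.sinh (l * x) * l) = l := by
        have : Real.cosh (l * x) * l * Real.cosh (l * x) = l * Real.cosh (l * x) ^ 2 := by ring
        rw [this, h3]
        ring
      rw [h4, Real.tanh_eq_sinh_div_cosh]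
      simp only [id, one_mul, Pi.div_apply]
    · have h2 := Real.cosh_pos (l * x)
      have h1 := LPTL.abs_sinh_le (l * x)
      have h3 := LPTL.abs_le_cosh_sq (l * x)
      have h4 : |Real.tanh (l * x)| ≤ 1 := by
        rw [Real.tanh_eq_sinh_div_cosh, abs_div, abs_of_pos h2, div_le_one h2]
        exact h1
      have h5 : |x * (l / Real.cosh (l * x) ^ 2)| ≤ 1 := by
        have e : x * (l / Real.cosh (l * x) ^ 2) = (l * x) / Real.cosh (l * x) ^ 2 := by ring
        rw [e, abs_div, abs_of_pos (pow_pos h2 2), div_le_one (pow_pos h2 2)]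
        exact h3
      calc |Real.tanh (l * x) + x * (l / Real.cosh (l * x) ^ 2)|
          ≤ |Real.tanh (l * x)| + |x * (l / Real.cosh (l * x) ^ 2)| := abs_add_le _ _
        _ ≤ 2 := by linarith

end Pool.Agent.H493.SZ
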