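import Pool.Agent.H493.SZ.UpL

set_option autoImplicit false

/-! The exact entropy bound is attained. -/

open Complex Filter Topology Set MeasureTheory ProbabilityTheory
open scoped BoundedContinuousFunction RealInnerProductSpace NNReal

namespace Pool.Agent.H493.SZ

open Pool.Agent.H493.EN

/-- number of patterns -/
lemma card_evX {g η : ℝ} (hη : 0 < η) {q c : ℕ} (hq : 0 < q) (hc1 : 1 ≤ c) (hc : 2 * (c : ℝ) ≤ Real.exp (g * q)) :
    ∃ M₀ : ℕ, ∀ M : ℕ, M₀ ≤ M → ((q * (2 * c) ^ (M / q + 2) : ℕ) : ℝ) ≤ Real.exp ((g + η) * M) := by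
  have hq0 : (0 : ℝ) < q := by exact_mod_cast hq
  have hg : 0 ≤ g * q := by
    by_contra hcon
    push Not at hcon
    have h1 : Real.exp (g * q) < 1 := by
      rw [← Real.exp_zero]
      exact Real.exp_lt_exp.2 hcon
    have h2 : (1 : ℝ) ≤ c := by exact_mod_cast hc1
    linarith
  have hg0 : 0 ≤ g := by
    by_contra hcon
    push Not at hcon
    nlinarith
  have h1 : Tendsto (fun M : ℕ => η * (M : ℝ)) atTop atTop := tendsto_natCast_atTop_atTop.const_mul_atTop hη
  obtain ⟨M₀, hM₀⟩ := eventually_atTop.1 ((Real.tendsto_exp_atTop.comp h1).eventually_ge_atTop (q * Real.exp (g * q * 2)))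
  refine ⟨M₀, fun M hM => ?_⟩
  have h2 := hM₀ M hM
  simp only [Function.comp] at h2
  push_cast
  have h3 : (2 * (c : ℝ)) ^ (M / q + 2) ≤ Real.exp (g * M) * Real.exp (g * q * 2) := by
    calc (2 * (c : ℝ)) ^ (M / q + 2) ≤ (Real.exp (g * q)) ^ (M / q + 2) := by gcongr
      _ = Real.exp (g * q * ((M / q : ℕ) : ℝ)) * Real.exp (g * q * 2) := by
          rw [← Real.exp_nat_mul, ← Real.exp_add]
          congr 1
          push_cast
          ring
      _ ≤ _ := by
          refine mul_le_mul_of_nonneg_right (Real.exp_le_exp.2 ?_) (Real.exp_pos _).le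
          have h4 : ((M / q : ℕ) : ℝ) ≤ M / q := Nat.cast_div_le
          calc g * q * ((M / q : ℕ) : ℝ) ≤ g * q * (M / q) := mul_le_mul_of_nonneg_left h4 hg
            _ = g * M := by field_simp
  calc (q : ℝ) * (2 * (c : ℝ)) ^ (M / q + 2) ≤ q * (Real.exp (g * M) * Real.exp (g * q * 2)) := by gcongr
    _ = Real.exp (g * M) * (q * Real.exp (g * q * 2)) := by ring
    _ ≤ Real.exp (g * M) * Real.exp (η * M) := by gcongr
    _ = Real.exp ((g + η) * M) := by rw [← Real.exp_add]; congr 1; ring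

/-- a code word as a function on `ℕ` -/
noncomputable def wrd {q : ℕ} (σ : Fin (1 * q) → Bool) (m : ℕ) : ℝ :=
  if h : m < q then sgb (σ (finProdFinEquiv ((0 : Fin 1), (⟨m, h⟩ : Fin q)))) else 0

lemma sgb_abs (b : Bool) : |sgb b| = 1 := by
  unfold sgb
  cases b <;> simp

lemma wrd_le {q : ℕ} (σ : Fin (1 * q) → Bool) (m : ℕ) : |wrd σ m| ≤ 1 := by
  unfold wrd
  split_ifs
  · exact (sgb_abs _).le
  · simp

lemma wrd_sum {q : ℕ} (σ : Fin (1 * q) → Bool) (x : Fin q → EuclideanSpace ℝ (Fin 1)) :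
    ∑ p, sgb (σ p) * (vecB x) p = ∑ m : Fin q, wrd σ m * x m 0 := by
  rw [sum_ab (k := 1) (M := q)]
  simp only [Finset.univ_unique, Finset.sum_singleton]
  refine Finset.sum_congr rfl fun m _ => ?_
  unfold wrd
  rw [dif_pos m.2]
  congr 1
  unfold vecB
  simp only [Equiv.symm_apply_apply]
  rfl

/-- **the entropy bound is attained** -/
theorem lowX (hB : S_BLKC) (hCo : S_CODE) (hR : S_RNG) (hM : S_MIZ) (hE : S_GSE) (hC : S_CHZ) (hZ : S_SEZ)
    {l η ε : ℝ} (hl : 0 < l) (hη : 0 < η) (hε : 0 < ε) :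
    ∃ (M₀ : ℕ) (K : ℝ), 1 ≤ K ∧ ∀ T : ℝ, K ≤ T → ∀ s : ℝ, Rg K T s →
      ∃ θ : ℝ → ℂ, Measurable θ ∧ (∀ t, ‖θ t‖ ≤ 1) ∧ (∀ M, M₀ ≤ M → Follows T s M (rat l + η) 0 θ) ∧
        (cor l - ε) * T ≤ ‖∫ t in T..(2 * T), θ t * ((lz t / Real.sqrt (V T / 2) : ℝ) : ℂ)‖ := by
  classical
  set ε₁ : ℝ := min 1 (ε / (4 * (1 + |cor l|))) with hε₁
  have hcl : 0 ≤ |cor l| := abs_nonneg _
  have hε10 : 0 < ε₁ := lt_min one_pos (by positivity)
  have hε11 : ε₁ ≤ 1 := min_le_left _ _
  have hε12 : ε₁ * (1 + |cor l|) ≤ ε / 4 := by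
    have h1 : ε₁ ≤ ε / (4 * (1 + |cor l|)) := min_le_right _ _
    rw [le_div_iff₀ (by positivity)] at h1
    linarith
  obtain ⟨n₀, hn₀⟩ := hCo l (η / 2) ε₁ hl (by positivity) hε10
  set q : ℕ := max n₀ 1 with hq
  have hq1 : 1 ≤ q := le_max_right _ _
  have hqn : 0 < q := hq1
  have hq0 : (0 : ℝ) < q := by exact_mod_cast hqn
  obtain ⟨C₀, hC₀n, hC₀c, hC₀μ⟩ := hn₀ (1 * q) (by rw [one_mul]; exact le_max_left _ _)
  have hcast : ((1 * q : ℕ) : ℝ) = q := by rw [one_mul]
  rw [hcast] at hC₀c
  simp only [hcast] at hC₀μ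
  obtain ⟨M₀, hM₀⟩ := card_evX (g := rat l + η / 2) (η := η / 2) (by positivity) hqn (Finset.card_pos.2 hC₀n) hC₀c
  set C : Finset (ℕ → ℝ) := C₀.image wrd with hCd
  have hCn : C.Nonempty := hC₀n.image _
  have hCc : C.card ≤ C₀.card := Finset.card_image_le
  obtain ⟨P, hPc, hPn, hPB⟩ := hB q C hCn hqn (fun p hp m => by
    obtain ⟨σ, _, rfl⟩ := Finset.mem_image.1 hp
    exact wrd_le σ m)
  -- the cut
  set R : ℝ := max ((cor l - ε₁) * q) 0 with hRd
  have hR0 : 0 ≤ R := le_max_right _ _
  have hR1 : (cor l - ε₁) * q ≤ R := le_max_left _ _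
  have hRs : (cor l - ε / 2) * q ≤ R - ε₁ * R := by
    have h1 : 0 ≤ 1 - ε₁ := by linarith
    have h2 : R - ε₁ * R = (1 - ε₁) * R := by ring
    rw [h2]
    refine le_trans ?_ (mul_le_mul_of_nonneg_left hR1 h1)
    rw [← mul_assoc]
    refine mul_le_mul_of_nonneg_right ?_ hq0.le
    have h3 : cor l ≤ |cor l| := le_abs_self _
    have h4 : ε₁ * cor l ≤ ε₁ * |cor l| := mul_le_mul_of_nonneg_left h3 hε10.le
    have h5 : 0 ≤ ε₁ * ε₁ := by positivity
    nlinarith
  refine ⟨M₀, unifR (rng hR) (P := fun T s => ∃ θ : ℝ → ℂ, Measurable θ ∧ (∀ t, ‖θ t‖ ≤ 1) ∧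
    (∀ M, M₀ ≤ M → Follows T s M (rat l + η) 0 θ) ∧
    (cor l - ε) * T ≤ ‖∫ t in T..(2 * T), θ t * ((lz t / Real.sqrt (V T / 2) : ℝ) : ℂ)‖) fun h h0 => ?_⟩
  have hO := Famz hR hM hE hC hZ one_pos sh0 h h0
  obtain ⟨A₀, hA₀, hint⟩ := hM.2
  -- the truncated maximum
  set F : EuclideanSpace ℝ (Fin (1 * q)) → ℝ := fun x => C₀.sup' hC₀n fun σ => |∑ i, sgb (σ i) * x i| with hF
  have hFc : Continuous F := Continuous.finset_sup'_apply hC₀n fun σ _ => by fun_prop
  have hFle : ∀ (x : EuclideanSpace ℝ (Fin (1 * q))), ∀ σ ∈ C₀, |∑ i, sgb (σ i) * x i| ≤ F x := by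
    intro x σ hσ
    exact Finset.le_sup' (f := fun σ : Fin (1 * q) → Bool => |∑ i, sgb (σ i) * x i|) hσ
  have hF0 : ∀ x, 0 ≤ F x := by
    intro x
    obtain ⟨σ, hσ⟩ := hC₀n
    exact (abs_nonneg _).trans (hFle x σ hσ)
  have hcont : Continuous fun x : EuclideanSpace ℝ (Fin (1 * q)) => min (F x) R := hFc.min continuous_const
  have hbd : ∀ x, ‖min (F x) R‖ ≤ R := fun x => by
    rw [Real.norm_eq_abs, abs_of_nonneg (le_min (hF0 x) hR0)]
    exact min_le_right _ _
  let Φ : EuclideanSpace ℝ (Fin (1 * q)) →ᵇ ℝ := BoundedContinuousFunction.ofNormedAddCommGroup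
    (fun x => min (F x) R) hcont R hbd
  have hlim := hO.weak q Φ
  have hgt : (cor l - ε / 2) * q ≤ ∫ x, Φ x ∂(multivariateGaussian 0 (SM S1 q)) := by
    rw [sm1]
    set γ := multivariateGaussian 0 (1 : Matrix (Fin (1 * q)) (Fin (1 * q)) ℝ) with hγ
    set Bad : Set (EuclideanSpace ℝ (Fin (1 * q))) := {x | ∀ σ ∈ C₀, ∑ i, sgb (σ i) * x i < (cor l - ε₁) * q} with hBad
    have hBm : MeasurableSet Bad := by
      have : Bad = ⋂ σ ∈ C₀, {x | ∑ i, sgb (σ i) * x i < (cor l - ε₁) * q} := by
        ext x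
        simp [hBad]
      rw [this]
      refine Finset.measurableSet_biInter _ fun σ _ => measurableSet_lt ?_ measurable_const
      fun_prop
    have h1 : ∀ x, R - Bad.indicator (fun _ => R) x ≤ min (F x) R := by
      intro x
      by_cases hx : x ∈ Bad
      · rw [indicator_of_mem hx, sub_self]
        exact le_min (hF0 x) hR0
      · rw [indicator_of_notMem hx, sub_zero]
        refine le_min ?_ le_rfl
        simp only [hBad, mem_ofPred_eq, not_forall, not_lt] at hx
        obtain ⟨σ, hσ, h2⟩ := hx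
        refine max_le ?_ (hF0 x)
        exact (h2.trans (le_abs_self _)).trans (hFle x σ hσ)
    have h2 : ∫ x, (R - Bad.indicator (fun _ => R) x) ∂γ ≤ ∫ x, Φ x ∂γ := by
      refine integral_mono ((integrable_const R).sub ((integrable_const R).indicator hBm)) ?_ h1
      exact Φ.integrable γ
    rw [integral_sub (integrable_const R) ((integrable_const R).indicator hBm), integral_indicator hBm,
      setIntegral_const, integral_const, smul_eq_mul, smul_eq_mul, probReal_univ, one_mul] at h2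
    have h3 : γ.real Bad * R ≤ ε₁ * R := mul_le_mul_of_nonneg_right hC₀μ hR0
    linarith
  have hgt' : (cor l - ε / 2) * q - ε / 4 * q < ∫ x, Φ x ∂(multivariateGaussian 0 (SM S1 q)) := by
    have : 0 < ε / 4 * q := by positivity
    linarith
  have hzero : Tendsto (fun T => R * q * (h T / T)) atTop (𝓝 (R * q * 0)) := hO.zero.const_mul _
  rw [mul_zero] at hzero
  filter_upwards [hlim.eventually (lt_mem_nhds hgt'), hzero.eventually (gt_mem_nhds (show (0 : ℝ) < ε / 4 * q by positivity)), hO.pos,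
    eventually_ge_atTop (10 : ℝ), eventually_ge_atTop A₀, (hO.zero.eventually (gt_mem_nhds (show (0 : ℝ) < 1 / q by positivity))), hO.meas]
    with T h2 h3 h4 h5 h6 h7 hme
  set s := h T with hs
  have hT : T ≤ 2 * T := by linarith
  have hT0 : 0 < T := by linarith
  set G : ℝ → ℝ := fun t => lz t / Real.sqrt (V T / 2) with hGd
  have hG : Measurable G := hM.1.div_const _
  set D : ℝ → ℝ := (Icc T (2 * T)).indicator G with hD
  have hDm : Measurable D := hG.indicator measurableSet_Icc
  have hDi : Integrable D := by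
    rw [hD, integrable_indicator_iff measurableSet_Icc, integrableOn_Icc_iff_integrableOn_Ioc,
      ← intervalIntegrable_iff_integrableOn_Ioc_of_le hT]
    have h8 : IntervalIntegrable lz volume T (2 * T) := by
      have h9 := ((hint T (2 * T) h6 (by linarith)).const_mul (1 / 2)).add (intervalIntegrable_const (c := (1 / 2 : ℝ)))
      rw [intervalIntegrable_iff] at h9 ⊢
      refine Integrable.mono' h9 hM.1.aestronglyMeasurable (Filter.Eventually.of_forall fun t => ?_)
      rw [Real.norm_eq_abs]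
      have h10 := sq_nonneg (|lz t| - 1)
      have h11 := sq_abs (lz t)
      nlinarith
    exact h8.div_const _
  obtain ⟨θ, hθm, hθ1, hθ2, hθ3⟩ := hPB s D h4 hDm hDi
  refine ⟨θ, hθm, hθ1, fun M hM => ?_, ?_⟩
  · refine ⟨P M, ∅, ?_, hPn M, by simp, fun t _ _ => ?_⟩
    · have h8 := hM₀ M hM
      have h9 : (((P M).card : ℕ) : ℝ) ≤ ((q * (2 * C₀.card) ^ (M / q + 2) : ℕ) : ℝ) := by
        refine Nat.cast_le.2 ((hPc M).trans ?_)
        gcongr
      refine h9.trans (h8.trans (le_of_eq ?_))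
      congr 1
      ring
    · obtain ⟨p, hp, hpe⟩ := hθ2 t M
      refine ⟨p, hp, ?_⟩
      rw [zero_mul, Finset.sum_eq_zero]
      intro m hm
      rw [hpe m (Finset.mem_range.1 hm), sub_self, norm_zero]
  · have e1 : ∫ t, θ t * (D t : ℂ) = ∫ t in T..(2 * T), θ t * ((lz t / Real.sqrt (V T / 2) : ℝ) : ℂ) := by
      rw [intervalIntegral.integral_of_le hT, ← integral_Icc_eq_integral_Ioc, ← integral_indicator measurableSet_Icc]
      congr 1
      funext t
      by_cases ht : t ∈ Icc T (2 * T)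
      · rw [hD, indicator_of_mem ht, indicator_of_mem ht]
      · rw [hD, indicator_of_notMem ht, indicator_of_notMem ht]
        simp
    rw [← e1]
    refine le_trans ?_ hθ3
    -- lower bound of the integral of the maximum
    have hqs : (q : ℝ) * s < T := by
      rw [div_lt_div_iff₀ hT0 hq0] at h7
      linarith
    have hqs0 : 0 < (q : ℝ) * s := by positivity
    have hSi0 : ∀ p : ℕ → ℝ, Integrable fun t => |∑ m ∈ Finset.range q, p m * D (t + m * s)| := by
      intro p
      refine Integrable.abs (integrable_finsetSum _ fun m _ => ?_)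
      exact (hDi.comp_add_right ((m : ℝ) * s)).const_mul _
    have hSm : Measurable fun t => C.sup' hCn fun p => |∑ m ∈ Finset.range q, p m * D (t + m * s)| := by
      have h8 : Measurable (C.sup' hCn fun (p : ℕ → ℝ) (t : ℝ) => |∑ m ∈ Finset.range q, p m * D (t + m * s)|) := by
        refine Finset.measurable_sup' hCn fun p _ => ?_
        fun_prop
      have h9 : (fun t => C.sup' hCn fun p => |∑ m ∈ Finset.range q, p m * D (t + m * s)|) =
          (C.sup' hCn fun (p : ℕ → ℝ) (t : ℝ) => |∑ m ∈ Finset.range q, p m * D (t + m * s)|) := by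
        funext t
        rw [Finset.sup'_apply]
      rw [h9]
      exact h8
    have hSi : Integrable fun t => C.sup' hCn fun p => |∑ m ∈ Finset.range q, p m * D (t + m * s)| := by
      refine Integrable.mono' (integrable_finsetSum C fun p _ => hSi0 p) hSm.aestronglyMeasurable
        (Filter.Eventually.of_forall fun t => ?_)
      have h9 : 0 ≤ C.sup' hCn fun p => |∑ m ∈ Finset.range q, p m * D (t + m * s)| := by
        obtain ⟨p, hp⟩ := hCn
        exact (abs_nonneg _).trans (Finset.le_sup' (fun p : ℕ → ℝ => |∑ m ∈ Finset.range q, p m * D (t + m * s)|) hp)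
      rw [Real.norm_eq_abs, abs_of_nonneg h9]
      refine Finset.sup'_le hCn _ fun p hp => ?_
      exact Finset.single_le_sum (f := fun p : ℕ → ℝ => |∑ m ∈ Finset.range q, p m * D (t + m * s)|)
        (fun p _ => abs_nonneg _) hp
    have e2 : ∫ t in T..(2 * T - q * s), Φ (vecB fun m : Fin q => Xz d0 s T (t + (m : ℕ) * s)) ≤
        ∫ t, C.sup' hCn fun p => |∑ m ∈ Finset.range q, p m * D (t + m * s)| := by
      rw [intervalIntegral.integral_of_le (by linarith), ← integral_indicator measurableSet_Ioc]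
      refine integral_mono_of_nonneg (Filter.Eventually.of_forall fun t => ?_) hSi
        (Filter.Eventually.of_forall fun t => ?_)
      · refine indicator_nonneg (fun t _ => ?_) t
        exact le_min (hF0 _) hR0
      · beta_reduce
        by_cases ht : t ∈ Ioc T (2 * T - q * s)
        · rw [indicator_of_mem ht]
          change min (C₀.sup' hC₀n fun σ => |∑ i, sgb (σ i) * _|) R ≤ _
          refine (min_le_left _ _).trans ?_
          refine Finset.sup'_le hC₀n _ fun σ hσ => ?_
          rw [wrd_sum]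
          have hmem' : wrd σ ∈ C := Finset.mem_image_of_mem _ hσ
          refine le_trans (le_of_eq ?_) (Finset.le_sup' (fun p : ℕ → ℝ => |∑ m ∈ Finset.range q, p m * D (t + m * s)|) hmem')
          congr 1
          rw [← Fin.sum_univ_eq_sum_range (fun m => wrd σ m * D (t + m * s)) q]
          refine Finset.sum_congr rfl fun m _ => ?_
          have hm : ((m : ℕ) : ℝ) * s ≤ q * s := by
            have : ((m : ℕ) : ℝ) ≤ q := by exact_mod_cast m.2.le
            exact mul_le_mul_of_nonneg_right this h4.le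
          have hm0 : 0 ≤ ((m : ℕ) : ℝ) * s := by positivity
          have hmem : t + ((m : ℕ) : ℝ) * s ∈ Icc T (2 * T) := ⟨by linarith [ht.1], by linarith [ht.2]⟩
          rw [hD, indicator_of_mem hmem]
          unfold Xz d0
          simp only [add_zero, hGd]
        · rw [indicator_of_notMem ht]
          obtain ⟨p, hp⟩ := hCn
          exact (abs_nonneg _).trans (Finset.le_sup' (fun p : ℕ → ℝ => |∑ m ∈ Finset.range q, p m * D (t + m * s)|) hp)
    have hΦi : ∀ u v : ℝ, T ≤ u → u ≤ v → v ≤ 2 * T → IntervalIntegrable (fun t =>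
        Φ (vecB fun m : Fin q => Xz d0 s T (t + (m : ℕ) * s))) volume u v := by
      intro u v hu huv hv
      rw [intervalIntegrable_iff, uIoc_of_le huv]
      have h11 : AEMeasurable (fun t => fun m : Fin q => Xz d0 s T
          (t + (m : ℕ) * s)) (volume.restrict (Ioc T (2 * T))) :=
        aemeasurable_pi_lambda _ fun m => (hme m).aemeasurable
      have h12 := (Φ.continuous.comp vecB_cont).comp_aestronglyMeasurable h11.aestronglyMeasurable
      exact Integrable.mono' (integrable_const R) (h12.mono_measure (Measure.restrict_mono (Ioc_subset_Ioc hu hv)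
        le_rfl)) (Filter.Eventually.of_forall fun t => hbd _)
    have e3 : ∫ t in (2 * T - q * s)..(2 * T), Φ (vecB fun m : Fin q => Xz d0 s T
        (t + (m : ℕ) * s)) ≤ R * (q * s) := by
      have h8 : ∫ t in (2 * T - q * s)..(2 * T), Φ (vecB fun m : Fin q => Xz d0 s T
          (t + (m : ℕ) * s)) ≤ ∫ t in (2 * T - q * s)..(2 * T), R :=
        intervalIntegral.integral_mono_on (by linarith) (hΦi _ _ (by linarith) (by linarith) le_rfl)
          intervalIntegrable_const fun t _ => min_le_right _ _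
      rw [intervalIntegral.integral_const, smul_eq_mul] at h8
      linarith
    have e4 := intervalIntegral.integral_add_adjacent_intervals (hΦi T (2 * T - q * s) le_rfl (by linarith) (by linarith))
      (hΦi (2 * T - q * s) (2 * T) (by linarith) (by linarith) le_rfl)
    rw [one_div, inv_mul_eq_div, lt_div_iff₀ hT0] at h2
    rw [← mul_div_assoc, div_lt_iff₀ hT0] at h3
    rw [one_div, inv_mul_eq_div, le_div_iff₀ hq0]
    refine le_trans ?_ e2
    nlinarith

end Pool.Agent.H493.SZ
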