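import Pool.Agent.H493.SZ.UpX
import Pool.Agent.H493.SZ.LowX

set_option autoImplicit false

/-! The exact entropy bound is attained, arbitrary observables. -/

open Complex Filter Topology Set MeasureTheory ProbabilityTheory
open scoped BoundedContinuousFunction RealInnerProductSpace NNReal

namespace Pool.Agent.H493.SZ

open Pool.Agent.H493.EN

/-- a code word as a function on `ℕ` -/
noncomputable def wrq {q : ℕ} (σ : Fin q → Bool) (m : ℕ) : ℝ := if h : m < q then sgb (σ ⟨m, h⟩) else 0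

lemma wrq_le {q : ℕ} (σ : Fin q → Bool) (m : ℕ) : |wrq σ m| ≤ 1 := by
  unfold wrq
  split_ifs
  · exact (sgb_abs _).le
  · simp

lemma wrq_fin {q : ℕ} (σ : Fin q → Bool) (m : Fin q) : wrq σ m = sgb (σ m) := by
  unfold wrq
  rw [dif_pos m.2]

lemma quad_memLp {k : ℕ} (S₁ : Matrix (Fin k) (Fin k) ℝ) {ψ : EuclideanSpace ℝ (Fin k) → ℝ} {C : ℝ} (hψ : Continuous ψ)
    (hC : ∀ x, |ψ x| ≤ C * (1 + ‖x‖ ^ 2)) (c : ℝ) : MemLp (fun x => ψ x - c) 2 (multivariateGaussian 0 S₁) := by
  have h4 : MemLp (fun x : EuclideanSpace ℝ (Fin k) => x) 4 (multivariateGaussian 0 S₁) :=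
    IsGaussian.memLp_id _ 4 (by norm_num)
  have i4 : Integrable (fun x : EuclideanSpace ℝ (Fin k) => ‖x‖ ^ 4) (multivariateGaussian 0 S₁) := by
    simpa using h4.integrable_norm_pow (by norm_num)
  have hm : MemLp (fun x : EuclideanSpace ℝ (Fin k) => ‖x‖ ^ 2) 2 (multivariateGaussian 0 S₁) := by
    rw [memLp_two_iff_integrable_sq (by fun_prop)]
    refine i4.congr (Filter.Eventually.of_forall fun x => ?_)
    simp only
    ring
  have h1 : MemLp (fun x : EuclideanSpace ℝ (Fin k) => C * (1 + ‖x‖ ^ 2)) 2 (multivariateGaussian 0 S₁) :=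
    ((memLp_const (1 : ℝ)).add hm).const_mul C
  have h2 : MemLp ψ 2 (multivariateGaussian 0 S₁) := by
    refine h1.mono hψ.aestronglyMeasurable (Filter.Eventually.of_forall fun x => ?_)
    rw [Real.norm_eq_abs, Real.norm_eq_abs]
    exact (hC x).trans (le_abs_self _)
  exact h2.sub (memLp_const c)

/-- **the exact entropy bound is attained** -/
theorem lowG (hB : S_BLKC) (hCo : S_COD) (hPIG : S_PIG) {k : ℕ} {Λ : ℝ} {S₁ : Matrix (Fin k) (Fin k) ℝ}
    (hG : Gs k Λ S₁ (SM S₁)) {ψ : EuclideanSpace ℝ (Fin k) → ℝ} {C : ℝ} (hψ : Continuous ψ)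
    (hC : ∀ x, |ψ x| ≤ C * (1 + ‖x‖ ^ 2)) {l m η ε : ℝ} (hl : 0 < l) (hm : |m| < 1) (hη : 0 < η) (hε : 0 < ε) :
    ∃ M₀ : ℕ, ∀ (X : ℝ → ℝ → ℝ → EuclideanSpace ℝ (Fin k)) (h : ℝ → ℝ), Loc X h → Obs k S₁ (SM S₁) X h →
      ∀ᶠ T : ℝ in atTop, ∃ θ : ℝ → ℂ, Measurable θ ∧ (∀ t, ‖θ t‖ ≤ 1) ∧
      (∀ M, M₀ ≤ M → Follows T (h T) M (l * (∫ x, (ψ x - ∫ y, ψ y ∂(multivariateGaussian 0 S₁)) *
        tn l m (ψ x - ∫ y, ψ y ∂(multivariateGaussian 0 S₁)) ∂(multivariateGaussian 0 S₁)) -
        (∫ x, Real.log (Dn l m (ψ x - ∫ y, ψ y ∂(multivariateGaussian 0 S₁))) ∂(multivariateGaussian 0 S₁)) + η) 0 θ) ∧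
      ((∫ x, (ψ x - ∫ y, ψ y ∂(multivariateGaussian 0 S₁)) *
        tn l m (ψ x - ∫ y, ψ y ∂(multivariateGaussian 0 S₁)) ∂(multivariateGaussian 0 S₁)) - ε) * T ≤
        ‖∫ t in T..(2 * T), θ t * (Yg X S₁ ψ (h T) T t : ℂ)‖ := by
  classical
  set γ := multivariateGaussian 0 S₁ with hγ
  set cψ : ℝ := ∫ y, ψ y ∂γ with hcψ
  set cr : ℝ := ∫ x, (ψ x - cψ) * tn l m (ψ x - cψ) ∂γ with hcr
  set Λψ : ℝ := ∫ x, Real.log (Dn l m (ψ x - cψ)) ∂γ with hΛψ
  set ε₁ : ℝ := min 1 (ε / (4 * (1 + |cr|))) with hε₁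
  have hcl : 0 ≤ |cr| := abs_nonneg _
  have hε10 : 0 < ε₁ := lt_min one_pos (by positivity)
  have hε11 : ε₁ ≤ 1 := min_le_left _ _
  have hε12 : ε₁ * (1 + |cr|) ≤ ε / 4 := by
    have h1 : ε₁ ≤ ε / (4 * (1 + |cr|)) := min_le_right _ _
    rw [le_div_iff₀ (by positivity)] at h1
    linarith
  obtain ⟨n₀, hn₀⟩ := hCo (EuclideanSpace ℝ (Fin k)) γ (fun x => ψ x - cψ) (by fun_prop) (quad_memLp S₁ hψ hC cψ)
    l m (η / 2) ε₁ hl hm (by positivity) hε10
  set q : ℕ := max n₀ 1 with hq
  have hq1 : 1 ≤ q := le_max_right _ _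
  have hqn : 0 < q := hq1
  have hq0 : (0 : ℝ) < q := by exact_mod_cast hqn
  obtain ⟨C₀, hC₀n, hC₀c, hC₀μ⟩ := hn₀ q (le_max_left _ _)
  obtain ⟨M₀, hM₀⟩ := card_evX (g := l * cr - Λψ + η / 2) (η := η / 2) (by positivity) hqn (Finset.card_pos.2 hC₀n) hC₀c
  set Cw : Finset (ℕ → ℝ) := C₀.image wrq with hCd
  have hCn : Cw.Nonempty := hC₀n.image _
  have hCc : Cw.card ≤ C₀.card := Finset.card_image_le
  obtain ⟨P, hPc, hPn, hPB⟩ := hB q Cw hCn hqn (fun p hp m => by
    obtain ⟨σ, _, rfl⟩ := Finset.mem_image.1 hp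
    exact wrq_le σ m)
  -- the cut
  set R : ℝ := max ((cr - ε₁) * q) 0 with hRd
  have hR0 : 0 ≤ R := le_max_right _ _
  have hR1 : (cr - ε₁) * q ≤ R := le_max_left _ _
  have hRs : (cr - ε / 2) * q ≤ R - ε₁ * R := by
    have h1 : 0 ≤ 1 - ε₁ := by linarith
    have h2 : R - ε₁ * R = (1 - ε₁) * R := by ring
    rw [h2]
    refine le_trans ?_ (mul_le_mul_of_nonneg_left hR1 h1)
    rw [← mul_assoc]
    refine mul_le_mul_of_nonneg_right ?_ hq0.le
    have h3 : cr ≤ |cr| := le_abs_self _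
    have h4 : ε₁ * cr ≤ ε₁ * |cr| := mul_le_mul_of_nonneg_left h3 hε10.le
    have h5 : 0 ≤ ε₁ * ε₁ := by positivity
    nlinarith
  refine ⟨M₀, fun X h hloc hO => ?_⟩
  -- the truncated maximum
  set F : EuclideanSpace ℝ (Fin (k * q)) → ℝ := fun x => C₀.sup' hC₀n fun σ => |∑ i : Fin q, sgb (σ i) * (ψ (blk i x) - cψ)| with hF
  have hψb : ∀ i : Fin q, Continuous fun x : EuclideanSpace ℝ (Fin (k * q)) => ψ (blk i x) := fun i => hψ.comp (blk_cont i)
  have hSc : ∀ σ : Fin q → Bool, Continuous fun x : EuclideanSpace ℝ (Fin (k * q)) => ∑ i : Fin q, sgb (σ i) * (ψ (blk i x) - cψ) :=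
    fun σ => continuous_finsetSum _ fun i _ => ((hψb i).sub continuous_const).const_mul _
  have hFc : Continuous F := Continuous.finset_sup'_apply hC₀n fun σ _ => (hSc σ).abs
  have hFle : ∀ (x : EuclideanSpace ℝ (Fin (k * q))), ∀ σ ∈ C₀, |∑ i : Fin q, sgb (σ i) * (ψ (blk i x) - cψ)| ≤ F x := by
    intro x σ hσ
    exact Finset.le_sup' (f := fun σ : Fin q → Bool => |∑ i : Fin q, sgb (σ i) * (ψ (blk i x) - cψ)|) hσ
  have hF0 : ∀ x, 0 ≤ F x := by
    intro x
    obtain ⟨σ, hσ⟩ := hC₀n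
    exact (abs_nonneg _).trans (hFle x σ hσ)
  have hcont : Continuous fun x : EuclideanSpace ℝ (Fin (k * q)) => min (F x) R := hFc.min continuous_const
  have hbd : ∀ x, ‖min (F x) R‖ ≤ R := fun x => by
    rw [Real.norm_eq_abs, abs_of_nonneg (le_min (hF0 x) hR0)]
    exact min_le_right _ _
  let Φ : EuclideanSpace ℝ (Fin (k * q)) →ᵇ ℝ := BoundedContinuousFunction.ofNormedAddCommGroup
    (fun x => min (F x) R) hcont R hbd
  have hlim := hO.weak q Φ
  have hgt : (cr - ε / 2) * q ≤ ∫ x, Φ x ∂(multivariateGaussian 0 (SM S₁ q)) := by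
    set γq := multivariateGaussian 0 (SM S₁ q) with hγq
    set Bad : Set (EuclideanSpace ℝ (Fin (k * q))) :=
      {x | ∀ σ ∈ C₀, ∑ i : Fin q, sgb (σ i) * (ψ (blk i x) - cψ) < (cr - ε₁) * q} with hBad
    have hBm : MeasurableSet Bad := by
      have : Bad = ⋂ σ ∈ C₀, {x | ∑ i : Fin q, sgb (σ i) * (ψ (blk i x) - cψ) < (cr - ε₁) * q} := by
        ext x
        simp [hBad]
      rw [this]
      exact Finset.measurableSet_biInter _ fun σ _ => measurableSet_lt (hSc σ).measurable measurable_const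
    have hBμ : γq.real Bad ≤ ε₁ := by
      refine le_trans (le_of_eq ?_) hC₀μ
      have hvm : Measurable (fun x : Fin q → EuclideanSpace ℝ (Fin k) => (WithLp.toLp 2 fun a : Fin (k * q) =>
          x (finProdFinEquiv.symm a).2 (finProdFinEquiv.symm a).1 : EuclideanSpace ℝ (Fin (k * q)))) :=
        (vecB_cont (k := k) (M := q)).measurable
      rw [hγq, ← hPIG k q S₁ hG.psd1 (hG.psd q), map_measureReal_apply hvm hBm]
      congr 1
      ext x
      have e1 : ∀ i : Fin q, blk i (WithLp.toLp 2 fun a : Fin (k * q) =>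
          x (finProdFinEquiv.symm a).2 (finProdFinEquiv.symm a).1 : EuclideanSpace ℝ (Fin (k * q))) = x i :=
        fun i => blk_vecB x i
      simp only [hBad, mem_preimage, mem_ofPred_eq, e1]
      exact Iff.rfl
    have h1 : ∀ x, R - Bad.indicator (fun _ => R) x ≤ min (F x) R := by
      intro x
      by_cases hx : x ∈ Bad
      · rw [indicator_of_mem hx, sub_self]
        exact le_min (hF0 x) hR0
      · rw [indicator_of_notMem hx, sub_zero]
        refine le_min ?_ le_rfl
        simp only [hBad, mem_ofPred_eq, not_forall, not_lt] at hx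
        obtain ⟨σ, hσ, h2⟩ := hx
        refine max_le ?_ (hF0 x)
        exact (h2.trans (le_abs_self _)).trans (hFle x σ hσ)
    have h2 : ∫ x, (R - Bad.indicator (fun _ => R) x) ∂γq ≤ ∫ x, Φ x ∂γq := by
      refine integral_mono ((integrable_const R).sub ((integrable_const R).indicator hBm)) ?_ h1
      exact Φ.integrable γq
    rw [integral_sub (integrable_const R) ((integrable_const R).indicator hBm), integral_indicator hBm,
      setIntegral_const, integral_const, smul_eq_mul, smul_eq_mul, probReal_univ, one_mul] at h2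
    have h3 : γq.real Bad * R ≤ ε₁ * R := mul_le_mul_of_nonneg_right hBμ hR0
    linarith
  have hgt' : (cr - ε / 2) * q - ε / 4 * q < ∫ x, Φ x ∂(multivariateGaussian 0 (SM S₁ q)) := by
    have : 0 < ε / 4 * q := by positivity
    linarith
  have hzero : Tendsto (fun T => R * q * (h T / T)) atTop (𝓝 (R * q * 0)) := hO.zero.const_mul _
  rw [mul_zero] at hzero
  filter_upwards [hlim.eventually (lt_mem_nhds hgt'), hzero.eventually (gt_mem_nhds (show (0 : ℝ) < ε / 4 * q by positivity)), hO.pos,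
    eventually_ge_atTop (10 : ℝ), (hO.zero.eventually (gt_mem_nhds (show (0 : ℝ) < 1 / q by positivity))), hO.meas, hO.int2, hloc]
    with T h2 h3 h4 h5 h7 hme hi2 hlo
  obtain ⟨G₀, hG₀m, hG₀e⟩ := hlo
  set s := h T with hs
  have hT : T ≤ 2 * T := by linarith
  have hT0 : 0 < T := by linarith
  set G : ℝ → ℝ := fun t => ψ (G₀ t) - cψ with hGd
  have hGm : Measurable G := (hψ.measurable.comp hG₀m).sub_const _
  have hGe : ∀ t ∈ Icc T (2 * T), G t = Yg X S₁ ψ s T t := by
    intro t ht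
    rw [hGd]
    simp only
    rw [← hG₀e t ⟨ht.1, by linarith [ht.2]⟩]
    rfl
  set D : ℝ → ℝ := (Icc T (2 * T)).indicator G with hD
  have hDm : Measurable D := hGm.indicator measurableSet_Icc
  have hYi : IntervalIntegrable (Yg X S₁ ψ s T) volume T (2 * T) :=
    quad_int hT (by simpa using hme 0) (by simpa using hi2 0) hψ hC _
  have hDi : Integrable D := by
    rw [hD, integrable_indicator_iff measurableSet_Icc, integrableOn_Icc_iff_integrableOn_Ioc]
    rw [intervalIntegrable_iff_integrableOn_Ioc_of_le hT] at hYi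
    exact hYi.congr_fun (fun t ht => (hGe t (Ioc_subset_Icc_self ht)).symm) measurableSet_Ioc
  obtain ⟨θ, hθm, hθ1, hθ2, hθ3⟩ := hPB s D h4 hDm hDi
  refine ⟨θ, hθm, hθ1, fun M hM => ?_, ?_⟩
  · refine ⟨P M, ∅, ?_, hPn M, by simp, fun t _ _ => ?_⟩
    · have h8 := hM₀ M hM
      have h9 : (((P M).card : ℕ) : ℝ) ≤ ((q * (2 * C₀.card) ^ (M / q + 2) : ℕ) : ℝ) := by
        refine Nat.cast_le.2 ((hPc M).trans ?_)
        gcongr
      refine h9.trans (h8.trans (le_of_eq ?_))
      congr 1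
      ring
    · obtain ⟨p, hp, hpe⟩ := hθ2 t M
      refine ⟨p, hp, ?_⟩
      rw [zero_mul, Finset.sum_eq_zero]
      intro m hm
      rw [hpe m (Finset.mem_range.1 hm), sub_self, norm_zero]
  · have e1 : ∫ t, θ t * (D t : ℂ) = ∫ t in T..(2 * T), θ t * (Yg X S₁ ψ s T t : ℂ) := by
      rw [intervalIntegral.integral_of_le hT, ← integral_Icc_eq_integral_Ioc, ← integral_indicator measurableSet_Icc]
      congr 1
      funext t
      by_cases ht : t ∈ Icc T (2 * T)
      · rw [hD, indicator_of_mem ht, indicator_of_mem ht, hGe t ht]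
      · rw [hD, indicator_of_notMem ht, indicator_of_notMem ht]
        simp
    rw [← e1]
    refine le_trans ?_ hθ3
    -- lower bound of the integral of the maximum
    have hqs : (q : ℝ) * s < T := by
      rw [div_lt_div_iff₀ hT0 hq0] at h7
      linarith
    have hqs0 : 0 < (q : ℝ) * s := by positivity
    have hSi0 : ∀ p : ℕ → ℝ, Integrable fun t => |∑ m ∈ Finset.range q, p m * D (t + m * s)| := by
      intro p
      refine Integrable.abs (integrable_finsetSum _ fun m _ => ?_)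
      exact (hDi.comp_add_right ((m : ℝ) * s)).const_mul _
    have hSm : Measurable fun t => Cw.sup' hCn fun p => |∑ m ∈ Finset.range q, p m * D (t + m * s)| := by
      have h8 : Measurable (Cw.sup' hCn fun (p : ℕ → ℝ) (t : ℝ) => |∑ m ∈ Finset.range q, p m * D (t + m * s)|) := by
        refine Finset.measurable_sup' hCn fun p _ => ?_
        fun_prop
      have h9 : (fun t => Cw.sup' hCn fun p => |∑ m ∈ Finset.range q, p m * D (t + m * s)|) =
          (Cw.sup' hCn fun (p : ℕ → ℝ) (t : ℝ) => |∑ m ∈ Finset.range q, p m * D (t + m * s)|) := by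
        funext t
        rw [Finset.sup'_apply]
      rw [h9]
      exact h8
    have hSi : Integrable fun t => Cw.sup' hCn fun p => |∑ m ∈ Finset.range q, p m * D (t + m * s)| := by
      refine Integrable.mono' (integrable_finsetSum Cw fun p _ => hSi0 p) hSm.aestronglyMeasurable
        (Filter.Eventually.of_forall fun t => ?_)
      have h9 : 0 ≤ Cw.sup' hCn fun p => |∑ m ∈ Finset.range q, p m * D (t + m * s)| := by
        obtain ⟨p, hp⟩ := hCn
        exact (abs_nonneg _).trans (Finset.le_sup' (fun p : ℕ → ℝ => |∑ m ∈ Finset.range q, p m * D (t + m * s)|) hp)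
      rw [Real.norm_eq_abs, abs_of_nonneg h9]
      refine Finset.sup'_le hCn _ fun p hp => ?_
      exact Finset.single_le_sum (f := fun p : ℕ → ℝ => |∑ m ∈ Finset.range q, p m * D (t + m * s)|)
        (fun p _ => abs_nonneg _) hp
    have e2 : ∫ t in T..(2 * T - q * s), Φ (vecB fun m : Fin q => X s T (t + (m : ℕ) * s)) ≤
        ∫ t, Cw.sup' hCn fun p => |∑ m ∈ Finset.range q, p m * D (t + m * s)| := by
      rw [intervalIntegral.integral_of_le (by linarith), ← integral_indicator measurableSet_Ioc]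
      refine integral_mono_of_nonneg (Filter.Eventually.of_forall fun t => ?_) hSi
        (Filter.Eventually.of_forall fun t => ?_)
      · refine indicator_nonneg (fun t _ => ?_) t
        exact le_min (hF0 _) hR0
      · beta_reduce
        by_cases ht : t ∈ Ioc T (2 * T - q * s)
        · rw [indicator_of_mem ht]
          change min (C₀.sup' hC₀n fun σ => |∑ i : Fin q, sgb (σ i) * (ψ (blk i (vecB _)) - cψ)|) R ≤ _
          refine (min_le_left _ _).trans ?_
          refine Finset.sup'_le hC₀n _ fun σ hσ => ?_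
          have hmem' : wrq σ ∈ Cw := Finset.mem_image_of_mem _ hσ
          refine le_trans (le_of_eq ?_) (Finset.le_sup' (fun p : ℕ → ℝ => |∑ m ∈ Finset.range q, p m * D (t + m * s)|) hmem')
          congr 1
          rw [← Fin.sum_univ_eq_sum_range (fun m => wrq σ m * D (t + m * s)) q]
          refine Finset.sum_congr rfl fun m _ => ?_
          have hm : ((m : ℕ) : ℝ) * s ≤ q * s := by
            have : ((m : ℕ) : ℝ) ≤ q := by exact_mod_cast m.2.le
            exact mul_le_mul_of_nonneg_right this h4.le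
          have hm0 : 0 ≤ ((m : ℕ) : ℝ) * s := by positivity
          have hmem : t + ((m : ℕ) : ℝ) * s ∈ Icc T (2 * T) := ⟨by linarith [ht.1], by linarith [ht.2]⟩
          rw [hD, indicator_of_mem hmem, hGe _ hmem, wrq_fin, blk_vecB]
          rfl
        · rw [indicator_of_notMem ht]
          obtain ⟨p, hp⟩ := hCn
          exact (abs_nonneg _).trans (Finset.le_sup' (fun p : ℕ → ℝ => |∑ m ∈ Finset.range q, p m * D (t + m * s)|) hp)
    have hΦi : ∀ u v : ℝ, T ≤ u → u ≤ v → v ≤ 2 * T → IntervalIntegrable (fun t =>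
        Φ (vecB fun m : Fin q => X s T (t + (m : ℕ) * s))) volume u v := by
      intro u v hu huv hv
      rw [intervalIntegrable_iff, uIoc_of_le huv]
      have h11 : AEMeasurable (fun t => fun m : Fin q => X s T
          (t + (m : ℕ) * s)) (volume.restrict (Ioc T (2 * T))) :=
        aemeasurable_pi_lambda _ fun m => (hme m).aemeasurable
      have h12 := (Φ.continuous.comp vecB_cont).comp_aestronglyMeasurable h11.aestronglyMeasurable
      exact Integrable.mono' (integrable_const R) (h12.mono_measure (Measure.restrict_mono (Ioc_subset_Ioc hu hv)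
        le_rfl)) (Filter.Eventually.of_forall fun t => hbd _)
    have e3 : ∫ t in (2 * T - q * s)..(2 * T), Φ (vecB fun m : Fin q => X s T
        (t + (m : ℕ) * s)) ≤ R * (q * s) := by
      have h8 : ∫ t in (2 * T - q * s)..(2 * T), Φ (vecB fun m : Fin q => X s T
          (t + (m : ℕ) * s)) ≤ ∫ t in (2 * T - q * s)..(2 * T), R :=
        intervalIntegral.integral_mono_on (by linarith) (hΦi _ _ (by linarith) (by linarith) le_rfl)
          intervalIntegrable_const fun t _ => min_le_right _ _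
      rw [intervalIntegral.integral_const, smul_eq_mul] at h8
      linarith
    have e4 := intervalIntegral.integral_add_adjacent_intervals (hΦi T (2 * T - q * s) le_rfl (by linarith) (by linarith))
      (hΦi (2 * T - q * s) (2 * T) (by linarith) (by linarith) le_rfl)
    rw [one_div, inv_mul_eq_div, lt_div_iff₀ hT0] at h2
    rw [← mul_div_assoc, div_lt_iff₀ hT0] at h3
    rw [one_div, inv_mul_eq_div, le_div_iff₀ hq0]
    refine le_trans ?_ e2
    nlinarith

end Pool.Agent.H493.SZ
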