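import Pool.Agent.H493.SZ.All2
import Pool.Agent.H493.EN.GLB
import Pool.Agent.H493.EN.BLK

set_option autoImplicit false

/-! The observables `∏ |ζ(1/2 + i(t + d_j))| ^ (b_j / √(½ log log T))`. -/

open Complex Filter Topology Set MeasureTheory ProbabilityTheory
open scoped BoundedContinuousFunction RealInnerProductSpace NNReal

namespace Pool.Agent.H493.SZ

open Pool.Agent.H493.EN

lemma zeta_cont : Continuous fun t : ℝ => riemannZeta (1 / 2 + t * I) := by
  rw [continuous_iff_continuousAt]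
  intro t
  have h1 : (1 / 2 + (t : ℂ) * I) ≠ 1 := by
    intro h
    have := congrArg Complex.re h
    simp at this
  exact (differentiableAt_riemannZeta h1).continuousAt.comp (f := fun t : ℝ => (1 / 2 + (t : ℂ) * I)) (by fun_prop)

/-- zeta has almost no zeros on the line -/
lemma zeta_ae : ∀ᵐ t : ℝ, riemannZeta (1 / 2 + t * I) ≠ 0 := by
  have hA : AnalyticOnNhd ℝ (fun t : ℝ => riemannZeta (1 / 2 + t * I)) univ := by
    intro t _
    have h1 : (1 / 2 + (t : ℂ) * I) ≠ 1 := by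
      intro h
      have := congrArg Complex.re h
      simp at this
    have h2 : AnalyticAt ℂ riemannZeta (1 / 2 + (t : ℂ) * I) := by
      refine DifferentiableOn.analyticAt (s := {1}ᶜ) (fun z hz => ?_) (isOpen_compl_singleton.mem_nhds h1)
      exact (differentiableAt_riemannZeta hz).differentiableWithinAt
    have h3 : AnalyticAt ℝ (fun t : ℝ => (1 / 2 + (t : ℂ) * I)) t := by
      have h4 : AnalyticAt ℝ (fun t : ℝ => (t : ℂ)) t := Complex.ofRealCLM.analyticAt t
      exact analyticAt_const.add (h4.mul analyticAt_const)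
    exact AnalyticAt.comp (g := riemannZeta) (f := fun t : ℝ => (1 / 2 + (t : ℂ) * I)) h2.restrictScalars h3
  obtain ⟨x, hx⟩ : ∃ x : ℝ, riemannZeta (1 / 2 + x * I) ≠ 0 := by
    by_contra hn
    push Not at hn
    have h1 := p_SEZ (fun _ => 0) (by simp)
    have h2 : ∀ t : ℝ, lz t = 0 := by
      intro t
      unfold lz
      rw [hn t, norm_zero, Real.log_zero]
    simp only [h2, zero_div, ne_eq, OfNat.ofNat_ne_zero, not_false_eq_true, zero_pow, intervalIntegral.integral_zero,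
      mul_zero] at h1
    exact zero_ne_one (tendsto_nhds_unique tendsto_const_nhds h1)
  have h1 := hA.preimage_zero_mem_codiscrete hx
  have h2 := ae_restrict_le_codiscreteWithin (μ := (volume : Measure ℝ)) MeasurableSet.univ h1
  rw [Measure.restrict_univ] at h2
  exact h2

lemma affine_ae {P : ℝ → Prop} (h : ∀ᵐ t : ℝ, P t) {s : ℝ} (hs : s ≠ 0) (c : ℝ) : ∀ᵐ x : ℝ, P (s * x + c) := by
  have h1 : ∀ᵐ t : ℝ, P (t + c) :=
    (measurePreserving_add_right (volume : Measure ℝ) c).quasiMeasurePreserving.ae h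
  rw [ae_iff] at h1 ⊢
  have h2 : {x : ℝ | ¬ P (s * x + c)} = (fun x => s * x) ⁻¹' {t | ¬ P (t + c)} := rfl
  rw [h2, Real.volume_preimage_mul_left hs, h1, mul_zero]

/-- Gaussian exponential means -/
lemma gauss_mgf {k : ℕ} {S : Matrix (Fin k) (Fin k) ℝ} (hS : S.PosSemidef) (b : Fin k → ℝ) :
    ∫ x : EuclideanSpace ℝ (Fin k), Real.exp (∑ j, b j * x j) ∂(multivariateGaussian 0 S) =
      Real.exp ((∑ i, ∑ j, b i * b j * S i j) / 2) := by
  have hV : 0 ≤ ∑ i, ∑ j, b i * b j * S i j := by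
    have h1 := hS.dotProduct_mulVec_nonneg b
    have h2 : star b ⬝ᵥ (S.mulVec b) = ∑ i, ∑ j, b i * b j * S i j := by
      unfold dotProduct Matrix.mulVec dotProduct
      refine Finset.sum_congr rfl fun i _ => ?_
      rw [Finset.mul_sum]
      refine Finset.sum_congr rfl fun j _ => ?_
      simp only [Pi.star_apply, star_trivial]
      ring
    rwa [h2] at h1
  have h3 := mgf_gaussianReal (GLBL.law hS b hV) 1
  unfold mgf at h3
  simp only [one_mul] at h3
  rw [h3]
  congr 1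
  rw [Real.coe_toNNReal _ hV]
  ring

/-- the observable -/
noncomputable def psb {k : ℕ} (b : Fin k → ℝ) (x : EuclideanSpace ℝ (Fin k)) : ℝ := Real.exp (∑ j, b j * x j)

lemma psb_cont {k : ℕ} (b : Fin k → ℝ) : Continuous (psb b) := by
  unfold psb
  fun_prop

lemma psb_grw {k : ℕ} {b : Fin k → ℝ} (hb : ∀ j, 0 ≤ b j) (hk : 0 < k) (x : EuclideanSpace ℝ (Fin k)) :
    |psb b x| ≤ 1 * grw (∑ j, b j + 1) x := by
  have : Nonempty (Fin k) := ⟨⟨0, hk⟩⟩
  have hB : 0 ≤ ∑ j, b j := Finset.sum_nonneg fun j _ => hb j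
  obtain ⟨i, _, hi⟩ := Finset.exists_max_image Finset.univ (fun j => x j) Finset.univ_nonempty
  unfold psb grw
  rw [abs_of_pos (Real.exp_pos _), one_mul]
  have h0 : ∑ j, b j * x j ≤ (∑ j, b j) * x i := by
    rw [Finset.sum_mul]
    exact Finset.sum_le_sum fun j _ => mul_le_mul_of_nonneg_left (hi j (Finset.mem_univ _)) (hb j)
  have hS : 0 ≤ ∑ j, Real.exp ((∑ j, b j + 1) * x j) := Finset.sum_nonneg fun j _ => (Real.exp_pos _).le
  rcases le_or_gt (x i) 0 with h | h
  · have h1 : Real.exp (∑ j, b j * x j) ≤ 1 := by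
      rw [Real.exp_le_one_iff]
      nlinarith
    nlinarith [sq_nonneg ‖x‖]
  · have h1 : Real.exp (∑ j, b j * x j) ≤ Real.exp ((∑ j, b j + 1) * x i) := by
      apply Real.exp_le_exp.2
      nlinarith
    have h2 := Finset.single_le_sum (f := fun j => Real.exp ((∑ j, b j + 1) * x j)) (fun j _ => (Real.exp_pos _).le)
      (Finset.mem_univ i)
    simp only at h2
    nlinarith [sq_nonneg ‖x‖]

/-- where there is no zero -/
lemma psb_eq {k : ℕ} (b : Fin k → ℝ) (d : Fin k → ℝ → ℝ) (s T t : ℝ)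
    (h : ∀ j, riemannZeta (1 / 2 + ((t + d j T : ℝ) : ℂ) * I) ≠ 0) :
    psb b (Xz d s T t) = ∏ j, ‖riemannZeta (1 / 2 + ((t + d j T : ℝ) : ℂ) * I)‖ ^ (b j / Real.sqrt (V T / 2)) := by
  unfold psb
  rw [Real.exp_sum]
  refine Finset.prod_congr rfl fun j _ => ?_
  rw [Real.rpow_def_of_pos (norm_pos_iff.2 (h j))]
  congr 1
  unfold Xz lz
  ring

lemma psb_ae {k : ℕ} (b : Fin k → ℝ) (d : Fin k → ℝ → ℝ) (s T : ℝ) {r : ℝ} (hr : r ≠ 0) (c : ℝ) :
    ∀ᵐ x : ℝ, psb b (Xz d s T (r * x + c)) =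
      ∏ j, ‖riemannZeta (1 / 2 + ((r * x + c + d j T : ℝ) : ℂ) * I)‖ ^ (b j / Real.sqrt (V T / 2)) := by
  have h1 : ∀ᵐ x : ℝ, ∀ j, riemannZeta (1 / 2 + ((r * x + c + d j T : ℝ) : ℂ) * I) ≠ 0 := by
    refine ae_all_iff.2 fun j => ?_
    have := affine_ae zeta_ae hr (c + d j T)
    filter_upwards [this] with x hx
    rwa [← add_assoc] at hx
  filter_upwards [h1] with x hx
  exact psb_eq b d s T _ hx

end Pool.Agent.H493.SZ
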