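import Pool.Agent.H493.SZ.Def4

set_option autoImplicit false

open Complex Filter Topology Set MeasureTheory ProbabilityTheory

namespace Pool.Agent.H493.SZ

namespace ONEL

/-- the quotient is at most `2` -/
theorem q_le (a u : ℝ) (h : a = u ∨ a = -u) : Real.exp a / Real.cosh u ≤ 2 := by
  have hc := Real.cosh_pos u
  rw [div_le_iff₀ hc, Real.cosh_eq]
  rcases h with rfl | rfl
  · linarith [Real.exp_pos (-a)]
  · linarith [Real.exp_pos u]

theorem q_nonneg (a u : ℝ) : 0 ≤ Real.exp a / Real.cosh u :=
  div_nonneg (Real.exp_pos a).le (Real.cosh_pos u).le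

theorem q_meas (l s : ℝ) : Measurable fun x : ℝ => Real.exp (l * (s * x)) / Real.cosh (l * x) := by
  have h1 : Measurable fun x : ℝ => Real.exp (l * (s * x)) := by fun_prop
  have h2 : Measurable fun x : ℝ => Real.cosh (l * x) :=
    Real.measurable_cosh.comp (measurable_const.mul measurable_id)
  exact h1.div h2

theorem q_int (l s : ℝ) (hs : s = 1 ∨ s = -1) :
    Integrable (fun x : ℝ => Real.exp (l * (s * x)) / Real.cosh (l * x)) (gaussianReal 0 1) := by
  refine Integrable.of_bound (q_meas l s).aestronglyMeasurable 2 (ae_of_all _ fun x => ?_)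
  rw [Real.norm_eq_abs, abs_of_nonneg (q_nonneg _ _)]
  refine q_le _ _ ?_
  rcases hs with rfl | rfl
  · left; ring
  · right; ring

theorem one_dim (l s : ℝ) (hs : s = 1 ∨ s = -1) :
    ∫ x : ℝ, Real.exp (l * (s * x)) / Real.cosh (l * x) ∂(gaussianReal 0 1) = 1 := by
  have hneg : (gaussianReal 0 1).map (fun x : ℝ => -x) = gaussianReal 0 1 := by
    have := gaussianReal_map_neg (μ := 0) (v := 1)
    simpa using this
  have h1 : ∫ x : ℝ, Real.exp (l * (s * x)) / Real.cosh (l * x) ∂(gaussianReal 0 1) =
      ∫ x : ℝ, Real.exp (l * ((-s) * x)) / Real.cosh (l * x) ∂(gaussianReal 0 1) := by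
    conv_lhs => rw [← hneg]
    rw [integral_map measurable_neg.aemeasurable (q_meas l s).aestronglyMeasurable]
    apply integral_congr_ae
    refine ae_of_all _ fun x => ?_
    simp only
    have e1 : l * (s * -x) = l * (-s * x) := by ring
    have e2 : l * -x = -(l * x) := by ring
    rw [e1, e2, Real.cosh_neg]
  have hs' : -s = 1 ∨ -s = -1 := by
    rcases hs with rfl | rfl
    · right; rfl
    · left; norm_num
  have h2 : ∫ x : ℝ, (Real.exp (l * (s * x)) / Real.cosh (l * x) +
      Real.exp (l * ((-s) * x)) / Real.cosh (l * x)) ∂(gaussianReal 0 1) = 2 := by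
    have h3 : (fun x : ℝ => Real.exp (l * (s * x)) / Real.cosh (l * x) +
      Real.exp (l * ((-s) * x)) / Real.cosh (l * x)) = fun _ => (2 : ℝ) := by
      funext x
      have hc := (Real.cosh_pos (l * x)).ne'
      rw [← add_div, div_eq_iff hc, Real.cosh_eq]
      rcases hs with rfl | rfl
      · have e1 : l * (1 * x) = l * x := by ring
        have e2 : l * (-1 * x) = -(l * x) := by ring
        rw [e1, e2]; ring
      · have e1 : l * (-1 * x) = -(l * x) := by ring
        have e2 : l * (- -1 * x) = l * x := by ring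
        rw [e1, e2]; ring
    rw [h3]
    simp
  rw [integral_add (q_int l s hs) (q_int l (-s) hs'), ← h1] at h2
  linarith

end ONEL

theorem t_ONE : S_ONE := by
  intro n l σ hσ
  rw [multivariateGaussian_zero_one, ← map_pi_eq_stdGaussian]
  have hm : Measurable fun x : EuclideanSpace ℝ (Fin n) =>
      ∏ i, (Real.exp (l * (σ i * x i)) / Real.cosh (l * x i)) := by
    apply Finset.measurable_prod
    intro i _
    have h1 : Measurable fun x : EuclideanSpace ℝ (Fin n) => x i := by fun_prop
    exact (ONEL.q_meas l (σ i)).comp h1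
  rw [integral_map (by fun_prop) hm.aestronglyMeasurable]
  have h2 : ∫ x : Fin n → ℝ, ∏ i, (Real.exp (l * (σ i * x i)) / Real.cosh (l * x i))
      ∂(Measure.pi fun _ => gaussianReal 0 1) =
      ∏ i, ∫ x : ℝ, Real.exp (l * (σ i * x)) / Real.cosh (l * x) ∂(gaussianReal 0 1) :=
    integral_fintype_prod_eq_prod (𝕜 := ℝ) (fun i (x : ℝ) => Real.exp (l * (σ i * x)) / Real.cosh (l * x))
  calc _ = ∫ x : Fin n → ℝ, ∏ i, (Real.exp (l * (σ i * x i)) / Real.cosh (l * x i))
      ∂(Measure.pi fun _ => gaussianReal 0 1) := rfl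
    _ = _ := h2
    _ = 1 := by
      rw [Finset.prod_eq_one]
      intro i _
      exact ONEL.one_dim l (σ i) (hσ i)

end Pool.Agent.H493.SZ
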