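import Pool.Agent.H493.SZ.Def7

set_option autoImplicit false

/-! S_PIG: the block diagonal Gaussian measure is a product (helper279). -/

open Complex Filter Topology Set MeasureTheory ProbabilityTheory
open scoped RealInnerProductSpace

namespace Pool.Agent.H493.SZ

namespace PIGL

/-- the `m`-th block of a vector -/
noncomputable def blk {k n : ℕ} (u : EuclideanSpace ℝ (Fin (k * n))) (m : Fin n) : EuclideanSpace ℝ (Fin k) :=
  WithLp.toLp 2 fun i : Fin k => u (finProdFinEquiv (i, m))

theorem inner_blk {k n : ℕ} (x : Fin n → EuclideanSpace ℝ (Fin k)) (u : EuclideanSpace ℝ (Fin (k * n))) :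
    ⟪(WithLp.toLp 2 fun a : Fin (k * n) => x (finProdFinEquiv.symm a).2 (finProdFinEquiv.symm a).1 :
      EuclideanSpace ℝ (Fin (k * n))), u⟫ = ∑ m, ⟪x m, blk u m⟫ := by
  rw [PiLp.inner_apply]
  rw [← Equiv.sum_comp (finProdFinEquiv (m := k) (n := n)), Fintype.sum_prod_type_right]
  refine Finset.sum_congr rfl fun m _ => ?_
  rw [PiLp.inner_apply]
  refine Finset.sum_congr rfl fun i _ => ?_
  simp only [Equiv.symm_apply_apply, blk]

theorem quad_blk {k n : ℕ} (S : Matrix (Fin k) (Fin k) ℝ) (u : EuclideanSpace ℝ (Fin (k * n))) :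
    u.ofLp ⬝ᵥ (SM S n).mulVec u.ofLp = ∑ m : Fin n, (blk u m).ofLp ⬝ᵥ S.mulVec (blk u m).ofLp := by
  unfold dotProduct Matrix.mulVec dotProduct
  rw [← Equiv.sum_comp (finProdFinEquiv (m := k) (n := n)), Fintype.sum_prod_type_right]
  refine Finset.sum_congr rfl fun m _ => ?_
  refine Finset.sum_congr rfl fun i _ => ?_
  rw [← Equiv.sum_comp (finProdFinEquiv (m := k) (n := n)), Fintype.sum_prod_type_right,
    Finset.sum_eq_single m]
  · simp only [SM, Matrix.of_apply, Equiv.symm_apply_apply, if_true, blk]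
  · intro m' _ hm'
    refine Finset.sum_eq_zero fun j _ => ?_
    simp only [SM, Matrix.of_apply, Equiv.symm_apply_apply]
    rw [if_neg (fun h => hm' h.symm), zero_mul]
  · intro h
    exact absurd (Finset.mem_univ m) h

end PIGL

open PIGL

theorem t_PIG : S_PIG := by
  intro k n S hS hSM
  have hmeas : Measurable (fun x : Fin n → EuclideanSpace ℝ (Fin k) =>
      (WithLp.toLp 2 fun a : Fin (k * n) => x (finProdFinEquiv.symm a).2 (finProdFinEquiv.symm a).1 :
        EuclideanSpace ℝ (Fin (k * n)))) := by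
    have hc : Continuous (fun x : Fin n → EuclideanSpace ℝ (Fin k) =>
      (WithLp.toLp 2 fun a : Fin (k * n) => x (finProdFinEquiv.symm a).2 (finProdFinEquiv.symm a).1 :
        EuclideanSpace ℝ (Fin (k * n)))) := by
      fun_prop
    exact hc.measurable
  refine Measure.ext_of_charFun ?_
  ext u
  rw [charFun_multivariateGaussian hSM, charFun_apply, integral_map hmeas.aemeasurable
    (by fun_prop)]
  have h1 : ∀ x : Fin n → EuclideanSpace ℝ (Fin k),
      Complex.exp (⟪(WithLp.toLp 2 fun a : Fin (k * n) =>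
        x (finProdFinEquiv.symm a).2 (finProdFinEquiv.symm a).1 : EuclideanSpace ℝ (Fin (k * n))), u⟫ * I)
        = ∏ m, Complex.exp (⟪x m, blk u m⟫ * I) := by
    intro x
    rw [inner_blk, ← Complex.exp_sum]
    push_cast
    rw [Finset.sum_mul]
  simp only [h1]
  rw [integral_fintype_prod_eq_prod (fun (m : Fin n) (y : EuclideanSpace ℝ (Fin k)) =>
    Complex.exp (⟪y, blk u m⟫ * I))]
  have h2 : ∀ m : Fin n, ∫ y, Complex.exp (⟪y, blk u m⟫ * I) ∂(multivariateGaussian 0 S) =
      Complex.exp (-(((blk u m).ofLp ⬝ᵥ S.mulVec (blk u m).ofLp : ℝ) : ℂ) / 2) := by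
    intro m
    have h3 := charFun_multivariateGaussian (μ := (0 : EuclideanSpace ℝ (Fin k))) hS (blk u m)
    rw [charFun_apply] at h3
    rw [h3]
    congr 1
    simp
    ring
  simp only [h2]
  rw [← Complex.exp_sum]
  congr 1
  rw [quad_blk, inner_zero_right]
  push_cast
  rw [← Finset.sum_div, Finset.sum_neg_distrib]
  ring

end Pool.Agent.H493.SZ
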