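import Pool.Agent.H493.SZ.Def4

set_option autoImplicit false

/-! SZ2 TILT (helper336, for helper493): many sign vectors correlate with `y`. -/

namespace Pool.Agent.H493.SZ

namespace TILTL

theorem ind (q : ℕ) (f : Fin q → Bool → ℝ) :
    ∑ σ : Fin q → Bool, ∏ i, f i (σ i) = ∏ i, ∑ b, f i b := by
  rw [Finset.prod_univ_sum, Fintype.piFinset_univ]

theorem cross {q : ℕ} (p X : Fin q → Bool → ℝ) (hp : ∀ i, ∑ b, p i b = 1)
    (hX : ∀ i, ∑ b, p i b * X i b = 0) (m n : Fin q) :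
    ∑ σ : Fin q → Bool, (∏ i, p i (σ i)) * (X m (σ m) * X n (σ n)) =
      if m = n then ∑ b, p m b * X m b ^ 2 else 0 := by
  have h1 : ∀ σ : Fin q → Bool, (∏ i, p i (σ i)) * (X m (σ m) * X n (σ n)) =
      ∏ i, (p i (σ i) * (if i = m then X i (σ i) else 1) *
        (if i = n then X i (σ i) else 1)) := by
    intro σ
    rw [Finset.prod_mul_distrib, Finset.prod_mul_distrib, Finset.prod_ite_eq',
      Finset.prod_ite_eq', if_pos (Finset.mem_univ _), if_pos (Finset.mem_univ _), mul_assoc]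
  rw [Finset.sum_congr rfl fun σ _ => h1 σ, ind q (fun i b => p i b *
    (if i = m then X i b else 1) * (if i = n then X i b else 1))]
  by_cases h : m = n
  · subst h
    rw [if_pos rfl, Finset.prod_eq_single m]
    · refine Finset.sum_congr rfl fun b _ => ?_
      rw [if_pos rfl]
      ring
    · intro i _ hi
      simp only [if_neg hi, mul_one]
      exact hp i
    · intro h
      exact absurd (Finset.mem_univ _) h
  · rw [if_neg h]
    refine Finset.prod_eq_zero (Finset.mem_univ m) ?_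
    have h2 : ∀ b, p m b * (if m = m then X m b else 1) * (if m = n then X m b else 1) =
        p m b * X m b := by
      intro b
      rw [if_pos rfl, if_neg h, mul_one]
    rw [Finset.sum_congr rfl fun b _ => h2 b, hX]

theorem var {q : ℕ} (p X : Fin q → Bool → ℝ) (hp : ∀ i, ∑ b, p i b = 1)
    (hX : ∀ i, ∑ b, p i b * X i b = 0) :
    ∑ σ : Fin q → Bool, (∏ i, p i (σ i)) * (∑ m, X m (σ m)) ^ 2 =
      ∑ m, ∑ b, p m b * X m b ^ 2 := by
  have h1 : ∀ σ : Fin q → Bool, (∏ i, p i (σ i)) * (∑ m, X m (σ m)) ^ 2 =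
      ∑ m, ∑ n, (∏ i, p i (σ i)) * (X m (σ m) * X n (σ n)) := by
    intro σ
    rw [sq, Finset.sum_mul_sum, Finset.mul_sum]
    refine Finset.sum_congr rfl fun m _ => ?_
    rw [Finset.mul_sum]
  rw [Finset.sum_congr rfl fun σ _ => h1 σ, Finset.sum_comm]
  refine Finset.sum_congr rfl fun m _ => ?_
  rw [Finset.sum_comm, Finset.sum_congr rfl fun n _ => cross p X hp hX m n, Finset.sum_ite_eq,
    if_pos (Finset.mem_univ _)]

theorem abs_le_cosh (u : ℝ) : |u| ≤ Real.cosh u := by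
  rw [← Real.cosh_abs, Real.cosh_eq]
  have h1 := Real.quadratic_le_exp_of_nonneg (abs_nonneg u)
  have h2 := Real.add_one_le_exp (-|u|)
  have h3 := sq_nonneg (1 - |u| / 2)
  nlinarith

/-- the weights -/
noncomputable def pw (u : ℝ) (b : Bool) : ℝ := Real.exp (sgb b * u) / (2 * Real.cosh u)

theorem pw_true (u : ℝ) : pw u true = (1 + Real.tanh u) / 2 := by
  unfold pw sgb
  have h := Real.cosh_pos u
  rw [if_pos rfl, one_mul, Real.tanh_eq_sinh_div_cosh]
  have h1 : Real.exp u = Real.cosh u + Real.sinh u := (Real.cosh_add_sinh u).symm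
  rw [h1]
  field_simp

theorem pw_false (u : ℝ) : pw u false = (1 - Real.tanh u) / 2 := by
  unfold pw sgb
  have h := Real.cosh_pos u
  rw [if_neg Bool.false_ne_true, neg_one_mul, Real.tanh_eq_sinh_div_cosh]
  have h1 : Real.exp (-u) = Real.cosh u - Real.sinh u := (Real.cosh_sub_sinh u).symm
  rw [h1]
  field_simp

theorem pw_nonneg (u : ℝ) (b : Bool) : 0 ≤ pw u b := by
  unfold pw
  have h := Real.cosh_pos u
  positivity

theorem sum_pw (u : ℝ) : ∑ b, pw u b = 1 := by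
  rw [Fintype.sum_bool, pw_true, pw_false]
  ring

theorem sgb_true : sgb true = 1 := by
  unfold sgb
  rw [if_pos rfl]

theorem sgb_false : sgb false = -1 := by
  unfold sgb
  rw [if_neg Bool.false_ne_true]

theorem sum_pwX (u y : ℝ) : ∑ b, pw u b * (sgb b * y - y * Real.tanh u) = 0 := by
  rw [Fintype.sum_bool, pw_true, pw_false, sgb_true, sgb_false]
  ring

theorem sum_pwX2 (l y : ℝ) (hl : 0 < l) :
    ∑ b, pw (l * y) b * (sgb b * y - y * Real.tanh (l * y)) ^ 2 ≤ 1 / l ^ 2 := by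
  rw [Fintype.sum_bool, pw_true, pw_false, sgb_true, sgb_false]
  have hc := Real.cosh_pos (l * y)
  have h1 : 1 - Real.tanh (l * y) ^ 2 = 1 / Real.cosh (l * y) ^ 2 := by
    rw [Real.tanh_eq_sinh_div_cosh, div_pow, eq_div_iff (by positivity), sub_mul,
      div_mul_cancel₀ _ (by positivity)]
    have := Real.cosh_sq (l * y)
    linarith
  have e1 : (1 + Real.tanh (l * y)) / 2 * (1 * y - y * Real.tanh (l * y)) ^ 2 +
      (1 - Real.tanh (l * y)) / 2 * (-1 * y - y * Real.tanh (l * y)) ^ 2 =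
      y ^ 2 * (1 - Real.tanh (l * y) ^ 2) := by ring
  rw [e1, h1, mul_one_div, div_le_div_iff₀ (by positivity) (by positivity), one_mul]
  have h2 := pow_le_pow_left₀ (abs_nonneg _) (abs_le_cosh (l * y)) 2
  rw [sq_abs] at h2
  calc y ^ 2 * l ^ 2 = (l * y) ^ 2 := by ring
    _ ≤ _ := h2

theorem prod_pw {q : ℕ} (y : Fin q → ℝ) (l : ℝ) (σ : Fin q → Bool) :
    ∏ i, pw (l * y i) (σ i) = Real.exp (l * (∑ m, sgb (σ m) * y m) -
      ∑ m, Real.log (Real.cosh (l * y m))) / 2 ^ q := by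
  have hA : Real.exp (l * (∑ m, sgb (σ m) * y m)) = ∏ m, Real.exp (sgb (σ m) * (l * y m)) := by
    rw [Finset.mul_sum, Real.exp_sum]
    refine Finset.prod_congr rfl fun m _ => ?_
    congr 1
    ring
  have hB : Real.exp (∑ m, Real.log (Real.cosh (l * y m))) = ∏ m, Real.cosh (l * y m) := by
    rw [Real.exp_sum]
    exact Finset.prod_congr rfl fun m _ => Real.exp_log (Real.cosh_pos _)
  unfold pw
  rw [Finset.prod_div_distrib, Finset.prod_mul_distrib, Finset.prod_const, Finset.card_univ,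
    Fintype.card_fin, Real.exp_sub, hA, hB, div_div, mul_comm (2 ^ q)]

end TILTL

open TILTL in
theorem t_TILT : S_TILT := by
  intro q y l τ hl hτ hq
  classical
  obtain ⟨A, hA⟩ : ∃ A, A = ∑ m, y m * Real.tanh (l * y m) := ⟨_, rfl⟩
  obtain ⟨L, hL⟩ : ∃ L, L = ∑ m, Real.log (Real.cosh (l * y m)) := ⟨_, rfl⟩
  obtain ⟨w, hw⟩ : ∃ w : (Fin q → Bool) → ℝ, ∀ σ, w σ = ∏ i, pw (l * y i) (σ i) :=
    ⟨_, fun _ => rfl⟩
  obtain ⟨Z, hZ⟩ : ∃ Z : (Fin q → Bool) → ℝ, ∀ σ, Z σ = ∑ m, sgb (σ m) * y m :=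
    ⟨_, fun _ => rfl⟩
  rw [← hA, ← hL]
  have hw0 : ∀ σ, 0 ≤ w σ := fun σ => by
    rw [hw]
    exact Finset.prod_nonneg fun i _ => pw_nonneg _ _
  have hsum : ∑ σ, w σ = 1 := by
    rw [Finset.sum_congr rfl fun σ _ => hw σ, ind q (fun i b => pw (l * y i) b)]
    exact Finset.prod_eq_one fun i _ => sum_pw _
  have hvar : ∑ σ, w σ * (Z σ - A) ^ 2 ≤ q / l ^ 2 := by
    have h1 : ∀ σ, w σ * (Z σ - A) ^ 2 = (∏ i, pw (l * y i) (σ i)) *
        (∑ m, (sgb (σ m) * y m - y m * Real.tanh (l * y m))) ^ 2 := by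
      intro σ
      rw [hw, hZ, hA, Finset.sum_sub_distrib]
    rw [Finset.sum_congr rfl fun σ _ => h1 σ, var (fun i b => pw (l * y i) b)
      (fun i b => sgb b * y i - y i * Real.tanh (l * y i)) (fun i => sum_pw _)
      (fun i => sum_pwX _ _)]
    calc ∑ m, ∑ b, pw (l * y m) b * (sgb b * y m - y m * Real.tanh (l * y m)) ^ 2 ≤
          ∑ _m : Fin q, 1 / l ^ 2 := Finset.sum_le_sum fun m _ => sum_pwX2 l (y m) hl
      _ = q / l ^ 2 := by
        rw [Finset.sum_const, Finset.card_univ, Fintype.card_fin, nsmul_eq_mul]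
        ring
  -- Chebyshev
  obtain ⟨Bd, hBd⟩ : ∃ Bd : Finset (Fin q → Bool),
      Bd = Finset.univ.filter (fun σ => τ ≤ |Z σ - A|) := ⟨_, rfl⟩
  obtain ⟨G, hG⟩ : ∃ G : Finset (Fin q → Bool),
      G = Finset.univ.filter (fun σ => ¬ τ ≤ |Z σ - A|) := ⟨_, rfl⟩
  have hsplit : ∑ σ ∈ Bd, w σ + ∑ σ ∈ G, w σ = 1 := by
    rw [hBd, hG, Finset.sum_filter_add_sum_filter_not, hsum]
  have hB : ∑ σ ∈ Bd, w σ ≤ 1 / 2 := by
    have h1 : (∑ σ ∈ Bd, w σ) * τ ^ 2 ≤ q / l ^ 2 := by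
      refine le_trans ?_ hvar
      rw [Finset.sum_mul]
      refine le_trans (Finset.sum_le_sum fun σ hσ => ?_)
        (Finset.sum_le_sum_of_subset_of_nonneg (Finset.subset_univ Bd) fun σ _ _ =>
          mul_nonneg (hw0 σ) (sq_nonneg _))
      rw [hBd, Finset.mem_filter] at hσ
      refine mul_le_mul_of_nonneg_left ?_ (hw0 σ)
      rw [← sq_abs (Z σ - A)]
      exact pow_le_pow_left₀ hτ.le hσ.2 2
    rw [le_div_iff₀ (by positivity)] at h1
    have h2 : (∑ σ ∈ Bd, w σ) * (l * τ) ^ 2 ≤ 1 / 2 * (l * τ) ^ 2 := by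
      calc (∑ σ ∈ Bd, w σ) * (l * τ) ^ 2 = (∑ σ ∈ Bd, w σ) * τ ^ 2 * l ^ 2 := by ring
        _ ≤ (q : ℝ) := h1
        _ ≤ 1 / 2 * (l * τ) ^ 2 := by linarith
    exact le_of_mul_le_mul_right h2 (by positivity)
  have hGw : 1 / 2 ≤ ∑ σ ∈ G, w σ := by linarith
  have hwle : ∀ σ ∈ G, w σ ≤ Real.exp (l * (A + τ) - L) / 2 ^ q := by
    intro σ hσ
    rw [hG, Finset.mem_filter, not_le] at hσ
    have h1 := (abs_lt.1 hσ.2).2
    rw [hw, prod_pw, ← hL, ← hZ]
    refine div_le_div_of_nonneg_right (Real.exp_le_exp.2 ?_) (by positivity)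
    have h2 : l * Z σ ≤ l * (A + τ) := mul_le_mul_of_nonneg_left (by linarith) hl.le
    linarith
  have h3 : (1 : ℝ) / 2 ≤ G.card * (Real.exp (l * (A + τ) - L) / 2 ^ q) := by
    refine hGw.trans ((Finset.sum_le_sum hwle).trans ?_)
    rw [Finset.sum_const, nsmul_eq_mul]
  have h4 : 1 / 2 * Real.exp (L - l * (A + τ)) * 2 ^ q ≤ G.card := by
    have e1 : (G.card : ℝ) = G.card * (Real.exp (l * (A + τ) - L) / 2 ^ q) *
        (Real.exp (L - l * (A + τ)) * 2 ^ q) := by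
      have e2 : Real.exp (l * (A + τ) - L) * Real.exp (L - l * (A + τ)) = 1 := by
        rw [← Real.exp_add, ← Real.exp_zero]
        congr 1
        ring
      have e3 : (2 : ℝ) ^ q ≠ 0 := by positivity
      calc (G.card : ℝ) = G.card *
            (Real.exp (l * (A + τ) - L) * Real.exp (L - l * (A + τ))) * (2 ^ q / 2 ^ q) := by
            rw [e2, div_self e3]
            ring
        _ = _ := by ring
    rw [e1]
    calc 1 / 2 * Real.exp (L - l * (A + τ)) * 2 ^ q =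
          1 / 2 * (Real.exp (L - l * (A + τ)) * 2 ^ q) := by ring
      _ ≤ _ := mul_le_mul_of_nonneg_right h3 (by positivity)
  refine h4.trans ?_
  have h5 : G ⊆ Finset.univ.filter (fun σ : Fin q → Bool => A - τ ≤ ∑ m, sgb (σ m) * y m) := by
    intro σ hσ
    rw [hG, Finset.mem_filter, not_le] at hσ
    rw [Finset.mem_filter]
    refine ⟨Finset.mem_univ _, ?_⟩
    have h1 := (abs_lt.1 hσ.2).1
    rw [← hZ]
    linarith
  have h6 := Finset.card_le_card h5
  exact_mod_cast h6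

end Pool.Agent.H493.SZ
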