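import Pool.Agent.H493.SZ.Def7

set_option autoImplicit false

/-! SZ3 TLT (helper169, for helper493; adapted from TILT of helper336): many sign vectors correlate with `y`,
biased prior. -/

namespace Pool.Agent.H493.SZ

namespace TLTL

theorem ind (q : ℕ) (f : Fin q → Bool → ℝ) :
    ∑ σ : Fin q → Bool, ∏ i, f i (σ i) = ∏ i, ∑ b, f i b := by
  rw [Finset.prod_univ_sum, Fintype.piFinset_univ]

theorem cross {q : ℕ} (p X : Fin q → Bool → ℝ) (hp : ∀ i, ∑ b, p i b = 1)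
    (hX : ∀ i, ∑ b, p i b * X i b = 0) (m n : Fin q) :
    ∑ σ : Fin q → Bool, (∏ i, p i (σ i)) * (X m (σ m) * X n (σ n)) =
      if m = n then ∑ b, p m b * X m b ^ 2 else 0 := by
  have h1 : ∀ σ : Fin q → Bool, (∏ i, p i (σ i)) * (X m (σ m) * X n (σ n)) =
      ∏ i, (p i (σ i) * (if i = m then X i (σ i) else 1) *
        (if i = n then X i (σ i) else 1)) := by
    intro σ
    rw [Finset.prod_mul_distrib, Finset.prod_mul_distrib, Finset.prod_ite_eq',
      Finset.prod_ite_eq', if_pos (Finset.mem_univ _), if_pos (Finset.mem_univ _), mul_assoc]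
  rw [Finset.sum_congr rfl fun σ _ => h1 σ, ind q (fun i b => p i b *
    (if i = m then X i b else 1) * (if i = n then X i b else 1))]
  by_cases h : m = n
  · subst h
    rw [if_pos rfl, Finset.prod_eq_single m]
    · refine Finset.sum_congr rfl fun b _ => ?_
      rw [if_pos rfl]
      ring
    · intro i _ hi
      simp only [if_neg hi, mul_one]
      exact hp i
    · intro h
      exact absurd (Finset.mem_univ _) h
  · rw [if_neg h]
    refine Finset.prod_eq_zero (Finset.mem_univ m) ?_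
    have h2 : ∀ b, p m b * (if m = m then X m b else 1) * (if m = n then X m b else 1) =
        p m b * X m b := by
      intro b
      rw [if_pos rfl, if_neg h, mul_one]
    rw [Finset.sum_congr rfl fun b _ => h2 b, hX]

theorem var {q : ℕ} (p X : Fin q → Bool → ℝ) (hp : ∀ i, ∑ b, p i b = 1)
    (hX : ∀ i, ∑ b, p i b * X i b = 0) :
    ∑ σ : Fin q → Bool, (∏ i, p i (σ i)) * (∑ m, X m (σ m)) ^ 2 =
      ∑ m, ∑ b, p m b * X m b ^ 2 := by
  have h1 : ∀ σ : Fin q → Bool, (∏ i, p i (σ i)) * (∑ m, X m (σ m)) ^ 2 =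
      ∑ m, ∑ n, (∏ i, p i (σ i)) * (X m (σ m) * X n (σ n)) := by
    intro σ
    rw [sq, Finset.sum_mul_sum, Finset.mul_sum]
    refine Finset.sum_congr rfl fun m _ => ?_
    rw [Finset.mul_sum]
  rw [Finset.sum_congr rfl fun σ _ => h1 σ, Finset.sum_comm]
  refine Finset.sum_congr rfl fun m _ => ?_
  rw [Finset.sum_comm, Finset.sum_congr rfl fun n _ => cross p X hp hX m n, Finset.sum_ite_eq,
    if_pos (Finset.mem_univ _)]

theorem abs_le_cosh (u : ℝ) : |u| ≤ Real.cosh u := by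
  rw [← Real.cosh_abs, Real.cosh_eq]
  have h1 := Real.quadratic_le_exp_of_nonneg (abs_nonneg u)
  have h2 := Real.add_one_le_exp (-|u|)
  have h3 := sq_nonneg (1 - |u| / 2)
  nlinarith

theorem abs_sinh_le (u : ℝ) : |Real.sinh u| ≤ Real.cosh u := by
  rw [abs_le]
  have h1 := Real.exp_pos u
  have h2 := Real.exp_pos (-u)
  rw [← Real.cosh_add_sinh u] at h1
  rw [← Real.cosh_sub_sinh u] at h2
  constructor <;> linarith

theorem Dn_ge (l m x : ℝ) : (1 - |m|) * Real.cosh (l * x) ≤ Dn l m x := by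
  unfold Dn
  have h1 : |m * Real.sinh (l * x)| ≤ |m| * Real.cosh (l * x) := by
    rw [abs_mul]
    exact mul_le_mul_of_nonneg_left (abs_sinh_le _) (abs_nonneg m)
  have h2 := neg_abs_le (m * Real.sinh (l * x))
  linarith

theorem Dn_pos (l m x : ℝ) (hm : |m| < 1) : 0 < Dn l m x :=
  lt_of_lt_of_le (mul_pos (by linarith) (Real.cosh_pos _)) (Dn_ge l m x)

theorem sgb_true : sgb true = 1 := by
  unfold sgb
  rw [if_pos rfl]

theorem sgb_false : sgb false = -1 := by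
  unfold sgb
  rw [if_neg Bool.false_ne_true]

/-- the prior weights -/
theorem prior_nonneg (m : ℝ) (hm : |m| < 1) (b : Bool) : 0 ≤ (1 + m * sgb b) / 2 := by
  have h := abs_lt.1 hm
  cases b
  · rw [sgb_false]
    linarith [h.2]
  · rw [sgb_true]
    linarith [h.1]

/-- the weights -/
noncomputable def pw (l m y : ℝ) (b : Bool) : ℝ :=
  (1 + m * sgb b) / 2 * Real.exp (sgb b * (l * y)) / Dn l m y

theorem pw_true (l m y : ℝ) (hm : |m| < 1) : pw l m y true = (1 + tn l m y) / 2 := by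
  have h := Dn_pos l m y hm
  unfold pw tn
  rw [sgb_true, one_mul, mul_one]
  have h1 : Real.exp (l * y) = Real.cosh (l * y) + Real.sinh (l * y) :=
    (Real.cosh_add_sinh _).symm
  rw [h1, div_eq_iff h.ne']
  have h2 : (1 + (Real.sinh (l * y) + m * Real.cosh (l * y)) / Dn l m y) / 2 * Dn l m y =
      (Dn l m y + (Real.sinh (l * y) + m * Real.cosh (l * y)) / Dn l m y * Dn l m y) / 2 := by
    ring
  rw [h2, div_mul_cancel₀ _ h.ne']
  unfold Dn
  ring

theorem pw_false (l m y : ℝ) (hm : |m| < 1) : pw l m y false = (1 - tn l m y) / 2 := by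
  have h := Dn_pos l m y hm
  unfold pw tn
  rw [sgb_false, neg_one_mul]
  have h1 : Real.exp (-(l * y)) = Real.cosh (l * y) - Real.sinh (l * y) :=
    (Real.cosh_sub_sinh _).symm
  rw [h1, div_eq_iff h.ne']
  have h2 : (1 - (Real.sinh (l * y) + m * Real.cosh (l * y)) / Dn l m y) / 2 * Dn l m y =
      (Dn l m y - (Real.sinh (l * y) + m * Real.cosh (l * y)) / Dn l m y * Dn l m y) / 2 := by
    ring
  rw [h2, div_mul_cancel₀ _ h.ne']
  unfold Dn
  ring

theorem pw_nonneg (l m y : ℝ) (hm : |m| < 1) (b : Bool) : 0 ≤ pw l m y b := by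
  unfold pw
  exact div_nonneg (mul_nonneg (prior_nonneg m hm b) (Real.exp_pos _).le) (Dn_pos l m y hm).le

theorem sum_pw (l m y : ℝ) (hm : |m| < 1) : ∑ b, pw l m y b = 1 := by
  rw [Fintype.sum_bool, pw_true l m y hm, pw_false l m y hm]
  ring

theorem sum_pwX (l m y : ℝ) (hm : |m| < 1) :
    ∑ b, pw l m y b * (sgb b * y - y * tn l m y) = 0 := by
  rw [Fintype.sum_bool, pw_true l m y hm, pw_false l m y hm, sgb_true, sgb_false]
  ring

theorem one_sub_tn_sq (l m y : ℝ) (hm : |m| < 1) :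
    1 - tn l m y ^ 2 = (1 - m ^ 2) / Dn l m y ^ 2 := by
  have h := Dn_pos l m y hm
  have h0 : Dn l m y ^ 2 ≠ 0 := pow_ne_zero 2 h.ne'
  unfold tn
  rw [div_pow, eq_div_iff h0, sub_mul, div_mul_cancel₀ _ h0]
  have h1 := Real.cosh_sq (l * y)
  unfold Dn
  have h2 : (Real.cosh (l * y) + m * Real.sinh (l * y)) ^ 2 -
      (Real.sinh (l * y) + m * Real.cosh (l * y)) ^ 2 =
      (1 - m ^ 2) * (Real.cosh (l * y) ^ 2 - Real.sinh (l * y) ^ 2) := by ring
  rw [one_mul, h2, h1]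
  ring

theorem sum_pwX2 (l m y : ℝ) (hl : 0 < l) (hm : |m| < 1) :
    ∑ b, pw l m y b * (sgb b * y - y * tn l m y) ^ 2 ≤ (1 + |m|) / ((1 - |m|) * l ^ 2) := by
  rw [Fintype.sum_bool, pw_true l m y hm, pw_false l m y hm, sgb_true, sgb_false]
  have hD := Dn_pos l m y hm
  have hc := Real.cosh_pos (l * y)
  have hm1 : 0 < 1 - |m| := by linarith
  have hm0 := abs_nonneg m
  have e1 : (1 + tn l m y) / 2 * (1 * y - y * tn l m y) ^ 2 +
      (1 - tn l m y) / 2 * (-1 * y - y * tn l m y) ^ 2 =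
      y ^ 2 * (1 - tn l m y ^ 2) := by ring
  rw [e1, one_sub_tn_sq l m y hm, ← mul_div_assoc, div_le_div_iff₀ (by positivity) (by positivity)]
  have h2 := pow_le_pow_left₀ (abs_nonneg _) (abs_le_cosh (l * y)) 2
  rw [sq_abs] at h2
  have h3 : ((1 - |m|) * Real.cosh (l * y)) ^ 2 ≤ Dn l m y ^ 2 :=
    pow_le_pow_left₀ (mul_pos hm1 hc).le (Dn_ge l m y) 2
  have h4 : (1 - |m|) * (1 + |m|) = 1 - m ^ 2 := by
    have : |m| ^ 2 = m ^ 2 := sq_abs m
    nlinarith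
  calc y ^ 2 * (1 - m ^ 2) * ((1 - |m|) * l ^ 2) =
        (1 - |m|) ^ 2 * (1 + |m|) * (l * y) ^ 2 := by
          rw [← h4]
          ring
    _ ≤ (1 - |m|) ^ 2 * (1 + |m|) * Real.cosh (l * y) ^ 2 :=
        mul_le_mul_of_nonneg_left h2 (by positivity)
    _ = (1 + |m|) * ((1 - |m|) * Real.cosh (l * y)) ^ 2 := by ring
    _ ≤ (1 + |m|) * Dn l m y ^ 2 := mul_le_mul_of_nonneg_left h3 (by positivity)

theorem prod_pw {q : ℕ} (y : Fin q → ℝ) (l m : ℝ) (hm : |m| < 1) (σ : Fin q → Bool) :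
    ∏ i, pw l m (y i) (σ i) = (∏ i, (1 + m * sgb (σ i)) / 2) *
      Real.exp (l * (∑ i, sgb (σ i) * y i) - ∑ i, Real.log (Dn l m (y i))) := by
  have hA : Real.exp (l * (∑ i, sgb (σ i) * y i)) = ∏ i, Real.exp (sgb (σ i) * (l * y i)) := by
    rw [Finset.mul_sum, Real.exp_sum]
    refine Finset.prod_congr rfl fun i _ => ?_
    congr 1
    ring
  have hB : Real.exp (∑ i, Real.log (Dn l m (y i))) = ∏ i, Dn l m (y i) := by
    rw [Real.exp_sum]
    exact Finset.prod_congr rfl fun i _ => Real.exp_log (Dn_pos l m (y i) hm)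
  unfold pw
  rw [Finset.prod_div_distrib, Finset.prod_mul_distrib, Real.exp_sub, hA, hB, mul_div_assoc]

end TLTL

open TLTL in
theorem t_TLT : S_TLT := by
  intro q y l m τ hl hm hτ hq
  classical
  have hm1 : 0 < 1 - |m| := by linarith
  have hm0 := abs_nonneg m
  obtain ⟨A, hA⟩ : ∃ A, A = ∑ i, y i * tn l m (y i) := ⟨_, rfl⟩
  obtain ⟨L, hL⟩ : ∃ L, L = ∑ i, Real.log (Dn l m (y i)) := ⟨_, rfl⟩
  obtain ⟨w, hw⟩ : ∃ w : (Fin q → Bool) → ℝ, ∀ σ, w σ = ∏ i, pw l m (y i) (σ i) :=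
    ⟨_, fun _ => rfl⟩
  obtain ⟨Z, hZ⟩ : ∃ Z : (Fin q → Bool) → ℝ, ∀ σ, Z σ = ∑ i, sgb (σ i) * y i :=
    ⟨_, fun _ => rfl⟩
  obtain ⟨Q, hQ⟩ : ∃ Q : (Fin q → Bool) → ℝ, ∀ σ, Q σ = ∏ i, (1 + m * sgb (σ i)) / 2 :=
    ⟨_, fun _ => rfl⟩
  rw [← hA, ← hL]
  have hQ0 : ∀ σ, 0 ≤ Q σ := fun σ => by
    rw [hQ]
    exact Finset.prod_nonneg fun i _ => prior_nonneg m hm _
  have hw0 : ∀ σ, 0 ≤ w σ := fun σ => by
    rw [hw]
    exact Finset.prod_nonneg fun i _ => pw_nonneg _ _ _ hm _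
  have hsum : ∑ σ, w σ = 1 := by
    rw [Finset.sum_congr rfl fun σ _ => hw σ, ind q (fun i b => pw l m (y i) b)]
    exact Finset.prod_eq_one fun i _ => sum_pw _ _ _ hm
  have hvar : ∑ σ, w σ * (Z σ - A) ^ 2 ≤ q * ((1 + |m|) / ((1 - |m|) * l ^ 2)) := by
    have h1 : ∀ σ, w σ * (Z σ - A) ^ 2 = (∏ i, pw l m (y i) (σ i)) *
        (∑ i, (sgb (σ i) * y i - y i * tn l m (y i))) ^ 2 := by
      intro σ
      rw [hw, hZ, hA, Finset.sum_sub_distrib]
    rw [Finset.sum_congr rfl fun σ _ => h1 σ, var (fun i b => pw l m (y i) b)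
      (fun i b => sgb b * y i - y i * tn l m (y i)) (fun i => sum_pw _ _ _ hm)
      (fun i => sum_pwX _ _ _ hm)]
    calc ∑ i, ∑ b, pw l m (y i) b * (sgb b * y i - y i * tn l m (y i)) ^ 2 ≤
          ∑ _i : Fin q, (1 + |m|) / ((1 - |m|) * l ^ 2) :=
            Finset.sum_le_sum fun i _ => sum_pwX2 l m (y i) hl hm
      _ = q * ((1 + |m|) / ((1 - |m|) * l ^ 2)) := by
        rw [Finset.sum_const, Finset.card_univ, Fintype.card_fin, nsmul_eq_mul]
  -- Chebyshev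
  obtain ⟨Bd, hBd⟩ : ∃ Bd : Finset (Fin q → Bool),
      Bd = Finset.univ.filter (fun σ => τ ≤ |Z σ - A|) := ⟨_, rfl⟩
  obtain ⟨G, hG⟩ : ∃ G : Finset (Fin q → Bool),
      G = Finset.univ.filter (fun σ => ¬ τ ≤ |Z σ - A|) := ⟨_, rfl⟩
  have hsplit : ∑ σ ∈ Bd, w σ + ∑ σ ∈ G, w σ = 1 := by
    rw [hBd, hG, Finset.sum_filter_add_sum_filter_not, hsum]
  have hB : ∑ σ ∈ Bd, w σ ≤ 1 / 2 := by
    have h1 : (∑ σ ∈ Bd, w σ) * τ ^ 2 ≤ q * ((1 + |m|) / ((1 - |m|) * l ^ 2)) := by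
      refine le_trans ?_ hvar
      rw [Finset.sum_mul]
      refine le_trans (Finset.sum_le_sum fun σ hσ => ?_)
        (Finset.sum_le_sum_of_subset_of_nonneg (Finset.subset_univ Bd) fun σ _ _ =>
          mul_nonneg (hw0 σ) (sq_nonneg _))
      rw [hBd, Finset.mem_filter] at hσ
      refine mul_le_mul_of_nonneg_left ?_ (hw0 σ)
      rw [← sq_abs (Z σ - A)]
      exact pow_le_pow_left₀ hτ.le hσ.2 2
    rw [← mul_div_assoc, le_div_iff₀ (by positivity)] at h1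
    have h2 : (∑ σ ∈ Bd, w σ) * ((1 - |m|) * (l * τ) ^ 2) ≤
        1 / 2 * ((1 - |m|) * (l * τ) ^ 2) := by
      calc (∑ σ ∈ Bd, w σ) * ((1 - |m|) * (l * τ) ^ 2) =
            (∑ σ ∈ Bd, w σ) * τ ^ 2 * ((1 - |m|) * l ^ 2) := by ring
        _ ≤ (q : ℝ) * (1 + |m|) := h1
        _ ≤ 1 / 2 * ((1 - |m|) * (l * τ) ^ 2) := by linarith
    exact le_of_mul_le_mul_right h2 (by positivity)
  have hGw : 1 / 2 ≤ ∑ σ ∈ G, w σ := by linarith
  have hwle : ∀ σ ∈ G, w σ ≤ Q σ * Real.exp (l * (A + τ) - L) := by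
    intro σ hσ
    rw [hG, Finset.mem_filter, not_le] at hσ
    have h1 := (abs_lt.1 hσ.2).2
    rw [hw, prod_pw y l m hm σ, ← hL, ← hZ, ← hQ]
    refine mul_le_mul_of_nonneg_left (Real.exp_le_exp.2 ?_) (hQ0 σ)
    have h2 : l * Z σ ≤ l * (A + τ) := mul_le_mul_of_nonneg_left (by linarith) hl.le
    linarith
  have h3 : (1 : ℝ) / 2 ≤ (∑ σ ∈ G, Q σ) * Real.exp (l * (A + τ) - L) := by
    rw [Finset.sum_mul]
    exact hGw.trans (Finset.sum_le_sum hwle)
  have h4 : 1 / 2 * Real.exp (L - l * (A + τ)) ≤ ∑ σ ∈ G, Q σ := by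
    have e2 : Real.exp (l * (A + τ) - L) * Real.exp (L - l * (A + τ)) = 1 := by
      rw [← Real.exp_add, ← Real.exp_zero]
      congr 1
      ring
    calc 1 / 2 * Real.exp (L - l * (A + τ)) ≤
          (∑ σ ∈ G, Q σ) * Real.exp (l * (A + τ) - L) * Real.exp (L - l * (A + τ)) :=
            mul_le_mul_of_nonneg_right h3 (Real.exp_pos _).le
      _ = ∑ σ ∈ G, Q σ := by rw [mul_assoc, e2, mul_one]
  refine h4.trans ?_
  rw [← Finset.sum_congr rfl fun σ _ => hQ σ]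
  have h5 : G ⊆ Finset.univ.filter (fun σ : Fin q → Bool => A - τ ≤ ∑ i, sgb (σ i) * y i) := by
    intro σ hσ
    rw [hG, Finset.mem_filter, not_le] at hσ
    rw [Finset.mem_filter]
    refine ⟨Finset.mem_univ _, ?_⟩
    have h1 := (abs_lt.1 hσ.2).1
    rw [← hZ]
    linarith
  exact Finset.sum_le_sum_of_subset_of_nonneg h5 fun σ _ _ => hQ0 σ

end Pool.Agent.H493.SZ
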