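import Pool.Agent.H493.SZ.Def9
import Pool.Agent.H493.SZ.FIL
import Pool.Agent.H493.SZ.LPG

set_option autoImplicit false

/-! TOPA: the rate is at most `topR` (helper840 for helper493). -/

open Complex Filter Topology Set MeasureTheory ProbabilityTheory

namespace Pool.Agent.H493.SZ

namespace TOPAL

theorem ea_eq (l m x : ℝ) (hm : |m| < 1) :
    Real.exp (l * x) / Dn l m x = 1 + (1 - m) * (Real.sinh (l * x) / Dn l m x) := by
  have hD := (FILL.Dn_pos l m x hm).ne'
  rw [← Real.cosh_add_sinh, ← mul_div_assoc, eq_comm, one_add_div hD]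
  congr 1
  unfold Dn
  ring

theorem eb_eq (l m x : ℝ) (hm : |m| < 1) :
    Real.exp (-(l * x)) / Dn l m x = 1 + (-(1 + m)) * (Real.sinh (l * x) / Dn l m x) := by
  have hD := (FILL.Dn_pos l m x hm).ne'
  rw [← Real.cosh_sub_sinh, ← mul_div_assoc, eq_comm, one_add_div hD]
  congr 1
  unfold Dn
  ring

/-- the inequality for the logarithm -/
theorem log_le {u c : ℝ} (hu : 0 < u) (hc : 0 < c) : Real.log u ≤ c * u - 1 + Real.log c⁻¹ := by
  have h1 := Real.log_le_sub_one_of_pos (mul_pos hc hu)
  rw [Real.log_mul hc.ne' hu.ne'] at h1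
  rw [Real.log_inv]
  linarith

end TOPAL

open TOPAL in
theorem t_TOPA : S_TOPA := by
  intro ν _ hi h0 habs l m hl hm hbal
  have hp0 : 0 < ν.real (Ioi 0) := by
    refine lt_of_le_of_ne measureReal_nonneg fun h => ?_
    have h1 : ν (Ioi 0) = 0 := (measureReal_eq_zero_iff (measure_ne_top _ _)).1 h.symm
    have h2 : ∀ᵐ x ∂ν, |x| = -x := by
      filter_upwards [measure_eq_zero_iff_ae_notMem.1 h1] with x hx
      exact abs_of_nonpos (not_lt.1 hx)
    rw [integral_congr_ae h2, integral_neg, h0, neg_zero] at habs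
    exact lt_irrefl _ habs
  have hq0 : 0 < ν.real (Iio 0) := by
    refine lt_of_le_of_ne measureReal_nonneg fun h => ?_
    have h1 : ν (Iio 0) = 0 := (measureReal_eq_zero_iff (measure_ne_top _ _)).1 h.symm
    have h2 : ∀ᵐ x ∂ν, |x| = x := by
      filter_upwards [measure_eq_zero_iff_ae_notMem.1 h1] with x hx
      exact abs_of_nonneg (not_lt.1 hx)
    rw [integral_congr_ae h2, h0] at habs
    exact lt_irrefl _ habs
  have hP : ν.real {0}ᶜ = ν.real (Ioi 0) + ν.real (Iio 0) := by
    rw [← measureReal_union (by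
      rw [Set.disjoint_left]
      intro x hx hx'
      exact lt_asymm (show (0 : ℝ) < x from hx) hx') measurableSet_Iio]
    congr 1
    ext x
    rw [mem_compl_iff, mem_singleton_iff, mem_union, mem_Ioi, mem_Iio]
    constructor
    · intro h
      exact (lt_or_gt_of_ne h).symm
    · rintro (h | h)
      · exact h.ne'
      · exact h.ne
  have h01 : ν.real {0} = 1 - ν.real {0}ᶜ := by
    rw [probReal_compl_eq_one_sub (measurableSet_singleton 0)]
    ring
  unfold topR
  rw [hP] at h01 ⊢
  set p := ν.real (Ioi 0) with hpdef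
  set q := ν.real (Iio 0) with hqdef
  have hPpos : 0 < p + q := by positivity
  set S : ℝ → ℝ := fun x => Real.sinh (l * x) / Dn l m x with hS
  have hSi : Integrable S ν := FILL.int_quot ν l m hm
  have hS0 : ∫ x, S x ∂ν = 0 := hbal
  set i0 : ℝ → ℝ := ({0} : Set ℝ).indicator 1 with hi0
  set ip : ℝ → ℝ := (Ioi (0 : ℝ)).indicator 1 with hip
  set iq : ℝ → ℝ := (Iio (0 : ℝ)).indicator 1 with hiq
  have hi0i : Integrable i0 ν := (integrable_const (1 : ℝ)).indicator (measurableSet_singleton 0)
  have hipi : Integrable ip ν := (integrable_const (1 : ℝ)).indicator measurableSet_Ioi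
  have hiqi : Integrable iq ν := (integrable_const (1 : ℝ)).indicator measurableSet_Iio
  have v0 : ∫ x, i0 x ∂ν = ν.real {0} := integral_indicator_one (measurableSet_singleton 0)
  have vp : ∫ x, ip x ∂ν = p := integral_indicator_one measurableSet_Ioi
  have vq : ∫ x, iq x ∂ν = q := integral_indicator_one measurableSet_Iio
  have hlog := FILL.int_logD t_LPG ν hi l m hl hm
  have habsi : Integrable (fun x => l * |x|) ν := hi.abs.const_mul l
  have e1 : l * (∫ x, |x| ∂ν) - (∫ x, Real.log (Dn l m x) ∂ν) =
      ∫ x, (l * |x| - Real.log (Dn l m x)) ∂ν := by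
    rw [integral_sub habsi hlog, integral_const_mul]
  have hcp : 0 < p / (p + q) := by positivity
  have hcq : 0 < q / (p + q) := by positivity
  have hpt : ∀ x, l * |x| - Real.log (Dn l m x) ≤
      p / (p + q) * (1 + (1 - m) * S x - i0 x) + q / (p + q) * (1 + (-(1 + m)) * S x - i0 x) +
        (Real.log (p / (p + q))⁻¹ - 1) * ip x + (Real.log (q / (p + q))⁻¹ - 1) * iq x := by
    intro x
    have hD := FILL.Dn_pos l m x hm
    have ea := ea_eq l m x hm
    have eb := eb_eq l m x hm
    have hea : 0 < Real.exp (l * x) / Dn l m x := div_pos (Real.exp_pos _) hD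
    have heb : 0 < Real.exp (-(l * x)) / Dn l m x := div_pos (Real.exp_pos _) hD
    rw [show 1 + (1 - m) * S x = Real.exp (l * x) / Dn l m x from ea.symm,
      show 1 + (-(1 + m)) * S x = Real.exp (-(l * x)) / Dn l m x from eb.symm]
    rcases lt_trichotomy x 0 with h | h | h
    · have a1 : i0 x = 0 := indicator_of_notMem (show x ∉ ({0} : Set ℝ) from fun h' => h.ne h') _
      have a2 : ip x = 0 := indicator_of_notMem (show x ∉ Ioi (0 : ℝ) from fun h' => lt_asymm h h') _
      have a3 : iq x = 1 := indicator_of_mem (show x ∈ Iio (0 : ℝ) from h) _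
      rw [a1, a2, a3, abs_of_neg h]
      have h1 := log_le heb hcq
      rw [Real.log_div (Real.exp_pos _).ne' hD.ne', Real.log_exp] at h1
      have h2 := mul_pos hcp hea
      linarith
    · subst h
      have a1 : i0 0 = 1 := indicator_of_mem (mem_singleton 0) _
      have a2 : ip 0 = 0 := indicator_of_notMem (show (0 : ℝ) ∉ Ioi (0 : ℝ) from lt_irrefl (0 : ℝ)) _
      have a3 : iq 0 = 0 := indicator_of_notMem (show (0 : ℝ) ∉ Iio (0 : ℝ) from lt_irrefl (0 : ℝ)) _
      rw [a1, a2, a3, FILL.Dn_zero]
      simp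
    · have a1 : i0 x = 0 := indicator_of_notMem (show x ∉ ({0} : Set ℝ) from fun h' => h.ne' h') _
      have a2 : ip x = 1 := indicator_of_mem (show x ∈ Ioi (0 : ℝ) from h) _
      have a3 : iq x = 0 := indicator_of_notMem (show x ∉ Iio (0 : ℝ) from fun h' => lt_asymm h h') _
      rw [a1, a2, a3, abs_of_pos h]
      have h1 := log_le hea hcp
      rw [Real.log_div (Real.exp_pos _).ne' hD.ne', Real.log_exp] at h1
      have h2 := mul_pos hcq heb
      linarith
  have j1 : Integrable (fun x => 1 + (1 - m) * S x - i0 x) ν :=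
    ((integrable_const 1).add (hSi.const_mul _)).sub hi0i
  have j2 : Integrable (fun x => 1 + (-(1 + m)) * S x - i0 x) ν :=
    ((integrable_const 1).add (hSi.const_mul _)).sub hi0i
  have w : ∀ c : ℝ, ∫ x, (1 + c * S x - i0 x) ∂ν = p + q := by
    intro c
    have k1 : Integrable (fun x => c * S x) ν := hSi.const_mul c
    have k2 : Integrable (fun x => 1 + c * S x) ν := (integrable_const 1).add k1
    rw [integral_sub k2 hi0i, integral_add (integrable_const 1) k1, integral_const_mul, hS0, v0, h01]
    simp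
  have hle := integral_mono (habsi.sub hlog)
    ((((j1.const_mul (p / (p + q))).add (j2.const_mul (q / (p + q)))).add
      (hipi.const_mul (Real.log (p / (p + q))⁻¹ - 1))).add
      (hiqi.const_mul (Real.log (q / (p + q))⁻¹ - 1))) hpt
  rw [e1]
  refine hle.trans (le_of_eq ?_)
  have hval : ∫ x, (p / (p + q) * (1 + (1 - m) * S x - i0 x) +
      q / (p + q) * (1 + (-(1 + m)) * S x - i0 x) +
        (Real.log (p / (p + q))⁻¹ - 1) * ip x + (Real.log (q / (p + q))⁻¹ - 1) * iq x) ∂ν =
      p / (p + q) * (p + q) + q / (p + q) * (p + q) + (Real.log (p / (p + q))⁻¹ - 1) * p +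
        (Real.log (q / (p + q))⁻¹ - 1) * q := by
    have k1 : Integrable (fun x => p / (p + q) * (1 + (1 - m) * S x - i0 x)) ν := j1.const_mul _
    have k2 : Integrable (fun x => q / (p + q) * (1 + (-(1 + m)) * S x - i0 x)) ν := j2.const_mul _
    have k3 : Integrable (fun x => (Real.log (p / (p + q))⁻¹ - 1) * ip x) ν := hipi.const_mul _
    have k4 : Integrable (fun x => (Real.log (q / (p + q))⁻¹ - 1) * iq x) ν := hiqi.const_mul _
    have k5 : Integrable (fun x => p / (p + q) * (1 + (1 - m) * S x - i0 x) +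
      q / (p + q) * (1 + (-(1 + m)) * S x - i0 x)) ν := k1.add k2
    have k6 : Integrable (fun x => p / (p + q) * (1 + (1 - m) * S x - i0 x) +
      q / (p + q) * (1 + (-(1 + m)) * S x - i0 x) + (Real.log (p / (p + q))⁻¹ - 1) * ip x) ν := k5.add k3
    rw [integral_add k6 k4, integral_add k5 k3, integral_add k1 k2, integral_const_mul, integral_const_mul,
      integral_const_mul, integral_const_mul, w, w, vp, vq]
  refine Eq.trans hval ?_
  have hq' : 1 - p / (p + q) = q / (p + q) := by
    field_simp
    ring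
  unfold Real.binEntropy
  rw [hq']
  field_simp
  ring

end Pool.Agent.H493.SZ
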