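import Pool.Agent.H493.SZ.Def9
import Pool.Agent.H493.SZ.FIL
import Pool.Agent.H493.SZ.LPG

set_option autoImplicit false

/-! S_TOPB: the rate as a difference of entropies (written by helper377). -/

open Complex Filter Topology Set MeasureTheory ProbabilityTheory

namespace Pool.Agent.H493.SZ

namespace TOPBL

theorem one_add_tn (l m x : ℝ) (hm : |m| < 1) :
    (1 + tn l m x) / 2 = (1 + m) / 2 * (Real.exp (l * x) / Dn l m x) := by
  have hD := (FILL.Dn_pos l m x hm).ne'
  rw [← Real.cosh_add_sinh (l * x)]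
  unfold tn
  field_simp
  unfold Dn
  ring

theorem one_sub_tn (l m x : ℝ) (hm : |m| < 1) :
    (1 - tn l m x) / 2 = (1 - m) / 2 * (Real.exp (-(l * x)) / Dn l m x) := by
  have hD := (FILL.Dn_pos l m x hm).ne'
  have h : Real.exp (-(l * x)) = Real.cosh (l * x) - Real.sinh (l * x) := by
    rw [← Real.cosh_add_sinh (-(l * x)), Real.cosh_neg, Real.sinh_neg]
    ring
  rw [h]
  unfold tn
  field_simp
  unfold Dn
  ring

theorem tn_eq (l m x : ℝ) (hm : |m| < 1) :
    tn l m x = m + (1 - m ^ 2) * (Real.sinh (l * x) / Dn l m x) := by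
  have hD := (FILL.Dn_pos l m x hm).ne'
  unfold tn
  field_simp
  unfold Dn
  ring

theorem tn_zero (l m : ℝ) : tn l m 0 = m := by
  simp [tn, Dn]

theorem pointwise (l m x : ℝ) (hm : |m| < 1) :
    l * (x * tn l m x) - Real.log (Dn l m x) =
      - Real.binEntropy ((1 + tn l m x) / 2) - (1 + tn l m x) / 2 * Real.log ((1 + m) / 2) -
        (1 - tn l m x) / 2 * Real.log ((1 - m) / 2) := by
  have hD := FILL.Dn_pos l m x hm
  obtain ⟨hm1, hm2⟩ := abs_lt.1 hm
  have hp : (0 : ℝ) < (1 + m) / 2 := by linarith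
  have hq : (0 : ℝ) < (1 - m) / 2 := by linarith
  have hlA : Real.log ((1 + tn l m x) / 2) = Real.log ((1 + m) / 2) + l * x - Real.log (Dn l m x) := by
    rw [one_add_tn l m x hm, Real.log_mul hp.ne' (div_pos (Real.exp_pos _) hD).ne',
      Real.log_div (Real.exp_pos _).ne' hD.ne', Real.log_exp]
    ring
  have hlB : Real.log ((1 - tn l m x) / 2) = Real.log ((1 - m) / 2) - l * x - Real.log (Dn l m x) := by
    rw [one_sub_tn l m x hm, Real.log_mul hq.ne' (div_pos (Real.exp_pos _) hD).ne',
      Real.log_div (Real.exp_pos _).ne' hD.ne', Real.log_exp]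
    ring
  have hB : 1 - (1 + tn l m x) / 2 = (1 - tn l m x) / 2 := by ring
  unfold Real.binEntropy
  rw [hB, Real.log_inv, Real.log_inv, hlA, hlB]
  ring

theorem ent_bound (u : ℝ) (h0 : 0 ≤ u) (h1 : u ≤ 1) : ‖Real.binEntropy u‖ ≤ Real.log 2 := by
  rw [Real.norm_eq_abs, abs_of_nonneg (Real.binEntropy_nonneg h0 h1)]
  exact Real.binEntropy_le_log_two

end TOPBL

open TOPBL in
theorem t_TOPB : S_TOPB := by
  intro ν _ hi l m hl hm hbal
  have hL : S_LPG := t_LPG
  have htn : ∀ x, |tn l m x| ≤ 1 := fun x => (hL l m hl hm).2.1 x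
  have hlog := FILL.int_logD hL ν hi l m hl hm
  have hxt := FILL.int_xtn hL ν hi l m hl hm
  have hmt := FILL.meas_tn l m
  have hit : Integrable (fun x => tn l m x) ν :=
    Integrable.of_bound hmt.aestronglyMeasurable 1 (ae_of_all _ fun x => by
      rw [Real.norm_eq_abs]; exact htn x)
  have hIt : ∫ x, tn l m x ∂ν = m := by
    have e : ∀ x, tn l m x = m + (1 - m ^ 2) * (Real.sinh (l * x) / Dn l m x) :=
      fun x => tn_eq l m x hm
    simp only [e]
    rw [integral_add (integrable_const _) ((FILL.int_quot ν l m hm).const_mul _),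
      integral_const_mul, hbal]
    simp
  set f : ℝ → ℝ := fun x => Real.binEntropy ((1 + tn l m x) / 2) with hf
  have hfm : Measurable f :=
    Real.binEntropy_continuous.measurable.comp ((hmt.const_add 1).div_const 2)
  have hfi : Integrable f ν :=
    Integrable.of_bound hfm.aestronglyMeasurable (Real.log 2) (ae_of_all _ fun x => by
      obtain ⟨h1, h2⟩ := abs_le.1 (htn x)
      exact ent_bound _ (by linarith) (by linarith))
  have hA : Integrable (fun x => (1 + tn l m x) / 2 * Real.log ((1 + m) / 2)) ν :=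
    (((integrable_const 1).add hit).div_const 2).mul_const _
  have hB : Integrable (fun x => (1 - tn l m x) / 2 * Real.log ((1 - m) / 2)) ν :=
    (((integrable_const 1).sub hit).div_const 2).mul_const _
  have hIA : ∫ x, (1 + tn l m x) / 2 * Real.log ((1 + m) / 2) ∂ν =
      (1 + m) / 2 * Real.log ((1 + m) / 2) := by
    rw [integral_mul_const, integral_div, integral_add (integrable_const 1) hit, hIt]
    simp
  have hIB : ∫ x, (1 - tn l m x) / 2 * Real.log ((1 - m) / 2) ∂ν =
      (1 - m) / 2 * Real.log ((1 - m) / 2) := by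
    rw [integral_mul_const, integral_div, integral_sub (integrable_const 1) hit, hIt]
    simp
  have hrate : l * (∫ x, x * tn l m x ∂ν) - (∫ x, Real.log (Dn l m x) ∂ν) =
      Real.binEntropy ((1 + m) / 2) - ∫ x, f x ∂ν := by
    rw [← integral_const_mul, ← integral_sub (hxt.const_mul l) hlog]
    have e : ∀ x, l * (x * tn l m x) - Real.log (Dn l m x) =
        - f x - (1 + tn l m x) / 2 * Real.log ((1 + m) / 2) -
        (1 - tn l m x) / 2 * Real.log ((1 - m) / 2) := fun x => pointwise l m x hm
    simp only [e]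
    have hnf : Integrable (fun x => - f x) ν := hfi.neg
    have h1 : Integrable (fun x => - f x - (1 + tn l m x) / 2 * Real.log ((1 + m) / 2)) ν :=
      hnf.sub hA
    rw [integral_sub h1 hB, integral_sub hnf hA, integral_neg, hIA, hIB]
    have hB : 1 - (1 + m) / 2 = (1 - m) / 2 := by ring
    rw [Real.binEntropy, hB, Real.log_inv, Real.log_inv]
    ring
  have hsplit := integral_add_compl (measurableSet_singleton (0 : ℝ)) hfi
  have hsing : ∫ x in {(0 : ℝ)}, f x ∂ν = ν.real {0} * Real.binEntropy ((1 + m) / 2) := by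
    rw [integral_singleton, smul_eq_mul]
    simp only [hf, tn_zero]
  have hcompl : ∫ x in {(0 : ℝ)}ᶜ, f x ∂ν =
      ∫ x in {(0 : ℝ)}ᶜ, Real.binEntropy ((1 - Real.sign x * tn l m x) / 2) ∂ν := by
    refine setIntegral_congr_fun (measurableSet_singleton (0 : ℝ)).compl fun x hx => ?_
    have hx0 : x ≠ 0 := hx
    simp only [hf]
    rcases lt_or_gt_of_ne hx0 with h | h
    · rw [Real.sign_of_neg h]
      congr 1
      ring
    · rw [Real.sign_of_pos h, ← Real.binEntropy_one_sub]
      congr 1
      ring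
  have hP : ν.real {(0 : ℝ)}ᶜ = 1 - ν.real {(0 : ℝ)} := by
    rw [probReal_compl_eq_one_sub (measurableSet_singleton (0 : ℝ))]
  rw [hrate, ← hsplit, hsing, hcompl, hP]
  ring

end Pool.Agent.H493.SZ
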