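import Pool.Agent.H493.SZ.Def9

set_option autoImplicit false

/-! Project SZ (helper493): the rates of the balanced pairs tend to `topR`. -/

open Complex Filter Topology Set MeasureTheory ProbabilityTheory

namespace Pool.Agent.H493.SZ

namespace TOPCL

theorem meas_Dn (l m : ℝ) : Measurable (fun x => Dn l m x) := by
  unfold Dn
  fun_prop

theorem meas_tn (l m : ℝ) : Measurable (fun x => tn l m x) := by
  unfold tn
  exact Measurable.div (by fun_prop) (meas_Dn l m)

theorem meas_sign : Measurable Real.sign := by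
  unfold Real.sign
  exact Measurable.ite measurableSet_Iio measurable_const
    (Measurable.ite measurableSet_Ioi measurable_const measurable_const)

theorem abs_sign_le (x : ℝ) : |Real.sign x| ≤ 1 := by
  rcases Real.sign_apply_eq x with h | h | h <;> rw [h] <;> norm_num

/-- near zero the entropy is small, elsewhere it is bounded -/
theorem ent_lin (δ : ℝ) (hδ : 0 < δ) : ∃ C : ℝ, 0 < C ∧ ∀ u : ℝ, 0 ≤ u → u ≤ 1 →
    Real.binEntropy u ≤ δ + C * u := by
  have hc : ContinuousAt Real.binEntropy 0 := Real.binEntropy_continuous.continuousAt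
  rw [Metric.continuousAt_iff] at hc
  obtain ⟨η, hη, h⟩ := hc δ hδ
  refine ⟨1 / η, by positivity, fun u hu _ => ?_⟩
  by_cases h1 : u < η
  · have h2 := h (x := u) (by rw [Real.dist_eq, sub_zero, abs_of_nonneg hu]; exact h1)
    rw [Real.dist_eq, Real.binEntropy_zero, sub_zero] at h2
    have h3 := le_abs_self (Real.binEntropy u)
    have h4 : 0 ≤ 1 / η * u := by positivity
    linarith
  · have h2 : Real.binEntropy u ≤ Real.log 2 := Real.binEntropy_le_log_two
    have h3 : Real.log 2 ≤ 1 := by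
      have := Real.log_two_lt_d9
      linarith
    have h4 : 1 ≤ 1 / η * u := by
      rw [one_div, inv_mul_eq_div, le_div_iff₀ hη]
      linarith
    linarith

end TOPCL

theorem t_TOPC : J_TOPC := by
  intro hL hB hW ν _ hi h0 hp ε hε
  obtain ⟨C, hC, hCu⟩ := TOPCL.ent_lin (ε / 4) (by positivity)
  have hP : 0 < ν.real {0}ᶜ := by
    refine lt_of_le_of_ne measureReal_nonneg fun h => ?_
    have h1 : ν ({0}ᶜ : Set ℝ) = 0 := by
      have := h.symm
      rwa [measureReal_eq_zero_iff] at this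
    have h2 : ∀ᵐ x ∂ν, |x| = 0 := by
      rw [ae_iff]
      convert h1 using 2
      ext x
      simp
    have h3 : ∫ x, |x| ∂ν = 0 := by
      rw [integral_congr_ae (g := fun _ => (0 : ℝ)) h2]
      simp
    linarith
  have hP1 : ν.real {0}ᶜ ≤ 1 := measureReal_le_one
  have hc : ContinuousAt Real.binEntropy (ν.real (Ioi 0) / ν.real {0}ᶜ) :=
    Real.binEntropy_continuous.continuousAt
  rw [Metric.continuousAt_iff] at hc
  obtain ⟨δ, hδ, hcc⟩ := hc (ε / 2) (by positivity)
  obtain ⟨L, hL0, hLw⟩ := hW ν hi h0 hp (min (δ * ν.real {0}ᶜ / 2) (ε / (8 * C)))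
    (lt_min (by positivity) (by positivity))
  refine ⟨L, hL0, fun l m hl hm hb => ?_⟩
  have hl0 : 0 < l := lt_of_lt_of_le hL0 hl
  obtain ⟨w1, w2⟩ := hLw l m hl hm hb
  rw [hB ν hi l m hl0 hm hb]
  have htn := (hL l m hl0 hm).2.1
  have hw : ∀ x : ℝ, 0 ≤ (1 - Real.sign x * tn l m x) / 2 ∧ (1 - Real.sign x * tn l m x) / 2 ≤ 1 := by
    intro x
    have h1 : |Real.sign x * tn l m x| ≤ 1 := by
      rw [abs_mul]
      exact mul_le_one₀ (TOPCL.abs_sign_le x) (abs_nonneg _) (htn x)
    have h2 := abs_le.1 h1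
    constructor <;> linarith [h2.1, h2.2]
  have hmw : Measurable (fun x => (1 - Real.sign x * tn l m x) / 2) :=
    (measurable_const.sub (TOPCL.meas_sign.mul (TOPCL.meas_tn l m))).div_const 2
  have hiw : Integrable (fun x => (1 - Real.sign x * tn l m x) / 2) (ν.restrict {0}ᶜ) := by
    refine Integrable.of_bound hmw.aestronglyMeasurable 1 (Eventually.of_forall fun x => ?_)
    rw [Real.norm_eq_abs, abs_of_nonneg (hw x).1]
    exact (hw x).2
  have h5 : ∫ x in {0}ᶜ, Real.binEntropy ((1 - Real.sign x * tn l m x) / 2) ∂ν ≤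
      ∫ x in {0}ᶜ, (ε / 4 + C * ((1 - Real.sign x * tn l m x) / 2)) ∂ν := by
    refine integral_mono_of_nonneg (Eventually.of_forall fun x => ?_)
      ((integrable_const _).add (hiw.const_mul C)) (Eventually.of_forall fun x => ?_)
    · exact Real.binEntropy_nonneg (hw x).1 (hw x).2
    · exact hCu _ (hw x).1 (hw x).2
  rw [integral_add (integrable_const _) (hiw.const_mul C), integral_const_mul, setIntegral_const,
    smul_eq_mul] at h5
  have h6 : C * ∫ x in {0}ᶜ, (1 - Real.sign x * tn l m x) / 2 ∂ν ≤ ε / 8 := by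
    have h7 := mul_le_mul_of_nonneg_left (w1.trans (min_le_right _ _)) hC.le
    refine h7.trans (le_of_eq ?_)
    field_simp
  have h8 : ν.real {0}ᶜ * (ε / 4) ≤ ε / 4 := by
    nlinarith
  have h9 : dist ((1 + m) / 2) (ν.real (Ioi 0) / ν.real {0}ᶜ) < δ := by
    rw [Real.dist_eq]
    have e1 : (1 + m) / 2 - ν.real (Ioi 0) / ν.real {0}ᶜ =
        (ν.real {0}ᶜ * ((1 + m) / 2) - ν.real (Ioi 0)) / ν.real {0}ᶜ := by
      field_simp
    rw [e1, abs_div, abs_of_pos hP, div_lt_iff₀ hP]
    have := w2.trans (min_le_left _ _)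
    have h10 : 0 < δ * ν.real {0}ᶜ := mul_pos hδ hP
    linarith
  have h11 := hcc h9
  rw [Real.dist_eq] at h11
  have h12 := (abs_lt.1 h11).1
  have h13 : ν.real {0}ᶜ * Real.binEntropy (ν.real (Ioi 0) / ν.real {0}ᶜ) - ε / 2 ≤
      ν.real {0}ᶜ * Real.binEntropy ((1 + m) / 2) := by
    have h14 := mul_le_mul_of_nonneg_left h12.le hP.le
    have h15 : ν.real {0}ᶜ * (ε / 2) ≤ ε / 2 := by nlinarith
    linarith
  unfold topR
  linarith

end Pool.Agent.H493.SZ
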