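import Pool.Agent.H493.SZ.Def9
import Pool.Agent.H493.SZ.FIL
import Pool.Agent.H493.SZ.LPG
import Pool.Agent.H493.SZ.BAL
import Pool.Agent.H493.SZ.CntX

set_option autoImplicit false

/-! The range of the rates of the balanced pairs. -/

open Complex Filter Topology Set MeasureTheory ProbabilityTheory

namespace Pool.Agent.H493.SZ

theorem abs_tn_lt {l m : ℝ} (hm : |m| < 1) (x : ℝ) : |tn l m x| < 1 := by
  have hD := FILL.Dn_pos l m x hm
  obtain ⟨h1, h2⟩ := abs_lt.1 hm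
  have e1 := Real.exp_pos (l * x)
  have e2 := Real.exp_pos (-(l * x))
  rw [← Real.cosh_add_sinh] at e1
  rw [← Real.cosh_sub_sinh] at e2
  unfold tn
  rw [abs_div, abs_of_pos hD, div_lt_one hD, abs_lt]
  unfold Dn
  constructor
  · have := mul_pos (show 0 < 1 + m by linarith) e1
    linarith
  · have := mul_pos (show 0 < 1 - m by linarith) e2
    linarith

theorem gain_lt {ν : Measure ℝ} [IsProbabilityMeasure ν] (hi : Integrable (fun x => x) ν) (h1 : 0 < ∫ x, |x| ∂ν)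
    {l m : ℝ} (hl : 0 < l) (hm : |m| < 1) : ∫ x, x * tn l m x ∂ν < ∫ x, |x| ∂ν := by
  have hi2 := FILL.int_xtn t_LPG ν hi l m hl hm
  have hnn : 0 ≤ fun x : ℝ => |x| - x * tn l m x := by
    intro x
    have := (le_abs_self (x * tn l m x)).trans (FILL.xtn_bound t_LPG l m x hl hm)
    show 0 ≤ |x| - x * tn l m x
    linarith
  have hI : ∫ x, (|x| - x * tn l m x) ∂ν = ∫ x, |x| ∂ν - ∫ x, x * tn l m x ∂ν := integral_sub hi.abs hi2
  by_contra hcon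
  push Not at hcon
  have hz := (integral_eq_zero_iff_of_nonneg hnn (hi.abs.sub hi2)).mp
    (le_antisymm (by rw [hI]; linarith) (integral_nonneg hnn))
  have h5 : ∫ x, |x| ∂ν = 0 := by
    have hU0 : ∀ᵐ x ∂ν, |x| = 0 := by
      filter_upwards [hz] with x hx
      have hx' : |x| - x * tn l m x = 0 := hx
      have h6 : |x * tn l m x| = |x| := by
        rw [← sub_eq_zero.1 hx', abs_abs]
      rw [abs_mul] at h6
      have h7 := abs_tn_lt (l := l) hm x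
      have h8 := abs_nonneg x
      by_contra h9
      have h10 : 0 < |x| := lt_of_le_of_ne h8 (Ne.symm h9)
      nlinarith
    rw [integral_congr_ae hU0, integral_zero]
  linarith

theorem top_final (hA : S_TOPA) (hC : S_TOPC) (ν : Measure ℝ) [IsProbabilityMeasure ν] (hi : Integrable (fun x => x) ν)
    (h0 : ∫ x, x ∂ν = 0) (h1 : 0 < ∫ x, |x| ∂ν) :
    (∀ κ : ℝ, (∃ l m : ℝ, (0 < l ∧ |m| < 1 ∧ ∫ x, Real.sinh (l * x) / Dn l m x ∂ν = 0) ∧
      l * (∫ x, x * tn l m x ∂ν) - (∫ x, Real.log (Dn l m x) ∂ν) = κ) ↔ 0 < κ ∧ κ < topR ν) ∧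
    (∀ l m : ℝ, 0 < l → |m| < 1 → ∫ x, Real.sinh (l * x) / Dn l m x ∂ν = 0 →
      ∫ x, |x| ∂ν - topR ν / l ≤ ∫ x, x * tn l m x ∂ν ∧ ∫ x, x * tn l m x ∂ν < ∫ x, |x| ∂ν) := by
  have key : ∀ l m : ℝ, 0 < l → |m| < 1 → ∫ x, Real.sinh (l * x) / Dn l m x ∂ν = 0 →
      0 < l * (∫ x, x * tn l m x ∂ν) - (∫ x, Real.log (Dn l m x) ∂ν) := fun l m hl hm _ =>
    rate_pos t_LPG hi h1 hl hm
  refine ⟨fun κ => ⟨?_, ?_⟩, fun l m hl hm hb => ?_⟩
  · rintro ⟨l, m, ⟨hl, hm, hb⟩, rfl⟩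
    refine ⟨key l m hl hm hb, ?_⟩
    have h2 := hA ν hi h0 h1 l m hl hm hb
    have h3 := mul_lt_mul_of_pos_left (gain_lt hi h1 hl hm) hl
    linarith
  · rintro ⟨hκ, hκ1⟩
    obtain ⟨L, hL, h2⟩ := hC ν hi h0 h1 (topR ν - κ) (by linarith)
    obtain ⟨m, hm, hb⟩ := t_BAL ν hi h0 h1 L hL
    have h3 := h2 L m le_rfl hm hb
    obtain ⟨l', m', hl', hm', h4, h5⟩ := t_FIL t_BAL t_LPG ν hi h0 h1 L m hL hm hb κ hκ (by linarith)
    exact ⟨l', m', ⟨hl', hm', h4⟩, h5⟩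
  · refine ⟨?_, gain_lt hi h1 hl hm⟩
    have h2 := hA ν hi h0 h1 l m hl hm hb
    have h3 := key l m hl hm hb
    have h4 : l * (∫ x, |x| ∂ν - ∫ x, x * tn l m x ∂ν) ≤ topR ν := by linarith
    rw [sub_le_comm, le_div_iff₀ hl]
    linarith

end Pool.Agent.H493.SZ
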