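import Pool.Agent.H493.SZ.Def9
import Pool.Agent.H493.SZ.FIL
import Pool.Agent.H493.SZ.LPG

set_option autoImplicit false

/-! S_TOPW (written by helper799): the wrong sign probability tends to 0. -/

open Complex Filter Topology Set MeasureTheory ProbabilityTheory

namespace Pool.Agent.H493.SZ

namespace TOPWL

theorem log_le (l m x : ℝ) (hm : |m| < 1) : Real.log (Dn l m x) ≤ l * (x * tn l m x) := by
  have hD := FILL.Dn_pos l m x hm
  obtain ⟨hm1, hm2⟩ := abs_lt.1 hm
  set D := Dn l m x with hDdef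
  have hE := Real.exp_pos (l * x)
  have hF := Real.exp_pos (-(l * x))
  have hEF : Real.exp (l * x) * Real.exp (-(l * x)) = 1 := by
    rw [← Real.exp_add, add_neg_cancel, Real.exp_zero]
  set E := Real.exp (l * x) with hEdef
  set F := Real.exp (-(l * x)) with hFdef
  have hch : Real.cosh (l * x) = (E + F) / 2 := Real.cosh_eq _
  have hsh : Real.sinh (l * x) = (E - F) / 2 := Real.sinh_eq _
  have hD2 : D = ((1 + m) * E + (1 - m) * F) / 2 := by
    rw [hDdef, Dn, hch, hsh]
    ring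
  have htn : tn l m x = ((1 + m) * E - (1 - m) * F) / (2 * D) := by
    rw [tn, ← hDdef, hch, hsh, div_eq_div_iff hD.ne' (by positivity)]
    ring
  have h1 : Real.log D ≤ l * x + (D * F - 1) := by
    have h := Real.log_le_sub_one_of_pos (mul_pos hD hF)
    rw [Real.log_mul hD.ne' hF.ne', hFdef, Real.log_exp] at h
    rw [hFdef]
    linarith
  have h2 : Real.log D ≤ -(l * x) + (D * E - 1) := by
    have h := Real.log_le_sub_one_of_pos (mul_pos hD hE)
    rw [Real.log_mul hD.ne' hE.ne', hEdef, Real.log_exp] at h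
    rw [hEdef]
    linarith
  have ha : 0 ≤ (1 + m) * E := mul_nonneg (by linarith) hE.le
  have hb : 0 ≤ (1 - m) * F := mul_nonneg (by linarith) hF.le
  have h3 := mul_le_mul_of_nonneg_left h1 ha
  have h4 := mul_le_mul_of_nonneg_left h2 hb
  have h5 : 2 * D * Real.log D ≤ l * x * ((1 + m) * E - (1 - m) * F) := by
    have e1 : 2 * D * Real.log D = (1 + m) * E * Real.log D + (1 - m) * F * Real.log D := by
      rw [hD2]
      ring
    have e2 : (1 + m) * E * (l * x + (D * F - 1)) + (1 - m) * F * (-(l * x) + (D * E - 1)) =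
        l * x * ((1 + m) * E - (1 - m) * F) + (E * F * (2 * D) - 2 * D) := by
      have : (1 + m) * E + (1 - m) * F = 2 * D := by rw [hD2]; ring
      linear_combination -this
    rw [hEF] at e2
    rw [e1]
    linarith
  have e3 : l * (x * tn l m x) = (l * x * ((1 + m) * E - (1 - m) * F)) / (2 * D) := by
    rw [htn]
    ring
  rw [e3, le_div_iff₀ (by positivity)]
  linarith

theorem small (ν : Measure ℝ) [IsProbabilityMeasure ν] (ε : ℝ) (hε : 0 < ε) :
    ∃ c : ℝ, 0 < c ∧ ν.real {x : ℝ | 0 < |x| ∧ |x| < c} ≤ ε := by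
  have hT : Tendsto (fun n : ℕ => ν {x : ℝ | 0 < |x| ∧ |x| < 1 / ((n : ℝ) + 1)}) atTop
      (𝓝 (ν (⋂ n : ℕ, {x : ℝ | 0 < |x| ∧ |x| < 1 / ((n : ℝ) + 1)}))) := by
    refine tendsto_measure_iInter_atTop (fun n => ?_) ?_ ⟨0, measure_ne_top _ _⟩
    · have h1 : MeasurableSet {x : ℝ | 0 < |x|} := measurableSet_lt measurable_const measurable_id.abs
      have h2 : MeasurableSet {x : ℝ | |x| < 1 / ((n : ℝ) + 1)} :=
        measurableSet_lt measurable_id.abs measurable_const
      exact (h1.inter h2).nullMeasurableSet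
    · intro a b hab x hx
      refine ⟨hx.1, hx.2.trans_le ?_⟩
      have : (a : ℝ) ≤ b := by exact_mod_cast hab
      exact one_div_le_one_div_of_le (by positivity) (by linarith)
  have hE : (⋂ n : ℕ, {x : ℝ | 0 < |x| ∧ |x| < 1 / ((n : ℝ) + 1)}) = ∅ := by
    rw [Set.eq_empty_iff_forall_notMem]
    intro x hx
    rw [Set.mem_iInter] at hx
    have h0 := (hx 0).1
    obtain ⟨n, hn⟩ := exists_nat_one_div_lt h0
    exact absurd (hx n).2 (not_lt.mpr hn.le)
  rw [hE, measure_empty] at hT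
  have hev := hT.eventually (gt_mem_nhds (ENNReal.ofReal_pos.mpr hε))
  obtain ⟨n, hn⟩ := hev.exists
  refine ⟨1 / ((n : ℝ) + 1), by positivity, ?_⟩
  rw [Measure.real]
  exact ENNReal.toReal_le_of_le_ofReal hε.le hn.le

theorem sign_mul_abs' (x : ℝ) : |x| * Real.sign x = x := by
  rcases lt_trichotomy x 0 with h | h | h
  · rw [Real.sign_of_neg h, abs_of_neg h]; ring
  · rw [h]; simp
  · rw [Real.sign_of_pos h, abs_of_pos h]; ring

theorem sign_abs_le (x : ℝ) : |Real.sign x| ≤ 1 := by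
  rcases lt_trichotomy x 0 with h | h | h
  · rw [Real.sign_of_neg h]; simp
  · rw [h]; simp
  · rw [Real.sign_of_pos h]; simp

/-- the wrong sign probability -/
noncomputable def w (l m x : ℝ) : ℝ := (1 - Real.sign x * tn l m x) / 2

theorem w_mem (l m x : ℝ) (hm : |m| < 1) : 0 ≤ w l m x ∧ w l m x ≤ 1 := by
  have h1 : |Real.sign x * tn l m x| ≤ 1 := by
    rw [abs_mul]
    exact mul_le_one₀ (sign_abs_le x) (abs_nonneg _) (LPGL.abs_tn_le l m x hm)
  obtain ⟨h2, h3⟩ := abs_le.1 h1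
  unfold w
  constructor <;> linarith

theorem meas_sign : Measurable Real.sign := by
  unfold Real.sign
  exact Measurable.ite measurableSet_Iio measurable_const
    (Measurable.ite measurableSet_Ioi measurable_const measurable_const)

theorem meas_w (l m : ℝ) : Measurable (fun x => w l m x) := by
  unfold w
  exact (measurable_const.sub (meas_sign.mul (FILL.meas_tn l m))).div_const 2

theorem int_w (ν : Measure ℝ) [IsFiniteMeasure ν] (l m : ℝ) (hm : |m| < 1) :
    Integrable (fun x => w l m x) ν := by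
  refine Integrable.of_bound (meas_w l m).aestronglyMeasurable 1 (ae_of_all _ fun x => ?_)
  obtain ⟨h1, h2⟩ := w_mem l m x hm
  rw [Real.norm_eq_abs, abs_of_nonneg h1]
  exact h2

theorem tn_eq (l m x : ℝ) (hm : |m| < 1) :
    tn l m x = m + (1 - m ^ 2) * (Real.sinh (l * x) / Dn l m x) := by
  have hD := FILL.Dn_pos l m x hm
  have h1 : tn l m x * Dn l m x = Real.sinh (l * x) + m * Real.cosh (l * x) := by
    unfold tn
    exact div_mul_cancel₀ _ hD.ne'
  have h2 : (m + (1 - m ^ 2) * (Real.sinh (l * x) / Dn l m x)) * Dn l m x =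
      m * Dn l m x + (1 - m ^ 2) * Real.sinh (l * x) := by
    field_simp
  refine mul_right_cancel₀ hD.ne' ?_
  rw [h1, h2, Dn]
  ring

theorem key (ν : Measure ℝ) [IsProbabilityMeasure ν] (l m : ℝ) (hm : |m| < 1)
    (hb : ∫ x, Real.sinh (l * x) / Dn l m x ∂ν = 0) :
    |ν.real {0}ᶜ * ((1 + m) / 2) - ν.real (Ioi 0)| ≤ ∫ x in {0}ᶜ, w l m x ∂ν := by
  have hms : MeasurableSet ({0}ᶜ : Set ℝ) := (measurableSet_singleton 0).compl
  have hi1 : Integrable (fun _ : ℝ => (1 + m) / 2) (ν.restrict {0}ᶜ) := integrable_const _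
  have hi2 : Integrable ((Ioi (0 : ℝ)).indicator fun _ => (1 : ℝ)) (ν.restrict {0}ᶜ) :=
    (integrable_const _).indicator measurableSet_Ioi
  have hi3 : Integrable (fun x => (1 - m ^ 2) / 2 * (Real.sinh (l * x) / Dn l m x)) (ν.restrict {0}ᶜ) :=
    ((FILL.int_quot ν l m hm).const_mul _).restrict
  have hz : ∫ x in {0}ᶜ, (1 - m ^ 2) / 2 * (Real.sinh (l * x) / Dn l m x) ∂ν = 0 := by
    rw [setIntegral_eq_integral_of_forall_compl_eq_zero, integral_const_mul, hb, mul_zero]
    intro x hx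
    have hx0 : x = 0 := by simpa using hx
    rw [hx0]
    simp
  have e1 : ν.real {0}ᶜ * ((1 + m) / 2) - ν.real (Ioi 0) =
      ∫ x in {0}ᶜ, (((1 + m) / 2 - (Ioi (0 : ℝ)).indicator (fun _ => (1 : ℝ)) x) +
        (1 - m ^ 2) / 2 * (Real.sinh (l * x) / Dn l m x)) ∂ν := by
    have hi12 : Integrable (fun x : ℝ => (1 + m) / 2 - (Ioi (0 : ℝ)).indicator (fun _ => (1 : ℝ)) x)
        (ν.restrict {0}ᶜ) := hi1.sub hi2
    rw [integral_add hi12 hi3, hz, add_zero, integral_sub hi1 hi2, setIntegral_const,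
      setIntegral_indicator measurableSet_Ioi, setIntegral_const, smul_eq_mul, smul_eq_mul, mul_one]
    congr 2
    refine (Set.inter_eq_right.mpr ?_).symm
    intro x hx
    have : (0 : ℝ) < x := hx
    simpa using this.ne'
  rw [e1, ← Real.norm_eq_abs]
  refine norm_integral_le_of_norm_le (int_w ν l m hm).restrict ?_
  refine (ae_restrict_iff' hms).mpr (ae_of_all _ fun x hx => ?_)
  have hx0 : x ≠ 0 := by simpa using hx
  have ht := tn_eq l m x hm
  obtain ⟨hw0, _⟩ := w_mem l m x hm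
  rcases lt_or_gt_of_ne hx0 with h | h
  · have h1 : (Ioi (0 : ℝ)).indicator (fun _ => (1 : ℝ)) x = 0 :=
      Set.indicator_of_notMem (by simpa using h.le) _
    have h2 : (1 + m) / 2 - 0 + (1 - m ^ 2) / 2 * (Real.sinh (l * x) / Dn l m x) = w l m x := by
      rw [w, Real.sign_of_neg h, ht]
      ring
    rw [h1, h2, Real.norm_eq_abs, abs_of_nonneg hw0]
  · have h1 : (Ioi (0 : ℝ)).indicator (fun _ => (1 : ℝ)) x = 1 :=
      Set.indicator_of_mem (by simpa using h) _
    have h2 : (1 + m) / 2 - 1 + (1 - m ^ 2) / 2 * (Real.sinh (l * x) / Dn l m x) = -w l m x := by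
      rw [w, Real.sign_of_pos h, ht]
      ring
    rw [h1, h2, norm_neg, Real.norm_eq_abs, abs_of_nonneg hw0]

theorem markov (ν : Measure ℝ) [IsProbabilityMeasure ν] (hi : Integrable (fun x => x) ν)
    (hL : S_LPG) (l m c : ℝ) (hl : 0 < l) (hm : |m| < 1) (hc : 0 < c) :
    ∫ x in {0}ᶜ, w l m x ∂ν ≤ ν.real {x : ℝ | 0 < |x| ∧ |x| < c} +
      ((∫ x, |x| ∂ν) - ∫ x, x * tn l m x ∂ν) / (2 * c) := by
  have hms : MeasurableSet ({0}ᶜ : Set ℝ) := (measurableSet_singleton 0).compl
  have hS : MeasurableSet {x : ℝ | 0 < |x| ∧ |x| < c} := by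
    have h1 : MeasurableSet {x : ℝ | 0 < |x|} := measurableSet_lt measurable_const measurable_id.abs
    have h2 : MeasurableSet {x : ℝ | |x| < c} := measurableSet_lt measurable_id.abs measurable_const
    exact h1.inter h2
  have hia : Integrable (fun x : ℝ => |x|) ν := hi.norm
  have hit := FILL.int_xtn hL ν hi l m hl hm
  have hi1 : Integrable ({x : ℝ | 0 < |x| ∧ |x| < c}.indicator fun _ => (1 : ℝ)) ν :=
    (integrable_const _).indicator hS
  have hi2 : Integrable (fun x : ℝ => (|x| - x * tn l m x) / (2 * c)) ν := (hia.sub hit).div_const _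
  have e1 : ν.real {x : ℝ | 0 < |x| ∧ |x| < c} + ((∫ x, |x| ∂ν) - ∫ x, x * tn l m x ∂ν) / (2 * c) =
      ∫ x, ({x : ℝ | 0 < |x| ∧ |x| < c}.indicator (fun _ => (1 : ℝ)) x +
        (|x| - x * tn l m x) / (2 * c)) ∂ν := by
    rw [integral_add hi1 hi2, integral_indicator hS, setIntegral_const, smul_eq_mul, mul_one,
      integral_div, integral_sub hia hit]
  rw [e1, ← integral_indicator hms]
  refine integral_mono ((int_w ν l m hm).indicator hms) (hi1.add hi2) fun x => ?_
  show ({0}ᶜ : Set ℝ).indicator (fun x => w l m x) x ≤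
    {x : ℝ | 0 < |x| ∧ |x| < c}.indicator (fun _ => (1 : ℝ)) x + (|x| - x * tn l m x) / (2 * c)
  obtain ⟨hw0, hw1⟩ := w_mem l m x hm
  have hxw : |x| - x * tn l m x = 2 * (|x| * w l m x) := by
    have h := sign_mul_abs' x
    unfold w
    linear_combination tn l m x * h
  have hxw0 : 0 ≤ |x| * w l m x := mul_nonneg (abs_nonneg x) hw0
  have hq0 : 0 ≤ (|x| - x * tn l m x) / (2 * c) := by
    rw [hxw]
    positivity
  have hin0 : 0 ≤ {x : ℝ | 0 < |x| ∧ |x| < c}.indicator (fun _ => (1 : ℝ)) x :=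
    Set.indicator_nonneg (fun _ _ => zero_le_one) x
  by_cases hx0 : x = 0
  · rw [Set.indicator_of_notMem (by simpa using hx0)]
    linarith
  · rw [Set.indicator_of_mem (by simpa using hx0)]
    by_cases hxc : |x| < c
    · rw [Set.indicator_of_mem (show x ∈ {x : ℝ | 0 < |x| ∧ |x| < c} from ⟨abs_pos.mpr hx0, hxc⟩)]
      linarith
    · have hxc' : c ≤ |x| := not_lt.mp hxc
      have h6 : w l m x ≤ (|x| - x * tn l m x) / (2 * c) := by
        rw [hxw, le_div_iff₀ (by positivity)]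
        nlinarith
      linarith

end TOPWL

open TOPWL in
theorem t_TOPW : J_TOPW := by
  intro hL hA ν _ hi h0 hpos ε hε
  obtain ⟨c, hc, hcm⟩ := small ν (ε / 2) (by linarith)
  refine ⟨max 1 (|topR ν| / (c * ε)), lt_max_of_lt_left one_pos, fun l m hl hm hb => ?_⟩
  have hl1 : 1 ≤ l := (le_max_left _ _).trans hl
  have hl2 : |topR ν| / (c * ε) ≤ l := (le_max_right _ _).trans hl
  have hl0 : 0 < l := by linarith
  have hTA := hA ν hi h0 hpos l m hl0 hm hb
  have hlog : ∫ x, Real.log (Dn l m x) ∂ν ≤ l * ∫ x, x * tn l m x ∂ν := by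
    rw [← integral_const_mul]
    exact integral_mono (FILL.int_logD hL ν hi l m hl0 hm) ((FILL.int_xtn hL ν hi l m hl0 hm).const_mul l)
      fun x => log_le l m x hm
  have hce : 0 < c * ε := mul_pos hc hε
  rw [div_le_iff₀ hce] at hl2
  have hd : (∫ x, |x| ∂ν) - ∫ x, x * tn l m x ∂ν ≤ c * ε := by
    have h1 : l * ((∫ x, |x| ∂ν) - ∫ x, x * tn l m x ∂ν) ≤ l * (c * ε) := by
      have h2 := le_abs_self (topR ν)
      rw [mul_sub]
      linarith
    exact le_of_mul_le_mul_left h1 hl0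
  have hM := markov ν hi hL l m c hl0 hm hc
  have hd2 : ((∫ x, |x| ∂ν) - ∫ x, x * tn l m x ∂ν) / (2 * c) ≤ ε / 2 := by
    rw [div_le_iff₀ (by positivity)]
    linarith
  have hW : ∫ x in {0}ᶜ, w l m x ∂ν ≤ ε := by linarith
  exact ⟨hW, (key ν l m hm hb).trans hW⟩

end Pool.Agent.H493.SZ
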