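import Pool.Agent.H493.SZ.Def7

set_option autoImplicit false

/-! Project SZ: `t_UXD`, the union bound over patterns from exponential moments, general denominators
(helper79, adapted from `t_UEXC` of helper685). -/

open Complex Filter Topology Set MeasureTheory ProbabilityTheory

namespace Pool.Agent.H493.SZ

namespace UXDL

/-- the likelihood ratio -/
noncomputable def F {M : ℕ} (D : ℝ → ℝ) (l : ℝ) (y : Fin M → ℝ → ℝ) (r : Fin M → ℝ) (t : ℝ) : ℝ :=
  ∏ m, (Real.exp (l * (r m * y m t)) / D (y m t))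

/-- convexity of the exponential function -/
lemma conv (r x : ℝ) (hr : |r| ≤ 1) :
    Real.exp (r * x) ≤ (1 + r) / 2 * Real.exp x + (1 - r) / 2 * Real.exp (-x) := by
  have h1 := abs_le.mp hr
  have h := convexOn_exp.2 (mem_univ x) (mem_univ (-x)) (by linarith : 0 ≤ (1 + r) / 2)
    (by linarith : 0 ≤ (1 - r) / 2) (by ring)
  simp only [smul_eq_mul] at h
  have e : (1 + r) / 2 * x + (1 - r) / 2 * -x = r * x := by ring
  rwa [e] at h

/-- the weights -/
noncomputable def w {M : ℕ} (r : Fin M → ℝ) (s : Fin M → Bool) : ℝ := ∏ m, (1 + r m * sgb (s m)) / 2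

lemma sgb_true : sgb true = 1 := by simp [sgb]

lemma sgb_false : sgb false = -1 := by simp [sgb]

lemma w_nonneg {M : ℕ} {r : Fin M → ℝ} (hr : ∀ m, |r m| ≤ 1) (s : Fin M → Bool) : 0 ≤ w r s := by
  refine Finset.prod_nonneg fun m _ => ?_
  have h1 := abs_le.mp (hr m)
  cases s m
  · rw [sgb_false]; linarith
  · rw [sgb_true]; linarith

lemma w_sum {M : ℕ} (r : Fin M → ℝ) : ∑ s : Fin M → Bool, w r s = 1 := by
  have h := Finset.prod_univ_sum (fun _ : Fin M => (Finset.univ : Finset Bool))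
    (fun m b => (1 + r m * sgb b) / 2)
  rw [Fintype.piFinset_univ] at h
  unfold w
  rw [← h]
  refine Finset.prod_eq_one fun m _ => ?_
  rw [Fintype.sum_bool, sgb_true, sgb_false]
  ring

lemma factor {D : ℝ → ℝ} (hD0 : ∀ x, 0 < D x) (l y r : ℝ) (hr : |r| ≤ 1) :
    Real.exp (l * (r * y)) / D y ≤
      ∑ b : Bool, (1 + r * sgb b) / 2 * (Real.exp (l * (sgb b * y)) / D y) := by
  have h := conv r (l * y) hr
  have hc := hD0 y
  rw [Fintype.sum_bool, sgb_true, sgb_false, show l * (r * y) = r * (l * y) by ring,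
    show l * (1 * y) = l * y by ring, show l * (-1 * y) = -(l * y) by ring,
    ← mul_div_assoc, ← mul_div_assoc, ← add_div]
  refine div_le_div_of_nonneg_right ?_ hc.le
  refine h.trans (le_of_eq ?_)
  ring

variable {M : ℕ} {D : ℝ → ℝ} {l C₀ A : ℝ} {y : Fin M → ℝ → ℝ} {r : Fin M → ℝ}

lemma F_nonneg (hD0 : ∀ x, 0 < D x) (t : ℝ) : 0 ≤ F D l y r t :=
  Finset.prod_nonneg fun _ _ => div_nonneg (Real.exp_pos _).le (hD0 _).le

lemma F_le (hD0 : ∀ x, 0 < D x) (hr : ∀ m, |r m| ≤ 1) (t : ℝ) :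
    F D l y r t ≤ ∑ s : Fin M → Bool, w r s * F D l y (fun m => sgb (s m)) t := by
  have h1 : F D l y r t ≤ ∏ m, ∑ b : Bool, (1 + r m * sgb b) / 2 *
      (Real.exp (l * (sgb b * y m t)) / D (y m t)) :=
    Finset.prod_le_prod (fun m _ => div_nonneg (Real.exp_pos _).le (hD0 _).le)
      (fun m _ => factor hD0 l (y m t) (r m) (hr m))
  refine h1.trans (le_of_eq ?_)
  rw [Finset.prod_univ_sum, Fintype.piFinset_univ]
  refine Finset.sum_congr rfl fun s _ => ?_
  rw [Finset.prod_mul_distrib]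
  rfl

lemma F_bdd (hD0 : ∀ x, 0 < D x) (hC : ∀ x, Real.exp |l * x| ≤ C₀ * D x)
    (hr : ∀ m, |r m| ≤ 1) (t : ℝ) : F D l y r t ≤ C₀ ^ M := by
  have h1 : F D l y r t ≤ ∏ _m : Fin M, C₀ := by
    refine Finset.prod_le_prod (fun m _ => div_nonneg (Real.exp_pos _).le (hD0 _).le)
      (fun m _ => ?_)
    rw [div_le_iff₀ (hD0 _)]
    refine le_trans (Real.exp_le_exp.2 ?_) (hC (y m t))
    rw [show l * (r m * y m t) = r m * (l * y m t) by ring]
    refine (le_abs_self _).trans ?_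
    rw [abs_mul]
    exact mul_le_of_le_one_left (abs_nonneg _) (hr m)
  rw [Finset.prod_const, Finset.card_univ, Fintype.card_fin] at h1
  exact h1

lemma F_meas (hD : Measurable D) (hy : ∀ m, Measurable (y m)) : Measurable (F D l y r) := by
  unfold F
  refine Finset.measurable_prod _ fun m _ => ?_
  have h := hy m
  refine Measurable.div ?_ ?_
  · exact Real.measurable_exp.comp ((h.const_mul (r m)).const_mul l)
  · exact hD.comp h

lemma F_int (hD : Measurable D) (hD0 : ∀ x, 0 < D x)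
    (hC : ∀ x, Real.exp |l * x| ≤ C₀ * D x) (hy : ∀ m, Measurable (y m))
    (hr : ∀ m, |r m| ≤ 1) (T : ℝ) :
    IntegrableOn (F D l y r) (Icc T (2 * T)) := by
  refine Measure.integrableOn_of_bounded (M := C₀ ^ M) ?_ (F_meas hD hy).aestronglyMeasurable ?_
  · rw [Real.volume_Icc]
    exact ENNReal.ofReal_ne_top
  · refine ae_of_all _ fun t => ?_
    rw [Real.norm_of_nonneg (F_nonneg hD0 t)]
    exact F_bdd hD0 hC hr t

lemma sgb_abs (s : Fin M → Bool) (m : Fin M) : |sgb (s m)| ≤ 1 := by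
  cases s m
  · rw [sgb_false]; norm_num
  · rw [sgb_true]; norm_num

lemma int_le (hD : Measurable D) (hD0 : ∀ x, 0 < D x)
    (hC : ∀ x, Real.exp |l * x| ≤ C₀ * D x) {T : ℝ} (hT : 0 < T) (hy : ∀ m, Measurable (y m))
    (hr : ∀ m, |r m| ≤ 1)
    (hσ : ∀ σ : Fin M → ℝ, (∀ m, σ m = 1 ∨ σ m = -1) →
      ∫ t in T..(2 * T), ∏ m, (Real.exp (l * (σ m * y m t)) / D (y m t)) ≤ A * T) :
    ∫ t in Icc T (2 * T), F D l y r t ≤ A * T := by
  have h0 : ∀ s : Fin M → Bool, ∫ t in Icc T (2 * T), F D l y (fun m => sgb (s m)) t ≤ A * T := by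
    intro s
    have h := hσ (fun m => sgb (s m)) (by
      intro m
      cases s m
      · right; rw [sgb_false]
      · left; rw [sgb_true])
    rw [intervalIntegral.integral_of_le (by linarith)] at h
    rw [integral_Icc_eq_integral_Ioc]
    exact h
  have hI : ∀ s : Fin M → Bool, Integrable (fun t => w r s * F D l y (fun m => sgb (s m)) t)
      (volume.restrict (Icc T (2 * T))) := fun s =>
    (F_int hD hD0 hC hy (sgb_abs s) T).const_mul (w r s)
  calc ∫ t in Icc T (2 * T), F D l y r t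
      ≤ ∫ t in Icc T (2 * T), ∑ s : Fin M → Bool, w r s * F D l y (fun m => sgb (s m)) t :=
        integral_mono (F_int hD hD0 hC hy hr T) (integrable_finsetSum _ fun s _ => hI s)
          (fun t => F_le hD0 hr t)
    _ = ∑ s : Fin M → Bool, w r s * ∫ t in Icc T (2 * T), F D l y (fun m => sgb (s m)) t := by
        rw [integral_finsetSum _ fun s _ => hI s]
        exact Finset.sum_congr rfl fun s _ => integral_const_mul _ _
    _ ≤ ∑ s : Fin M → Bool, w r s * (A * T) :=
        Finset.sum_le_sum fun s _ => mul_le_mul_of_nonneg_left (h0 s) (w_nonneg hr s)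
    _ = A * T := by rw [← Finset.sum_mul, w_sum, one_mul]

lemma markov (hD : Measurable D) (hD0 : ∀ x, 0 < D x)
    (hC : ∀ x, Real.exp |l * x| ≤ C₀ * D x) {T : ℝ} (hT : 0 < T) (hy : ∀ m, Measurable (y m))
    (hr : ∀ m, |r m| ≤ 1)
    (hσ : ∀ σ : Fin M → ℝ, (∀ m, σ m = 1 ∨ σ m = -1) →
      ∫ t in T..(2 * T), ∏ m, (Real.exp (l * (σ m * y m t)) / D (y m t)) ≤ A * T)
    (c : ℝ) :
    volume {t | t ∈ Icc T (2 * T) ∧ Real.exp c ≤ F D l y r t} ≤
      ENNReal.ofReal (A * Real.exp (-c) * T) := by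
  have h := mul_meas_ge_le_integral_of_nonneg (μ := volume.restrict (Icc T (2 * T)))
    (f := F D l y r) (ae_of_all _ (F_nonneg hD0)) (F_int hD hD0 hC hy hr T) (Real.exp c)
  have hset : MeasurableSet {t | Real.exp c ≤ F D l y r t} :=
    measurableSet_le measurable_const (F_meas hD hy)
  have h2 : (volume.restrict (Icc T (2 * T))) {t | Real.exp c ≤ F D l y r t} =
      volume {t | t ∈ Icc T (2 * T) ∧ Real.exp c ≤ F D l y r t} := by
    rw [Measure.restrict_apply hset, inter_comm]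
    rfl
  have h3 : volume {t | t ∈ Icc T (2 * T) ∧ Real.exp c ≤ F D l y r t} ≠ ⊤ := by
    refine ne_top_of_le_ne_top (b := volume (Icc T (2 * T))) ?_ (measure_mono fun t ht => ht.1)
    rw [Real.volume_Icc]
    exact ENNReal.ofReal_ne_top
  rw [measureReal_def, h2] at h
  rw [← ENNReal.ofReal_toReal h3]
  refine ENNReal.ofReal_le_ofReal ?_
  have h4 := h.trans (int_le hD hD0 hC hT hy hr hσ)
  have h5 : 0 < Real.exp c := Real.exp_pos c
  rw [Real.exp_neg]
  rw [show A * (Real.exp c)⁻¹ * T = A * T / Real.exp c by ring, le_div_iff₀ h5]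
  linarith

lemma F_eq (hD0 : ∀ x, 0 < D x) (t : ℝ) : F D l y r t =
    Real.exp (∑ m, (l * (r m * y m t) - Real.log (D (y m t)))) := by
  unfold F
  rw [Real.exp_sum]
  refine Finset.prod_congr rfl fun m _ => ?_
  rw [Real.exp_sub, Real.exp_log (hD0 _)]

end UXDL

open UXDL in
theorem t_UXD : S_UXD := by
  intro D C₀ hD hD0 M l Λ ε₁ β η ρ ρ₀ T K A N y hl hT hρ₀ hρ hA hC hy hN hcov hσ hB hβ P hP hp
  set B : Set ℝ := {t | t ∈ Icc T (2 * T) ∧
    ε₁ * M ≤ |∑ m, (Real.log (D (y m t)) - Λ)|} with hBdef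
  set R : (ℕ → ℂ) → ℂ → Fin M → ℝ := fun p v m => (v * p m).re with hR
  set E : (ℕ → ℂ) → ℂ → Set ℝ := fun p v =>
    {t | t ∈ Icc T (2 * T) ∧ Real.exp (β * M) ≤ F D l y (R p v) t} with hE
  have hRle : ∀ p ∈ P, ∀ v ∈ N, ∀ m, |R p v m| ≤ 1 := by
    intro p hpP v hv m
    refine (Complex.abs_re_le_norm _).trans ?_
    rw [norm_mul]
    exact mul_le_one₀ (hN v hv) (norm_nonneg _) (hp p hpP m)
  have hsub : (⋃ p ∈ P, {t | t ∈ Icc T (2 * T) ∧ η * M ≤ ‖∑ m : Fin M, p m * (y m t : ℂ)‖}) ⊆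
      (⋃ p ∈ P, ⋃ v ∈ N, E p v) ∪ B := by
    intro t ht
    simp only [mem_iUnion] at ht
    obtain ⟨p, hpP, htI, hts⟩ := ht
    by_cases htB : t ∈ B
    · exact Or.inr htB
    · left
      have h1 : |∑ m, (Real.log (D (y m t)) - Λ)| < ε₁ * M := by
        by_contra hcon
        exact htB ⟨htI, not_lt.mp hcon⟩
      obtain ⟨v, hv, hvz⟩ := hcov (∑ m : Fin M, p m * (y m t : ℂ))
      simp only [mem_iUnion]
      refine ⟨p, hpP, v, hv, htI, ?_⟩
      rw [F_eq hD0, Real.exp_le_exp]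
      have h2 : (v * ∑ m : Fin M, p m * (y m t : ℂ)).re = ∑ m, R p v m * y m t := by
        rw [Finset.mul_sum, Complex.re_sum]
        refine Finset.sum_congr rfl fun m _ => ?_
        rw [← mul_assoc, Complex.re_mul_ofReal]
      have h3 : ∑ m, (l * (R p v m * y m t) - Real.log (D (y m t))) =
          l * (v * ∑ m : Fin M, p m * (y m t : ℂ)).re - M * Λ -
            ∑ m, (Real.log (D (y m t)) - Λ) := by
        rw [h2, Finset.sum_sub_distrib, Finset.sum_sub_distrib, Finset.mul_sum,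
          Finset.sum_const, Finset.card_univ, Fintype.card_fin, nsmul_eq_mul]
        ring
      rw [h3]
      have h4 := (abs_lt.mp h1).2
      have hM : (0 : ℝ) ≤ M := Nat.cast_nonneg M
      have h5 : l * ((1 - ρ) * (η * M)) ≤ l * (v * ∑ m : Fin M, p m * (y m t : ℂ)).re := by
        refine mul_le_mul_of_nonneg_left ?_ hl.le
        exact (mul_le_mul_of_nonneg_left hts (by linarith)).trans hvz
      have h6 : (β + Λ + ε₁) * M ≤ l * ((1 - ρ) * η) * M := mul_le_mul_of_nonneg_right hβ hM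
      nlinarith
  have hcard0 : (0 : ℝ) ≤ N.card := Nat.cast_nonneg _
  have hx0 : 0 ≤ A * Real.exp (-(β * M)) * T := by positivity
  calc volume (⋃ p ∈ P, {t | t ∈ Icc T (2 * T) ∧ η * M ≤ ‖∑ m : Fin M, p m * (y m t : ℂ)‖})
      ≤ volume ((⋃ p ∈ P, ⋃ v ∈ N, E p v) ∪ B) := measure_mono hsub
    _ ≤ volume (⋃ p ∈ P, ⋃ v ∈ N, E p v) + volume B := measure_union_le _ _
    _ ≤ (∑ p ∈ P, ∑ v ∈ N, ENNReal.ofReal (A * Real.exp (-(β * M)) * T)) +
          ENNReal.ofReal (ρ₀ * T) := by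
        refine add_le_add ?_ hB
        refine (measure_biUnion_finset_le P _).trans (Finset.sum_le_sum fun p hpP => ?_)
        refine (measure_biUnion_finset_le N _).trans (Finset.sum_le_sum fun v hv => ?_)
        exact markov hD hD0 hC hT hy (hRle p hpP v hv) hσ (β * M)
    _ = ENNReal.ofReal (P.card * (N.card * (A * Real.exp (-(β * M)) * T))) +
          ENNReal.ofReal (ρ₀ * T) := by
        rw [Finset.sum_const, Finset.sum_const, nsmul_eq_mul, nsmul_eq_mul,
          ENNReal.ofReal_mul (Nat.cast_nonneg _), ENNReal.ofReal_mul hcard0,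
          ENNReal.ofReal_natCast, ENNReal.ofReal_natCast]
    _ = ENNReal.ofReal (P.card * (N.card * (A * Real.exp (-(β * M)) * T)) + ρ₀ * T) := by
        rw [ENNReal.ofReal_add (by positivity) (by positivity)]
    _ ≤ ENNReal.ofReal ((K * N.card * (A * Real.exp (-(β * M))) + ρ₀) * T) := by
        refine ENNReal.ofReal_le_ofReal ?_
        have h7 : (P.card : ℝ) * (N.card * (A * Real.exp (-(β * M)) * T)) ≤
            K * (N.card * (A * Real.exp (-(β * M)) * T)) :=
          mul_le_mul_of_nonneg_right hP (by positivity)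
        nlinarith

end Pool.Agent.H493.SZ
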