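import Pool.Agent.H493.SZ.UpL
import Pool.Agent.H493.SZ.Glo3

set_option autoImplicit false

/-! The exact entropy bound. -/

open Complex Filter Topology Set MeasureTheory ProbabilityTheory
open scoped BoundedContinuousFunction RealInnerProductSpace NNReal

namespace Pool.Agent.H493.SZ

open Pool.Agent.H493.EN

lemma Lam_nonneg (l : ℝ) : 0 ≤ Lam l := integral_nonneg fun x => Real.log_nonneg (Real.one_le_cosh _)

/-- the first coordinate -/
noncomputable def c0 : EuclideanSpace ℝ (Fin 1) → ℝ := fun x => x 0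

lemma c0_lip : LipschitzWith 1 c0 := by
  refine LipschitzWith.of_dist_le_mul fun x y => ?_
  rw [Real.dist_eq, dist_eq_norm, NNReal.coe_one, one_mul]
  have := PiLp.norm_apply_le (x - y) 0
  rwa [Real.norm_eq_abs] at this

lemma lc_lip (hLPT : S_LPT) {l : ℝ} (hl : 0 < l) :
    LipschitzWith (Real.toNNReal l) fun x : EuclideanSpace ℝ (Fin 1) => Real.log (Real.cosh (l * x 0)) := by
  refine LipschitzWith.of_dist_le_mul fun x y => ?_
  rw [Real.dist_eq, dist_eq_norm, Real.coe_toNNReal l hl.le]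
  refine ((hLPT l hl (x 0) (y 0)).1).trans ?_
  have := PiLp.norm_apply_le (x - y) 0
  rw [Real.norm_eq_abs] at this
  exact mul_le_mul_of_nonneg_left this hl.le

lemma c0_mean : ∫ x, c0 x ∂(multivariateGaussian 0 S1) = 0 := by
  have h1 := law1 (fun x => x) continuous_id
  have h2 : ∫ x : ℝ, x ∂(gaussianReal 0 1) = 0 := by
    have := integral_id_gaussianReal (μ := 0) (v := 1)
    simpa using this
  rw [h2] at h1
  exact h1

lemma lc_mean (l : ℝ) : ∫ x : EuclideanSpace ℝ (Fin 1), Real.log (Real.cosh (l * x 0)) ∂(multivariateGaussian 0 S1) = Lam l := by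
  refine law1 (fun x => Real.log (Real.cosh (l * x))) ?_
  exact (Real.continuous_cosh.comp (by fun_prop)).log fun x => (Real.cosh_pos _).ne'

/-- **the exact entropy bound** -/
theorem up1 (hUE : S_UEXC) (hONE : S_ONE) (hLPT : S_LPT) {Λ : ℝ} (hG : Gs 1 Λ S1 (SM S1))
    {κ l ε : ℝ} (hκ : 0 ≤ κ) (hl : 0 < l) (hε : 0 < ε) :
    ∃ (δ : ℝ) (M₀ : ℕ), 0 < δ ∧ ∀ M : ℕ, M₀ ≤ M → ∀ (X : ℝ → ℝ → ℝ → EuclideanSpace ℝ (Fin 1))
      (h : ℝ → ℝ), (∀ s T, Measurable (X s T)) → Obs 1 S1 (SM S1) X h → ∀ᶠ T : ℝ in atTop, ∀ θ : ℝ → ℂ, Measurable θ →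
      (∀ t, ‖θ t‖ ≤ 1) → Follows T (h T) M κ δ θ →
      ‖∫ t in T..(2 * T), θ t * (X (h T) T t 0 : ℂ)‖ ≤ ((κ + Lam l) / l + ε) * T := by
  have hΛ := hG.lam
  have hpi := Real.pi_pos
  have hLm := Lam_nonneg l
  set ε₁ : ℝ := l * ε / 8 with hε₁
  have hε10 : 0 < ε₁ := by positivity
  set D : ℝ := κ + Lam l + l * ε / 2 with hD
  have hD0 : 0 < D := by positivity
  set ρ : ℝ := l * ε / (4 * D) with hρ
  have hρ0 : 0 < ρ := by positivity
  have hρD : ρ * D = l * ε / 4 := by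
    rw [hρ]
    field_simp
  have hρ1 : ρ ≤ 1 := by
    rw [hρ, div_le_one (by positivity)]
    have : 0 < l * ε := by positivity
    linarith
  obtain ⟨N, hN1, hN2⟩ := net hρ0
  set η : ℝ := (κ + Lam l) / l + ε / 2 with hη
  have hηl : l * η = D := by
    rw [hη, hD]
    field_simp
  have hη0 : 0 < η := by positivity
  set β : ℝ := κ + ε₁ with hβ
  have hβη : β + Lam l + ε₁ ≤ l * ((1 - ρ) * η) := by
    have : l * ((1 - ρ) * η) = D - ρ * D := by rw [← hηl]; ring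
    rw [this, hρD, hβ, hD, hε₁]
    linarith
  set c₀ : ℝ := 1 / (32 * Real.pi ^ 2 * l ^ 2 * Λ) with hc₀
  have hc0 : 0 < c₀ := by positivity
  set B := BG S1 c0 ((1 : ℝ≥0) : ℝ) with hB
  have hB0 : 0 ≤ B := BG_nonneg S1 c0 _
  set τ : ℝ := ε / (12 * (B + 1)) with hτ
  have hτ0 : 0 < τ := by positivity
  set δ : ℝ := ε * τ / 12 with hδ
  have hδ0 : 0 < δ := by positivity
  -- the exponentials
  have hlim : Tendsto (fun M : ℕ => (2 * N.card * Real.exp (-(ε₁ * M)) + 5 * Real.exp (-(ε₁ ^ 2 * c₀ * M))) / (2 * τ)) atTop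
      (𝓝 0) := by
    have t1 : ∀ a : ℝ, 0 < a → Tendsto (fun M : ℕ => Real.exp (-(a * (M : ℝ)))) atTop (𝓝 0) := by
      intro a ha
      exact Real.tendsto_exp_neg_atTop_nhds_zero.comp (tendsto_natCast_atTop_atTop.const_mul_atTop ha)
    have h4 := (((t1 ε₁ hε10).const_mul (2 * (N.card : ℝ))).add ((t1 (ε₁ ^ 2 * c₀) (by positivity)).const_mul 5)).div_const (2 * τ)
    simpa using h4
  obtain ⟨M₁, hM₁⟩ := eventually_atTop.1 (hlim.eventually (gt_mem_nhds (show (0 : ℝ) < ε / 8 by positivity)))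
  refine ⟨δ, max M₁ 1, hδ0, fun M hM X h hXm hO => ?_⟩
  have hM1 : 1 ≤ M := (le_max_right _ _).trans hM
  have hMp : (0 : ℝ) < M := by exact_mod_cast hM1
  have hMe := hM₁ M ((le_max_left _ _).trans hM)
  have hMh : ∀ᶠ T : ℝ in atTop, M * (h T / T) < min (τ * (ε / 8)) 1 := by
    have : Tendsto (fun T => M * (h T / T)) atTop (𝓝 (M * 0)) := hO.zero.const_mul _
    rw [mul_zero] at this
    exact this.eventually (gt_mem_nhds (by positivity))
  have hlNN : (0 : ℝ≥0) < Real.toNNReal l := Real.toNNReal_pos.2 hl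
  filter_upwards [tilt_mean hONE hO M l, hO.expo hG hM1 hlNN (lc_lip hLPT hl) hε10, hO.Y_int c0_lip, hO.Y_int2 c0_lip,
    hO.Y_sec c0_lip M, hO.pos, hMh, eventually_ge_atTop (1 : ℝ)] with T h1 h2 h3 h3' h4 h5 h6 h7 θ hθ hθ1 hθP
  have hT : (0 : ℝ) < T := by linarith
  have h8 : M * h T ≤ τ * (ε / 8) * T := by
    have := (h6.trans_le (min_le_left _ _)).le
    rwa [← mul_div_assoc, div_le_iff₀ hT] at this
  have h9 : M * h T ≤ T := by
    have := (h6.trans_le (min_le_right _ _)).le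
    rwa [← mul_div_assoc, div_le_iff₀ hT, one_mul] at this
  have eY : ∀ t, Yg X S1 c0 (h T) T t = X (h T) T t 0 := by
    intro t
    unfold Yg
    rw [c0_mean, sub_zero]
    rfl
  have eL : ∀ t, Yg X S1 (fun x : EuclideanSpace ℝ (Fin 1) => Real.log (Real.cosh (l * x 0))) (h T) T t =
      Real.log (Real.cosh (l * X (h T) T t 0)) - Lam l := by
    intro t
    unfold Yg
    rw [lc_mean]
  -- the typical set
  have h10 : volume {t | t ∈ Icc T (2 * T) ∧ ε₁ * M ≤ |∑ m : Fin M, (Real.log (Real.cosh (l * X (h T) T (t + (m : ℕ) * h T) 0)) - Lam l)|} ≤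
      ENNReal.ofReal (5 * Real.exp (-(ε₁ ^ 2 * c₀ * M)) * T) := by
    have h11 := h2 (fun _ => 1) (fun _ => by simp)
    have e1 : ε₁ ^ 2 * (M : ℝ) / (32 * Real.pi ^ 2 * ((Real.toNNReal l : ℝ≥0) : ℝ) ^ 2 * Λ) = ε₁ ^ 2 * c₀ * M := by
      rw [hc₀, Real.coe_toNNReal l hl.le]
      ring
    rw [e1] at h11
    refine le_trans (le_of_eq ?_) h11
    congr 1
    ext t
    simp only [mem_ofPred_eq, eL, one_mul]
    have e2 : ‖∑ m ∈ Finset.range M, ((Real.log (Real.cosh (l * X (h T) T (t + (m : ℝ) * h T) 0)) - Lam l : ℝ) : ℂ)‖ =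
        |∑ m : Fin M, (Real.log (Real.cosh (l * X (h T) T (t + ((m : ℕ) : ℝ) * h T) 0)) - Lam l)| := by
      rw [← Complex.ofReal_sum, Complex.norm_real, Real.norm_eq_abs,
        Fin.sum_univ_eq_sum_range (fun m : ℕ => Real.log (Real.cosh (l * X (h T) T (t + (m : ℝ) * h T) 0)) - Lam l) M]
    rw [e2]
  have h11 := hUE M l (Lam l) ε₁ β η ρ (5 * Real.exp (-(ε₁ ^ 2 * c₀ * M))) T (Real.exp (κ * M)) N
    (fun m t => X (h T) T (t + (m : ℕ) * h T) 0) hl hT (by positivity) hρ1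
    (fun m => (by
      have e3 : Measurable fun x : EuclideanSpace ℝ (Fin 1) => x 0 := by fun_prop
      exact e3.comp ((hXm (h T) T).comp (measurable_id.add_const _)))) hN1 hN2 h1 h10 hβη
  have key := glo3 T (h T) M (Yg X S1 c0 (h T) T) B τ η
    (Real.exp (κ * M) * N.card * (2 * Real.exp (-(β * M))) + 5 * Real.exp (-(ε₁ ^ 2 * c₀ * M)))
    δ (Real.exp (κ * M)) hT h5.le hM1 h9 hB0 hτ0 hη0.le (by positivity) hδ0.le (fun m _ => h3 m) (fun m _ => h3' m)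
    h4 (fun P hP1 hP2 => by
      refine le_trans (le_of_eq ?_) (h11 P hP1 hP2)
      congr 1
      refine iUnion_congr fun p => iUnion_congr fun _ => ?_
      ext t
      simp only [mem_ofPred_eq, eY]
      rw [Fin.sum_univ_eq_sum_range (fun m : ℕ => p m * ((X (h T) T (t + (m : ℝ) * h T) 0 : ℝ) : ℂ)) M]) θ hθ hθ1 hθP
  simp only [eY] at key
  refine key.trans ?_
  have e1 : Real.exp (κ * M) * N.card * (2 * Real.exp (-(β * M))) + 5 * Real.exp (-(ε₁ ^ 2 * c₀ * M)) =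
      2 * N.card * Real.exp (-(ε₁ * M)) + 5 * Real.exp (-(ε₁ ^ 2 * c₀ * M)) := by
    have : Real.exp (κ * M) * Real.exp (-(β * M)) = Real.exp (-(ε₁ * M)) := by
      rw [← Real.exp_add, hβ]
      congr 1
      ring
    rw [← this]
    ring
  rw [e1]
  have e2 : 3 / 2 * τ * B ≤ ε / 8 := by
    have : τ * (B + 1) = ε / 12 := by
      rw [hτ]
      field_simp
    nlinarith
  have e3 : δ / τ = ε / 12 := by
    rw [hδ]
    field_simp
  have e4 : (δ + (2 * N.card * Real.exp (-(ε₁ * M)) + 5 * Real.exp (-(ε₁ ^ 2 * c₀ * M)))) / (2 * τ) ≤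
      ε / 24 + ε / 8 := by
    rw [add_div]
    refine add_le_add (le_of_eq ?_) hMe.le
    rw [hδ]
    field_simp
    ring
  have e5 : M * h T / τ ≤ ε / 8 * T := by
    rw [div_le_iff₀ hτ0]
    linarith
  have e6 : (η + δ / τ + 3 / 2 * τ * B +
      (δ + (2 * N.card * Real.exp (-(ε₁ * M)) + 5 * Real.exp (-(ε₁ ^ 2 * c₀ * M)))) / (2 * τ)) * T ≤
      (η + ε / 12 + ε / 8 + (ε / 24 + ε / 8)) * T := by
    refine mul_le_mul_of_nonneg_right ?_ hT.le
    rw [e3]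
    linarith
  calc _ ≤ (η + ε / 12 + ε / 8 + (ε / 24 + ε / 8)) * T + ε / 8 * T := add_le_add e6 e5
    _ = ((κ + Lam l) / l + ε) * T := by rw [hη]; ring

/-- the exact entropy bound for `log |ζ|` -/
theorem upZ (hUE : S_UEXC) (hONE : S_ONE) (hLPT : S_LPT) (hR : S_RNG) (hM : S_MIZ) (hE : S_GSE) (hC : S_CHZ) (hZ : S_SEZ)
    {κ l ε : ℝ} (hκ : 0 ≤ κ) (hl : 0 < l) (hε : 0 < ε) :
    ∃ (δ : ℝ) (M₀ : ℕ), 0 < δ ∧ ∀ M : ℕ, M₀ ≤ M → ∃ K : ℝ, 1 ≤ K ∧ ∀ T : ℝ, K ≤ T → ∀ s : ℝ, Rg K T s →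
      ∀ θ : ℝ → ℂ, Measurable θ → (∀ t, ‖θ t‖ ≤ 1) → Follows T s M κ δ θ →
      ‖∫ t in T..(2 * T), θ t * ((lz t / Real.sqrt (V T / 2) : ℝ) : ℂ)‖ ≤ ((κ + Lam l) / l + ε) * T := by
  have hG := Gsz hE one_pos sh0
  obtain ⟨δ, M₀, hδ, h1⟩ := up1 hUE hONE hLPT hG hκ hl hε
  refine ⟨δ, M₀, hδ, fun M hMM => unifR (rng hR) (P := fun T s => ∀ θ : ℝ → ℂ, Measurable θ →
      (∀ t, ‖θ t‖ ≤ 1) → Follows T s M κ δ θ →
      ‖∫ t in T..(2 * T), θ t * ((lz t / Real.sqrt (V T / 2) : ℝ) : ℂ)‖ ≤ ((κ + Lam l) / l + ε) * T) fun h h0 => ?_⟩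
  have hO := Famz hR hM hE hC hZ one_pos sh0 h h0
  have h2 := h1 M hMM (Xz d0) h (fun s T => by simpa using Xz_meas hM d0 s T 0) hO
  refine h2.mono fun T hT θ hθ hθ1 hθP => ?_
  have h3 := hT θ hθ hθ1 hθP
  have e : ∀ t, Xz d0 (h T) T t 0 = lz t / Real.sqrt (V T / 2) := by
    intro t
    unfold Xz d0
    simp only [add_zero]
  simp only [e] at h3
  exact h3

end Pool.Agent.H493.SZ
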