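import Pool.Agent.H493.SZ.XpG

set_option autoImplicit false

/-! The exact entropy bound for arbitrary observables. -/

open Complex Filter Topology Set MeasureTheory ProbabilityTheory
open scoped BoundedContinuousFunction RealInnerProductSpace NNReal

namespace Pool.Agent.H493.SZ

open Pool.Agent.H493.EN

/-- the field is measurable near `[T, 3T]` -/
def Loc {k : ℕ} (X : ℝ → ℝ → ℝ → EuclideanSpace ℝ (Fin k)) (h : ℝ → ℝ) : Prop :=
  ∀ᶠ T : ℝ in atTop, ∃ G : ℝ → EuclideanSpace ℝ (Fin k), Measurable G ∧ ∀ t ∈ Icc T (3 * T), X (h T) T t = G t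

lemma lip_cent (hLPG : S_LPG) {k : ℕ} {g : EuclideanSpace ℝ (Fin k) → ℝ} {L : ℝ≥0} (hg : LipschitzWith L g) (c : ℝ) {l m : ℝ}
    (hl : 0 < l) (hm : |m| < 1) : LipschitzWith (Real.toNNReal l * L) fun x => Real.log (Dn l m (g x - c)) := by
  refine LipschitzWith.of_dist_le_mul fun x y => ?_
  rw [Real.dist_eq, NNReal.coe_mul, Real.coe_toNNReal l hl.le]
  refine ((hLPG l m hl hm).1 _ _).trans ?_
  have h1 := hg.dist_le_mul x y
  rw [Real.dist_eq] at h1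
  rw [sub_sub_sub_cancel_right, mul_assoc]
  exact mul_le_mul_of_nonneg_left h1 hl.le

/-- the exact entropy bound, Lipschitz observables -/
theorem upG (hUX : S_UXD) (hPIG : S_PIG) (hLPG : S_LPG) {k : ℕ} {Λ : ℝ} {S₁ : Matrix (Fin k) (Fin k) ℝ}
    (hG : Gs k Λ S₁ (SM S₁)) {g : EuclideanSpace ℝ (Fin k) → ℝ} {L : ℝ≥0} (hL : 0 < L) (hg : LipschitzWith L g)
    {κ l m b ε : ℝ} (hκ : 0 ≤ κ) (hl : 0 < l) (hm : |m| < 1) (hb1 : 1 ≤ b) (hε : 0 < ε)
    (hb : ∀ σ : ℝ, (σ = 1 ∨ σ = -1) → ∫ x, Real.exp (l * (σ * (g x - ∫ y, g y ∂(multivariateGaussian 0 S₁)))) /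
      Dn l m (g x - ∫ y, g y ∂(multivariateGaussian 0 S₁)) ∂(multivariateGaussian 0 S₁) ≤ b) :
    ∃ (δ : ℝ) (M₀ : ℕ), 0 < δ ∧ ∀ M : ℕ, M₀ ≤ M → ∀ (X : ℝ → ℝ → ℝ → EuclideanSpace ℝ (Fin k))
      (h : ℝ → ℝ), Loc X h → Obs k S₁ (SM S₁) X h → ∀ᶠ T : ℝ in atTop, ∀ θ : ℝ → ℂ, Measurable θ →
      (∀ t, ‖θ t‖ ≤ 1) → Follows T (h T) M κ δ θ →
      ‖∫ t in T..(2 * T), θ t * (Yg X S₁ g (h T) T t : ℂ)‖ ≤
        ((max (κ + Real.log b + ∫ x, Real.log (Dn l m (g x - ∫ y, g y ∂(multivariateGaussian 0 S₁)))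
          ∂(multivariateGaussian 0 S₁)) 0) / l + ε) * T := by
  have hΛ := hG.lam
  have hL' : (0 : ℝ) < L := by exact_mod_cast hL
  have hpi := Real.pi_pos
  have hb0 : 0 < b := by linarith
  set γ := multivariateGaussian 0 S₁ with hγ
  set c : ℝ := ∫ y, g y ∂γ with hc
  set Λg : ℝ := ∫ x, Real.log (Dn l m (g x - c)) ∂γ with hΛg
  set D₀ : ℝ := max (κ + Real.log b + Λg) 0 with hD₀
  have hD00 : 0 ≤ D₀ := le_max_right _ _
  have hD01 : κ + Real.log b + Λg ≤ D₀ := le_max_left _ _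
  set ε₁ : ℝ := l * ε / 8 with hε₁
  have hε10 : 0 < ε₁ := by positivity
  set D : ℝ := D₀ + l * ε / 2 with hD
  have hDp : 0 < D := by positivity
  set ρ : ℝ := l * ε / (4 * D) with hρ
  have hρ0 : 0 < ρ := by positivity
  have hρD : ρ * D = l * ε / 4 := by
    rw [hρ]
    field_simp
  have hρ1 : ρ ≤ 1 := by
    rw [hρ, div_le_one (by positivity)]
    have : 0 < l * ε := by positivity
    linarith
  obtain ⟨N, hN1, hN2⟩ := net hρ0
  set η : ℝ := D₀ / l + ε / 2 with hη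
  have hηl : l * η = D := by
    rw [hη, hD]
    field_simp
  have hη0 : 0 < η := by positivity
  set β : ℝ := κ + Real.log b + ε₁ with hβ
  have hβη : β + Λg + ε₁ ≤ l * ((1 - ρ) * η) := by
    have : l * ((1 - ρ) * η) = D - ρ * D := by rw [← hηl]; ring
    rw [this, hρD, hβ, hD, hε₁]
    linarith
  set c₀ : ℝ := 1 / (32 * Real.pi ^ 2 * (l * L) ^ 2 * Λ) with hc₀
  have hc0 : 0 < c₀ := by positivity
  set B := BG S₁ g L with hB
  have hB0 : 0 ≤ B := BG_nonneg S₁ g _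
  set τ : ℝ := ε / (12 * (B + 1)) with hτ
  have hτ0 : 0 < τ := by positivity
  set δ : ℝ := ε * τ / 12 with hδ
  have hδ0 : 0 < δ := by positivity
  -- the exponentials
  have hlim : Tendsto (fun M : ℕ => (2 * N.card * Real.exp (-(ε₁ * M)) + 5 * Real.exp (-(ε₁ ^ 2 * c₀ * M))) / (2 * τ)) atTop
      (𝓝 0) := by
    have t1 : ∀ a : ℝ, 0 < a → Tendsto (fun M : ℕ => Real.exp (-(a * (M : ℝ)))) atTop (𝓝 0) := by
      intro a ha
      exact Real.tendsto_exp_neg_atTop_nhds_zero.comp (tendsto_natCast_atTop_atTop.const_mul_atTop ha)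
    have h4 := (((t1 ε₁ hε10).const_mul (2 * (N.card : ℝ))).add ((t1 (ε₁ ^ 2 * c₀) (by positivity)).const_mul 5)).div_const (2 * τ)
    simpa using h4
  obtain ⟨M₁, hM₁⟩ := eventually_atTop.1 (hlim.eventually (gt_mem_nhds (show (0 : ℝ) < ε / 8 by positivity)))
  refine ⟨δ, max M₁ 1, hδ0, fun M hM X h hloc hO => ?_⟩
  have hM1 : 1 ≤ M := (le_max_right _ _).trans hM
  have hMp : (0 : ℝ) < M := by exact_mod_cast hM1
  have hMe := hM₁ M ((le_max_left _ _).trans hM)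
  have hMh : ∀ᶠ T : ℝ in atTop, M * (h T / T) < min (τ * (ε / 8)) 1 := by
    have : Tendsto (fun T => M * (h T / T)) atTop (𝓝 (M * 0)) := hO.zero.const_mul _
    rw [mul_zero] at this
    exact this.eventually (gt_mem_nhds (by positivity))
  have hlL : (0 : ℝ≥0) < Real.toNNReal l * L := mul_pos (Real.toNNReal_pos.2 hl) hL
  filter_upwards [tilt_meanG hPIG hLPG hG hO hg.continuous M hl hm hb0 hb,
    hO.expo hG hM1 hlL (lip_cent hLPG hg c hl hm) hε10, hO.Y_int hg, hO.Y_int2 hg,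
    hO.Y_sec hg M, hO.pos, hMh, eventually_ge_atTop (1 : ℝ), hloc] with T h1 h2 h3 h3' h4 h5 h6 h7 hlo θ hθ hθ1 hθP
  obtain ⟨G, hGm, hGe⟩ := hlo
  have hT : (0 : ℝ) < T := by linarith
  have h8 : M * h T ≤ τ * (ε / 8) * T := by
    have := (h6.trans_le (min_le_left _ _)).le
    rwa [← mul_div_assoc, div_le_iff₀ hT] at this
  have h9 : M * h T ≤ T := by
    have := (h6.trans_le (min_le_right _ _)).le
    rwa [← mul_div_assoc, div_le_iff₀ hT, one_mul] at this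
  -- the measurable version
  set y : Fin M → ℝ → ℝ := fun i t => g (G (t + (i : ℕ) * h T)) - c with hy
  have hym : ∀ i, Measurable (y i) := fun i =>
    (hg.continuous.measurable.comp (hGm.comp (measurable_id.add_const _))).sub_const c
  have hye : ∀ t ∈ Icc T (2 * T), ∀ i : Fin M, y i t = Yg X S₁ g (h T) T (t + (i : ℕ) * h T) := by
    intro t ht i
    have hi : ((i : ℕ) : ℝ) * h T ≤ M * h T := by
      have : ((i : ℕ) : ℝ) ≤ M := by exact_mod_cast i.2.le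
      exact mul_le_mul_of_nonneg_right this h5.le
    have hi0 : 0 ≤ ((i : ℕ) : ℝ) * h T := by positivity
    rw [hy]
    simp only
    rw [← hGe (t + (i : ℕ) * h T) ⟨by linarith [ht.1], by linarith [ht.2]⟩]
    rfl
  have h1' : ∀ σ : Fin M → ℝ, (∀ i, σ i = 1 ∨ σ i = -1) →
      ∫ t in T..(2 * T), ∏ i, (Real.exp (l * (σ i * y i t)) / Dn l m (y i t)) ≤ 2 * b ^ M * T := by
    intro σ hσ
    refine le_trans (le_of_eq ?_) (h1 σ hσ)
    refine intervalIntegral.integral_congr fun t ht => ?_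
    rw [uIcc_of_le (by linarith)] at ht
    refine Finset.prod_congr rfl fun i _ => ?_
    rw [hye t ht i]
  -- the typical set
  have h10 : volume {t | t ∈ Icc T (2 * T) ∧ ε₁ * M ≤ |∑ i : Fin M, (Real.log (Dn l m (y i t)) - Λg)|} ≤
      ENNReal.ofReal (5 * Real.exp (-(ε₁ ^ 2 * c₀ * M)) * T) := by
    have h11 := h2 (fun _ => 1) (fun _ => by simp)
    have e1 : ε₁ ^ 2 * (M : ℝ) / (32 * Real.pi ^ 2 * ((Real.toNNReal l * L : ℝ≥0) : ℝ) ^ 2 * Λ) = ε₁ ^ 2 * c₀ * M := by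
      rw [hc₀, NNReal.coe_mul, Real.coe_toNNReal l hl.le]
      ring
    rw [e1] at h11
    refine le_trans (measure_mono ?_) h11
    rintro t ⟨ht, hq⟩
    refine ⟨ht, hq.trans (le_of_eq ?_)⟩
    simp only [one_mul]
    rw [← Complex.ofReal_sum, Complex.norm_real, Real.norm_eq_abs, ← Fin.sum_univ_eq_sum_range
      (fun i : ℕ => Yg X S₁ (fun x => Real.log (Dn l m (g x - c))) (h T) T (t + (i : ℝ) * h T)) M]
    congr 1
    refine Finset.sum_congr rfl fun i _ => ?_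
    rw [hye t ht i]
    rfl
  have h11 := hUX (Dn l m) (2 / (1 - |m|)) (Dn_cont l m).measurable (hLPG l m hl hm).2.2.2.1 M l Λg ε₁ β η ρ
    (5 * Real.exp (-(ε₁ ^ 2 * c₀ * M))) T (Real.exp (κ * M)) (2 * b ^ M) N y hl hT (by positivity) hρ1 (by positivity)
    (hLPG l m hl hm).2.2.2.2 hym hN1 hN2 h1' h10 hβη
  have key := glo3 T (h T) M (Yg X S₁ g (h T) T) B τ η
    (Real.exp (κ * M) * N.card * (2 * b ^ M * Real.exp (-(β * M))) + 5 * Real.exp (-(ε₁ ^ 2 * c₀ * M)))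
    δ (Real.exp (κ * M)) hT h5.le hM1 h9 hB0 hτ0 hη0.le (by positivity) hδ0.le (fun m _ => h3 m) (fun m _ => h3' m)
    h4 (fun P hP1 hP2 => by
      refine le_trans (measure_mono ?_) (h11 P hP1 hP2)
      intro t ht
      simp only [mem_iUnion] at ht ⊢
      obtain ⟨p, hp, ht1, ht2⟩ := ht
      refine ⟨p, hp, ht1, ht2.trans (le_of_eq ?_)⟩
      rw [← Fin.sum_univ_eq_sum_range (fun m : ℕ => p m * ((Yg X S₁ g (h T) T (t + (m : ℝ) * h T) : ℝ) : ℂ)) M]
      congr 1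
      refine Finset.sum_congr rfl fun i _ => ?_
      rw [hye t ht1 i]) θ hθ hθ1 hθP
  refine key.trans ?_
  have e1 : Real.exp (κ * M) * N.card * (2 * b ^ M * Real.exp (-(β * M))) + 5 * Real.exp (-(ε₁ ^ 2 * c₀ * M)) =
      2 * N.card * Real.exp (-(ε₁ * M)) + 5 * Real.exp (-(ε₁ ^ 2 * c₀ * M)) := by
    have hbM : b ^ M = Real.exp (Real.log b * M) := by
      rw [Real.exp_mul, Real.exp_log hb0, Real.rpow_natCast]
    have : Real.exp (κ * M) * (b ^ M * Real.exp (-(β * M))) = Real.exp (-(ε₁ * M)) := by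
      rw [hbM, ← Real.exp_add, ← Real.exp_add, hβ]
      congr 1
      ring
    rw [← this]
    ring
  rw [e1]
  have e2 : 3 / 2 * τ * B ≤ ε / 8 := by
    have : τ * (B + 1) = ε / 12 := by
      rw [hτ]
      field_simp
    nlinarith
  have e3 : δ / τ = ε / 12 := by
    rw [hδ]
    field_simp
  have e4 : (δ + (2 * N.card * Real.exp (-(ε₁ * M)) + 5 * Real.exp (-(ε₁ ^ 2 * c₀ * M)))) / (2 * τ) ≤
      ε / 24 + ε / 8 := by
    rw [add_div]
    refine add_le_add (le_of_eq ?_) hMe.le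
    rw [hδ]
    field_simp
    ring
  have e5 : M * h T / τ ≤ ε / 8 * T := by
    rw [div_le_iff₀ hτ0]
    linarith
  have e6 : (η + δ / τ + 3 / 2 * τ * B +
      (δ + (2 * N.card * Real.exp (-(ε₁ * M)) + 5 * Real.exp (-(ε₁ ^ 2 * c₀ * M)))) / (2 * τ)) * T ≤
      (η + ε / 12 + ε / 8 + (ε / 24 + ε / 8)) * T := by
    refine mul_le_mul_of_nonneg_right ?_ hT.le
    rw [e3]
    linarith
  calc _ ≤ (η + ε / 12 + ε / 8 + (ε / 24 + ε / 8)) * T + ε / 8 * T := add_le_add e6 e5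
    _ = (D₀ / l + ε) * T := by rw [hη]; ring

end Pool.Agent.H493.SZ
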