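import Pool.Agent.H493.SZ.Def6
import Pool.Agent.H493.SZ.Low
import Pool.Agent.H493.EN.GLB

set_option autoImplicit false

/-! Preparations for the exact entropy curve. -/

open Complex Filter Topology Set MeasureTheory ProbabilityTheory
open scoped BoundedContinuousFunction RealInnerProductSpace NNReal

namespace Pool.Agent.H493.SZ

open Pool.Agent.H493.EN

lemma sm1 (M : ℕ) : SM S1 M = 1 := by
  ext a b
  obtain ⟨⟨i0, m⟩, rfl⟩ := finProdFinEquiv.surjective a
  obtain ⟨⟨j0, n⟩, rfl⟩ := finProdFinEquiv.surjective b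
  have hi0 : i0 = 0 := Subsingleton.elim _ _
  have hj0 : j0 = 0 := Subsingleton.elim _ _
  subst hi0
  subst hj0
  unfold SM S1
  rw [Matrix.one_apply]
  simp only [Matrix.of_apply, Equiv.symm_apply_apply, EmbeddingLike.apply_eq_iff_eq, Prod.mk.injEq, true_and]

lemma S1_psd : S1.PosSemidef := by
  have : S1 = 1 := by
    ext i j
    have : i = j := Subsingleton.elim _ _
    subst this
    unfold S1
    simp
  rw [this]
  exact Matrix.PosSemidef.one

/-- the law of the coordinate -/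
lemma law1 (f : ℝ → ℝ) (hf : Continuous f) :
    ∫ x : EuclideanSpace ℝ (Fin 1), f (x 0) ∂(multivariateGaussian 0 S1) = ∫ x, f x ∂(gaussianReal 0 1) := by
  have h1 := GLBL.law S1_psd (fun _ : Fin 1 => (1 : ℝ)) (by unfold S1; simp)
  have h2 : Real.toNNReal (∑ i : Fin 1, ∑ j : Fin 1, (fun _ : Fin 1 => (1 : ℝ)) i * (fun _ : Fin 1 => (1 : ℝ)) j * S1 i j) = 1 := by
    unfold S1
    simp
  rw [h2] at h1
  rw [← h1, integral_map (by fun_prop) hf.aestronglyMeasurable]
  simp

/-- finite nets of directions -/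
lemma net {ρ : ℝ} (hρ : 0 < ρ) : ∃ N : Finset ℂ, (∀ v ∈ N, ‖v‖ ≤ 1) ∧ ∀ z : ℂ, ∃ v ∈ N, (1 - ρ) * ‖z‖ ≤ (v * z).re := by
  obtain ⟨t, ht, htf, hc⟩ := (isCompact_sphere (0 : ℂ) 1).finite_cover_balls hρ
  refine ⟨htf.toFinset, fun v hv => ?_, fun z => ?_⟩
  · have := ht (htf.mem_toFinset.1 hv)
    rw [mem_sphere_zero_iff_norm] at this
    exact this.le
  · by_cases hz : z = 0
    · subst hz
      have h1 : (1 : ℂ) ∈ Metric.sphere (0 : ℂ) 1 := by simp
      have h2 := hc h1
      rw [mem_iUnion₂] at h2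
      obtain ⟨v, hv, _⟩ := h2
      exact ⟨v, htf.mem_toFinset.2 hv, by simp⟩
    · have hz' : 0 < ‖z‖ := norm_pos_iff.2 hz
      set u : ℂ := (starRingEnd ℂ) z / ‖z‖ with hu
      have h1 : u ∈ Metric.sphere (0 : ℂ) 1 := by
        rw [mem_sphere_zero_iff_norm, hu, norm_div, RCLike.norm_conj, Complex.norm_real, norm_norm, div_self hz'.ne']
      have h2 := hc h1
      rw [mem_iUnion₂] at h2
      obtain ⟨v, hv, huv⟩ := h2
      refine ⟨v, htf.mem_toFinset.2 hv, ?_⟩
      rw [Metric.mem_ball, dist_eq_norm] at huv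
      have h3 : u * z = ((‖z‖ : ℝ) : ℂ) := by
        rw [hu, div_mul_eq_mul_div, mul_comm ((starRingEnd ℂ) z) z, Complex.mul_conj, Complex.normSq_eq_norm_sq]
        push_cast
        have : ((‖z‖ : ℝ) : ℂ) ≠ 0 := by exact_mod_cast hz'.ne'
        field_simp
      have h4 : (v * z).re = ‖z‖ - ((u - v) * z).re := by
        have : v * z = u * z - (u - v) * z := by ring
        rw [this, h3, Complex.sub_re, Complex.ofReal_re]
      have h5 : ((u - v) * z).re ≤ ρ * ‖z‖ := by
        refine (Complex.re_le_norm _).trans ?_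
        rw [norm_mul]
        exact mul_le_mul_of_nonneg_right huv.le (norm_nonneg _)
      rw [h4]
      linarith

lemma prod_ab {M : ℕ} (F : Fin (1 * M) → ℝ) :
    ∏ a, F a = ∏ m : Fin M, F (finProdFinEquiv ((0 : Fin 1), m)) := by
  rw [← Equiv.prod_comp finProdFinEquiv, Fintype.prod_prod_type]
  simp

/-- the tilted exponential -/
lemma tilt_vec {M : ℕ} (l : ℝ) (σ : Fin M → ℝ) (x : Fin M → EuclideanSpace ℝ (Fin 1)) :
    ∏ a : Fin (1 * M), (Real.exp (l * (σ (finProdFinEquiv.symm a).2 * (vecB x) a)) / Real.cosh (l * (vecB x) a)) =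
      ∏ m : Fin M, (Real.exp (l * (σ m * x m 0)) / Real.cosh (l * x m 0)) := by
  rw [prod_ab]
  refine Finset.prod_congr rfl fun m _ => ?_
  unfold vecB
  simp only [Equiv.symm_apply_apply]

lemma exp_cosh_le {u v : ℝ} (h : |u| ≤ |v|) : Real.exp u / Real.cosh v ≤ 2 := by
  rw [div_le_iff₀ (Real.cosh_pos _), ← Real.cosh_abs v, Real.cosh_eq]
  have h1 : Real.exp u ≤ Real.exp |v| := Real.exp_le_exp.2 ((le_abs_self u).trans h)
  have h2 := Real.exp_pos (-|v|)
  linarith

/-- the mean of the tilted exponentials -/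
lemma tilt_mean (hONE : S_ONE) {X : ℝ → ℝ → ℝ → EuclideanSpace ℝ (Fin 1)} {h : ℝ → ℝ} (hO : Obs 1 S1 (SM S1) X h)
    (M : ℕ) (l : ℝ) : ∀ᶠ T : ℝ in atTop, ∀ σ : Fin M → ℝ, (∀ m, σ m = 1 ∨ σ m = -1) →
      ∫ t in T..(2 * T), ∏ m : Fin M, (Real.exp (l * (σ m * X (h T) T (t + (m : ℕ) * h T) 0)) /
        Real.cosh (l * X (h T) T (t + (m : ℕ) * h T) 0)) ≤ 2 * T := by
  classical
  -- enough: finitely many sign vectors
  have key : ∀ b : Fin M → Bool, ∀ᶠ T : ℝ in atTop,
      ∫ t in T..(2 * T), ∏ m : Fin M, (Real.exp (l * (sgb (b m) * X (h T) T (t + (m : ℕ) * h T) 0)) /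
        Real.cosh (l * X (h T) T (t + (m : ℕ) * h T) 0)) ≤ 2 * T := by
    intro b
    have hs : ∀ m, sgb (b m) = 1 ∨ sgb (b m) = -1 := fun m => by
      unfold sgb
      by_cases hb : b m <;> simp [hb]
    have hs1 : ∀ m, |sgb (b m)| = 1 := fun m => by rcases hs m with h | h <;> simp [h]
    have hcont : Continuous fun x : EuclideanSpace ℝ (Fin (1 * M)) =>
        ∏ a, (Real.exp (l * (sgb (b (finProdFinEquiv.symm a).2) * x a)) / Real.cosh (l * x a)) := by
      refine continuous_finsetProd _ fun a _ => ?_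
      refine Continuous.div (by fun_prop) (by fun_prop) fun x => (Real.cosh_pos _).ne'
    let Φ : EuclideanSpace ℝ (Fin (1 * M)) →ᵇ ℝ := BoundedContinuousFunction.ofNormedAddCommGroup _ hcont (2 ^ (1 * M))
      (fun x => by
        rw [Real.norm_eq_abs, abs_of_nonneg (Finset.prod_nonneg fun a _ => by have := Real.cosh_pos (l * x a); positivity)]
        refine (Finset.prod_le_prod (fun a _ => by have := Real.cosh_pos (l * x a); positivity) fun a _ =>
          exp_cosh_le ?_).trans ?_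
        · rw [abs_mul, abs_mul, hs1, one_mul, abs_mul]
        · simp)
    have hlim := hO.weak M Φ
    have h1 : ∫ x, Φ x ∂(multivariateGaussian 0 (SM S1 M)) = 1 := by
      rw [sm1]
      exact hONE (1 * M) l (fun a => sgb (b (finProdFinEquiv.symm a).2)) (fun a => hs _)
    rw [h1] at hlim
    filter_upwards [hlim.eventually (gt_mem_nhds (show (1 : ℝ) < 2 by norm_num)), eventually_gt_atTop (0 : ℝ)] with T h2 h3
    rw [one_div, inv_mul_eq_div, div_lt_iff₀ h3] at h2
    refine le_trans (le_of_eq ?_) h2.le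
    refine intervalIntegral.integral_congr fun t _ => ?_
    change _ = ∏ a : Fin (1 * M), (Real.exp (l * (sgb (b (finProdFinEquiv.symm a).2) *
      (vecB fun m : Fin M => X (h T) T (t + (m : ℕ) * h T)) a)) /
      Real.cosh (l * (vecB fun m : Fin M => X (h T) T (t + (m : ℕ) * h T)) a))
    rw [tilt_vec l (fun m => sgb (b m))]
  filter_upwards [eventually_all.2 key] with T hT σ hσ
  have h1 : ∀ m, sgb (decide (σ m = 1)) = σ m := by
    intro m
    unfold sgb
    rcases hσ m with h | h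
    · simp [h]
    · rw [h]
      norm_num
  have h2 := hT fun m => decide (σ m = 1)
  simp only [h1] at h2
  exact h2

end Pool.Agent.H493.SZ
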