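import Pool.Agent.H493.SZ.UpG
import Pool.Agent.H493.EN.AE

set_option autoImplicit false

/-! The exact entropy bound for observables of quadratic growth. -/

open Complex Filter Topology Set MeasureTheory ProbabilityTheory
open scoped BoundedContinuousFunction RealInnerProductSpace NNReal

namespace Pool.Agent.H493.SZ

open Pool.Agent.H493.EN

lemma quad_intg {k : ℕ} (S₁ : Matrix (Fin k) (Fin k) ℝ) {ψ : EuclideanSpace ℝ (Fin k) → ℝ} {C : ℝ} (hψ : Continuous ψ)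
    (hC : ∀ x, |ψ x| ≤ C * (1 + ‖x‖ ^ 2)) : Integrable ψ (multivariateGaussian 0 S₁) := by
  refine (((integrable_const (1 : ℝ)).add (gauss_int2 S₁)).const_mul C).mono' hψ.aestronglyMeasurable
    (Filter.Eventually.of_forall fun x => ?_)
  rw [Real.norm_eq_abs]
  exact hC x

/-- **the exact entropy bound** -/
theorem upX (hUX : S_UXD) (hPIG : S_PIG) (hLPG : S_LPG) {k : ℕ} {Λ : ℝ} {S₁ : Matrix (Fin k) (Fin k) ℝ}
    (hG : Gs k Λ S₁ (SM S₁)) {ψ : EuclideanSpace ℝ (Fin k) → ℝ} {C : ℝ} (hψ : Continuous ψ)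
    (hC : ∀ x, |ψ x| ≤ C * (1 + ‖x‖ ^ 2)) {κ l m ε : ℝ} (hκ : 0 ≤ κ) (hl : 0 < l) (hm : |m| < 1) (hε : 0 < ε)
    (hbal : ∫ x, Real.sinh (l * (ψ x - ∫ y, ψ y ∂(multivariateGaussian 0 S₁))) /
      Dn l m (ψ x - ∫ y, ψ y ∂(multivariateGaussian 0 S₁)) ∂(multivariateGaussian 0 S₁) = 0) :
    ∃ (δ : ℝ) (M₀ : ℕ), 0 < δ ∧ ∀ M : ℕ, M₀ ≤ M → ∀ (X : ℝ → ℝ → ℝ → EuclideanSpace ℝ (Fin k))
      (h : ℝ → ℝ), Loc X h → Obs k S₁ (SM S₁) X h → ∀ᶠ T : ℝ in atTop, ∀ θ : ℝ → ℂ, Measurable θ →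
      (∀ t, ‖θ t‖ ≤ 1) → Follows T (h T) M κ δ θ →
      ‖∫ t in T..(2 * T), θ t * (Yg X S₁ ψ (h T) T t : ℂ)‖ ≤
        ((κ + ∫ x, Real.log (Dn l m (ψ x - ∫ y, ψ y ∂(multivariateGaussian 0 S₁))) ∂(multivariateGaussian 0 S₁)) / l + ε) * T := by
  set γ := multivariateGaussian 0 S₁ with hγ
  have hm1 : 0 < 1 - |m| := by linarith
  set C₁ : ℝ := 2 * l / (1 - |m|) ^ 2 with hC₁
  have hC₁0 : 0 < C₁ := by positivity
  set W : ℝ := (2 * C₁ + 2 * l) / l + 2 with hW
  have hW0 : 0 < W := by positivity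
  set ε₂ : ℝ := ε / (2 * W) with hε₂
  have hε20 : 0 < ε₂ := by positivity
  have hWε : W * ε₂ = ε / 2 := by
    rw [hε₂]
    field_simp
  obtain ⟨L, g, hL, hg, hgX, hgi, hg1⟩ := qg3 k γ (gauss_int2 S₁) ψ C hψ hC ε₂ hε20
  have hψi : Integrable ψ γ := quad_intg S₁ hψ hC
  set cψ : ℝ := ∫ y, ψ y ∂γ with hcψ
  set cg : ℝ := ∫ y, g y ∂γ with hcg
  have hcc : |cψ - cg| ≤ ε₂ := by
    rw [hcψ, hcg, ← integral_sub hψi hgi]
    exact abs_integral_le_integral_abs.trans hg1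
  have iξψ : Integrable (fun x => ψ x - cψ) γ := hψi.sub (integrable_const _)
  have iξg : Integrable (fun x => g x - cg) γ := hgi.sub (integrable_const _)
  have iab : Integrable (fun x => |ψ x - g x|) γ := (hψi.sub hgi).abs
  have hdiff : ∫ x, |(g x - cg) - (ψ x - cψ)| ∂γ ≤ 2 * ε₂ := by
    have h1 : ∫ x, |(g x - cg) - (ψ x - cψ)| ∂γ ≤ ∫ x, (|ψ x - g x| + ε₂) ∂γ := by
      refine integral_mono (iξg.sub iξψ).abs (iab.add (integrable_const _)) fun x => ?_
      have e : (g x - cg) - (ψ x - cψ) = (cψ - cg) - (ψ x - g x) := by ring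
      change |(g x - cg) - (ψ x - cψ)| ≤ |ψ x - g x| + ε₂
      rw [e]
      refine (abs_sub _ _).trans ?_
      linarith
    rw [integral_add iab (integrable_const _)] at h1
    simp only [integral_const, probReal_univ, one_smul] at h1
    linarith
  have idf : Integrable (fun x => |(g x - cg) - (ψ x - cψ)|) γ := (iξg.sub iξψ).abs
  -- the exponential means of the approximation
  have hb : ∀ σ : ℝ, (σ = 1 ∨ σ = -1) → ∫ x, Real.exp (l * (σ * (g x - cg))) / Dn l m (g x - cg) ∂γ ≤ 1 + 2 * C₁ * ε₂ := by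
    intro σ hσ
    have hs1 : |σ| = 1 := by rcases hσ with h | h <;> simp [h]
    have hexp : ∀ x, |Real.exp (l * (σ * x))| ≤ Real.exp |l * x| := by
      intro x
      rw [abs_of_pos (Real.exp_pos _)]
      refine Real.exp_le_exp.2 ((le_abs_self _).trans (le_of_eq ?_))
      rw [abs_mul, abs_mul, hs1, one_mul, abs_mul]
    have j1 := frac_int hLPG hl hm iξg.aestronglyMeasurable (u := fun x => Real.exp (l * (σ * x))) (by fun_prop) hexp
    have j2 := frac_int hLPG hl hm iξψ.aestronglyMeasurable (u := fun x => Real.exp (l * (σ * x))) (by fun_prop) hexp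
    have h1 : ∫ x, Real.exp (l * (σ * (g x - cg))) / Dn l m (g x - cg) ∂γ ≤
        ∫ x, (Real.exp (l * (σ * (ψ x - cψ))) / Dn l m (ψ x - cψ) + C₁ * |(g x - cg) - (ψ x - cψ)|) ∂γ := by
      refine integral_mono j1 (j2.add (idf.const_mul C₁)) fun x => ?_
      have h2 := (hLPG l m hl hm).2.2.1 σ hσ (g x - cg) (ψ x - cψ)
      have h3 := le_abs_self (Real.exp (l * (σ * (g x - cg))) / Dn l m (g x - cg) -
        Real.exp (l * (σ * (ψ x - cψ))) / Dn l m (ψ x - cψ))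
      change Real.exp (l * (σ * (g x - cg))) / Dn l m (g x - cg) ≤
        Real.exp (l * (σ * (ψ x - cψ))) / Dn l m (ψ x - cψ) + C₁ * |(g x - cg) - (ψ x - cψ)|
      linarith
    rw [integral_add j2 (idf.const_mul C₁), integral_const_mul, bal_exp hLPG hl hm iξψ.aestronglyMeasurable hbal hσ] at h1
    have h2 := mul_le_mul_of_nonneg_left hdiff hC₁0.le
    linarith
  -- the logarithmic mean
  have hLg : ∫ x, Real.log (Dn l m (g x - cg)) ∂γ ≤ (∫ x, Real.log (Dn l m (ψ x - cψ)) ∂γ) + l * (2 * ε₂) := by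
    have j1 := lD_int hLPG hl hm iξg
    have j2 := lD_int hLPG hl hm iξψ
    have h1 : ∫ x, Real.log (Dn l m (g x - cg)) ∂γ ≤
        ∫ x, (Real.log (Dn l m (ψ x - cψ)) + l * |(g x - cg) - (ψ x - cψ)|) ∂γ := by
      refine integral_mono j1 (j2.add (idf.const_mul l)) fun x => ?_
      have h2 := (hLPG l m hl hm).1 (g x - cg) (ψ x - cψ)
      have h3 := le_abs_self (Real.log (Dn l m (g x - cg)) - Real.log (Dn l m (ψ x - cψ)))
      change Real.log (Dn l m (g x - cg)) ≤ Real.log (Dn l m (ψ x - cψ)) + l * |(g x - cg) - (ψ x - cψ)|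
      linarith
    rw [integral_add j2 (idf.const_mul l), integral_const_mul] at h1
    have h2 := mul_le_mul_of_nonneg_left hdiff hl.le
    linarith
  have hL0 := bal_nonneg hLPG hl hm iξψ hbal
  set Λψ : ℝ := ∫ x, Real.log (Dn l m (ψ x - cψ)) ∂γ with hΛψ
  have hb1 : 1 ≤ 1 + 2 * C₁ * ε₂ := by
    have : 0 ≤ 2 * C₁ * ε₂ := by positivity
    linarith
  have hlb : Real.log (1 + 2 * C₁ * ε₂) ≤ 2 * C₁ * ε₂ := by
    have := Real.log_le_sub_one_of_pos (show 0 < 1 + 2 * C₁ * ε₂ by linarith)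
    linarith
  obtain ⟨δ, M₀, hδ, h1⟩ := upG hUX hPIG hLPG hG hL hg hκ hl hm hb1 (ε := ε / 2) (by positivity) hb
  refine ⟨δ, M₀, hδ, fun M hM X h hloc hO => ?_⟩
  have hX1 := hgX (fun T t => X (h T) T t) (by
    filter_upwards [hO.meas] with T h3
    have := h3 0
    simpa using this) (by
    filter_upwards [hO.int2] with T h3
    have := h3 0
    simpa using this) (hO.weak1 hG) (by
    have := hO.sec 0
    simpa using this)
  filter_upwards [h1 M hM X h hloc hO, hX1, hO.meas, hO.int2, eventually_ge_atTop (1 : ℝ)]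
    with T h3 h4 h5 h5' h6 θ hθ hθ1 hθP
  have hT0 : 0 ≤ T := by linarith
  have hT : T ≤ 2 * T := by linarith
  have h7 := h3 θ hθ hθ1 hθP
  have hm0 : AEStronglyMeasurable (fun t => X (h T) T t) (volume.restrict (Ioc T (2 * T))) := by simpa using h5 0
  have hi0 : IntervalIntegrable (fun t => ‖X (h T) T t‖ ^ 2) volume T (2 * T) := by simpa using h5' 0
  have hgq : ∀ x, |g x| ≤ (|g 0| + L) * (1 + ‖x‖ ^ 2) := by
    intro x
    have hL' : (0 : ℝ) < L := by exact_mod_cast hL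
    have h8 := hg.dist_le_mul x 0
    rw [Real.dist_eq, dist_zero_right] at h8
    have h9 : |g x| ≤ |g 0| + |g x - g 0| := by
      have := abs_add_le (g 0) (g x - g 0)
      rwa [add_sub_cancel] at this
    have h10 : ‖x‖ ≤ 1 + ‖x‖ ^ 2 := by nlinarith [sq_nonneg (‖x‖ - 1), norm_nonneg x]
    have h11 : (L : ℝ) * ‖x‖ ≤ L * (1 + ‖x‖ ^ 2) := mul_le_mul_of_nonneg_left h10 hL'.le
    have h12 : 0 ≤ |g 0| * ‖x‖ ^ 2 := by positivity
    linarith
  have quad : ∀ {φ : EuclideanSpace ℝ (Fin k) → ℝ} {D : ℝ}, Continuous φ → (∀ x, |φ x| ≤ D * (1 + ‖x‖ ^ 2)) →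
      IntervalIntegrable (fun t => φ (X (h T) T t)) volume T (2 * T) := by
    intro φ D hφ hD
    have h8 : IntervalIntegrable (fun t => D * (1 + ‖X (h T) T t‖ ^ 2)) volume T (2 * T) :=
      (intervalIntegrable_const.add hi0).const_mul _
    refine h8.mono_fun ?_ (Filter.Eventually.of_forall fun t => ?_)
    · rw [uIoc_of_le hT]
      exact hφ.comp_aestronglyMeasurable hm0
    · change ‖φ (X (h T) T t)‖ ≤ ‖D * (1 + ‖X (h T) T t‖ ^ 2)‖
      rw [Real.norm_eq_abs, Real.norm_eq_abs]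
      exact (hD _).trans (le_abs_self _)
  have iψ := quad hψ hC
  have ig := quad hg.continuous hgq
  have cψ' : IntervalIntegrable (Yg X S₁ ψ (h T) T) volume T (2 * T) := iψ.sub intervalIntegrable_const
  have cg' : IntervalIntegrable (Yg X S₁ g (h T) T) volume T (2 * T) := ig.sub intervalIntegrable_const
  have icont : ∀ {G : ℝ → ℝ}, IntervalIntegrable G volume T (2 * T) →
      IntervalIntegrable (fun t => θ t * (G t : ℂ)) volume T (2 * T) := fun hG' =>
    GLOL.ii_mul _ _ _ hG' _ hθ hθ1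
  have id : IntervalIntegrable (fun t => |ψ (X (h T) T t) - g (X (h T) T t)|) volume T (2 * T) := (iψ.sub ig).abs
  have h8 : ∫ t in T..(2 * T), θ t * (Yg X S₁ ψ (h T) T t : ℂ) =
      (∫ t in T..(2 * T), θ t * (Yg X S₁ g (h T) T t : ℂ)) +
      ∫ t in T..(2 * T), θ t * ((Yg X S₁ ψ (h T) T t - Yg X S₁ g (h T) T t : ℝ) : ℂ) := by
    rw [← intervalIntegral.integral_add (icont cg')
      (icont (G := fun t => Yg X S₁ ψ (h T) T t - Yg X S₁ g (h T) T t) (cψ'.sub cg'))]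
    refine intervalIntegral.integral_congr fun t _ => ?_
    push_cast
    ring
  have h9 : ‖∫ t in T..(2 * T), θ t * ((Yg X S₁ ψ (h T) T t - Yg X S₁ g (h T) T t : ℝ) : ℂ)‖ ≤
      ∫ t in T..(2 * T), (|ψ (X (h T) T t) - g (X (h T) T t)| + ε₂) := by
    refine intervalIntegral.norm_integral_le_of_norm_le hT ?_ (id.add intervalIntegrable_const)
    refine Filter.Eventually.of_forall fun t _ => ?_
    rw [norm_mul, Complex.norm_real, Real.norm_eq_abs]
    have h10 : |Yg X S₁ ψ (h T) T t - Yg X S₁ g (h T) T t| ≤ |ψ (X (h T) T t) - g (X (h T) T t)| + ε₂ := by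
      have h11 : Yg X S₁ ψ (h T) T t - Yg X S₁ g (h T) T t =
          (ψ (X (h T) T t) - g (X (h T) T t)) - (cψ - cg) := by
        unfold Yg
        rw [← hγ, ← hcψ, ← hcg]
        ring
      rw [h11]
      exact (abs_sub _ _).trans (add_le_add le_rfl hcc)
    calc ‖θ t‖ * |Yg X S₁ ψ (h T) T t - Yg X S₁ g (h T) T t| ≤ 1 * |Yg X S₁ ψ (h T) T t - Yg X S₁ g (h T) T t| := by
          have := hθ1 t
          gcongr
      _ ≤ _ := by rw [one_mul]; exact h10
  rw [intervalIntegral.integral_add id intervalIntegrable_const, intervalIntegral.integral_const, smul_eq_mul] at h9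
  rw [h8]
  refine (norm_add_le _ _).trans ?_
  have h12 : max (κ + Real.log (1 + 2 * C₁ * ε₂) + ∫ x, Real.log (Dn l m (g x - cg)) ∂γ) 0 ≤
      κ + Λψ + (2 * C₁ + 2 * l) * ε₂ := by
    refine max_le ?_ (by positivity)
    linarith
  have h13 : max (κ + Real.log (1 + 2 * C₁ * ε₂) + ∫ x, Real.log (Dn l m (g x - cg)) ∂γ) 0 / l ≤
      (κ + Λψ) / l + (2 * C₁ + 2 * l) / l * ε₂ := by
    have := div_le_div_of_nonneg_right h12 hl.le
    refine this.trans (le_of_eq ?_)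
    ring
  have h14 : max (κ + Real.log (1 + 2 * C₁ * ε₂) + ∫ x, Real.log (Dn l m (g x - cg)) ∂γ) 0 / l + ε / 2 + 2 * ε₂ ≤
      (κ + Λψ) / l + ε := by
    have : (2 * C₁ + 2 * l) / l * ε₂ + 2 * ε₂ = ε / 2 := by rw [← hWε, hW]; ring
    linarith
  have h15 := mul_le_mul_of_nonneg_right h14 hT0
  have h16 : ∫ t in T..(2 * T), |ψ (X (h T) T t) - g (X (h T) T t)| ≤ ε₂ * T := h4
  nlinarith

end Pool.Agent.H493.SZ
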