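import Pool.Agent.H493.SZ.Def5

set_option autoImplicit false

/-! WLL: the weak law of large numbers for `multivariateGaussian 0 1`. -/

open Complex Filter Topology Set MeasureTheory ProbabilityTheory

namespace Pool.Agent.H493.SZ

namespace WLLL

theorem cont {f : ℝ → ℝ} {L : ℝ} (hf : ∀ x y, |f x - f y| ≤ L * |x - y|) : Continuous f := by
  have hL : 0 ≤ L := by
    have h := hf 1 0
    have h0 := abs_nonneg (f 1 - f 0)
    rw [sub_zero, abs_one, mul_one] at h
    linarith
  have h : LipschitzWith (Real.toNNReal L) f := by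
    apply LipschitzWith.of_dist_le_mul
    intro x y
    rw [Real.dist_eq, Real.dist_eq, Real.coe_toNNReal L hL]
    exact hf x y
  exact h.continuous

theorem memLp {f : ℝ → ℝ} {L : ℝ} (hf : ∀ x y, |f x - f y| ≤ L * |x - y|) :
    MemLp f 2 (gaussianReal 0 1) := by
  have h1 : MemLp (fun x : ℝ => |f 0| + L * |x|) 2 (gaussianReal 0 1) := by
    have h2 : MemLp (id : ℝ → ℝ) 2 (gaussianReal 0 1) := memLp_id_gaussianReal 2
    have h3 : MemLp (fun x : ℝ => |x|) 2 (gaussianReal 0 1) := h2.norm
    exact (memLp_const |f 0|).add (h3.const_mul L)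
  refine h1.mono (cont hf).aestronglyMeasurable (Eventually.of_forall fun x => ?_)
  have h4 := hf x 0
  rw [sub_zero] at h4
  have h5 : |f x| ≤ |f 0| + L * |x| := by
    have h6 := abs_sub_abs_le_abs_sub (f x) (f 0)
    linarith
  rw [Real.norm_eq_abs, Real.norm_eq_abs]
  exact h5.trans (le_abs_self _)

/-- the law of large numbers for the product measure -/
theorem cheb {f : ℝ → ℝ} {L : ℝ} (hf : ∀ x y, |f x - f y| ≤ L * |x - y|) (n : ℕ) (hn : 0 < n)
    {ε : ℝ} (hε : 0 < ε) :
    (Measure.pi (fun _ : Fin n => gaussianReal 0 1))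
      {x : Fin n → ℝ | ε * n ≤ |∑ i, f (x i) - n * ∫ y, f y ∂(gaussianReal 0 1)|} ≤
        ENNReal.ofReal (variance f (gaussianReal 0 1) / (n * ε ^ 2)) := by
  have hm := memLp hf
  have hn0 : (0 : ℝ) < n := by exact_mod_cast hn
  have hsum : (∑ i : Fin n, fun x : Fin n → ℝ => f (x i)) = fun x => ∑ i, f (x i) := by
    funext x
    simp
  have hcomp : ∀ i : Fin n, MemLp (fun x : Fin n → ℝ => f (x i)) 2
      (Measure.pi (fun _ : Fin n => gaussianReal 0 1)) := fun i =>
    hm.comp_measurePreserving (measurePreserving_eval (fun _ : Fin n => gaussianReal 0 1) i)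
  have hX : MemLp (fun x : Fin n → ℝ => ∑ i, f (x i)) 2
      (Measure.pi (fun _ : Fin n => gaussianReal 0 1)) :=
    memLp_finsetSum _ fun i _ => hcomp i
  have hvar : variance (fun x : Fin n → ℝ => ∑ i, f (x i))
      (Measure.pi (fun _ : Fin n => gaussianReal 0 1)) = n * variance f (gaussianReal 0 1) := by
    rw [← hsum, variance_sum_pi (μ := fun _ : Fin n => gaussianReal 0 1) (X := fun _ => f)
      (fun _ => hm)]
    simp
  have hint : ∫ x : Fin n → ℝ, ∑ i, f (x i) ∂(Measure.pi (fun _ : Fin n => gaussianReal 0 1)) =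
      n * ∫ y, f y ∂(gaussianReal 0 1) := by
    rw [integral_finsetSum _ fun i _ => (hcomp i).integrable one_le_two]
    have h1 : ∀ i : Fin n, ∫ x : Fin n → ℝ, f (x i)
        ∂(Measure.pi (fun _ : Fin n => gaussianReal 0 1)) = ∫ y, f y ∂(gaussianReal 0 1) := by
      intro i
      exact integral_comp_eval (μ := fun _ : Fin n => gaussianReal 0 1) (i := i)
        (cont hf).aestronglyMeasurable
    simp_rw [h1]
    simp
  have h := meas_ge_le_variance_div_sq hX (c := ε * n) (by positivity)
  rw [hvar, hint] at h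
  refine h.trans (ENNReal.ofReal_le_ofReal (le_of_eq ?_))
  field_simp

end WLLL

theorem t_WLL : S_WLL := by
  intro f L hf ε hε
  obtain ⟨n0, hn0⟩ := exists_nat_ge (variance f (gaussianReal 0 1) / ε ^ 3)
  refine ⟨n0 + 1, fun n hn => ?_⟩
  have hnpos : 0 < n := by omega
  have hnR : (0 : ℝ) < n := by exact_mod_cast hnpos
  have hc := WLLL.cheb hf n hnpos hε
  have hcont := WLLL.cont hf
  rw [multivariateGaussian_zero_one, ← map_pi_eq_stdGaussian, measureReal_def,
    Measure.map_apply (by fun_prop) ?_]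
  · have h1 : variance f (gaussianReal 0 1) / (n * ε ^ 2) ≤ ε := by
      rw [div_le_iff₀ (by positivity)]
      have h2 : (n0 : ℝ) ≤ n := by exact_mod_cast (by omega : n0 ≤ n)
      have h3 := hn0.trans h2
      rw [div_le_iff₀ (by positivity)] at h3
      linarith
    have h4 := hc.trans (ENNReal.ofReal_le_ofReal h1)
    exact ENNReal.toReal_le_of_le_ofReal hε.le h4
  · apply measurableSet_le
    · fun_prop
    · fun_prop

end Pool.Agent.H493.SZ
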