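import Pool.Agent.H493.SZ.Def7

set_option autoImplicit false

/-! WLP: the weak law of large numbers for product measures. -/

open Complex Filter Topology Set MeasureTheory ProbabilityTheory

namespace Pool.Agent.H493.SZ

namespace WLPL

/-- Chebyshev for the product measure -/
theorem cheb {Ω : Type} [MeasurableSpace Ω] (ν : Measure Ω) [IsProbabilityMeasure ν] {f : Ω → ℝ}
    (hf : Measurable f) (hm : MemLp f 2 ν) (n : ℕ) (hn : 0 < n) {ε : ℝ} (hε : 0 < ε) :
    (Measure.pi (fun _ : Fin n => ν))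
      {x : Fin n → Ω | ε * n ≤ |∑ i, f (x i) - n * ∫ y, f y ∂ν|} ≤
        ENNReal.ofReal (variance f ν / (n * ε ^ 2)) := by
  have hn0 : (0 : ℝ) < n := by exact_mod_cast hn
  have hsum : (∑ i : Fin n, fun x : Fin n → Ω => f (x i)) = fun x => ∑ i, f (x i) := by
    funext x
    simp
  have hcomp : ∀ i : Fin n, MemLp (fun x : Fin n → Ω => f (x i)) 2
      (Measure.pi (fun _ : Fin n => ν)) := fun i =>
    hm.comp_measurePreserving (measurePreserving_eval (fun _ : Fin n => ν) i)
  have hX : MemLp (fun x : Fin n → Ω => ∑ i, f (x i)) 2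
      (Measure.pi (fun _ : Fin n => ν)) :=
    memLp_finsetSum _ fun i _ => hcomp i
  have hvar : variance (fun x : Fin n → Ω => ∑ i, f (x i))
      (Measure.pi (fun _ : Fin n => ν)) = n * variance f ν := by
    rw [← hsum, variance_sum_pi (μ := fun _ : Fin n => ν) (X := fun _ => f)
      (fun _ => hm)]
    simp
  have hint : ∫ x : Fin n → Ω, ∑ i, f (x i) ∂(Measure.pi (fun _ : Fin n => ν)) =
      n * ∫ y, f y ∂ν := by
    rw [integral_finsetSum _ fun i _ => (hcomp i).integrable one_le_two]
    have h1 : ∀ i : Fin n, ∫ x : Fin n → Ω, f (x i)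
        ∂(Measure.pi (fun _ : Fin n => ν)) = ∫ y, f y ∂ν := by
      intro i
      exact integral_comp_eval (μ := fun _ : Fin n => ν) (i := i)
        hf.aestronglyMeasurable
    simp_rw [h1]
    simp
  have h := meas_ge_le_variance_div_sq hX (c := ε * n) (by positivity)
  rw [hvar, hint] at h
  refine h.trans (ENNReal.ofReal_le_ofReal (le_of_eq ?_))
  field_simp

end WLPL

theorem t_WLP : S_WLP := by
  intro Ω _ ν _ f hf hm ε hε
  obtain ⟨n0, hn0⟩ := exists_nat_ge (variance f ν / ε ^ 3)
  refine ⟨n0 + 1, fun n hn => ?_⟩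
  have hnpos : 0 < n := by omega
  have hnR : (0 : ℝ) < n := by exact_mod_cast hnpos
  have hc := WLPL.cheb ν hf hm n hnpos hε
  rw [measureReal_def]
  have h1 : variance f ν / (n * ε ^ 2) ≤ ε := by
    rw [div_le_iff₀ (by positivity)]
    have h2 : (n0 : ℝ) ≤ n := by exact_mod_cast (by omega : n0 ≤ n)
    have h3 := hn0.trans h2
    rw [div_le_iff₀ (by positivity)] at h3
    linarith
  have h4 := hc.trans (ENNReal.ofReal_le_ofReal h1)
  exact ENNReal.toReal_le_of_le_ofReal hε.le h4

end Pool.Agent.H493.SZ
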