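import Pool.Agent.H493.SZ.Def7
import Pool.Agent.H493.SZ.UpL
import Pool.Agent.H493.SZ.Glo3
import Pool.Agent.H493.SZ.QG3
import Pool.Agent.H493.EN.AC

set_option autoImplicit false

/-! The exact entropy bound for arbitrary observables: preparations. -/

open Complex Filter Topology Set MeasureTheory ProbabilityTheory
open scoped BoundedContinuousFunction RealInnerProductSpace NNReal

namespace Pool.Agent.H493.SZ

open Pool.Agent.H493.EN

lemma Dn_zero (l m : ℝ) : Dn l m 0 = 1 := by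
  unfold Dn
  simp

lemma Dn_cont (l m : ℝ) : Continuous (Dn l m) := by
  unfold Dn
  exact (Real.continuous_cosh.comp (by fun_prop)).add ((Real.continuous_sinh.comp (by fun_prop)).const_mul m)

lemma exp_eq {l σ x : ℝ} (hσ : σ = 1 ∨ σ = -1) : Real.exp (l * (σ * x)) = Real.cosh (l * x) + σ * Real.sinh (l * x) := by
  rcases hσ with h | h
  · rw [h, one_mul, one_mul, Real.cosh_add_sinh]
  · rw [h]
    have : l * (-1 * x) = -(l * x) := by ring
    rw [this, neg_one_mul, ← sub_eq_add_neg, Real.cosh_sub_sinh]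

section

variable {Ω : Type} [MeasurableSpace Ω] {ν : Measure Ω} [IsProbabilityMeasure ν] {ξ : Ω → ℝ} {l m : ℝ}

lemma lD_abs (hLPG : S_LPG) (hl : 0 < l) (hm : |m| < 1) (x : ℝ) : |Real.log (Dn l m x)| ≤ l * |x| := by
  have := (hLPG l m hl hm).1 x 0
  rwa [Dn_zero, Real.log_one, sub_zero, sub_zero] at this

lemma lD_cont (hLPG : S_LPG) (hl : 0 < l) (hm : |m| < 1) : Continuous fun x => Real.log (Dn l m x) :=
  (Dn_cont l m).log fun x => ((hLPG l m hl hm).2.2.2.1 x).ne'

lemma lD_int (hLPG : S_LPG) (hl : 0 < l) (hm : |m| < 1) (hξ : Integrable ξ ν) : Integrable (fun x => Real.log (Dn l m (ξ x))) ν := by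
  refine (hξ.abs.const_mul l).mono' ((lD_cont hLPG hl hm).comp_aestronglyMeasurable hξ.aestronglyMeasurable)
    (Filter.Eventually.of_forall fun x => ?_)
  rw [Real.norm_eq_abs]
  exact lD_abs hLPG hl hm _

lemma frac_le (hLPG : S_LPG) (hl : 0 < l) (hm : |m| < 1) {u x : ℝ} (h : |u| ≤ Real.exp |l * x|) :
    |u / Dn l m x| ≤ 2 / (1 - |m|) := by
  have h1 := (hLPG l m hl hm).2.2.2.1 x
  have h2 := (hLPG l m hl hm).2.2.2.2 x
  rw [abs_div, abs_of_pos h1, div_le_iff₀ h1]
  exact h.trans h2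

lemma frac_int (hLPG : S_LPG) (hl : 0 < l) (hm : |m| < 1) (hξ : AEStronglyMeasurable ξ ν) {u : ℝ → ℝ} (hu : Continuous u)
    (h : ∀ x, |u x| ≤ Real.exp |l * x|) : Integrable (fun x => u (ξ x) / Dn l m (ξ x)) ν := by
  have hc : Continuous fun x => u x / Dn l m x := hu.div (Dn_cont l m) fun x => ((hLPG l m hl hm).2.2.2.1 x).ne'
  refine (integrable_const (2 / (1 - |m|))).mono' (hc.comp_aestronglyMeasurable hξ) (Filter.Eventually.of_forall fun x => ?_)
  rw [Real.norm_eq_abs]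
  exact frac_le hLPG hl hm (h _)

lemma sinh_le (x : ℝ) : |Real.sinh x| ≤ Real.exp |x| := by
  rw [Real.abs_sinh, Real.sinh_eq]
  have h1 := Real.exp_pos |x|
  have h2 := Real.exp_pos (-|x|)
  linarith

lemma cosh_le (x : ℝ) : |Real.cosh x| ≤ Real.exp |x| := by
  rw [abs_of_pos (Real.cosh_pos _), ← Real.cosh_abs, Real.cosh_eq]
  have h1 : Real.exp (-|x|) ≤ Real.exp |x| := Real.exp_le_exp.2 (by linarith [abs_nonneg x])
  linarith

lemma bal_cosh (hLPG : S_LPG) (hl : 0 < l) (hm : |m| < 1) (hξ : AEStronglyMeasurable ξ ν)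
    (hbal : ∫ x, Real.sinh (l * ξ x) / Dn l m (ξ x) ∂ν = 0) : ∫ x, Real.cosh (l * ξ x) / Dn l m (ξ x) ∂ν = 1 := by
  have i1 := frac_int hLPG hl hm hξ (u := fun x => Real.sinh (l * x)) (Real.continuous_sinh.comp (by fun_prop)) (fun x => sinh_le _)
  have h1 : ∀ x, Real.cosh (l * ξ x) / Dn l m (ξ x) = 1 - m * (Real.sinh (l * ξ x) / Dn l m (ξ x)) := by
    intro x
    have h2 := (hLPG l m hl hm).2.2.2.1 (ξ x)
    rw [eq_sub_iff_add_eq, ← mul_div_assoc, ← add_div, div_eq_one_iff_eq h2.ne']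
    rfl
  simp_rw [h1]
  rw [integral_sub (integrable_const _) (i1.const_mul m), integral_const_mul, hbal]
  simp

lemma bal_exp (hLPG : S_LPG) (hl : 0 < l) (hm : |m| < 1) (hξ : AEStronglyMeasurable ξ ν)
    (hbal : ∫ x, Real.sinh (l * ξ x) / Dn l m (ξ x) ∂ν = 0) {σ : ℝ} (hσ : σ = 1 ∨ σ = -1) :
    ∫ x, Real.exp (l * (σ * ξ x)) / Dn l m (ξ x) ∂ν = 1 := by
  have i1 := frac_int hLPG hl hm hξ (u := fun x => Real.sinh (l * x)) (Real.continuous_sinh.comp (by fun_prop)) (fun x => sinh_le _)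
  have i2 := frac_int hLPG hl hm hξ (u := fun x => Real.cosh (l * x)) (Real.continuous_cosh.comp (by fun_prop)) (fun x => cosh_le _)
  have h1 : ∀ x, Real.exp (l * (σ * ξ x)) / Dn l m (ξ x) = Real.cosh (l * ξ x) / Dn l m (ξ x) +
      σ * (Real.sinh (l * ξ x) / Dn l m (ξ x)) := by
    intro x
    rw [exp_eq hσ, add_div, mul_div_assoc]
  simp_rw [h1]
  rw [integral_add i2 (i1.const_mul σ), integral_const_mul, hbal, bal_cosh hLPG hl hm hξ hbal]
  simp

lemma bal_nonneg (hLPG : S_LPG) (hl : 0 < l) (hm : |m| < 1) (hξ : Integrable ξ ν)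
    (hbal : ∫ x, Real.sinh (l * ξ x) / Dn l m (ξ x) ∂ν = 0) : 0 ≤ ∫ x, Real.log (Dn l m (ξ x)) ∂ν := by
  have i1 := lD_int hLPG hl hm hξ
  have i2 := frac_int hLPG hl hm hξ.aestronglyMeasurable (u := fun x => Real.cosh (l * x)) (Real.continuous_cosh.comp (by fun_prop))
    (fun x => cosh_le _)
  have h1 : ∀ x, -(Real.cosh (l * ξ x) / Dn l m (ξ x) - 1) ≤ Real.log (Dn l m (ξ x)) := by
    intro x
    have h2 := (hLPG l m hl hm).2.2.2.1 (ξ x)
    have h3 := Real.cosh_pos (l * ξ x)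
    have h4 := Real.log_le_sub_one_of_pos (div_pos h3 h2)
    rw [Real.log_div h3.ne' h2.ne'] at h4
    have h5 := Real.log_nonneg (Real.one_le_cosh (l * ξ x))
    linarith
  have i3 : Integrable (fun x => -(Real.cosh (l * ξ x) / Dn l m (ξ x) - 1)) ν := (i2.sub (integrable_const 1)).neg
  have h2 := integral_mono i3 i1 h1
  refine le_trans (le_of_eq ?_) h2
  have h3 : ∫ x, -(Real.cosh (l * ξ x) / Dn l m (ξ x) - 1) ∂ν = -((∫ x, Real.cosh (l * ξ x) / Dn l m (ξ x) ∂ν) - 1) := by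
    rw [integral_neg, integral_sub i2 (integrable_const 1)]
    simp
  rw [h3, bal_cosh hLPG hl hm hξ.aestronglyMeasurable hbal]
  simp

end

lemma C₀_pos {m : ℝ} (hm : |m| < 1) : 0 < 2 / (1 - |m|) := by
  have : 0 < 1 - |m| := by linarith
  positivity

/-- the mean of the tilted exponentials -/
lemma tilt_meanG (hPIG : S_PIG) (hLPG : S_LPG) {k : ℕ} {Λ : ℝ} {S₁ : Matrix (Fin k) (Fin k) ℝ}
    {X : ℝ → ℝ → ℝ → EuclideanSpace ℝ (Fin k)} {h : ℝ → ℝ} (hG : Gs k Λ S₁ (SM S₁)) (hO : Obs k S₁ (SM S₁) X h)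
    {g : EuclideanSpace ℝ (Fin k) → ℝ} (hg : Continuous g) (M : ℕ) {l m b : ℝ} (hl : 0 < l) (hm : |m| < 1) (hb0 : 0 < b)
    (hb : ∀ σ : ℝ, (σ = 1 ∨ σ = -1) → ∫ x, Real.exp (l * (σ * (g x - ∫ y, g y ∂(multivariateGaussian 0 S₁)))) /
      Dn l m (g x - ∫ y, g y ∂(multivariateGaussian 0 S₁)) ∂(multivariateGaussian 0 S₁) ≤ b) :
    ∀ᶠ T : ℝ in atTop, ∀ σ : Fin M → ℝ, (∀ i, σ i = 1 ∨ σ i = -1) →
      ∫ t in T..(2 * T), ∏ i : Fin M, (Real.exp (l * (σ i * Yg X S₁ g (h T) T (t + (i : ℕ) * h T))) /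
        Dn l m (Yg X S₁ g (h T) T (t + (i : ℕ) * h T))) ≤ 2 * b ^ M * T := by
  classical
  set γ := multivariateGaussian 0 S₁ with hγ
  set c : ℝ := ∫ y, g y ∂γ with hc
  have hD := (hLPG l m hl hm).2.2.2.1
  -- enough: finitely many sign vectors
  have key : ∀ r : Fin M → Bool, ∀ᶠ T : ℝ in atTop,
      ∫ t in T..(2 * T), ∏ i : Fin M, (Real.exp (l * (sgb (r i) * Yg X S₁ g (h T) T (t + (i : ℕ) * h T))) /
        Dn l m (Yg X S₁ g (h T) T (t + (i : ℕ) * h T))) ≤ 2 * b ^ M * T := by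
    intro r
    have hs : ∀ i, sgb (r i) = 1 ∨ sgb (r i) = -1 := fun i => by
      unfold sgb
      by_cases hb : r i <;> simp [hb]
    have hs1 : ∀ i, |sgb (r i)| = 1 := fun i => by rcases hs i with h | h <;> simp [h]
    have hF : ∀ i, Continuous fun x : EuclideanSpace ℝ (Fin k) => Real.exp (l * (sgb (r i) * (g x - c))) / Dn l m (g x - c) :=
      fun i => Continuous.div (by fun_prop) ((Dn_cont l m).comp (by fun_prop)) fun x => (hD _).ne'
    have hFb : ∀ i x, 0 ≤ Real.exp (l * (sgb (r i) * (g x - c))) / Dn l m (g x - c) ∧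
        Real.exp (l * (sgb (r i) * (g x - c))) / Dn l m (g x - c) ≤ 2 / (1 - |m|) := by
      intro i x
      have h1 : 0 ≤ Real.exp (l * (sgb (r i) * (g x - c))) / Dn l m (g x - c) := div_nonneg (Real.exp_pos _).le (hD _).le
      refine ⟨h1, (le_abs_self _).trans (frac_le hLPG hl hm ?_)⟩
      rw [abs_of_pos (Real.exp_pos _)]
      refine Real.exp_le_exp.2 ((le_abs_self _).trans (le_of_eq ?_))
      rw [abs_mul, abs_mul, hs1, one_mul, abs_mul]
    have hcont : Continuous fun x : EuclideanSpace ℝ (Fin (k * M)) =>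
        ∏ i : Fin M, (Real.exp (l * (sgb (r i) * (g (blk i x) - c))) / Dn l m (g (blk i x) - c)) :=
      continuous_finsetProd _ fun i _ => (hF i).comp (blk_cont i)
    let Φ : EuclideanSpace ℝ (Fin (k * M)) →ᵇ ℝ := BoundedContinuousFunction.ofNormedAddCommGroup _ hcont ((2 / (1 - |m|)) ^ M)
      (fun x => by
        rw [Real.norm_eq_abs, abs_of_nonneg (Finset.prod_nonneg fun i _ => (hFb i _).1)]
        refine (Finset.prod_le_prod (fun i _ => (hFb i _).1) fun i _ => (hFb i _).2).trans (le_of_eq ?_)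
        rw [Finset.prod_const, Finset.card_univ, Fintype.card_fin])
    have hlim := hO.weak M Φ
    have h1 : ∫ x, Φ x ∂(multivariateGaussian 0 (SM S₁ M)) ≤ b ^ M := by
      rw [← hPIG k M S₁ hG.psd1 (hG.psd M), integral_map ?_ Φ.continuous.aestronglyMeasurable]
      · have e1 : ∀ x : Fin M → EuclideanSpace ℝ (Fin k), Φ (WithLp.toLp 2 fun a : Fin (k * M) =>
            x (finProdFinEquiv.symm a).2 (finProdFinEquiv.symm a).1) =
            ∏ i : Fin M, (fun y : EuclideanSpace ℝ (Fin k) => Real.exp (l * (sgb (r i) * (g y - c))) / Dn l m (g y - c)) (x i) := by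
          intro x
          change ∏ i : Fin M, (Real.exp (l * (sgb (r i) * (g (blk i (vecB x)) - c))) / Dn l m (g (blk i (vecB x)) - c)) = _
          refine Finset.prod_congr rfl fun i _ => ?_
          rw [blk_vecB]
        simp_rw [e1]
        rw [integral_fintype_prod_eq_prod (fun i : Fin M => fun y : EuclideanSpace ℝ (Fin k) =>
          Real.exp (l * (sgb (r i) * (g y - c))) / Dn l m (g y - c))]
        calc _ ≤ ∏ _i : Fin M, b := Finset.prod_le_prod (fun i _ => integral_nonneg fun x => (hFb i x).1) fun i _ => hb _ (hs i)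
          _ = b ^ M := by simp
      · exact (vecB_cont (k := k) (M := M)).aemeasurable
    have h2 : ∫ x, Φ x ∂(multivariateGaussian 0 (SM S₁ M)) < 2 * b ^ M := by
      have : 0 < b ^ M := pow_pos hb0 M
      linarith
    filter_upwards [hlim.eventually (gt_mem_nhds h2), eventually_gt_atTop (0 : ℝ)] with T h3 h4
    rw [one_div, inv_mul_eq_div, div_lt_iff₀ h4] at h3
    refine le_trans (le_of_eq ?_) h3.le
    refine intervalIntegral.integral_congr fun t _ => ?_
    change _ = ∏ i : Fin M, (Real.exp (l * (sgb (r i) * (g (blk i (vecB fun j : Fin M => X (h T) T (t + (j : ℕ) * h T))) - c))) /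
      Dn l m (g (blk i (vecB fun j : Fin M => X (h T) T (t + (j : ℕ) * h T))) - c))
    refine Finset.prod_congr rfl fun i _ => ?_
    rw [blk_vecB]
    rfl
  filter_upwards [eventually_all.2 key] with T hT σ hσ
  have h1 : ∀ i, sgb (decide (σ i = 1)) = σ i := by
    intro i
    unfold sgb
    rcases hσ i with h | h
    · simp [h]
    · rw [h]
      norm_num
  have h2 := hT fun i => decide (σ i = 1)
  simp only [h1] at h2
  exact h2

end Pool.Agent.H493.SZ
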