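import Pool.Agent.H493.SZ.Def

/-!
# Project SZ, job ZNEAR: zeta near `s = 1`
-/

set_option autoImplicit false

open Complex Filter Topology Set MeasureTheory

namespace Pool.Agent.H493.SZ

namespace ZNEARL

/-- `(s - 1) ζ(s)`, with the value `1` at `s = 1` -/
noncomputable def g : ℂ → ℂ := Function.update (fun s : ℂ => (s - 1) * riemannZeta s) 1 1

theorem g_of_ne {s : ℂ} (hs : s ≠ 1) : g s = (s - 1) * riemannZeta s :=
  Function.update_of_ne hs _ _

theorem g_cont : Continuous g := by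
  rw [continuous_iff_continuousAt]
  intro s
  by_cases hs : s = 1
  · rw [hs]
    exact continuousAt_update_same.2 riemannZeta_residue_one
  · refine (continuousAt_update_of_ne hs).2 ?_
    exact (continuousAt_id.sub continuousAt_const).mul (differentiableAt_riemannZeta hs).continuousAt

theorem g_ne {s : ℂ} (hs : 1 ≤ s.re) : g s ≠ 0 := by
  by_cases h : s = 1
  · rw [h]
    unfold g
    rw [Function.update_self]
    exact one_ne_zero
  · rw [g_of_ne h]
    exact mul_ne_zero (sub_ne_zero.2 h) (riemannZeta_ne_zero_of_one_le_re hs)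

theorem bound : ∃ C : ℝ, 0 ≤ C ∧ ∀ s : ℂ, 1 ≤ s.re → s.re ≤ 2 → |s.im| ≤ 1 →
    |Real.log ‖g s‖| ≤ C := by
  have hK : IsCompact (Icc (1 : ℝ) 2 ×ℂ Icc (-1 : ℝ) 1) := isCompact_Icc.reProdIm isCompact_Icc
  have hc : ContinuousOn (fun s => Real.log ‖g s‖) (Icc (1 : ℝ) 2 ×ℂ Icc (-1 : ℝ) 1) := by
    refine ContinuousOn.log g_cont.norm.continuousOn fun s hs => ?_
    rw [Complex.mem_reProdIm] at hs
    exact norm_ne_zero_iff.2 (g_ne hs.1.1)
  obtain ⟨C, hC⟩ := hK.exists_bound_of_continuousOn hc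
  refine ⟨|C|, abs_nonneg C, fun s h1 h2 h3 => ?_⟩
  have h4 := hC s (by
    rw [Complex.mem_reProdIm]
    exact ⟨⟨h1, h2⟩, abs_le.1 h3⟩)
  rw [Real.norm_eq_abs] at h4
  exact h4.trans (le_abs_self C)

end ZNEARL

open ZNEARL in
theorem t_ZNEAR : S_ZNEAR := by
  obtain ⟨C, hC0, hC⟩ := bound
  refine ⟨C + Real.log 2, add_nonneg hC0 (Real.log_nonneg one_le_two), fun ε u hε hε1 hu => ?_⟩
  obtain ⟨s, hs⟩ : ∃ s : ℂ, s = 1 + ε + u * I := ⟨_, rfl⟩
  rw [← hs]
  have hre : s.re = 1 + ε := by rw [hs]; simp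
  have him : s.im = u := by rw [hs]; simp
  have hne : s ≠ 1 := by
    intro h
    rw [h, one_re] at hre
    linarith
  have h1 := hC s (by rw [hre]; linarith) (by rw [hre]; linarith) (by rw [him]; exact hu)
  have hs1 : s - 1 ≠ 0 := sub_ne_zero.2 hne
  have hz : riemannZeta s ≠ 0 := riemannZeta_ne_zero_of_one_le_re (by rw [hre]; linarith)
  rw [g_of_ne hne, norm_mul, Real.log_mul (norm_ne_zero_iff.2 hs1) (norm_ne_zero_iff.2 hz)] at h1
  have hre1 : (s - 1).re = ε := by rw [sub_re, hre, one_re]; ring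
  have him1 : (s - 1).im = u := by rw [sub_im, him, one_im, sub_zero]
  have hn0 : 0 < ‖s - 1‖ := norm_pos_iff.2 hs1
  have hup : ‖s - 1‖ ≤ |u| + ε := by
    have := Complex.norm_le_abs_re_add_abs_im (s - 1)
    rw [hre1, him1, abs_of_pos hε] at this
    linarith
  have hlo : |u| + ε ≤ 2 * ‖s - 1‖ := by
    have a1 := Complex.abs_re_le_norm (s - 1)
    have a2 := Complex.abs_im_le_norm (s - 1)
    rw [hre1, abs_of_pos hε] at a1
    rw [him1] at a2
    linarith
  have l1 := Real.log_le_log hn0 hup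
  have l2 := Real.log_le_log (by positivity : 0 < |u| + ε) hlo
  rw [Real.log_mul two_ne_zero hn0.ne'] at l2
  rw [abs_le] at h1 ⊢
  constructor
  · linarith [h1.1]
  · linarith [h1.2]

end Pool.Agent.H493.SZ
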